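import Mathlib

set_option autoImplicit false

/-! A doubling Bernoulli weight on triadic intervals and its distribution function. -/

namespace Pool.Agent.H813Z.Carpet

noncomputable def qa : ℝ := 1 / 729
noncomputable def qb : ℝ := 727 / 729

/-- weight of the triadic digit -/
noncomputable def q (i : ℤ) : ℝ := if i = 1 then qb else qa

/-- cumulative weight of the smaller digits -/
noncomputable def Q (i : ℤ) : ℝ := if i = 0 then 0 else if i = 1 then qa else qa + qb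

noncomputable def w : ℕ → ℤ → ℝ
  | 0, _ => 1
  | k + 1, j => q (j % 3) * w k (j / 3)

noncomputable def G : ℕ → ℤ → ℝ
  | 0, j => j
  | k + 1, j => G k (j / 3) + Q (j % 3) * w k (j / 3)

lemma qa_pos : 0 < qa := by unfold qa; norm_num
lemma qb_pos : 0 < qb := by unfold qb; norm_num
lemma qb_lt_one : qb < 1 := by unfold qb; norm_num

lemma qa_le_q (i : ℤ) : qa ≤ q i := by
  unfold q qa qb; split_ifs <;> norm_num

lemma q_le_qb (i : ℤ) : q i ≤ qb := by
  unfold q qa qb; split_ifs <;> norm_num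

lemma q_pos (i : ℤ) : 0 < q i := lt_of_lt_of_le qa_pos (qa_le_q i)

lemma w_pos (k : ℕ) (j : ℤ) : 0 < w k j := by
  induction k generalizing j with
  | zero => simp [w]
  | succ k ih => simp only [w]; exact mul_pos (q_pos _) (ih _)

lemma G_succ (k : ℕ) (j : ℤ) : G k (j + 1) = G k j + w k j := by
  induction k generalizing j with
  | zero => simp [G, w]
  | succ k ih =>
    have h3 : j % 3 = 0 ∨ j % 3 = 1 ∨ j % 3 = 2 := by omega
    rcases h3 with h | h | h
    · have h1 : (j + 1) / 3 = j / 3 := by omega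
      have h2 : (j + 1) % 3 = 1 := by omega
      simp only [G, w, h1, h2, h, Q, q]; norm_num
    · have h1 : (j + 1) / 3 = j / 3 := by omega
      have h2 : (j + 1) % 3 = 2 := by omega
      simp only [G, w, h1, h2, h, Q, q]; norm_num; ring
    · have h1 : (j + 1) / 3 = j / 3 + 1 := by omega
      have h2 : (j + 1) % 3 = 0 := by omega
      simp only [G, w, h1, h2, h, Q, q, ih]; norm_num
      unfold qa qb; ring

lemma G_mono (k : ℕ) : Monotone (G k) :=
  monotone_int_of_le_succ fun j => by rw [G_succ]; linarith [w_pos k j]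

lemma G_three (k : ℕ) (j : ℤ) : G (k + 1) (3 * j) = G k j := by
  have h1 : (3 * j) / 3 = j := by omega
  have h2 : (3 * j) % 3 = 0 := by omega
  simp [G, h1, h2, Q]

lemma G_pow (k i : ℕ) (j : ℤ) : G (k + i) (3 ^ i * j) = G k j := by
  induction i with
  | zero => simp
  | succ i ih =>
    rw [← add_assoc, pow_succ', mul_assoc, G_three, ih]

lemma w_adj (k : ℕ) (j : ℤ) : w k (j + 1) ≤ 729 * w k j ∧ w k j ≤ 729 * w k (j + 1) := by
  induction k generalizing j with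
  | zero => simp [w]
  | succ k ih =>
    have h3 : j % 3 = 0 ∨ j % 3 = 1 ∨ j % 3 = 2 := by omega
    have hp := w_pos k (j / 3)
    rcases h3 with h | h | h
    · have h1 : (j + 1) / 3 = j / 3 := by omega
      have h2 : (j + 1) % 3 = 1 := by omega
      simp only [w, h1, h2, h, q]; norm_num
      unfold qa qb; constructor <;> nlinarith
    · have h1 : (j + 1) / 3 = j / 3 := by omega
      have h2 : (j + 1) % 3 = 2 := by omega
      simp only [w, h1, h2, h, q]; norm_num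
      unfold qa qb; constructor <;> nlinarith
    · have h1 : (j + 1) / 3 = j / 3 + 1 := by omega
      have h2 : (j + 1) % 3 = 0 := by omega
      simp only [w, h1, h2, h, q]; norm_num
      have := ih (j / 3)
      have ha := qa_pos
      constructor <;> nlinarith [this.1, this.2]

/-- the distribution function -/
noncomputable def g (v : ℝ) : ℝ := ⨆ k : ℕ, G k ⌊(3 : ℝ) ^ k * v⌋

lemma G_floor_le {k : ℕ} {j : ℤ} {v : ℝ} (h : (3 : ℝ) ^ k * v ≤ j) (k' : ℕ) :
    G k' ⌊(3 : ℝ) ^ k' * v⌋ ≤ G k j := by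
  rw [← G_pow k' k, ← G_pow k k', add_comm k k']
  apply G_mono
  have h1 : ((⌊(3 : ℝ) ^ k' * v⌋ : ℤ) : ℝ) ≤ (3 : ℝ) ^ k' * v := Int.floor_le _
  have h2 : (3 : ℝ) ^ k * ((⌊(3 : ℝ) ^ k' * v⌋ : ℤ) : ℝ) ≤ (3 : ℝ) ^ k' * j := by
    calc (3 : ℝ) ^ k * ((⌊(3 : ℝ) ^ k' * v⌋ : ℤ) : ℝ) ≤ 3 ^ k * (3 ^ k' * v) := by gcongr
      _ = 3 ^ k' * (3 ^ k * v) := by ring
      _ ≤ _ := by gcongr
  exact_mod_cast h2

lemma g_le {k : ℕ} {j : ℤ} {v : ℝ} (h : (3 : ℝ) ^ k * v ≤ j) : g v ≤ G k j :=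
  ciSup_le fun k' => G_floor_le h k'

lemma le_g {k : ℕ} {j : ℤ} {v : ℝ} (h : (j : ℝ) ≤ (3 : ℝ) ^ k * v) : G k j ≤ g v := by
  have hb : BddAbove (Set.range fun k : ℕ => G k ⌊(3 : ℝ) ^ k * v⌋) := by
    refine ⟨G 0 ⌈v⌉, ?_⟩
    rintro _ ⟨k', rfl⟩
    exact G_floor_le (by simpa using Int.le_ceil v) k'
  exact le_trans (G_mono k (Int.le_floor.mpr h)) (le_ciSup hb k)

lemma g_mono : Monotone g := by
  intro v v' h
  refine ciSup_le fun k => le_g ?_
  calc ((⌊(3 : ℝ) ^ k * v⌋ : ℤ) : ℝ) ≤ 3 ^ k * v := Int.floor_le _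
    _ ≤ _ := by gcongr

/-- weight of the triadic interval of level `k` containing `v` -/
noncomputable def W (k : ℕ) (v : ℝ) : ℝ := w k ⌊(3 : ℝ) ^ k * v⌋

lemma W_pos (k : ℕ) (v : ℝ) : 0 < W k v := w_pos _ _

lemma W_zero (v : ℝ) : W 0 v = 1 := by simp [W, w]

lemma W_succ (k : ℕ) (v : ℝ) : W (k + 1) v = q (⌊(3 : ℝ) ^ (k + 1) * v⌋ % 3) * W k v := by
  have h : ⌊(3 : ℝ) ^ (k + 1) * v⌋ / 3 = ⌊(3 : ℝ) ^ k * v⌋ := by
    have := Int.floor_div_natCast ((3 : ℝ) ^ (k + 1) * v) 3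
    rw [show ((3 : ℝ) ^ (k + 1) * v / ((3 : ℕ) : ℝ)) = 3 ^ k * v by push_cast; ring] at this
    rw [this]; rfl
  simp only [W, w, h]

lemma W_add_le (k i : ℕ) (v : ℝ) : W (k + i) v ≤ qb ^ i * W k v := by
  induction i with
  | zero => simp
  | succ i ih =>
    rw [← add_assoc, W_succ, pow_succ' qb, mul_assoc qb]
    exact mul_le_mul (q_le_qb _) ih (W_pos _ _).le qb_pos.le

lemma le_W_add (k i : ℕ) (v : ℝ) : W k v ≤ 729 ^ i * W (k + i) v := by
  induction i with
  | zero => simp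
  | succ i ih =>
    rw [← add_assoc, W_succ, pow_succ (729 : ℝ)]
    have h1 := qa_le_q (⌊(3 : ℝ) ^ (k + i + 1) * v⌋ % 3)
    have h2 := W_pos (k + i) v
    unfold qa at h1
    have h3 : W (k + i) v ≤ 729 * (q (⌊(3 : ℝ) ^ (k + i + 1) * v⌋ % 3) * W (k + i) v) := by
      nlinarith
    calc W k v ≤ 729 ^ i * W (k + i) v := ih
      _ ≤ 729 ^ i * (729 * (q (⌊(3 : ℝ) ^ (k + i + 1) * v⌋ % 3) * W (k + i) v)) := by gcongr
      _ = _ := by ring

lemma g_upper {k : ℕ} {a v b : ℝ} (ha : a ≤ v) (hb : v ≤ b) (h : (3 : ℝ) ^ k * (b - a) ≤ 1) :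
    g b - g a ≤ 1459 * W k v := by
  set j := ⌊(3 : ℝ) ^ k * v⌋ with hj
  have h1 : (j : ℝ) ≤ 3 ^ k * v := Int.floor_le _
  have h2 : 3 ^ k * v < (j : ℝ) + 1 := Int.lt_floor_add_one _
  have hp : (0 : ℝ) < 3 ^ k := by positivity
  have h3 : g b ≤ G k (j + 1 + 1) := g_le (by push_cast; nlinarith)
  have h4 : G k (j - 1) ≤ g a := le_g (by push_cast; nlinarith)
  have h5 := G_succ k (j - 1)
  rw [sub_add_cancel] at h5
  have h6 := G_succ k j
  have h7 := G_succ k (j + 1)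
  have h8 := (w_adj k j).1
  have h9 := (w_adj k (j - 1)).2
  rw [sub_add_cancel] at h9
  unfold W; rw [← hj]; linarith

lemma g_lower {k : ℕ} {a v b : ℝ} (ha : a ≤ v) (hb : v ≤ b) (h : 4 ≤ (3 : ℝ) ^ k * (b - a)) :
    W k v ≤ 729 * (g b - g a) := by
  set j := ⌊(3 : ℝ) ^ k * v⌋ with hj
  have h1 : (j : ℝ) ≤ 3 ^ k * v := Int.floor_le _
  have h2 : 3 ^ k * v < (j : ℝ) + 1 := Int.lt_floor_add_one _
  have hp : (0 : ℝ) < 3 ^ k := by positivity
  unfold W; rw [← hj]
  rcases le_total 2 ((3 : ℝ) ^ k * (b - v)) with hc | hc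
  · have h3 : G k (j + 1 + 1) ≤ g b := le_g (by push_cast; nlinarith)
    have h4 : g a ≤ G k (j + 1) := g_le (by push_cast; nlinarith)
    have h7 := G_succ k (j + 1)
    have h8 := (w_adj k j).2
    linarith
  · have h3 : G k j ≤ g b := le_g (by nlinarith)
    have h4 : g a ≤ G k (j - 1) := g_le (by push_cast; nlinarith)
    have h5 := G_succ k (j - 1)
    rw [sub_add_cancel] at h5
    have h9 := (w_adj k (j - 1)).1
    rw [sub_add_cancel] at h9
    linarith

end Pool.Agent.H813Z.Carpet
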