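import Mathlib
import Pool.Agent.H813Z.CarpetW

set_option autoImplicit false

/-! The deformed distance on points whose first coordinate has even base-six digits. -/

namespace Pool.Agent.H813Z.Carpet

def Good (z : ℝ × ℝ) : Prop :=
  0 ≤ z.1 ∧ z.1 < 1 ∧ 0 ≤ z.2 ∧ z.2 ≤ 1 ∧ ∀ k : ℕ, Even ⌊(6 : ℝ) ^ k * z.1⌋

def Agree (l : ℕ) (u u' : ℝ) : Prop := ∀ j ≤ l, ⌊(6 : ℝ) ^ j * u⌋ = ⌊(6 : ℝ) ^ j * u'⌋

def S (z z' : ℝ × ℝ) : Set ℝ :=
  {r | ∃ (a b : ℝ) (l : ℕ), a ≤ z.2 ∧ a ≤ z'.2 ∧ z.2 ≤ b ∧ z'.2 ≤ b ∧ Agree l z.1 z'.1 ∧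
    1 ≤ (6 : ℝ) ^ l * (b - a) ∧ r = g b - g a}

noncomputable def dd (z z' : ℝ × ℝ) : ℝ := sInf (S z z')

lemma S_comm (z z' : ℝ × ℝ) : S z z' = S z' z := by
  ext r
  constructor <;>
  · rintro ⟨a, b, l, h1, h2, h3, h4, h5, h6, h7⟩
    exact ⟨a, b, l, h2, h1, h4, h3, fun j hj => (h5 j hj).symm, h6, h7⟩

lemma dd_comm (z z' : ℝ × ℝ) : dd z z' = dd z' z := by unfold dd; rw [S_comm]

lemma S_nonneg {z z' : ℝ × ℝ} {r : ℝ} (h : r ∈ S z z') : 0 ≤ r := by
  obtain ⟨a, b, l, h1, h2, h3, h4, h5, h6, rfl⟩ := h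
  exact sub_nonneg.mpr (g_mono (h1.trans h3))

lemma S_bdd (z z' : ℝ × ℝ) : BddBelow (S z z') := ⟨0, fun _ h => S_nonneg h⟩

lemma agree_zero {z z' : ℝ × ℝ} (hz : Good z) (hz' : Good z') : Agree 0 z.1 z'.1 := by
  intro j hj
  obtain rfl : j = 0 := by omega
  have h1 : ⌊z.1⌋ = 0 := Int.floor_eq_zero_iff.mpr ⟨hz.1, hz.2.1⟩
  have h2 : ⌊z'.1⌋ = 0 := Int.floor_eq_zero_iff.mpr ⟨hz'.1, hz'.2.1⟩
  simp [h1, h2]

lemma S_mem01 {z z' : ℝ × ℝ} (hz : Good z) (hz' : Good z') : g 1 - g 0 ∈ S z z' :=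
  ⟨0, 1, 0, hz.2.2.1, hz'.2.2.1, hz.2.2.2.1, hz'.2.2.2.1, agree_zero hz hz', by simp, rfl⟩

lemma dd_nonneg (z z' : ℝ × ℝ) : 0 ≤ dd z z' := Real.sInf_nonneg fun _ h => S_nonneg h

lemma dd_le {z z' : ℝ × ℝ} {r : ℝ} (h : r ∈ S z z') : dd z z' ≤ r := csInf_le (S_bdd _ _) h

lemma dd_le_one {z z' : ℝ × ℝ} (hz : Good z) (hz' : Good z') : dd z z' ≤ 1 := by
  refine (dd_le (S_mem01 hz hz')).trans ?_
  have h1 : g 1 ≤ G 0 1 := g_le (by simp)
  have h2 : G 0 0 ≤ g 0 := le_g (by simp)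
  simp only [G] at h1 h2
  push_cast at h1 h2
  linarith

lemma dd_triangle {x y z : ℝ × ℝ} (hx : Good x) (hy : Good y) (hz : Good z) :
    dd x z ≤ dd x y + dd y z := by
  have key : ∀ r ∈ S x y, ∀ r' ∈ S y z, dd x z ≤ r + r' := by
    rintro r ⟨a, b, l, h1, h2, h3, h4, h5, h6, rfl⟩ r' ⟨a', b', l', h1', h2', h3', h4', h5', h6', rfl⟩
    have hm : g (max b b') - g (min a a') ∈ S x z := by
      refine ⟨min a a', max b b', min l l', (min_le_left _ _).trans h1,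
        (min_le_right _ _).trans h2', h3.trans (le_max_left _ _), h4'.trans (le_max_right _ _),
        fun j hj => (h5 j (hj.trans (min_le_left _ _))).trans (h5' j (hj.trans (min_le_right _ _))),
        ?_, rfl⟩
      rcases le_total l l' with h | h
      · rw [min_eq_left h]
        refine h6.trans ?_
        gcongr
        · exact le_max_left _ _
        · exact min_le_left _ _
      · rw [min_eq_right h]
        refine h6'.trans ?_
        gcongr
        · exact le_max_right _ _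
        · exact min_le_right _ _
    refine (dd_le hm).trans ?_
    have e1 : g a ≤ g y.2 := g_mono h2
    have e2 : g y.2 ≤ g b := g_mono h4
    have e3 : g a' ≤ g y.2 := g_mono h1'
    have e4 : g y.2 ≤ g b' := g_mono h3'
    rcases le_total a a' with h | h <;> rcases le_total b b' with h' | h' <;>
      simp only [min_eq_left, min_eq_right, max_eq_left, max_eq_right, h, h'] <;> linarith
  have h1 : ∀ r' ∈ S y z, dd x z - r' ≤ dd x y := fun r' hr' =>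
    le_csInf ⟨_, S_mem01 hx hy⟩ fun r hr => by linarith [key r hr r' hr']
  have h2 : dd x z - dd x y ≤ dd y z :=
    le_csInf ⟨_, S_mem01 hy hz⟩ fun r' hr' => by linarith [h1 r' hr']
  linarith

lemma agree_of_close {z z' : ℝ × ℝ} (hz : Good z) (hz' : Good z') {l : ℕ}
    (h : (6 : ℝ) ^ l * |z.1 - z'.1| ≤ 1) : Agree l z.1 z'.1 := by
  intro j hj
  have h1 : (6 : ℝ) ^ j * |z.1 - z'.1| ≤ 1 := by
    refine le_trans ?_ h
    gcongr
    norm_num
  have h2 : |(6 : ℝ) ^ j * z.1 - 6 ^ j * z'.1| ≤ 1 := by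
    rw [← mul_sub, abs_mul, abs_of_pos (by positivity : (0 : ℝ) < 6 ^ j)]; exact h1
  obtain ⟨h3, h4⟩ := abs_le.mp h2
  obtain ⟨p, hp⟩ := hz.2.2.2.2 j
  obtain ⟨p', hp'⟩ := hz'.2.2.2.2 j
  have a1 := Int.floor_le ((6 : ℝ) ^ j * z.1)
  have a2 := Int.lt_floor_add_one ((6 : ℝ) ^ j * z.1)
  have a3 := Int.floor_le ((6 : ℝ) ^ j * z'.1)
  have a4 := Int.lt_floor_add_one ((6 : ℝ) ^ j * z'.1)
  have b1 : ((⌊(6 : ℝ) ^ j * z.1⌋ : ℤ) : ℝ) < ⌊(6 : ℝ) ^ j * z'.1⌋ + 2 := by linarith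
  have b2 : ((⌊(6 : ℝ) ^ j * z'.1⌋ : ℤ) : ℝ) < ⌊(6 : ℝ) ^ j * z.1⌋ + 2 := by linarith
  have c1 : ⌊(6 : ℝ) ^ j * z.1⌋ < ⌊(6 : ℝ) ^ j * z'.1⌋ + 2 := by exact_mod_cast b1
  have c2 : ⌊(6 : ℝ) ^ j * z'.1⌋ < ⌊(6 : ℝ) ^ j * z.1⌋ + 2 := by exact_mod_cast b2
  omega

lemma close_of_agree {u u' : ℝ} {l : ℕ} (h : Agree l u u') : (6 : ℝ) ^ l * |u - u'| ≤ 1 := by
  have h1 := h l le_rfl
  have a1 := Int.floor_le ((6 : ℝ) ^ l * u)
  have a2 := Int.lt_floor_add_one ((6 : ℝ) ^ l * u)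
  have a3 := Int.floor_le ((6 : ℝ) ^ l * u')
  have a4 := Int.lt_floor_add_one ((6 : ℝ) ^ l * u')
  rw [h1] at a1 a2
  have : |(6 : ℝ) ^ l * u - 6 ^ l * u'| ≤ 1 := abs_le.mpr ⟨by linarith, by linarith⟩
  rwa [← mul_sub, abs_mul, abs_of_pos (by positivity : (0 : ℝ) < 6 ^ l)] at this

lemma dd_upper0 {z z' : ℝ × ℝ} (hz : Good z) (hz' : Good z') {k : ℕ}
    (h : 6 * (3 : ℝ) ^ k * dist z z' ≤ 1) : dd z z' ≤ 1459 * W k z.2 := by
  have hd1 : |z.1 - z'.1| ≤ dist z z' := by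
    rw [Prod.dist_eq, ← Real.dist_eq]; exact le_max_left _ _
  have hd2 : |z.2 - z'.2| ≤ dist z z' := by
    rw [Prod.dist_eq, ← Real.dist_eq]; exact le_max_right _ _
  have hp : (0 : ℝ) < 3 ^ k := by positivity
  have hex : ∃ l : ℕ, (3 : ℝ) ^ k ≤ 6 ^ l := ⟨k, by gcongr; norm_num⟩
  classical
  have hl := Nat.find_spec hex
  have hag : Agree (Nat.find hex) z.1 z'.1 := by
    rcases Nat.eq_zero_or_pos (Nat.find hex) with h0 | h0
    · rw [h0]; exact agree_zero hz hz'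
    · apply agree_of_close hz hz'
      obtain ⟨m, hm⟩ : ∃ m, Nat.find hex = m + 1 := ⟨_, (Nat.succ_pred_eq_of_pos h0).symm⟩
      have h1 := Nat.find_min hex (show m < Nat.find hex by omega)
      rw [not_le] at h1
      rw [hm, pow_succ]
      have := abs_nonneg (z.1 - z'.1)
      calc (6 : ℝ) ^ m * 6 * |z.1 - z'.1| ≤ 3 ^ k * 6 * dist z z' := by gcongr
        _ ≤ 1 := by linarith
  have h3 : (3 : ℝ) ^ k * |z.2 - z'.2| ≤ 1 := by
    have := dist_nonneg (x := z) (y := z')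
    nlinarith
  have h4 : |z.2 - z'.2| ≤ ((3 : ℝ) ^ k)⁻¹ := by
    rw [← one_div, le_div_iff₀ hp]; linarith
  obtain ⟨h5, h6⟩ := abs_le.mp h4
  have hi : (0 : ℝ) < ((3 : ℝ) ^ k)⁻¹ := by positivity
  have hb1 : z.2 ≤ min z.2 z'.2 + ((3 : ℝ) ^ k)⁻¹ := by
    rcases le_total z.2 z'.2 with h' | h'
    · rw [min_eq_left h']; linarith
    · rw [min_eq_right h']; linarith
  have hb2 : z'.2 ≤ min z.2 z'.2 + ((3 : ℝ) ^ k)⁻¹ := by
    rcases le_total z.2 z'.2 with h' | h'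
    · rw [min_eq_left h']; linarith
    · rw [min_eq_right h']; linarith
  have hm : g (min z.2 z'.2 + ((3 : ℝ) ^ k)⁻¹) - g (min z.2 z'.2) ∈ S z z' := by
    refine ⟨_, _, Nat.find hex, min_le_left _ _, min_le_right _ _, hb1, hb2, hag, ?_, rfl⟩
    rw [add_sub_cancel_left, ← div_eq_mul_inv, le_div_iff₀ hp]; linarith
  refine (dd_le hm).trans (g_upper (min_le_left _ _) hb1 ?_)
  rw [add_sub_cancel_left, mul_inv_cancel₀ hp.ne']

lemma dd_upper {z z' : ℝ × ℝ} (hz : Good z) (hz' : Good z') {k : ℕ}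
    (h : (3 : ℝ) ^ k * dist z z' ≤ 1) : dd z z' ≤ 1459 * 729 ^ 2 * W k z.2 := by
  have hW := W_pos k z.2
  rcases lt_or_ge k 2 with hk | hk
  · have h1 := le_W_add 0 k z.2
    rw [W_zero, zero_add] at h1
    have h2 : (729 : ℝ) ^ k ≤ 729 ^ 2 := pow_le_pow_right₀ (by norm_num) hk.le
    have h3 := dd_le_one hz hz'
    nlinarith
  · obtain ⟨m, rfl⟩ : ∃ m, k = m + 2 := ⟨k - 2, by omega⟩
    have h1 := dd_upper0 hz hz' (k := m) (by
      have := dist_nonneg (x := z) (y := z')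
      have hp : (0 : ℝ) < 3 ^ m := by positivity
      rw [pow_add] at h
      nlinarith [mul_nonneg hp.le this])
    have h2 := le_W_add m 2 z.2
    nlinarith

lemma dd_lower {z z' : ℝ × ℝ} (hz : Good z) (hz' : Good z') {k : ℕ}
    (h : 1 ≤ (3 : ℝ) ^ k * dist z z') : W k z.2 ≤ 729 ^ 3 * dd z z' := by
  have h2 := le_W_add k 2 z.2
  have key : ∀ r ∈ S z z', W (k + 2) z.2 / 729 ≤ r := by
    rintro r ⟨a, b, l, h1, h2, h3, h4, h5, h6, rfl⟩
    have hd : dist z z' ≤ b - a := by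
      rw [Prod.dist_eq, Real.dist_eq, Real.dist_eq]
      refine max_le ?_ (abs_le.mpr ⟨by linarith, by linarith⟩)
      have h7 := close_of_agree h5
      have hp : (0 : ℝ) < 6 ^ l := by positivity
      exact le_of_mul_le_mul_left (h7.trans h6) hp
    have hp : (0 : ℝ) < 3 ^ k := by positivity
    have h8 : 4 ≤ (3 : ℝ) ^ (k + 2) * (b - a) := by
      rw [pow_add]
      have : (3 : ℝ) ^ k * dist z z' ≤ 3 ^ k * (b - a) := by gcongr
      nlinarith
    have := g_lower h1 h3 h8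
    linarith
  have h3 : W (k + 2) z.2 / 729 ≤ dd z z' := le_csInf ⟨_, S_mem01 hz hz'⟩ key
  nlinarith

lemma W_le (k : ℕ) (v : ℝ) : W k v ≤ qb ^ k := by
  have := W_add_le 0 k v
  rwa [W_zero, zero_add, mul_one] at this

lemma dd_self {z : ℝ × ℝ} (hz : Good z) : dd z z = 0 := by
  refine le_antisymm ?_ (dd_nonneg _ _)
  have h1 : ∀ k : ℕ, dd z z ≤ 1459 * 729 ^ 2 * qb ^ k := fun k =>
    (dd_upper hz hz (k := k) (by simp)).trans (by have := W_le k z.2; gcongr)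
  have h2 : Filter.Tendsto (fun k : ℕ => 1459 * 729 ^ 2 * qb ^ k) Filter.atTop
      (nhds (1459 * 729 ^ 2 * 0)) :=
    (tendsto_pow_atTop_nhds_zero_of_lt_one qb_pos.le qb_lt_one).const_mul _
  rw [mul_zero] at h2
  exact ge_of_tendsto' h2 h1

lemma eq_of_dd {z z' : ℝ × ℝ} (hz : Good z) (hz' : Good z') (h : dd z z' = 0) : z = z' := by
  by_contra hne
  have hd : 0 < dist z z' := dist_pos.mpr hne
  obtain ⟨k, hk⟩ := pow_unbounded_of_one_lt (1 / dist z z') (show (1 : ℝ) < 3 by norm_num)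
  rw [div_lt_iff₀ hd] at hk
  have := dd_lower hz hz' hk.le
  have := W_pos k z.2
  rw [h] at *
  linarith

lemma dist_le_one {z z' : ℝ × ℝ} (hz : Good z) (hz' : Good z') : dist z z' ≤ 1 := by
  rw [Prod.dist_eq, Real.dist_eq, Real.dist_eq]
  obtain ⟨a1, a2, a3, a4, -⟩ := hz
  obtain ⟨b1, b2, b3, b4, -⟩ := hz'
  exact max_le (abs_le.mpr ⟨by linarith, by linarith⟩) (abs_le.mpr ⟨by linarith, by linarith⟩)

noncomputable def al : ℝ := -Real.log qb / Real.log 3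

lemma al_pos : 0 < al := by
  unfold al
  have h1 : Real.log qb < 0 := Real.log_neg qb_pos qb_lt_one
  have h2 : 0 < Real.log 3 := Real.log_pos (by norm_num)
  exact div_pos (by linarith) h2

lemma qb_eq : qb = (3 : ℝ)⁻¹ ^ al := by
  have h2 : 0 < Real.log 3 := Real.log_pos (by norm_num)
  rw [Real.rpow_def_of_pos (by norm_num), Real.log_inv]
  unfold al
  rw [show -Real.log 3 * (-Real.log qb / Real.log 3) = Real.log qb by field_simp,
    Real.exp_log qb_pos]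

noncomputable def CC : ℝ := 1459 * 729 ^ 6

noncomputable def eta (t : ℝ) : ℝ := CC * ((3 * t) ^ al + (3 * t) ^ 6)

lemma CC_pos : 0 < CC := by unfold CC; positivity

lemma eta_zero : eta 0 = 0 := by simp [eta, Real.zero_rpow al_pos.ne']

lemma eta_cont : ContinuousOn eta (Set.Ici 0) := by
  unfold eta
  refine continuousOn_const.mul (ContinuousOn.add ?_ (by fun_prop))
  exact ContinuousOn.rpow_const (by fun_prop) fun _ _ => Or.inr al_pos.le

lemma eta_mono : StrictMonoOn eta (Set.Ici 0) := by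
  intro s hs t ht hst
  simp only [Set.mem_Ici] at hs ht
  unfold eta
  have h1 : (3 * s) ^ al < (3 * t) ^ al :=
    Real.rpow_lt_rpow (by linarith) (by linarith) al_pos
  have h2 : (3 * s) ^ 6 ≤ (3 * t) ^ 6 := by gcongr
  have := CC_pos
  gcongr CC * ?_
  linarith

lemma eta_nonneg {t : ℝ} (ht : 0 ≤ t) : 0 ≤ eta t := by
  unfold eta
  have := CC_pos
  have : 0 ≤ (3 * t) ^ al := Real.rpow_nonneg (by linarith) _
  positivity

lemma exists_level {r : ℝ} (h0 : 0 < r) (h1 : r ≤ 1) :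
    ∃ k : ℕ, (3 : ℝ) ^ k * r ≤ 1 ∧ 1 ≤ (3 : ℝ) ^ (k + 1) * r := by
  obtain ⟨k, hk1, hk2⟩ := exists_nat_pow_near (x := r⁻¹) (y := 3) ((one_le_inv₀ h0).mpr h1)
    (by norm_num)
  refine ⟨k, ?_, ?_⟩
  · calc (3 : ℝ) ^ k * r ≤ r⁻¹ * r := by gcongr
      _ = 1 := inv_mul_cancel₀ h0.ne'
  · calc (1 : ℝ) = r⁻¹ * r := (inv_mul_cancel₀ h0.ne').symm
      _ ≤ _ := by gcongr

lemma dd_qs {x a b : ℝ × ℝ} (hx : Good x) (ha : Good a) (hb : Good b) {t : ℝ} (ht : 0 ≤ t)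
    (h : dist x a ≤ t * dist x b) : dd x a ≤ eta t * dd x b := by
  by_cases hxa : x = a
  · rw [← hxa, dd_self hx]; exact mul_nonneg (eta_nonneg ht) (dd_nonneg _ _)
  have hda : 0 < dist x a := dist_pos.mpr hxa
  have hdb : 0 < dist x b := by
    rcases (dist_nonneg (x := x) (y := b)).eq_or_lt with h0 | h0
    · rw [← h0] at h; linarith
    · exact h0
  have ht0 : 0 < t := by
    rcases ht.eq_or_lt with h0 | h0
    · rw [← h0] at h; linarith
    · exact h0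
  obtain ⟨k, hk1, hk2⟩ := exists_level hdb (dist_le_one hx hb)
  have hL := dd_lower hx hb hk2
  have hL2 := le_W_add k 1 x.2
  have hL3 : W k x.2 ≤ 729 ^ 4 * dd x b := by nlinarith
  have hdd := dd_nonneg x b
  have hr : 0 ≤ (3 * t) ^ al := Real.rpow_nonneg (by linarith) _
  have hp6 : 0 ≤ (3 * t) ^ 6 := by positivity
  have hWk := W_pos k x.2
  have hp : (0 : ℝ) < 3 ^ k := by positivity
  rcases le_total t 1 with h1 | h1
  · obtain ⟨j, hj1, hj2⟩ := exists_level ht0 h1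
    have hU := dd_upper hx ha (k := k + j) (by
      rw [pow_add]
      calc (3 : ℝ) ^ k * 3 ^ j * dist x a ≤ 3 ^ k * 3 ^ j * (t * dist x b) := by gcongr
        _ = (3 ^ j * t) * (3 ^ k * dist x b) := by ring
        _ ≤ 1 * 1 := by gcongr
        _ = 1 := by ring)
    have hW := W_add_le k j x.2
    have hq : qb ^ j ≤ (3 * t) ^ al := by
      rw [qb_eq, ← Real.rpow_natCast, ← Real.rpow_mul (by norm_num), mul_comm al,
        Real.rpow_mul (by norm_num), Real.rpow_natCast]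
      refine Real.rpow_le_rpow (by positivity) ?_ al_pos.le
      have hp' : (0 : ℝ) < 3 ^ j := by positivity
      rw [inv_pow, ← one_div, div_le_iff₀ hp']
      rw [pow_succ] at hj2; linarith
    calc dd x a ≤ 1459 * 729 ^ 2 * W (k + j) x.2 := hU
      _ ≤ 1459 * 729 ^ 2 * ((3 * t) ^ al * (729 ^ 4 * dd x b)) := by
        gcongr
        exact hW.trans (by gcongr)
      _ = CC * (3 * t) ^ al * dd x b := by unfold CC; ring
      _ ≤ eta t * dd x b := by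
        unfold eta
        have := CC_pos
        gcongr
        linarith
  · obtain ⟨j, hj1, hj2⟩ := exists_nat_pow_near (x := t) (y := 3) h1 (by norm_num)
    have hU := dd_upper hx ha (k := k - (j + 1)) (by
      rcases le_total (j + 1) k with hjk | hjk
      · obtain ⟨m, rfl⟩ : ∃ m, k = m + (j + 1) := ⟨k - (j + 1), by omega⟩
        rw [Nat.add_sub_cancel]
        calc (3 : ℝ) ^ m * dist x a ≤ 3 ^ m * (t * dist x b) := by gcongr
          _ ≤ 3 ^ m * (3 ^ (j + 1) * dist x b) := by gcongr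
          _ = 3 ^ (m + (j + 1)) * dist x b := by rw [pow_add (3 : ℝ) m]; ring
          _ ≤ 1 := hk1
      · rw [Nat.sub_eq_zero_of_le hjk, pow_zero, one_mul]; exact dist_le_one hx ha)
    have hW : W (k - (j + 1)) x.2 ≤ 729 ^ (j + 1) * W k x.2 := by
      have h2 := le_W_add (k - (j + 1)) (k - (k - (j + 1))) x.2
      rw [show k - (j + 1) + (k - (k - (j + 1))) = k by omega] at h2
      refine h2.trans ?_
      gcongr
      · norm_num
      · omega
    have hq : (729 : ℝ) ^ (j + 1) ≤ (3 * t) ^ 6 := by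
      rw [show (729 : ℝ) = 3 ^ 6 by norm_num, ← pow_mul, mul_comm 6, pow_mul]
      gcongr
      rw [pow_succ]; linarith
    calc dd x a ≤ 1459 * 729 ^ 2 * W (k - (j + 1)) x.2 := hU
      _ ≤ 1459 * 729 ^ 2 * ((3 * t) ^ 6 * (729 ^ 4 * dd x b)) := by
        gcongr
        exact hW.trans (by gcongr)
      _ = CC * (3 * t) ^ 6 * dd x b := by unfold CC; ring
      _ ≤ eta t * dd x b := by
        unfold eta
        have := CC_pos
        gcongr
        linarith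

end Pool.Agent.H813Z.Carpet
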