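import Mathlib
import Pool.Agent.H813Z.CarpetD

set_option autoImplicit false

/-! The carpet with column counts three, one, three in a grid of six by three. -/

namespace Pool.Agent.H813Z.Carpet

open Real MeasureTheory
open scoped ENNReal NNReal

def du : Fin 7 → Fin 6 := ![0, 2, 4, 0, 0, 2, 4]
def dv : Fin 7 → Fin 3 := ![0, 0, 0, 1, 2, 2, 2]

noncomputable def P (ω : ℕ → Fin 7) : ℝ × ℝ :=
  (ofDigits fun i => du (ω i), ofDigits fun i => dv (ω i))

def K : Set (ℝ × ℝ) := Set.range P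

def D : Finset (Fin 6 × Fin 3) := Finset.univ.image fun t => (du t, dv t)

lemma D_full : ∀ j : Fin 3, ∃ i : Fin 6, (i, j) ∈ D := by decide

lemma P_cont : Continuous P := by
  unfold P
  refine Continuous.prodMk (continuous_ofDigits.comp ?_) (continuous_ofDigits.comp ?_) <;>
  exact continuous_pi fun i => continuous_of_discreteTopology.comp (continuous_apply i)

lemma K_compact : IsCompact K := isCompact_range P_cont

lemma K_nonempty : K.Nonempty := Set.range_nonempty _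

lemma ofDigits_shift {b : ℕ} (d : ℕ → Fin b) :
    ofDigits d = (ofDigits (fun i => d (i + 1)) + ((d 0 : ℕ) : ℝ)) / (b : ℝ) := by
  rw [ofDigits_eq_sum_add_ofDigits d 1]
  simp [ofDigitsTerm]
  ring

lemma K_fix : K = ⋃ d ∈ D, (fun p : ℝ × ℝ =>
    ((p.1 + ((d.1 : ℕ) : ℝ)) / ((6 : ℕ) : ℝ), (p.2 + ((d.2 : ℕ) : ℝ)) / ((3 : ℕ) : ℝ))) '' K := by
  ext z
  simp only [Set.mem_iUnion, Set.mem_image]
  constructor
  · rintro ⟨ω, rfl⟩
    refine ⟨(du (ω 0), dv (ω 0)), Finset.mem_image.mpr ⟨ω 0, Finset.mem_univ _, rfl⟩,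
      P fun i => ω (i + 1), ⟨_, rfl⟩, ?_⟩
    unfold P
    rw [ofDigits_shift fun i => du (ω i), ofDigits_shift fun i => dv (ω i)]
  · rintro ⟨d, hd, _, ⟨ω, rfl⟩, rfl⟩
    obtain ⟨t, -, rfl⟩ := Finset.mem_image.mp hd
    refine ⟨fun i => Nat.casesOn i t ω, ?_⟩
    unfold P
    rw [ofDigits_shift fun i => du (Nat.casesOn i t ω), ofDigits_shift fun i => dv (Nat.casesOn i t ω)]
    rfl

def J {b : ℕ} (d : ℕ → Fin b) : ℕ → ℤ
  | 0 => 0
  | k + 1 => b * J d k + ((d k : ℕ) : ℤ)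

lemma pow_mul_ofDigits {b : ℕ} (d : ℕ → Fin b) (k : ℕ) :
    (b : ℝ) ^ k * ofDigits d = J d k + ofDigits fun i => d (i + k) := by
  have hb : (0 : ℝ) < b := by exact_mod_cast Fin.pos (d 0)
  induction k with
  | zero => simp [J]
  | succ k ih =>
    rw [pow_succ', mul_assoc, ih, ofDigits_shift fun i => d (i + k)]
    simp only [J, zero_add]
    push_cast
    have : (fun i => d (i + 1 + k)) = fun i => d (i + (k + 1)) := by
      funext i; congr 1; omega
    rw [this]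
    field_simp
    ring

lemma J_congr {b : ℕ} {d d' : ℕ → Fin b} {k : ℕ} (h : ∀ i < k, d i = d' i) : J d k = J d' k := by
  induction k with
  | zero => rfl
  | succ k ih => simp only [J]; rw [ih fun i hi => h i (by omega), h k (by omega)]

lemma du_le (t : Fin 7) : (du t : ℕ) ≤ 4 := by revert t; decide

lemma du_even (t : Fin 7) : Even (du t : ℕ) := by revert t; decide

lemma u_lt_one (ω : ℕ → Fin 7) : (ofDigits fun i => du (ω i)) < 1 := by
  rw [ofDigits_shift]
  have h1 := ofDigits_le_one fun i => du (ω (i + 1))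
  have h2 : ((du (ω 0) : ℕ) : ℝ) ≤ 4 := by exact_mod_cast du_le _
  push_cast
  linarith

lemma floor_u (ω : ℕ → Fin 7) (k : ℕ) :
    ⌊(6 : ℝ) ^ k * ofDigits fun i => du (ω i)⌋ = J (fun i => du (ω i)) k := by
  have h := pow_mul_ofDigits (fun i => du (ω i)) k
  push_cast at h
  rw [h, Int.floor_eq_iff]
  have h1 := u_lt_one fun i => ω (i + k)
  have h2 := ofDigits_nonneg fun i => du (ω (i + k))
  constructor <;> linarith

lemma good_P (ω : ℕ → Fin 7) : Good (P ω) := by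
  refine ⟨ofDigits_nonneg _, u_lt_one ω, ofDigits_nonneg _, ofDigits_le_one _, fun k => ?_⟩
  show Even ⌊(6 : ℝ) ^ k * ofDigits fun i => du (ω i)⌋
  rw [floor_u]
  cases k with
  | zero => simp [J]
  | succ k =>
    simp only [J]
    refine Even.add (Even.mul_right (by decide) _) ?_
    exact_mod_cast du_even _

lemma good_K {z : ℝ × ℝ} (h : z ∈ K) : Good z := by
  obtain ⟨ω, rfl⟩ := h; exact good_P ω

lemma w_J (d : ℕ → Fin 3) (k : ℕ) : w k (J d k) = ∏ i ∈ Finset.range k, q ((d i : ℕ) : ℤ) := by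
  induction k with
  | zero => simp [w]
  | succ k ih =>
    have h0 := (d k).isLt
    have h1 : (((3 : ℕ) : ℤ) * J d k + ((d k : ℕ) : ℤ)) / 3 = J d k := by omega
    have h2 : (((3 : ℕ) : ℤ) * J d k + ((d k : ℕ) : ℤ)) % 3 = ((d k : ℕ) : ℤ) := by omega
    simp only [J, w, h1, h2, ih, Finset.prod_range_succ]
    ring

lemma dd_cyl {ω ω' : ℕ → Fin 7} {k : ℕ} (h : ∀ i < k, ω i = ω' i) :
    dd (P ω) (P ω') ≤ ∏ i ∈ Finset.range k, q ((dv (ω i) : ℕ) : ℤ) := by
  rw [← w_J (fun i => dv (ω i)) k]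
  set j := J (fun i => dv (ω i)) k with hj
  have hj' : J (fun i => dv (ω' i)) k = j := (J_congr fun i hi => by rw [h i hi]).symm
  have h1 := pow_mul_ofDigits (fun i => dv (ω i)) k
  have h2 := pow_mul_ofDigits (fun i => dv (ω' i)) k
  rw [← hj] at h1
  rw [hj'] at h2
  push_cast at h1 h2
  have a1 := ofDigits_nonneg fun i => dv (ω (i + k))
  have a2 := ofDigits_le_one fun i => dv (ω (i + k))
  have a3 := ofDigits_nonneg fun i => dv (ω' (i + k))
  have a4 := ofDigits_le_one fun i => dv (ω' (i + k))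
  have hp : (0 : ℝ) < 3 ^ k := by positivity
  have hm : g ((j + 1) / 3 ^ k) - g (j / 3 ^ k) ∈ S (P ω) (P ω') := by
    refine ⟨_, _, k, ?_, ?_, ?_, ?_, ?_, ?_, rfl⟩
    · rw [div_le_iff₀ hp]; show _ ≤ (ofDigits fun i => dv (ω i)) * _; linarith
    · rw [div_le_iff₀ hp]; show _ ≤ (ofDigits fun i => dv (ω' i)) * _; linarith
    · rw [le_div_iff₀ hp]; show (ofDigits fun i => dv (ω i)) * _ ≤ _; linarith
    · rw [le_div_iff₀ hp]; show (ofDigits fun i => dv (ω' i)) * _ ≤ _; linarith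
    · intro l hl
      show ⌊(6 : ℝ) ^ l * ofDigits fun i => du (ω i)⌋ = ⌊(6 : ℝ) ^ l * ofDigits fun i => du (ω' i)⌋
      rw [floor_u, floor_u]
      exact J_congr fun i hi => by rw [h i (by omega)]
    · rw [← sub_div, add_sub_cancel_left, mul_one_div, le_div_iff₀ hp, one_mul]
      gcongr; norm_num
  refine (dd_le hm).trans ?_
  have b1 : g ((j + 1) / 3 ^ k) ≤ G k (j + 1) := g_le (by push_cast; field_simp; rfl)
  have b2 : G k j ≤ g (j / 3 ^ k) := le_g (by field_simp; rfl)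
  rw [G_succ] at b1
  linarith

/-- the carpet with the deformed metric -/
def Y : Type := K

def toY : K → Y := fun z => z

def ofY : Y → K := fun z => z

noncomputable instance : MetricSpace Y where
  dist x y := dd (ofY x).1 (ofY y).1
  dist_self x := dd_self (good_K (ofY x).2)
  dist_comm x y := dd_comm _ _
  dist_triangle x y z := dd_triangle (good_K (ofY x).2) (good_K (ofY y).2) (good_K (ofY z).2)
  eq_of_dist_eq_zero {x y} h := Subtype.ext (eq_of_dd (good_K (ofY x).2) (good_K (ofY y).2) h)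

lemma dist_toY (x y : K) : dist (toY x) (toY y) = dd x.1 y.1 := rfl

lemma sum_q : ∑ t : Fin 7, q ((dv t : ℕ) : ℤ) ^ ((7 : ℝ) / 6) ≤ 1 := by
  have ha : qa ^ ((7 : ℝ) / 6) = 1 / 2187 := by
    rw [show qa = ((1 : ℝ) / 3) ^ (6 : ℝ) by unfold qa; norm_num, ← Real.rpow_mul (by norm_num)]
    norm_num
  have hb : qb ^ ((7 : ℝ) / 6) ≤ qb :=
    Real.rpow_le_self_of_le_one qb_pos.le qb_lt_one.le (by norm_num)
  simp only [Fin.sum_univ_seven, dv, q]
  simp
  rw [ha]
  unfold qb at *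
  linarith

lemma dimH_Y : dimH (Set.univ : Set Y) ≤ ((7 / 6 : ℝ≥0) : ℝ≥0∞) := by
  let : MeasurableSpace Y := borel Y
  have : BorelSpace Y := ⟨rfl⟩
  apply dimH_le_of_hausdorffMeasure_ne_top
  let t : ∀ k : ℕ, (Fin k → Fin 7) → Set Y := fun k τ =>
    {y | ∃ ω : ℕ → Fin 7, (ofY y).1 = P ω ∧ ∀ i : Fin k, ω i = τ i}
  have hd : ∀ (k : ℕ) (τ : Fin k → Fin 7),
      Metric.ediam (t k τ) ≤ ENNReal.ofReal (∏ i : Fin k, q ((dv (τ i) : ℕ) : ℤ)) := by
    intro k τ
    refine Metric.ediam_le_of_forall_dist_le ?_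
    rintro x ⟨ω, hx, hω⟩ y ⟨ω', hy, hω'⟩
    show dd (ofY x).1 (ofY y).1 ≤ _
    rw [hx, hy]
    refine (dd_cyl (k := k) fun i hi => (hω ⟨i, hi⟩).trans (hω' ⟨i, hi⟩).symm).trans (le_of_eq ?_)
    rw [Finset.prod_range]
    exact Finset.prod_congr rfl fun i _ => by rw [hω i]
  have h1 := Measure.hausdorffMeasure_le_liminf_sum ((7 / 6 : ℝ≥0) : ℝ) (Set.univ : Set Y)
    (l := Filter.atTop) (fun k : ℕ => ENNReal.ofReal (qb ^ k))
    (by
      have := ENNReal.tendsto_ofReal (tendsto_pow_atTop_nhds_zero_of_lt_one qb_pos.le qb_lt_one)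
      simpa using this) t
    (Filter.Eventually.of_forall fun k τ => (hd k τ).trans (ENNReal.ofReal_le_ofReal (by
      calc ∏ i : Fin k, q ((dv (τ i) : ℕ) : ℤ) ≤ ∏ _i : Fin k, qb :=
            Finset.prod_le_prod (fun i _ => (q_pos _).le) fun i _ => q_le_qb _
        _ = qb ^ k := by simp)))
    (Filter.Eventually.of_forall fun k y _ => by
      obtain ⟨ω, hω⟩ := (ofY y).2
      exact Set.mem_iUnion.mpr ⟨fun i => ω i, ω, hω.symm, fun _ => rfl⟩)
  have h2 : ∀ k : ℕ, ∑ τ : Fin k → Fin 7, Metric.ediam (t k τ) ^ ((7 / 6 : ℝ≥0) : ℝ) ≤ 1 := by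
    intro k
    have e : ((7 / 6 : ℝ≥0) : ℝ) = (7 : ℝ) / 6 := by push_cast; rfl
    rw [e]
    calc ∑ τ : Fin k → Fin 7, Metric.ediam (t k τ) ^ ((7 : ℝ) / 6)
        ≤ ∑ τ : Fin k → Fin 7, ENNReal.ofReal (∏ i : Fin k, q ((dv (τ i) : ℕ) : ℤ) ^ ((7 : ℝ) / 6)) := by
          refine Finset.sum_le_sum fun τ _ => ?_
          rw [Real.finsetProd_rpow _ _ (fun i _ => (q_pos _).le),
            ← ENNReal.ofReal_rpow_of_nonneg (Finset.prod_nonneg fun i _ => (q_pos _).le)
              (by norm_num)]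
          exact ENNReal.rpow_le_rpow (hd k τ) (by norm_num)
      _ = ENNReal.ofReal (∑ τ : Fin k → Fin 7, ∏ i : Fin k, q ((dv (τ i) : ℕ) : ℤ) ^ ((7 : ℝ) / 6)) := by
          rw [ENNReal.ofReal_sum_of_nonneg fun τ _ =>
            Finset.prod_nonneg fun i _ => Real.rpow_nonneg (q_pos _).le _]
      _ = ENNReal.ofReal ((∑ s : Fin 7, q ((dv s : ℕ) : ℤ) ^ ((7 : ℝ) / 6)) ^ k) := by
          congr 1
          rw [← Fin.prod_const, Finset.prod_univ_sum]
          simp
      _ ≤ 1 := by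
          rw [ENNReal.ofReal_le_one]
          exact pow_le_one₀ (Finset.sum_nonneg fun s _ => Real.rpow_nonneg (q_pos _).le _) sum_q
  have h3 := h1.trans (Filter.liminf_le_of_frequently_le' (Filter.Frequently.of_forall h2))
  exact ne_top_of_le_ne_top ENNReal.one_ne_top h3

end Pool.Agent.H813Z.Carpet
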