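import Mathlib
import Pool.Agent.H813Z.CarpetK

set_option autoImplicit false

/-! Lower bound for the Hausdorff dimension of the carpet. -/

namespace Pool.Agent.H813Z.Carpet

open Real MeasureTheory
open scoped ENNReal NNReal

lemma holder_digits {p B : ℕ} (hp : 1 ≤ p) (hB : 1 ≤ B) (hpB : (B : ℝ) ^ ((3 : ℝ) / 5) ≤ p)
    (e : Fin p → Fin B) (he : ∀ i, (e i : ℕ) = 2 * i) (x y : ℕ → Fin p) :
    |ofDigits x - ofDigits y| ≤
      p * |(ofDigits fun i => e (x i)) - ofDigits fun i => e (y i)| ^ ((3 : ℝ) / 5) := by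
  by_cases hxy : x = y
  · rw [hxy]; simp
  have hex : ∃ k, x k ≠ y k := by
    by_contra h; push Not at h; exact hxy (funext h)
  classical
  set k := Nat.find hex with hk
  have hk1 : x k ≠ y k := Nat.find_spec hex
  have hk2 : ∀ i < k, x i = y i := fun i hi => not_not.mp (Nat.find_min hex hi)
  have h1 := abs_ofDigits_sub_ofDigits_le hk2
  have hp0 : (0 : ℝ) < p := by exact_mod_cast hp
  have hB0 : (0 : ℝ) < B := by exact_mod_cast hB
  have h2 := pow_mul_ofDigits (fun i => e (x i)) (k + 1)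
  have h3 := pow_mul_ofDigits (fun i => e (y i)) (k + 1)
  have h4 : J (fun i => e (x i)) k = J (fun i => e (y i)) k :=
    J_congr fun i hi => by rw [hk2 i hi]
  simp only [J, h4, he] at h2 h3
  push_cast at h2 h3
  have a1 := ofDigits_nonneg fun i => e (x (i + (k + 1)))
  have a2 := ofDigits_le_one fun i => e (x (i + (k + 1)))
  have a3 := ofDigits_nonneg fun i => e (y (i + (k + 1)))
  have a4 := ofDigits_le_one fun i => e (y (i + (k + 1)))
  have hne : (x k : ℕ) ≠ (y k : ℕ) := fun h => hk1 (Fin.ext h)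
  have h5 : 1 ≤ |(B : ℝ) ^ (k + 1) * (ofDigits fun i => e (x i)) -
      (B : ℝ) ^ (k + 1) * ofDigits fun i => e (y i)| := by
    rw [h2, h3]
    rcases lt_or_gt_of_ne hne with h | h
    · have : ((x k : ℕ) : ℝ) + 1 ≤ (y k : ℕ) := by exact_mod_cast h
      exact le_abs.mpr (Or.inr (by linarith))
    · have : ((y k : ℕ) : ℝ) + 1 ≤ (x k : ℕ) := by exact_mod_cast h
      exact le_abs.mpr (Or.inl (by linarith))
  have hBk : (0 : ℝ) < (B : ℝ) ^ (k + 1) := by positivity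
  rw [← mul_sub, abs_mul, abs_of_pos hBk] at h5
  have h6 : (1 : ℝ) ≤ (p : ℝ) ^ (k + 1) *
      |(ofDigits fun i => e (x i)) - ofDigits fun i => e (y i)| ^ ((3 : ℝ) / 5) := by
    have h7 := Real.one_le_rpow h5 (show (0 : ℝ) ≤ 3 / 5 by norm_num)
    rw [Real.mul_rpow hBk.le (abs_nonneg _)] at h7
    refine h7.trans ?_
    have h8 : ((B : ℝ) ^ (k + 1)) ^ ((3 : ℝ) / 5) ≤ (p : ℝ) ^ (k + 1) := by
      rw [← Real.rpow_natCast, ← Real.rpow_mul hB0.le, mul_comm, Real.rpow_mul hB0.le,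
        Real.rpow_natCast]
      exact pow_le_pow_left₀ (Real.rpow_nonneg hB0.le _) hpB _
    exact mul_le_mul_of_nonneg_right h8 (Real.rpow_nonneg (abs_nonneg _) _)
  refine h1.trans ?_
  have hpk : (0 : ℝ) < (p : ℝ) ^ k := by positivity
  rw [← one_div, div_le_iff₀ hpk]
  rw [pow_succ] at h6
  linarith

def eu : Fin 3 → Fin 6 := ![0, 2, 4]
def ev : Fin 2 → Fin 3 := ![0, 2]
def ec : Fin 3 → Fin 2 → Fin 7 := ![![0, 4], ![1, 5], ![2, 6]]

lemma du_ec : ∀ a b, du (ec a b) = eu a := by decide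
lemma dv_ec : ∀ a b, dv (ec a b) = ev b := by decide
lemma eu_val : ∀ i, (eu i : ℕ) = 2 * i := by decide
lemma ev_val : ∀ i, (ev i : ℕ) = 2 * i := by decide

lemma rpow_bound {B p : ℕ} (h : B ^ 3 ≤ p ^ 5) : (B : ℝ) ^ ((3 : ℝ) / 5) ≤ p := by
  have h1 : ((B : ℝ) ^ 3) ≤ (p : ℝ) ^ 5 := by exact_mod_cast h
  have h2 : ((B : ℝ) ^ ((3 : ℝ) / 5)) ^ 5 = (B : ℝ) ^ 3 := by
    rw [← Real.rpow_natCast, ← Real.rpow_mul (Nat.cast_nonneg _)]
    norm_num
  exact le_of_pow_le_pow_left₀ (n := 5) (by norm_num) (Nat.cast_nonneg _) (by rw [h2]; exact h1)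

noncomputable def P' (σ : (ℕ → Fin 3) × (ℕ → Fin 2)) : ℝ × ℝ := P fun i => ec (σ.1 i) (σ.2 i)

noncomputable def R (σ : (ℕ → Fin 3) × (ℕ → Fin 2)) : ℝ × ℝ := (ofDigits σ.1, ofDigits σ.2)

lemma dist_R (σ σ' : (ℕ → Fin 3) × (ℕ → Fin 2)) :
    dist (R σ) (R σ') ≤ 3 * dist (P' σ) (P' σ') ^ ((3 : ℝ) / 5) := by
  have h1 := holder_digits (p := 3) (B := 6) (by norm_num) (by norm_num) (rpow_bound (by norm_num))
    eu eu_val σ.1 σ'.1
  have h2 := holder_digits (p := 2) (B := 3) (by norm_num) (by norm_num) (rpow_bound (by norm_num))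
    ev ev_val σ.2 σ'.2
  have h3 : |(ofDigits fun i => eu (σ.1 i)) - ofDigits fun i => eu (σ'.1 i)| ≤
      dist (P' σ) (P' σ') := by
    rw [Prod.dist_eq, ← Real.dist_eq]
    refine le_trans (le_of_eq ?_) (le_max_left _ _)
    simp only [P', P, du_ec]
  have h4 : |(ofDigits fun i => ev (σ.2 i)) - ofDigits fun i => ev (σ'.2 i)| ≤
      dist (P' σ) (P' σ') := by
    rw [Prod.dist_eq, ← Real.dist_eq]
    refine le_trans (le_of_eq ?_) (le_max_right _ _)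
    simp only [P', P, dv_ec]
  have h5 := Real.rpow_le_rpow (abs_nonneg _) h3 (show (0 : ℝ) ≤ 3 / 5 by norm_num)
  have h6 := Real.rpow_le_rpow (abs_nonneg _) h4 (show (0 : ℝ) ≤ 3 / 5 by norm_num)
  have h7 : 0 ≤ dist (P' σ) (P' σ') ^ ((3 : ℝ) / 5) := Real.rpow_nonneg dist_nonneg _
  rw [Prod.dist_eq, Real.dist_eq, Real.dist_eq]
  push_cast at h1 h2
  exact max_le (by show |ofDigits σ.1 - ofDigits σ'.1| ≤ _; linarith)
    (by show |ofDigits σ.2 - ofDigits σ'.2| ≤ _; linarith)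

lemma dimH_K : ((6 / 5 : ℝ≥0) : ℝ≥0∞) ≤ dimH K := by
  let f : ℝ × ℝ → ℝ × ℝ := fun z => R (Function.invFun P' z)
  have hf : ∀ σ, f (P' σ) = R σ := by
    intro σ
    have h1 := dist_R (Function.invFun P' (P' σ)) σ
    rw [Function.invFun_eq (f := P') ⟨σ, rfl⟩, dist_self, Real.zero_rpow (by norm_num), mul_zero] at h1
    exact dist_le_zero.mp h1
  have hH : HolderOnWith 3 (3 / 5) f (Set.range P') := by
    rintro _ ⟨σ, rfl⟩ _ ⟨σ', rfl⟩
    rw [hf, hf, edist_dist, edist_dist]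
    have e : ((3 / 5 : ℝ≥0) : ℝ) = (3 : ℝ) / 5 := by push_cast; rfl
    rw [e, ENNReal.ofReal_rpow_of_nonneg dist_nonneg (by norm_num)]
    refine (ENNReal.ofReal_le_ofReal (dist_R σ σ')).trans (le_of_eq ?_)
    rw [ENNReal.ofReal_mul (by norm_num)]
    simp
  have h1 := hH.dimH_image_le (by norm_num)
  have h2 : Set.Icc (0 : ℝ) 1 ×ˢ Set.Icc (0 : ℝ) 1 ⊆ f '' Set.range P' := by
    rintro ⟨x, y⟩ ⟨hx, hy⟩
    obtain ⟨a, -, ha⟩ := ofDigits_SurjOn (b := 3) (by norm_num) hx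
    obtain ⟨b, -, hb⟩ := ofDigits_SurjOn (b := 2) (by norm_num) hy
    exact ⟨P' (a, b), ⟨_, rfl⟩, by rw [hf]; exact Prod.ext ha hb⟩
  have h3 : dimH (Set.Icc (0 : ℝ) 1 ×ˢ Set.Icc (0 : ℝ) 1) = 2 := by
    rw [Real.dimH_of_nonempty_interior]
    · simp
    · rw [interior_prod_eq, interior_Icc]
      exact ⟨(1 / 2, 1 / 2), by constructor <;> norm_num⟩
  have h4 : Set.range P' ⊆ K := by
    rintro _ ⟨σ, rfl⟩; exact ⟨_, rfl⟩
  have h5 : (2 : ℝ≥0∞) ≤ dimH K / ((3 / 5 : ℝ≥0) : ℝ≥0∞) := by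
    rw [← h3]
    refine (dimH_mono h2).trans (h1.trans ?_)
    gcongr
  rw [ENNReal.le_div_iff_mul_le (Or.inl (by simp)) (Or.inl ENNReal.coe_ne_top)] at h5
  refine le_trans (le_of_eq ?_) h5
  rw [show (2 : ℝ≥0∞) = ((2 : ℝ≥0) : ℝ≥0∞) from rfl, ← ENNReal.coe_mul]
  congr 1
  norm_num

lemma dimH_univ_K : dimH (Set.univ : Set K) = dimH K := by
  rw [← (isometry_subtype_coe (s := K)).dimH_image]
  simp

lemma dim_drop : dimH (Set.range toY) < dimH (Set.univ : Set K) := by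
  rw [dimH_univ_K]
  refine lt_of_le_of_lt ((dimH_mono (Set.subset_univ _)).trans dimH_Y) (lt_of_lt_of_le ?_ dimH_K)
  rw [ENNReal.coe_lt_coe]
  norm_num

end Pool.Agent.H813Z.Carpet
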