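import Mathlib
import Pool.Agent.H374R2.T.TaskE

/-!
# A 3-adic two-logarithm bound with the height-dependent improvement
-/

set_option autoImplicit false

namespace Pool.Agent.H813Z.Gam

open Finset Pool.Agent.H374R2.T.TaskZ Pool.Agent.H374R2.T.TaskI
open Pool.Agent.H374R2.T.TaskE (exists_rows choose_bound final_arith)

theorem entry_bound {lam m d H s t r σ k l : ℕ} (hlam : 2 ≤ lam) (hm2 : 2 * m ≤ d)
    (hmH : 512 * lam * H ≤ m) (hd : (1024 * lam + 1) * d ≤ 2 ^ lam * m)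
    (hs : s < 2 ^ H) (ht : t < 2 ^ H) (hr : r < 2 * m) (hσ : σ < 1024 * lam)
    (hk : k < 64 * m) (hl : l < 16 * lam) :
    Nat.choose (r * 1 + σ * d) k * (4 ^ (r * l) * 1 ^ (r * (16 * lam - 1 - l)) *
        (t ^ 2) ^ (σ * l) * (s ^ 2) ^ (σ * (16 * lam - 1 - l))) ≤ 2 ^ (3 * (lam * (64 * m))) := by
  have h1 : Nat.choose (r * 1 + σ * d) k ≤ (2 ^ lam) ^ (64 * m) := by
    have h3 : 3 ≤ 2 ^ lam := by
      calc 3 ≤ 2 ^ 2 := by norm_num
        _ ≤ 2 ^ lam := Nat.pow_le_pow_right (by norm_num) hlam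
    apply choose_bound (P := 3) le_rfl h3 _ hk.le
    have h2 : r * 1 + σ * d ≤ (1024 * lam + 1) * d := by
      have h4 : σ * d ≤ (1024 * lam) * d := Nat.mul_le_mul_right d hσ.le
      have : (1024 * lam + 1) * d = 1024 * lam * d + d := by ring
      omega
    calc (r * 1 + σ * d) * 3 ≤ (2 ^ lam * m) * 3 := Nat.mul_le_mul_right _ (h2.trans hd)
      _ ≤ (2 ^ lam * m) * 64 := Nat.mul_le_mul_left _ (by norm_num)
      _ = 64 * m * 2 ^ lam := by ring
  have h2 : 4 ^ (r * l) ≤ 2 ^ (lam * (64 * m)) := by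
    rw [show (4 : ℕ) = 2 ^ 2 by norm_num, ← pow_mul]
    apply Nat.pow_le_pow_right (by norm_num)
    have : r * l ≤ (2 * m) * (16 * lam) := Nat.mul_le_mul hr.le hl.le
    nlinarith
  have h3 : (t ^ 2) ^ (σ * l) * (s ^ 2) ^ (σ * (16 * lam - 1 - l)) ≤ 2 ^ (lam * (64 * m)) := by
    calc (t ^ 2) ^ (σ * l) * (s ^ 2) ^ (σ * (16 * lam - 1 - l))
        ≤ ((2 ^ H) ^ 2) ^ (σ * l) * ((2 ^ H) ^ 2) ^ (σ * (16 * lam - 1 - l)) := by
          apply Nat.mul_le_mul
          · exact Nat.pow_le_pow_left (Nat.pow_le_pow_left ht.le _) _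
          · exact Nat.pow_le_pow_left (Nat.pow_le_pow_left hs.le _) _
      _ = 2 ^ (H * 2 * (σ * (l + (16 * lam - 1 - l)))) := by
          rw [← pow_add, ← pow_mul, ← pow_mul, mul_add σ, mul_assoc]
      _ ≤ 2 ^ (lam * (64 * m)) := by
          apply Nat.pow_le_pow_right (by norm_num)
          have h4 : σ * (l + (16 * lam - 1 - l)) ≤ (1024 * lam) * (16 * lam) :=
            Nat.mul_le_mul hσ.le (by omega)
          calc H * 2 * (σ * (l + (16 * lam - 1 - l))) ≤ H * 2 * ((1024 * lam) * (16 * lam)) :=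
                Nat.mul_le_mul_left _ h4
            _ = lam * (64 * (512 * lam * H)) := by ring
            _ ≤ lam * (64 * m) := Nat.mul_le_mul_left _ (Nat.mul_le_mul_left _ hmH)
  calc _ = Nat.choose (r * 1 + σ * d) k * (4 ^ (r * l) *
        ((t ^ 2) ^ (σ * l) * (s ^ 2) ^ (σ * (16 * lam - 1 - l)))) := by rw [one_pow]; ring
    _ ≤ (2 ^ lam) ^ (64 * m) * (2 ^ (lam * (64 * m)) * 2 ^ (lam * (64 * m))) :=
        Nat.mul_le_mul h1 (Nat.mul_le_mul h2 h3)
    _ = 2 ^ (3 * (lam * (64 * m))) := by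
        rw [← pow_mul, ← pow_add, ← pow_add]
        congr 1
        ring

/-- core two-logarithm estimate -/
theorem core {lam m d H s t y : ℕ} (hlam : 2 ≤ lam) (hm1 : 16 * lam ≤ m) (hm2 : 2 * m ≤ d)
    (hmH : 512 * lam * H ≤ m) (hd : (1024 * lam + 1) * d ≤ 2 ^ lam * m)
    (hs : s < 2 ^ H) (ht : t < 2 ^ H) (hs3 : ¬ 3 ∣ s) (ht3 : ¬ 3 ∣ t)
    (hrel : 4 ^ d * s ^ 2 ≡ t ^ 2 [MOD 3 ^ y]) : y < 1024 * lam * m := by
  by_contra hcon
  push Not at hcon
  have hs0 : 0 < s := Nat.pos_of_ne_zero (by rintro rfl; exact hs3 (dvd_zero _))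
  have ht0 : 0 < t := Nat.pos_of_ne_zero (by rintro rfl; exact ht3 (dvd_zero _))
  set L : ℕ := 16 * lam with hL
  set S₂ : ℕ := 1024 * lam with hS₂
  set R : ℕ := m + L - 1 with hR
  set K : ℕ := 64 * m with hK
  set n : ℕ := K * L with hn
  have hmpos : 0 < m := by omega
  have hKpos : 0 < K := by omega
  have hny : n ≤ y := by
    have : n = S₂ * m := by rw [hn, hK, hL, hS₂]; ring
    rw [this]; exact hcon
  have hKL : (K - 1) * L < m * S₂ := by
    have h1 : (K - 1) * L < K * L := Nat.mul_lt_mul_of_pos_right (by omega) (by omega)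
    have h2 : m * S₂ = K * L := by rw [hK, hL, hS₂]; ring
    omega
  have hRq : m ≤ d := by omega
  have hs' : (0 : ℚ) < s := by exact_mod_cast hs0
  have ht' : (0 : ℚ) < t := by exact_mod_cast ht0
  set β : ℚ := 4 with hβ
  set κ : ℚ := ((t : ℚ) / s) ^ 2 with hκ
  have hβpos : 0 < β := by positivity
  have hκpos : 0 < κ := by positivity
  have hβ1 : β ≠ 1 := by norm_num [hβ]
  let e : Fin K × Fin L ≃ Fin (K * L) := finProdFinEquiv
  let M : Matrix (Fin R × Fin S₂) (Fin (K * L)) ℚ := Matrix.of fun ρ c =>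
    (Nat.choose (ρ.1 * 1 + ρ.2 * d) (e.symm c).1 : ℚ) *
      (β ^ (ρ.1 : ℕ) * κ ^ (ρ.2 : ℕ)) ^ ((e.symm c).2 : ℕ)
  have hinj : Function.Injective M.mulVec := by
    have hzero : ∀ v : Fin (K * L) → ℚ, M.mulVec v = 0 → v = 0 := by
      intro v hv
      have hz := zero_estimate (K := K) (L := L) (i := 1) (q := d) hβpos hβ1 hκpos
        (Nat.coprime_one_left d) hRq hKL
        (fun k l => v (e (k, l))) (by
          intro r s hr hs
          have h1 := congrFun hv (⟨r, hr⟩, ⟨s, hs⟩)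
          simp only [Matrix.mulVec, dotProduct, Pi.zero_apply] at h1
          rw [← h1, ← Fintype.sum_prod_type']
          apply Fintype.sum_equiv e
          intro c
          simp only [M, Matrix.of_apply, Equiv.symm_apply_apply]
          ring)
      funext c
      have h2 := hz (e.symm c).1 (e.symm c).2
      simpa using h2
    intro u v huv
    have h1 : M.mulVec (u - v) = 0 := by
      rw [Matrix.mulVec_sub, huv, sub_self]
    exact sub_eq_zero.mp (hzero _ h1)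
  obtain ⟨f, hf⟩ := exists_rows M hinj
  set N : Matrix (Fin (K * L)) (Fin (K * L)) ℤ := Matrix.of fun ρ c : Fin (K * L) =>
    ((Nat.choose (((f ρ).1 : ℕ) * 1 + ((f ρ).2 : ℕ) * d) ((e.symm c).1 : ℕ) *
      (4 ^ (((f ρ).1 : ℕ) * ((e.symm c).2 : ℕ)) *
        1 ^ (((f ρ).1 : ℕ) * (L - 1 - ((e.symm c).2 : ℕ))) *
        (t ^ 2) ^ (((f ρ).2 : ℕ) * ((e.symm c).2 : ℕ)) *
        (s ^ 2) ^ (((f ρ).2 : ℕ) * (L - 1 - ((e.symm c).2 : ℕ)))) : ℕ) : ℤ) with hN
  have hdvd : ((3 : ℕ) : ℤ) ^ (n * (n - 1) / 2 - n * K) ∣ N.det := by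
    have hcop : ∀ x : ℕ, ¬ 3 ∣ x → Nat.Coprime (x ^ 2) 3 := by
      intro x hx
      apply Nat.Coprime.pow_left
      rw [Nat.coprime_comm]
      exact (Nat.Prime.coprime_iff_not_dvd Nat.prime_three).mpr hx
    have hfer : ∀ x : ℕ, ¬ 3 ∣ x → x ^ 2 ≡ 1 [MOD 3] := by
      intro x hx
      have h1 : x % 3 = 1 ∨ x % 3 = 2 := by omega
      unfold Nat.ModEq
      rcases h1 with h1 | h1 <;> rw [Nat.pow_mod, h1]
    apply det_dvd (n := K * L) (K := K) (L := L) (D := 3) (Y := y) (i := 1) (q := d)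
      (b₁ := 4) (b₂ := 1) (c₁ := t ^ 2) (c₂ := s ^ 2) (by norm_num)
      (by norm_num) (by norm_num) (hcop t ht3) (hcop s hs3)
      (by decide) ((hfer t ht3).trans (hfer s hs3).symm) hny ?_ (Nat.coprime_one_left d)
      (by norm_num) (by omega)
      (fun ρ => (f ρ).1) (fun ρ => (f ρ).2) (fun c => (e.symm c).1) (fun c => (e.symm c).2)
      (fun c => (e.symm c).1.2) (fun c => (e.symm c).2.2)
    rw [one_pow, one_mul, pow_one, pow_one]
    exact hrel
  have hdet : N.det ≠ 0 := by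
    intro h0
    apply hf
    have hrel2 : N.map (Int.cast : ℤ → ℚ) = Matrix.diagonal (fun ρ : Fin (K * L) =>
        ((s : ℚ) ^ 2) ^ (((f ρ).2 : ℕ) * (L - 1))) * M.submatrix f id := by
      ext ρ c
      rw [Matrix.diagonal_mul]
      simp only [hN, M, Matrix.map_apply, Matrix.of_apply, Matrix.submatrix_apply, id]
      push_cast
      rw [one_pow, mul_one]
      have hl := (e.symm c).2.2
      obtain ⟨u, hu⟩ : ∃ u, L - 1 = ((e.symm c).2 : ℕ) + u := ⟨L - 1 - (e.symm c).2, by omega⟩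
      have hu2 : L - 1 - ((e.symm c).2 : ℕ) = u := by omega
      rw [hu2, hu, hβ, hκ, div_pow, mul_pow, div_pow, div_pow]
      have hbne : (s : ℚ) ^ 2 ≠ 0 := by positivity
      rw [mul_add, pow_add, pow_mul _ _ ((e.symm c).2 : ℕ), pow_mul _ ((f ρ).2 : ℕ) ((e.symm c).2 : ℕ),
        pow_mul _ ((f ρ).2 : ℕ) ((e.symm c).2 : ℕ)]
      field_simp
    have h1 : ((N.det : ℤ) : ℚ) = (N.map (Int.cast : ℤ → ℚ)).det := by
      have := RingHom.map_det (Int.castRingHom ℚ) N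
      simpa using this
    rw [hrel2, Matrix.det_mul, Matrix.det_diagonal, h0, Int.cast_zero] at h1
    rcases mul_eq_zero.mp h1.symm with h2 | h2
    · exfalso
      rw [Finset.prod_eq_zero_iff] at h2
      obtain ⟨ρ, _, hρ⟩ := h2
      have : ((s : ℚ) ^ 2) ^ (((f ρ).2 : ℕ) * (L - 1)) ≠ 0 := by positivity
      exact this hρ
    · exact h2
  have hup : |N.det| ≤ (n.factorial : ℤ) * ((2 : ℤ) ^ (3 * (lam * K))) ^ n := by
    have h1 := Matrix.det_le (A := N) (abv := AbsoluteValue.abs)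
      (x := (2 : ℤ) ^ (3 * (lam * K))) (by
        intro ρ c
        have hr : ((f ρ).1 : ℕ) < 2 * m := by have := (f ρ).1.2; omega
        have h2 := entry_bound (lam := lam) (m := m) (d := d) (H := H) (s := s) (t := t)
          (r := (f ρ).1) (σ := (f ρ).2) (k := (e.symm c).1) (l := (e.symm c).2) hlam hm2 hmH hd
          hs ht hr (f ρ).2.2 (e.symm c).1.2 (e.symm c).2.2
        rw [hN, Matrix.of_apply, AbsoluteValue.abs_apply, Nat.abs_cast]
        exact_mod_cast h2)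
    rw [AbsoluteValue.abs_apply, Fintype.card_fin, nsmul_eq_mul] at h1
    exact h1
  have hlow : ((3 : ℕ) : ℤ) ^ (n * (n - 1) / 2 - n * K) ≤ |N.det| := by
    apply Int.le_of_dvd (abs_pos.mpr hdet)
    exact (dvd_abs _ _).mpr hdvd
  have hn16 : n = 16 * (lam * K) := by
    rw [hn, hL]
    ring
  have hfin := final_arith (K := K) (lam := lam) (x := lam * K) (n := n) rfl hn16 hlam hKpos
  have hnle : n ≤ 2 ^ (4 + lam * K) := by
    rw [hn16, pow_add]
    exact Nat.mul_le_mul (by norm_num) (Nat.lt_two_pow_self).le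
  have hchain : (2 : ℤ) ^ (n * (n - 1) / 2 - n * K) ≤ 2 ^ ((4 + 4 * (lam * K)) * n) := by
    calc (2 : ℤ) ^ (n * (n - 1) / 2 - n * K) ≤ ((3 : ℕ) : ℤ) ^ (n * (n - 1) / 2 - n * K) := by
          apply pow_le_pow_left₀ (by norm_num)
          norm_num
      _ ≤ |N.det| := hlow
      _ ≤ (n.factorial : ℤ) * ((2 : ℤ) ^ (3 * (lam * K))) ^ n := hup
      _ ≤ (n : ℤ) ^ n * ((2 : ℤ) ^ (3 * (lam * K))) ^ n := by
          apply mul_le_mul_of_nonneg_right _ (by positivity)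
          exact_mod_cast Nat.factorial_le_pow n
      _ ≤ ((2 : ℤ) ^ (4 + lam * K)) ^ n * ((2 : ℤ) ^ (3 * (lam * K))) ^ n := by
          apply mul_le_mul_of_nonneg_right _ (by positivity)
          apply pow_le_pow_left₀ (by positivity)
          exact_mod_cast hnle
      _ = 2 ^ ((4 + 4 * (lam * K)) * n) := by
          rw [← mul_pow, ← pow_add, ← pow_mul]
          congr 1
          ring
  have hcontra := (pow_le_pow_iff_right₀ (by norm_num : (1 : ℤ) < 2)).mp hchain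
  omega

theorem exists_lam (C : ℕ) : ∃ lam : ℕ, 2 ≤ lam ∧ C * (lam * (1024 * lam + 1)) ≤ 2 ^ lam := by
  have h := tendsto_pow_const_div_const_pow_of_one_lt 2 (r := (2 : ℝ)) (by norm_num)
  have hC : (0 : ℝ) < 1 / (1025 * C + 1) := by positivity
  obtain ⟨N, hN⟩ := Filter.eventually_atTop.1 (h.eventually (gt_mem_nhds hC))
  refine ⟨max N 2, le_max_right _ _, ?_⟩
  set lam := max N 2 with hlam
  have h1 := hN lam (le_max_left _ _)
  have h2 : (1 : ℝ) ≤ lam := by exact_mod_cast (show 1 ≤ lam by omega)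
  rw [div_lt_div_iff₀ (by positivity) (by positivity)] at h1
  have h3 : (C : ℝ) * (lam * (1024 * lam + 1)) ≤ 2 ^ lam := by
    have h4 : (lam : ℝ) * (1024 * lam + 1) ≤ 1025 * lam ^ 2 := by nlinarith
    have h5 : (C : ℝ) * (lam * (1024 * lam + 1)) ≤ C * (1025 * lam ^ 2) :=
      mul_le_mul_of_nonneg_left h4 (by positivity)
    nlinarith [sq_nonneg (lam : ℝ)]
  exact_mod_cast h3

/-- The multipliers `2^d` and `2^(-d)` as fractions `U / D`. -/
def UD (d : ℕ) (U D : ℤ) : Prop := (U = 2 ^ d ∧ D = 1) ∨ (U = 1 ∧ D = 2 ^ d)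

theorem UD.cop {d : ℕ} {U D : ℤ} (h : UD d U D) : IsCoprime (3 : ℤ) U ∧ IsCoprime (3 : ℤ) D := by
  have h2 : IsCoprime (3 : ℤ) (2 ^ d) := IsCoprime.pow_right ⟨1, -1, by norm_num⟩
  rcases h with ⟨rfl, rfl⟩ | ⟨rfl, rfl⟩
  · exact ⟨h2, isCoprime_one_right⟩
  · exact ⟨isCoprime_one_right, h2⟩

/-- approximations of small height to `2^(±d)` are 3-adically poor -/
theorem baker (m₀ : ℕ) : ∃ e d₀ : ℕ, 1 ≤ e ∧ ∀ d, d₀ ≤ d → ∀ U D : ℤ, UD d U D → ∀ H y : ℕ,
    e * H ≤ d → ∀ s t : ℤ, s ≠ 0 → |s| < 3 ^ H → |t| < 3 ^ H → (3 : ℤ) ^ y ∣ s * U - t * D →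
    m₀ * y ≤ d := by
  obtain ⟨lam, hlam, hC⟩ := exists_lam (4096 * (m₀ + 1))
  refine ⟨1024 * lam * 2 ^ lam + 2 * m₀, 4096 * (m₀ + 1) * lam + 16 * lam * 2 ^ lam, ?_, ?_⟩
  · have : 0 < 1024 * lam * 2 ^ lam := by positivity
    omega
  intro d hd U D hUD H y hH s t hs0 hs ht hdvd
  have hHm : 2 * (m₀ * H) ≤ d := by nlinarith [Nat.zero_le (1024 * lam * 2 ^ lam * H)]
  have hH2 : 1024 * lam * H * 2 ^ lam ≤ d := by nlinarith [Nat.zero_le (m₀ * H)]
  by_cases hyH : y ≤ H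
  · have := Nat.mul_le_mul_left m₀ hyH
    omega
  push Not at hyH
  obtain ⟨hU, hD⟩ := hUD.cop
  -- remove the power of three
  obtain ⟨a, s₁, hs₁, hsa⟩ := Nat.exists_eq_pow_mul_and_not_dvd (Int.natAbs_ne_zero.2 hs0) 3
    (by norm_num)
  have hsabs : (s.natAbs : ℤ) < 3 ^ H := by rw [Int.natCast_natAbs]; exact hs
  have hs₁0 : 0 < s₁ := Nat.pos_of_ne_zero (by rintro rfl; exact hs₁ (dvd_zero _))
  have hsN : s.natAbs < 3 ^ H := by exact_mod_cast hsabs
  have haH : a < H := by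
    have h1 : 3 ^ a ≤ 3 ^ a * s₁ := Nat.le_mul_of_pos_right _ hs₁0
    exact (Nat.pow_lt_pow_iff_right (by norm_num : 1 < 3)).1 (by omega)
  have h3s : (3 : ℤ) ^ a ∣ s := by
    rw [← Int.natAbs_dvd_natAbs, Int.natAbs_pow]
    exact ⟨s₁, hsa⟩
  have h3t : (3 : ℤ) ^ a ∣ t := by
    have h1 : (3 : ℤ) ^ a ∣ s * U - t * D := (pow_dvd_pow _ (by omega)).trans hdvd
    have h2 : (3 : ℤ) ^ a ∣ t * D := by
      have := dvd_sub (h3s.mul_right U) h1
      rwa [sub_sub_cancel] at this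
    exact (IsCoprime.pow_left hD).dvd_of_dvd_mul_right h2
  obtain ⟨s', rfl⟩ := h3s
  obtain ⟨t', rfl⟩ := h3t
  have hs's : s'.natAbs = s₁ := by
    rw [Int.natAbs_mul, Int.natAbs_pow] at hsa
    exact Nat.eq_of_mul_eq_mul_left (by positivity) hsa
  have hdvd' : (3 : ℤ) ^ (y - a) ∣ s' * U - t' * D := by
    have h1 : (3 : ℤ) ^ y = 3 ^ a * 3 ^ (y - a) := by rw [← pow_add]; congr 1; omega
    rw [h1, show 3 ^ a * s' * U - 3 ^ a * t' * D = 3 ^ a * (s' * U - t' * D) by ring] at hdvd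
    exact (mul_dvd_mul_iff_left (by positivity)).1 hdvd
  have hs3 : ¬ 3 ∣ s'.natAbs := hs's ▸ hs₁
  have ht3 : ¬ 3 ∣ t'.natAbs := by
    intro h
    have h1 : (3 : ℤ) ∣ t' := by
      rw [← Int.natAbs_dvd_natAbs]; exact h
    have h2 : (3 : ℤ) ∣ s' * U - t' * D :=
      (dvd_pow_self 3 (by omega : y - a ≠ 0)).trans hdvd'
    have h3 : (3 : ℤ) ∣ s' * U := by
      have := dvd_add h2 (h1.mul_right D)
      rwa [sub_add_cancel] at this
    have h4 := hU.dvd_of_dvd_mul_right h3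
    rw [← Int.natAbs_dvd_natAbs] at h4
    exact hs3 h4
  have hlt : ∀ x : ℤ, |3 ^ a * x| < 3 ^ H → x.natAbs < 2 ^ (2 * H) := by
    intro x hx
    have h1 : |x| ≤ |3 ^ a * x| := by
      rw [abs_mul]
      apply le_mul_of_one_le_left (abs_nonneg _)
      rw [abs_pow]
      exact one_le_pow₀ (by norm_num)
    have h2 : (3 : ℤ) ^ H ≤ 2 ^ (2 * H) := by
      rw [pow_mul]
      exact pow_le_pow_left₀ (by norm_num) (by norm_num) _
    have h3 : (x.natAbs : ℤ) < 2 ^ (2 * H) := by rw [Int.natCast_natAbs]; omega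
    exact_mod_cast h3
  have hsq : (3 : ℤ) ^ (y - a) ∣ (s' * U) ^ 2 - (t' * D) ^ 2 :=
    hdvd'.trans (sub_dvd_pow_sub_pow _ _ 2)
  -- parameters
  set m := (1024 * lam + 1) * d / 2 ^ lam + 1 with hm
  have hP : 0 < 2 ^ lam := by positivity
  have hm1 : (1024 * lam + 1) * d < 2 ^ lam * m := by
    rw [hm]; exact Nat.lt_mul_div_succ _ hP
  have hm2 : 2 ^ lam * m ≤ (1024 * lam + 1) * d + 2 ^ lam := by
    rw [hm, mul_add, mul_one]
    exact Nat.add_le_add_right (Nat.mul_div_le _ _) _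
  have hdm : d < 2 ^ lam * m := by nlinarith [Nat.zero_le (1024 * lam * d)]
  have hb1 : 16 * lam ≤ m := by
    have h1 : 2 ^ lam * (16 * lam) ≤ 2 ^ lam * m := by nlinarith [Nat.zero_le (4096 * (m₀ + 1) * lam)]
    exact Nat.le_of_mul_le_mul_left h1 hP
  have hb2 : 512 * lam * (2 * H) ≤ m := by
    have h1 : 2 ^ lam * (512 * lam * (2 * H)) ≤ 2 ^ lam * m := by nlinarith
    exact Nat.le_of_mul_le_mul_left h1 hP
  have hb3 : 2048 * (m₀ + 1) * lam * m ≤ d := by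
    have h1 : 2 ^ lam * (4096 * (m₀ + 1) * lam * m) ≤ 2 ^ lam * (2 * d) := by
      calc 2 ^ lam * (4096 * (m₀ + 1) * lam * m) = 4096 * (m₀ + 1) * lam * (2 ^ lam * m) := by ring
        _ ≤ 4096 * (m₀ + 1) * lam * ((1024 * lam + 1) * d + 2 ^ lam) := Nat.mul_le_mul_left _ hm2
        _ = 4096 * (m₀ + 1) * (lam * (1024 * lam + 1)) * d + 2 ^ lam * (4096 * (m₀ + 1) * lam) := by
            ring
        _ ≤ 2 ^ lam * d + 2 ^ lam * d := by
            apply Nat.add_le_add (Nat.mul_le_mul_right _ hC) (Nat.mul_le_mul_left _ (by omega))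
        _ = 2 ^ lam * (2 * d) := by ring
    have h2 := Nat.le_of_mul_le_mul_left h1 hP
    nlinarith
  have hb4 : 2 * m ≤ d := by
    have : 2 * m ≤ 2048 * (m₀ + 1) * lam * m := Nat.mul_le_mul_right _ (by nlinarith)
    omega
  have hmain : y - a < 1024 * lam * m := by
    rcases hUD with ⟨rfl, rfl⟩ | ⟨rfl, rfl⟩
    · apply core hlam hb1 hb4 hb2 hm1.le (hlt s' hs) (hlt t' ht) hs3 ht3
      apply (Nat.modEq_iff_dvd.2 _).symm
      push_cast
      rw [sq_abs, sq_abs]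
      convert hsq using 1
      rw [show (4 : ℤ) = 2 ^ 2 by norm_num, ← pow_mul, mul_comm 2 d, pow_mul]
      ring
    · apply core hlam hb1 hb4 hb2 hm1.le (hlt t' ht) (hlt s' hs) ht3 hs3
      apply Nat.modEq_iff_dvd.2 _
      push_cast
      rw [sq_abs, sq_abs]
      convert hsq using 1
      rw [show (4 : ℤ) = 2 ^ 2 by norm_num, ← pow_mul, mul_comm 2 d, pow_mul]
      ring
  have h1 : y ≤ H + 1024 * lam * m := by omega
  have h2 : m₀ * y ≤ m₀ * H + m₀ * (1024 * lam * m) := by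
    rw [← mul_add]; exact Nat.mul_le_mul_left _ h1
  have h3 : 2 * (m₀ * (1024 * lam * m)) ≤ d := by nlinarith [Nat.zero_le (lam * m)]
  omega

end Pool.Agent.H813Z.Gam
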