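import Pool.Agent.H813Z.GamA

/-!
# Good scales of the multipliers `2^(±d)`
-/

set_option autoImplicit false

namespace Pool.Agent.H813Z.Gam

/-- no short relation at block position `γ` -/
def Good (U D : ℤ) (B γ : ℕ) : Prop :=
  ∀ s t : ℤ, s ≠ 0 → |s| < 3 ^ B → |t| < 3 ^ (γ * B) → ¬ (3 : ℤ) ^ ((γ + 4) * B) ∣ s * U - t * D

theorem cancel_small {a B : ℕ} {s X : ℤ} (hs0 : s ≠ 0) (hs : |s| < 3 ^ B)
    (h : (3 : ℤ) ^ (a + B) ∣ s * X) : (3 : ℤ) ^ a ∣ X := by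
  obtain ⟨v, s₁, hs₁, hsa⟩ := Nat.exists_eq_pow_mul_and_not_dvd (Int.natAbs_ne_zero.2 hs0) 3
    (by norm_num)
  have hsabs : (s.natAbs : ℤ) < 3 ^ B := by rw [Int.natCast_natAbs]; exact hs
  have hs₁0 : 0 < s₁ := Nat.pos_of_ne_zero (by rintro rfl; exact hs₁ (dvd_zero _))
  have hsN : s.natAbs < 3 ^ B := by exact_mod_cast hsabs
  have hvB : v < B := by
    have h1 : 3 ^ v ≤ 3 ^ v * s₁ := Nat.le_mul_of_pos_right _ hs₁0
    exact (Nat.pow_lt_pow_iff_right (by norm_num : 1 < 3)).1 (by omega)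
  rw [← Int.natAbs_dvd_natAbs, Int.natAbs_pow, Int.natAbs_mul, hsa] at h
  rw [← Int.natAbs_dvd_natAbs, Int.natAbs_pow]
  have h1 : (3 : ℕ) ^ (a + B) = 3 ^ v * 3 ^ (a + B - v) := by rw [← pow_add]; congr 1; omega
  have h2 : (3 : ℕ) ^ (a + B - v) ∣ s₁ * X.natAbs := by
    have h3 : (3 : ℕ) ^ v * 3 ^ (a + B - v) ∣ 3 ^ v * (s₁ * X.natAbs) := by
      rw [← h1, ← mul_assoc]; exact h
    exact Nat.dvd_of_mul_dvd_mul_left (by positivity) h3
  have h4 : Nat.Coprime (3 ^ (a + B - v)) s₁ :=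
    Nat.Coprime.pow_left _ ((Nat.Prime.coprime_iff_not_dvd Nat.prime_three).mpr hs₁)
  exact (pow_dvd_pow 3 (by omega)).trans (h4.dvd_of_dvd_mul_left h2)

theorem run {U D : ℤ} (hD : IsCoprime (3 : ℤ) D) {B γ₀ : ℕ} (hB : 1 ≤ B) (j : ℕ)
    (h : ∀ γ, γ₀ ≤ γ → γ ≤ γ₀ + j → ¬ Good U D B γ) :
    ∃ s t : ℤ, s ≠ 0 ∧ |s| < 3 ^ B ∧ |t| < 3 ^ (γ₀ * B) ∧
      (3 : ℤ) ^ ((γ₀ + j + 3) * B) ∣ s * U - t * D := by
  induction j with
  | zero =>
    have h1 := h γ₀ le_rfl le_rfl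
    unfold Good at h1
    push Not at h1
    obtain ⟨s, t, h2, h3, h4, h5⟩ := h1
    exact ⟨s, t, h2, h3, h4, (pow_dvd_pow _ (Nat.mul_le_mul_right _ (by omega))).trans h5⟩
  | succ j ih =>
    obtain ⟨s, t, h2, h3, h4, h5⟩ := ih fun γ h1 h2 => h γ h1 (by omega)
    have h1 := h (γ₀ + (j + 1)) (by omega) le_rfl
    unfold Good at h1
    push Not at h1
    obtain ⟨s', t', h2', h3', h4', h5'⟩ := h1
    refine ⟨s, t, h2, h3, h4, ?_⟩
    have h6 : (3 : ℤ) ^ ((γ₀ + j + 3) * B) ∣ (s * t' - s' * t) * D := by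
      have h7 : (3 : ℤ) ^ ((γ₀ + j + 3) * B) ∣ s' * U - t' * D :=
        (pow_dvd_pow _ (Nat.mul_le_mul_right _ (by omega))).trans h5'
      have := dvd_sub (h5.mul_left s') (h7.mul_left s)
      rwa [show s' * (s * U - t * D) - s * (s' * U - t' * D) = (s * t' - s' * t) * D by ring]
        at this
    have h7 := (IsCoprime.pow_left hD).dvd_of_dvd_mul_right h6
    have h8 : s * t' - s' * t = 0 := by
      apply Int.eq_zero_of_abs_lt_dvd h7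
      have e1 : |s * t'| ≤ 3 ^ B * 3 ^ ((γ₀ + (j + 1)) * B) := by
        rw [abs_mul]
        exact mul_le_mul h3.le h4'.le (abs_nonneg _) (by positivity)
      have e2 : |s' * t| ≤ 3 ^ B * 3 ^ ((γ₀ + (j + 1)) * B) := by
        rw [abs_mul]
        refine mul_le_mul h3'.le (h4.le.trans ?_) (abs_nonneg _) (by positivity)
        exact pow_le_pow_right₀ (by norm_num) (Nat.mul_le_mul_right _ (by omega))
      have e3 : (3 : ℤ) ^ ((γ₀ + j + 3) * B) = 3 ^ B * (3 ^ B * 3 ^ ((γ₀ + (j + 1)) * B)) := by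
        rw [← pow_add, ← pow_add]; congr 1; ring
      have e4 : (3 : ℤ) ≤ 3 ^ B := by
        calc (3 : ℤ) = 3 ^ 1 := by norm_num
          _ ≤ _ := pow_le_pow_right₀ (by norm_num) hB
      have e5 : (0 : ℤ) < 3 ^ B * 3 ^ ((γ₀ + (j + 1)) * B) := by positivity
      have e6 := abs_sub (s * t') (s' * t)
      rw [e3]
      nlinarith
    apply cancel_small h2' h3'
    have e1 : s' * (s * U - t * D) = s * (s' * U - t' * D) := by linear_combination D * h8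
    rw [e1, show (γ₀ + (j + 1) + 3) * B + B = (γ₀ + (j + 1) + 4) * B by ring]
    exact h5'.mul_left s

theorem goods (r : ℕ) : ∀ m₀ : ℕ, 1 ≤ m₀ → ∃ e d₀ : ℕ, 1 ≤ e ∧ ∀ d, d₀ ≤ d → ∀ U D : ℤ, UD d U D →
    ∀ B, 1 ≤ B → e * B ≤ d → ∃ G : Finset ℕ, G.card = r ∧
      ∀ γ ∈ G, Good U D B γ ∧ m₀ * ((γ + 1) * B) ≤ d := by
  induction r with
  | zero => exact fun m₀ _ => ⟨1, 0, le_rfl, fun d _ U D _ B _ _ => ⟨∅, rfl, by simp⟩⟩
  | succ r ih =>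
    intro m₀ hm₀
    obtain ⟨e₁, d₁, he₁, h₁⟩ := baker m₀
    obtain ⟨e₂, d₂, he₂, h₂⟩ := ih (2 * (e₁ + m₀)) (by omega)
    refine ⟨e₂ + 2 * (e₁ + m₀), max d₁ d₂, by omega, ?_⟩
    intro d hd U D hUD B hB heB
    obtain ⟨G, hG, hG'⟩ := h₂ d (le_of_max_le_right hd) U D hUD B hB (by nlinarith)
    set γ₀ := d / (2 * (e₁ + m₀) * B) with hγ₀
    have hpos : 0 < 2 * (e₁ + m₀) * B := by positivity
    have hγG : ∀ γ ∈ G, γ < γ₀ := by
      intro γ hγ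
      have h1 := (hG' γ hγ).2
      have : γ + 1 ≤ γ₀ := by
        rw [hγ₀, Nat.le_div_iff_mul_le hpos]
        nlinarith
      omega
    have h0 : (e₁ + m₀) * ((γ₀ + 1) * B) ≤ d := by
      have h1 : γ₀ * (2 * (e₁ + m₀) * B) ≤ d := Nat.div_mul_le_self _ _
      have h2 : 2 * (e₁ + m₀) * B ≤ d := by nlinarith
      nlinarith
    have hpos' : 0 < m₀ * B := by positivity
    set γ₁ := d / (m₀ * B) with hγ₁
    have h1 : γ₀ + 1 ≤ γ₁ := by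
      rw [hγ₁, Nat.le_div_iff_mul_le hpos']
      nlinarith [Nat.zero_le (e₁ * ((γ₀ + 1) * B))]
    have h2 : d < m₀ * B * (γ₁ + 1) := Nat.lt_mul_div_succ _ hpos'
    have h3 : γ₁ * (m₀ * B) ≤ d := Nat.div_mul_le_self _ _
    have hex : ∃ γ, γ₀ ≤ γ ∧ γ ≤ γ₀ + (γ₁ - 1 - γ₀) ∧ Good U D B γ := by
      by_contra hc
      push Not at hc
      obtain ⟨s, t, hs0, hs, ht, hdvd⟩ := run hUD.cop.2 hB (γ₁ - 1 - γ₀) hc
      have h4 := h₁ d (le_of_max_le_left hd) U D hUD ((γ₀ + 1) * B) _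
        (by nlinarith [Nat.zero_le (m₀ * ((γ₀ + 1) * B))]) s t hs0
        (hs.trans_le (pow_le_pow_right₀ (by norm_num) (by nlinarith [Nat.zero_le (γ₀ * B)])))
        (ht.trans_le (pow_le_pow_right₀ (by norm_num) (by nlinarith))) hdvd
      rw [show γ₀ + (γ₁ - 1 - γ₀) + 3 = γ₁ + 2 by omega] at h4
      nlinarith
    obtain ⟨γ, hγ1, hγ2, hγ3⟩ := hex
    have hnot : γ ∉ G := fun h => by have := hγG γ h; omega
    refine ⟨insert γ G, by rw [Finset.card_insert_of_notMem hnot, hG], ?_⟩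
    intro γ' hγ'
    rcases Finset.mem_insert.1 hγ' with rfl | hγ'
    · refine ⟨hγ3, ?_⟩
      have : γ' + 1 ≤ γ₁ := by omega
      calc m₀ * ((γ' + 1) * B) = (γ' + 1) * (m₀ * B) := by ring
        _ ≤ γ₁ * (m₀ * B) := Nat.mul_le_mul_right _ this
        _ ≤ d := h3
    · refine ⟨(hG' γ' hγ').1, le_trans (Nat.mul_le_mul_right _ (by omega)) (hG' γ' hγ').2⟩

end Pool.Agent.H813Z.Gam
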