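import Mathlib

/-!
# The cube estimate: sums of spread-out independent variables rarely avoid the digit two
-/

set_option autoImplicit false

namespace Pool.Agent.H813Z.Gam

open Finset

/-- the number with ternary digit one on `T` and zero elsewhere -/
def sg (T : Finset ℕ) : ℤ := ∑ k ∈ T, 3 ^ k

theorem digits_zero (c : ℕ → ℤ) (hc : ∀ k, |c k| ≤ 2) (L : ℕ)
    (h : (3 : ℤ) ^ L ∣ ∑ k ∈ range L, c k * 3 ^ k) : ∀ k < L, c k = 0 := by
  induction L with
  | zero => intro k hk; omega
  | succ L ih =>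
    rw [sum_range_succ] at h
    have h1 : (3 : ℤ) ^ L ∣ ∑ k ∈ range L, c k * 3 ^ k := by
      have h2 := (pow_dvd_pow (3 : ℤ) (Nat.le_succ L)).trans h
      exact (dvd_add_left (Dvd.intro_left _ rfl)).1 h2
    have h2 := ih h1
    rw [sum_eq_zero (fun k hk => by rw [h2 k (mem_range.1 hk), zero_mul]), zero_add, pow_succ,
      mul_comm (c L)] at h
    have h3 : (3 : ℤ) ∣ c L := (mul_dvd_mul_iff_left (by positivity)).1 h
    intro k hk
    rcases Nat.lt_succ_iff_lt_or_eq.1 hk with hk | rfl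
    · exact h2 k hk
    · have := abs_le.1 (hc k)
      omega

theorem sg_eq {T : Finset ℕ} {L : ℕ} (hT : T ⊆ range L) :
    sg T = ∑ k ∈ range L, (if k ∈ T then (1 : ℤ) else 0) * 3 ^ k := by
  unfold sg
  rw [← sum_subset hT (fun k _ hk => by rw [if_neg hk, zero_mul])]
  exact sum_congr rfl fun k hk => by rw [if_pos hk, one_mul]

/-- uniqueness of the balanced expansion -/
theorem pattern {L : ℕ} {T T' A A' : Finset ℕ} (hT : T ⊆ range L) (hT' : T' ⊆ range L)
    (hA : A ⊆ range L) (hA' : A' ⊆ A)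
    (h : (3 : ℤ) ^ L ∣ (sg T' - sg T) - (sg A' - sg (A \ A'))) :
    A \ A' ⊆ T ∧ Disjoint T A' := by
  have h1 := digits_zero (fun k => ((if k ∈ T' then (1 : ℤ) else 0) - (if k ∈ T then 1 else 0)) -
    ((if k ∈ A' then (1 : ℤ) else 0) - (if k ∈ A \ A' then 1 else 0))) (by
      intro k
      by_cases h1 : k ∈ T' <;> by_cases h2 : k ∈ T <;> by_cases h3 : k ∈ A' <;>
        by_cases h4 : k ∈ A <;> simp [h1, h2, h3, h4]) L (by
      rw [sg_eq hT, sg_eq hT', sg_eq (hA'.trans hA), sg_eq (sdiff_subset.trans hA),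
        ← sum_sub_distrib, ← sum_sub_distrib, ← sum_sub_distrib] at h
      convert h using 2 with k
      ring)
  constructor
  · intro k hk
    have h2 := h1 k (mem_range.1 (hA (sdiff_subset hk)))
    have h3 := (mem_sdiff.1 hk).2
    by_contra h4
    simp only [if_pos hk, if_neg h3, if_neg h4] at h2
    split_ifs at h2 <;> omega
  · rw [disjoint_left]
    intro k hk hk'
    have h2 := h1 k (mem_range.1 (hT hk))
    have h3 : k ∉ A \ A' := fun h => (mem_sdiff.1 h).2 hk'
    simp only [if_pos hk, if_pos hk', if_neg h3] at h2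
    split_ifs at h2 <;> omega

/-- `v` is congruent to a number with digits one only inside `J` -/
def InS (L : ℕ) (J : Finset ℕ) (v : ℤ) : Prop := ∃ T ⊆ J, (3 : ℤ) ^ L ∣ v - sg T

open Classical in
/-- the proportion of tuples whose sum lies in the digit set -/
noncomputable def pr {α : Type} [Fintype α] (_L : ℕ) {n : ℕ} (Y : Fin n → α → ℤ)
    (S : ℤ → Prop) : ℝ :=
  (∑ x : Fin n → α, if S (∑ i, Y i (x i)) then (1 : ℝ) else 0) / (Fintype.card α : ℝ) ^ n

theorem pr_nonneg {α : Type} [Fintype α] (L : ℕ) {n : ℕ} (Y : Fin n → α → ℤ) (S : ℤ → Prop) :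
    0 ≤ pr L Y S := by
  unfold pr
  exact div_nonneg (sum_nonneg fun x _ => by split_ifs <;> norm_num) (by positivity)

theorem pr_mono {α : Type} [Fintype α] (L : ℕ) {n : ℕ} (Y : Fin n → α → ℤ) {S S' : ℤ → Prop}
    (h : ∀ v, S v → S' v) : pr L Y S ≤ pr L Y S' := by
  unfold pr
  refine div_le_div_of_nonneg_right (sum_le_sum fun x _ => ?_) (by positivity)
  by_cases h1 : S (∑ i, Y i (x i))
  · rw [if_pos h1, if_pos (h _ h1)]
  · rw [if_neg h1]; split_ifs <;> norm_num

open Classical in
theorem sum_succ {α : Type} [Fintype α] {n : ℕ} (Y : Fin (n + 1) → α → ℤ) (S : ℤ → Prop) :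
    (∑ x : Fin (n + 1) → α, if S (∑ i, Y i (x i)) then (1 : ℝ) else 0) =
      ∑ x : Fin n → α, ∑ u : α, if S (∑ i, Y i.succ (x i) + Y 0 u) then (1 : ℝ) else 0 := by
  rw [sum_comm, ← Fintype.sum_prod_type', ← (Fin.consEquiv (fun _ => α)).sum_comp]
  refine sum_congr rfl fun p _ => ?_
  simp only [Fin.consEquiv_apply, Fin.sum_univ_succ, Fin.cons_zero, Fin.cons_succ, add_comm]

theorem pr_succ {α : Type} [Fintype α] [Nonempty α] (L : ℕ) {n : ℕ} (Y : Fin (n + 1) → α → ℤ)
    (S : ℤ → Prop) : pr L Y S =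
      (∑ u : α, pr L (fun i : Fin n => Y i.succ) (fun v => S (v + Y 0 u))) / Fintype.card α := by
  unfold pr
  rw [sum_succ, sum_comm, ← sum_div, div_div, pow_succ]

theorem pr_sq {α : Type} [Fintype α] [Nonempty α] (L : ℕ) {n : ℕ} (Y : Fin (n + 1) → α → ℤ)
    (S : ℤ → Prop) : pr L Y S ^ 2 ≤ (∑ p : α × α, pr L (fun i : Fin n => Y i.succ)
      (fun v => S (v + Y 0 p.1) ∧ S (v + Y 0 p.2))) / (Fintype.card α : ℝ) ^ 2 := by
  classical
  have hw : (0 : ℝ) < Fintype.card α := by exact_mod_cast Fintype.card_pos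
  unfold pr
  rw [sum_succ, ← sum_div, div_div, div_pow, div_le_div_iff₀ (by positivity) (by positivity)]
  have h1 := sq_sum_le_card_mul_sum_sq (s := (univ : Finset (Fin n → α)))
    (f := fun x : Fin n → α => ∑ u : α, if S (∑ i, Y i.succ (x i) + Y 0 u) then (1 : ℝ) else 0)
  rw [card_univ, Fintype.card_fun, Fintype.card_fin, Nat.cast_pow] at h1
  have h2 : ∑ x : Fin n → α, (∑ u : α, if S (∑ i, Y i.succ (x i) + Y 0 u) then (1 : ℝ) else 0) ^ 2
      = ∑ p : α × α, ∑ x : Fin n → α, if S (∑ i, Y i.succ (x i) + Y 0 p.1) ∧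
        S (∑ i, Y i.succ (x i) + Y 0 p.2) then (1 : ℝ) else 0 := by
    rw [sum_comm]
    refine sum_congr rfl fun x _ => ?_
    rw [sq, sum_mul_sum, ← Fintype.sum_prod_type']
    refine sum_congr rfl fun p _ => ?_
    by_cases h1 : S (∑ i, Y i.succ (x i) + Y 0 p.1) <;>
      by_cases h2 : S (∑ i, Y i.succ (x i) + Y 0 p.2) <;> simp [h1, h2]
  rw [h2] at h1
  calc _ ≤ ((Fintype.card α : ℝ) ^ n * ∑ p : α × α, ∑ x : Fin n → α,
        if S (∑ i, Y i.succ (x i) + Y 0 p.1) ∧ S (∑ i, Y i.succ (x i) + Y 0 p.2) then (1 : ℝ)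
        else 0) * ((Fintype.card α : ℝ) ^ n * (Fintype.card α : ℝ) ^ 2) :=
        mul_le_mul_of_nonneg_right h1 (by positivity)
    _ = _ := by
        rw [mul_comm ((Fintype.card α : ℝ) ^ n), mul_assoc]
        congr 1
        · refine sum_congr rfl fun p _ => sum_congr rfl fun x _ => ?_
          congr
        · ring

theorem avg_pow {β : Type} [Fintype β] [Nonempty β] (f : β → ℝ) (hf : ∀ b, 0 ≤ f b) (r : ℕ) :
    ((∑ b, f b) / Fintype.card β) ^ (2 ^ r) ≤ (∑ b, f b ^ (2 ^ r)) / Fintype.card β := by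
  have hw : (0 : ℝ) < Fintype.card β := by exact_mod_cast Fintype.card_pos
  obtain ⟨k, hk⟩ : ∃ k, 2 ^ r = k + 1 := ⟨2 ^ r - 1, by have := Nat.one_le_two_pow (n := r); omega⟩
  rw [hk, div_pow, div_le_div_iff₀ (by positivity) hw]
  have h := pow_sum_le_card_mul_sum_pow (s := (univ : Finset β)) (f := f) (fun b _ => hf b) k
  rw [card_univ] at h
  calc _ ≤ (Fintype.card β : ℝ) ^ k * (∑ b, f b ^ (k + 1)) * Fintype.card β :=
        mul_le_mul_of_nonneg_right h hw.le
    _ = _ := by ring

theorem cube {α : Type} [Fintype α] [Nonempty α] (L : ℕ) (n : ℕ) :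
    ∀ (Y : Fin n → α → ℤ) (g : Fin n → Bool),
    (∀ i, g i = true → ∀ u u', (3 : ℤ) ^ L ∣ Y i u - Y i u' → u = u') →
    ∀ (r : ℕ), r = ∑ i, (if g i = true then 1 else 0) → ∀ J ⊆ range L, ∀ P : ℤ,
    pr L Y (fun v => InS L J (v + P)) ^ (2 ^ r) ≤
      (1 + 2 * r) ^ J.card / (Fintype.card α : ℝ) ^ r := by
  classical
  have hw : (0 : ℝ) < Fintype.card α := by exact_mod_cast Fintype.card_pos
  induction n with
  | zero =>
    intro Y g _ r hr J _ P
    have : r = 0 := by simpa using hr
    subst this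
    unfold pr
    simp only [pow_zero, pow_one, div_one, Nat.cast_zero, mul_zero, add_zero, one_pow,
      Finset.univ_unique, sum_singleton]
    split_ifs <;> norm_num
  | succ n ih =>
    intro Y g hg r hr J hJ P
    rw [Fin.sum_univ_succ] at hr
    have ih' := ih (fun i => Y i.succ) (fun i => g i.succ) (fun i hi => hg i.succ hi) _ rfl
    by_cases h0 : g 0 = true
    · rw [if_pos h0] at hr
      set r' := ∑ i : Fin n, (if g i.succ = true then 1 else 0) with hr'
      have hrr : r = r' + 1 := by omega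
      subst hrr
      rw [pow_succ' 2 r', pow_mul]
      have h1 := pr_sq L Y (fun v => InS L J (v + P))
      rw [← Nat.cast_pow, sq (Fintype.card α), ← Fintype.card_prod] at h1
      refine (pow_le_pow_left₀ (sq_nonneg _) h1 _).trans ?_
      refine (avg_pow _ (fun p => pr_nonneg _ _ _) r').trans ?_
      have h2 : ∀ p : α × α, pr L (fun i : Fin n => Y i.succ)
          (fun v => InS L J (v + Y 0 p.1 + P) ∧ InS L J (v + Y 0 p.2 + P)) ^ (2 ^ r') ≤
          ∑ A ∈ J.powerset, ∑ A' ∈ A.powerset,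
            (if (3 : ℤ) ^ L ∣ (Y 0 p.2 - Y 0 p.1) - (sg A' - sg (A \ A')) then (1 : ℝ) else 0) *
            ((1 + 2 * r') ^ (J.card - A.card) / (Fintype.card α : ℝ) ^ r') := by
        intro p
        have hnn : ∀ A ∈ J.powerset, ∀ A' ∈ A.powerset, (0 : ℝ) ≤
            (if (3 : ℤ) ^ L ∣ (Y 0 p.2 - Y 0 p.1) - (sg A' - sg (A \ A')) then (1 : ℝ) else 0) *
            ((1 + 2 * r') ^ (J.card - A.card) / (Fintype.card α : ℝ) ^ r') := by
          intro A _ A' _
          split_ifs <;> positivity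
        by_cases hex : ∃ v, InS L J (v + Y 0 p.1 + P) ∧ InS L J (v + Y 0 p.2 + P)
        · obtain ⟨v₀, ⟨T₀, hT₀, h₀⟩, ⟨T₀', hT₀', h₀'⟩⟩ := hex
          set A := (T₀ \ T₀') ∪ (T₀' \ T₀) with hA
          set A' := T₀' \ T₀ with hA'
          have hAJ : A ⊆ J := union_subset (sdiff_subset.trans hT₀) (sdiff_subset.trans hT₀')
          have hA'A : A' ⊆ A := subset_union_right
          have hAA : A \ A' = T₀ \ T₀' := by
            ext k
            simp only [hA, hA', mem_sdiff, mem_union]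
            tauto
          have hdvd : (3 : ℤ) ^ L ∣ (Y 0 p.2 - Y 0 p.1) - (sg A' - sg (A \ A')) := by
            have e1 : sg A' - sg (A \ A') = sg T₀' - sg T₀ := by
              rw [hAA, hA']
              exact sum_sdiff_sub_sum_sdiff
            rw [e1]
            have := dvd_sub h₀' h₀
            rwa [show v₀ + Y 0 p.2 + P - sg T₀' - (v₀ + Y 0 p.1 + P - sg T₀) =
              (Y 0 p.2 - Y 0 p.1) - (sg T₀' - sg T₀) by ring] at this
          have h3 : pr L (fun i : Fin n => Y i.succ)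
              (fun v => InS L J (v + Y 0 p.1 + P) ∧ InS L J (v + Y 0 p.2 + P)) ≤
              pr L (fun i : Fin n => Y i.succ)
              (fun v => InS L (J \ A) (v + (Y 0 p.1 + P - sg (A \ A')))) := by
            apply pr_mono
            rintro v ⟨⟨T, hT, h⟩, ⟨T', hT', h'⟩⟩
            have h4 : (3 : ℤ) ^ L ∣ (sg T' - sg T) - (sg A' - sg (A \ A')) := by
              have := dvd_sub hdvd (dvd_sub h' h)
              rwa [show Y 0 p.2 - Y 0 p.1 - (sg A' - sg (A \ A')) -
                (v + Y 0 p.2 + P - sg T' - (v + Y 0 p.1 + P - sg T)) =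
                (sg T' - sg T) - (sg A' - sg (A \ A')) by ring] at this
            obtain ⟨h5, h6⟩ := pattern (hT.trans hJ) (hT'.trans hJ) (hAJ.trans hJ) hA'A h4
            refine ⟨T \ (A \ A'), ?_, ?_⟩
            · intro k hk
              rw [mem_sdiff] at hk ⊢
              refine ⟨hT hk.1, fun hkA => hk.2 (mem_sdiff.2 ⟨hkA, disjoint_left.1 h6 hk.1⟩)⟩
            · have e1 : sg (T \ (A \ A')) = sg T - sg (A \ A') := sum_sdiff_eq_sub h5
              rw [e1, show v + (Y 0 p.1 + P - sg (A \ A')) - (sg T - sg (A \ A')) =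
                v + Y 0 p.1 + P - sg T by ring]
              exact h
          have h4 := ih' (J \ A) (sdiff_subset.trans hJ) (Y 0 p.1 + P - sg (A \ A'))
          rw [card_sdiff_of_subset hAJ] at h4
          refine ((pow_le_pow_left₀ (pr_nonneg _ _ _) h3 _).trans h4).trans ?_
          refine le_trans ?_ (single_le_sum (fun A hA => sum_nonneg (hnn A hA))
            (mem_powerset.2 hAJ))
          refine le_trans ?_ (single_le_sum (hnn A (mem_powerset.2 hAJ)) (mem_powerset.2 hA'A))
          rw [if_pos hdvd, one_mul]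
        · have h3 : pr L (fun i : Fin n => Y i.succ)
              (fun v => InS L J (v + Y 0 p.1 + P) ∧ InS L J (v + Y 0 p.2 + P)) = 0 := by
            unfold pr
            exact div_eq_zero_iff.2 (Or.inl (sum_eq_zero fun x _ => if_neg (fun h => hex ⟨_, h⟩)))
          rw [h3, zero_pow (by positivity)]
          exact sum_nonneg fun A hA => sum_nonneg (hnn A hA)
      have h3 : ∀ u : α, ∀ c : ℤ, (∑ u' : α,
          if (3 : ℤ) ^ L ∣ (Y 0 u' - Y 0 u) - c then (1 : ℝ) else 0) ≤ 1 := by
        intro u c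
        rw [sum_boole]
        have : (univ.filter fun u' : α => (3 : ℤ) ^ L ∣ (Y 0 u' - Y 0 u) - c).card ≤ 1 := by
          rw [card_le_one]
          intro a ha b hb
          apply hg 0 h0
          have := dvd_sub (mem_filter.1 ha).2 (mem_filter.1 hb).2
          rwa [show Y 0 a - Y 0 u - c - (Y 0 b - Y 0 u - c) = Y 0 a - Y 0 b by ring] at this
        exact_mod_cast this
      have h4 : ∑ p : α × α, ∑ A ∈ J.powerset, ∑ A' ∈ A.powerset,
            (if (3 : ℤ) ^ L ∣ (Y 0 p.2 - Y 0 p.1) - (sg A' - sg (A \ A')) then (1 : ℝ) else 0) *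
            ((1 + 2 * r') ^ (J.card - A.card) / (Fintype.card α : ℝ) ^ r') ≤
          Fintype.card α * ((2 + (1 + 2 * r')) ^ J.card / (Fintype.card α : ℝ) ^ r') := by
        rw [Fintype.sum_prod_type, ← card_univ, ← nsmul_eq_mul, card_univ, ← card_univ]
        apply sum_le_card_nsmul
        intro u _
        rw [sum_comm, ← sum_pow_mul_eq_add_pow, sum_div]
        refine sum_le_sum fun A _ => ?_
        rw [sum_comm, mul_div_assoc]
        have e1 : (2 : ℝ) ^ A.card = A.powerset.card := by rw [card_powerset]; push_cast; rfl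
        rw [e1, ← nsmul_eq_mul]
        apply sum_le_card_nsmul
        intro A' _
        rw [← sum_mul]
        exact mul_le_of_le_one_left (by positivity) (h3 u _)
      calc _ ≤ (Fintype.card α * ((2 + (1 + 2 * r')) ^ J.card / (Fintype.card α : ℝ) ^ r')) /
            Fintype.card (α × α) :=
            div_le_div_of_nonneg_right ((sum_le_sum fun p _ => h2 p).trans h4) (by positivity)
        _ = _ := by
            rw [Fintype.card_prod]
            push_cast
            rw [show (2 : ℝ) + (1 + 2 * r') = 1 + 2 * (r' + 1) by ring]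
            field_simp
            ring
    · rw [if_neg h0, zero_add] at hr
      rw [pr_succ]
      refine (avg_pow _ (fun p => pr_nonneg _ _ _) r).trans ?_
      rw [div_le_iff₀ hw, mul_comm, ← card_univ, ← nsmul_eq_mul, card_univ, ← card_univ]
      apply sum_le_card_nsmul
      intro u _
      have := ih' J hJ (Y 0 u + P)
      rw [← hr] at this
      simpa only [add_assoc, card_univ] using this

end Pool.Agent.H813Z.Gam
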