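import Pool.Agent.H813Z.GamB
import Pool.Agent.H813Z.GamC

/-!
# Factorial languages of ternary words and the superblock estimate
-/

set_option autoImplicit false

namespace Pool.Agent.H813Z.Gam

open Finset

/-- `z` is a word of length `N` without the digit two -/
def OK (N z : ℕ) : Prop := z < 3 ^ N ∧ ∀ k < N, z / 3 ^ k % 3 ≠ 2

theorem dig_mod {N k : ℕ} (z : ℕ) (hk : k < N) : z % 3 ^ N / 3 ^ k % 3 = z / 3 ^ k % 3 := by
  obtain ⟨j, rfl⟩ : ∃ j, N = k + (j + 1) := ⟨N - k - 1, by omega⟩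
  rw [pow_add, Nat.mod_mul_right_div_self, pow_succ', Nat.mod_mul_right_mod]

theorem OK.low {N N' z : ℕ} (h : OK (N + N') z) : OK N (z % 3 ^ N) :=
  ⟨Nat.mod_lt _ (by positivity), fun k hk => by rw [dig_mod z hk]; exact h.2 k (by omega)⟩

theorem OK.high {N N' z : ℕ} (h : OK (N + N') z) : OK N' (z / 3 ^ N) := by
  refine ⟨?_, fun k hk => ?_⟩
  · rw [Nat.div_lt_iff_lt_mul (by positivity), ← pow_add, add_comm]; exact h.1
  · rw [Nat.div_div_eq_div_mul, ← pow_add]; exact h.2 _ (by omega)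

theorem OK.sg {N : ℕ} : ∀ {z : ℕ}, OK N z → ∃ T ⊆ range N, (z : ℤ) = sg T := by
  induction N with
  | zero =>
    intro z h
    have := h.1
    exact ⟨∅, empty_subset _, by simp [Gam.sg]; omega⟩
  | succ N ih =>
    intro z h
    obtain ⟨T, hT, hz⟩ := ih h.low
    have h1 := (h.high (N' := 1)).1
    have h2 := h.2 N (by omega)
    have h3 := Nat.mod_add_div z (3 ^ N)
    have h4 : z / 3 ^ N = 0 ∨ z / 3 ^ N = 1 := by
      generalize z / 3 ^ N = w at h1 h2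
      omega
    have hN : N ∉ T := fun h => by simpa using hT h
    rcases h4 with h4 | h4
    · refine ⟨T, hT.trans (range_subset_range.2 (by omega)), ?_⟩
      rw [← hz, ← h3, h4]
      simp
    · refine ⟨insert N T, ?_, ?_⟩
      · rw [range_add_one]; exact insert_subset_insert _ hT
      · unfold Gam.sg at hz ⊢
        rw [sum_insert hN, ← hz]
        conv_lhs => rw [← h3, h4]
        push_cast
        ring

/-- a factorial language of ternary words -/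
structure Fac (W : ℕ → Finset ℕ) : Prop where
  lt : ∀ N x, x ∈ W N → x < 3 ^ N
  low : ∀ N N' x, x ∈ W (N + N') → x % 3 ^ N ∈ W N
  high : ∀ N N' x, x ∈ W (N + N') → x / 3 ^ N ∈ W N'

/-- `(U x + c) / D` avoids the digit two in its first `N` places -/
def Rel (U D c : ℤ) (N x : ℕ) : Prop := ∃ z, OK N z ∧ (3 : ℤ) ^ N ∣ D * z - (U * x + c)

theorem dvd_of_eq {a b c : ℤ} (h : a ∣ b) (e : c = b) : a ∣ c := e ▸ h

theorem cast_split (x N : ℕ) : (x : ℤ) = (x % 3 ^ N : ℕ) + 3 ^ N * (x / 3 ^ N : ℕ) := by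
  exact_mod_cast (Nat.mod_add_div x (3 ^ N)).symm

theorem rel_split {U D c : ℤ} {N N' x z : ℕ} (hz : OK (N + N') z)
    (h : (3 : ℤ) ^ (N + N') ∣ D * z - (U * x + c)) :
    (3 : ℤ) ^ N ∣ D * (z % 3 ^ N : ℕ) - (U * (x % 3 ^ N : ℕ) + c) ∧
    ∀ c', U * (x % 3 ^ N : ℕ) + c - D * (z % 3 ^ N : ℕ) = 3 ^ N * c' →
      Rel U D c' N' (x / 3 ^ N) := by
  have e : D * z - (U * x + c) = (D * (z % 3 ^ N : ℕ) - (U * (x % 3 ^ N : ℕ) + c)) +
      3 ^ N * (D * (z / 3 ^ N : ℕ) - U * (x / 3 ^ N : ℕ)) := by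
    conv_lhs => rw [cast_split x N, cast_split z N]
    ring
  constructor
  · have h1 := (pow_dvd_pow (3 : ℤ) (Nat.le_add_right N N')).trans h
    rw [e] at h1
    exact (dvd_add_left (Dvd.intro _ rfl)).1 h1
  · intro c' hc'
    refine ⟨z / 3 ^ N, hz.high, ?_⟩
    have e2 : D * z - (U * x + c) = 3 ^ N * (D * (z / 3 ^ N : ℕ) - (U * (x / 3 ^ N : ℕ) + c')) := by
      rw [e]; linear_combination -hc'
    rw [e2, pow_add] at h
    exact (mul_dvd_mul_iff_left (by positivity)).1 h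

theorem Rel.low {U D c : ℤ} {N N' x : ℕ} (h : Rel U D c (N + N') x) : Rel U D c N (x % 3 ^ N) := by
  obtain ⟨z, hz, h⟩ := h
  exact ⟨z % 3 ^ N, hz.low, (rel_split hz h).1⟩

theorem Rel.high {U D c : ℤ} {N N' x : ℕ} (hU : 0 < U) (hD : 0 < D) (h1 : -D < c) (h2 : c < U)
    (h : Rel U D c (N + N') x) : ∃ c', -D < c' ∧ c' < U ∧ Rel U D c' N' (x / 3 ^ N) := by
  obtain ⟨z, hz, h⟩ := h
  obtain ⟨⟨c', hc'⟩, h4⟩ := rel_split hz h
  have hP : (0 : ℤ) < 3 ^ N := by positivity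
  have a1 : ((x % 3 ^ N : ℕ) : ℤ) + 1 ≤ 3 ^ N := by
    exact_mod_cast Nat.mod_lt x (by positivity : 0 < 3 ^ N)
  have a2 : ((z % 3 ^ N : ℕ) : ℤ) + 1 ≤ 3 ^ N := by
    exact_mod_cast Nat.mod_lt z (by positivity : 0 < 3 ^ N)
  have a3 : (0 : ℤ) ≤ (x % 3 ^ N : ℕ) := Nat.cast_nonneg _
  have a4 : (0 : ℤ) ≤ (z % 3 ^ N : ℕ) := Nat.cast_nonneg _
  refine ⟨-c', ?_, ?_, h4 _ (by linear_combination -hc')⟩
  · have : 3 ^ N * c' < 3 ^ N * D := by nlinarith
    have := lt_of_mul_lt_mul_left this hP.le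
    omega
  · have : 3 ^ N * (-c') < 3 ^ N * U := by nlinarith
    exact lt_of_mul_lt_mul_left this hP.le

theorem carry {U D : ℤ} (hD : IsCoprime (3 : ℤ) D) (c : ℤ) (N a : ℕ) :
    ∃ c', ∀ N' x, x % 3 ^ N = a → Rel U D c (N + N') x → Rel U D c' N' (x / 3 ^ N) := by
  by_cases hex : ∃ z₁ : ℕ, z₁ < 3 ^ N ∧ (3 : ℤ) ^ N ∣ D * z₁ - (U * a + c)
  · obtain ⟨z₁, h1, c', hc'⟩ := hex
    refine ⟨-c', fun N' x hx ⟨z, hz, h⟩ => ?_⟩
    obtain ⟨h3, h4⟩ := rel_split hz h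
    rw [hx] at h3 h4
    have h5 : (3 : ℤ) ^ N ∣ ((z % 3 ^ N : ℕ) : ℤ) - z₁ := by
      apply (IsCoprime.pow_left hD).dvd_of_dvd_mul_left
      have := dvd_sub h3 (⟨c', hc'⟩ : (3 : ℤ) ^ N ∣ D * z₁ - (U * a + c))
      rwa [show D * (z % 3 ^ N : ℕ) - (U * a + c) - (D * z₁ - (U * a + c)) =
        D * (((z % 3 ^ N : ℕ) : ℤ) - z₁) by ring] at this
    have h6 : ((z % 3 ^ N : ℕ) : ℤ) - z₁ = 0 := by
      apply Int.eq_zero_of_abs_lt_dvd h5
      have a2 : ((z % 3 ^ N : ℕ) : ℤ) < 3 ^ N := by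
        exact_mod_cast Nat.mod_lt z (by positivity : 0 < 3 ^ N)
      have a1 : (z₁ : ℤ) < 3 ^ N := by exact_mod_cast h1
      have a3 : (0 : ℤ) ≤ (z % 3 ^ N : ℕ) := Nat.cast_nonneg _
      have a4 : (0 : ℤ) ≤ z₁ := Nat.cast_nonneg _
      rw [abs_lt]; constructor <;> linarith
    apply h4
    linear_combination -hc' - D * h6
  · refine ⟨0, fun N' x hx ⟨z, hz, h⟩ => (hex ⟨z % 3 ^ N, hz.low.1, ?_⟩).elim⟩
    rw [← hx]
    exact (rel_split hz h).1

theorem fiber (S A : Finset ℕ) (N : ℕ) (τ : ℝ) (hA : ∀ x ∈ S, x % 3 ^ N ∈ A)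
    (h : ∀ a ∈ A, ∃ F : Finset ℕ, (F.card : ℝ) ≤ τ ∧ ∀ x ∈ S, x % 3 ^ N = a → x / 3 ^ N ∈ F) :
    (S.card : ℝ) ≤ A.card * τ := by
  rw [card_eq_sum_card_fiberwise (f := fun x => x % 3 ^ N) (t := A) (fun x hx => hA x hx),
    Nat.cast_sum, ← nsmul_eq_mul]
  apply sum_le_card_nsmul
  intro a ha
  obtain ⟨F, hF, hF'⟩ := h a ha
  refine le_trans ?_ hF
  exact_mod_cast card_le_card_of_injOn (fun x => x / 3 ^ N)
    (fun x hx => hF' x (mem_filter.1 hx).1 (mem_filter.1 hx).2) (by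
      intro x hx y hy hxy
      have h1 := (mem_filter.1 hx).2
      have h2 := (mem_filter.1 hy).2
      have h3 := Nat.mod_add_div x (3 ^ N)
      have h4 := Nat.mod_add_div y (3 ^ N)
      simp only at hxy h1 h2
      rw [← h3, ← h4, h1, h2, hxy])

theorem Fac.card_zero {W : ℕ → Finset ℕ} (hW : Fac W) (S : Finset ℕ) (hS : S ⊆ W 0) :
    (S.card : ℝ) ≤ 1 := by
  have : S.card ≤ 1 := by
    rw [card_le_one]
    intro a ha b hb
    have h1 := hW.lt 0 a (hS ha)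
    have h2 := hW.lt 0 b (hS hb)
    omega
  exact_mod_cast this

theorem Fac.card_mul {W : ℕ → Finset ℕ} (hW : Fac W) (B t : ℕ) :
    ((W (t * B)).card : ℝ) ≤ (W B).card ^ t := by
  induction t with
  | zero => rw [zero_mul, pow_zero]; exact hW.card_zero _ Subset.rfl
  | succ t ih =>
    rw [add_mul, one_mul, pow_succ]
    refine (fiber _ (W (t * B)) (t * B) (W B).card (fun x hx => hW.low _ _ x hx)
      (fun a _ => ⟨W B, le_rfl, fun x hx _ => hW.high _ _ x hx⟩)).trans ?_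
    exact mul_le_mul_of_nonneg_right ih (Nat.cast_nonneg _)

open Classical in
/-- words of the language satisfying the relation with a fixed carry -/
noncomputable def cs (W : ℕ → Finset ℕ) (U D c : ℤ) (N : ℕ) : Finset ℕ :=
  (W N).filter (Rel U D c N)

theorem mem_cs {W : ℕ → Finset ℕ} {U D c : ℤ} {N x : ℕ} :
    x ∈ cs W U D c N ↔ x ∈ W N ∧ Rel U D c N x := by
  unfold cs
  classical
  rw [mem_filter]

theorem cs_mul {W : ℕ → Finset ℕ} (hW : Fac W) {U D : ℤ} (hD : IsCoprime (3 : ℤ) D) (N₀ : ℕ)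
    (τ : ℝ) (hτ : 0 ≤ τ) (h : ∀ P, ((cs W U D P N₀).card : ℝ) ≤ τ) (c : ℤ) (m : ℕ) :
    ((cs W U D c (m * N₀)).card : ℝ) ≤ τ ^ m := by
  induction m with
  | zero =>
    rw [zero_mul, pow_zero]
    exact hW.card_zero _ fun x hx => (mem_cs.1 hx).1
  | succ m ih =>
    rw [add_mul, one_mul, pow_succ]
    refine (fiber _ (cs W U D c (m * N₀)) (m * N₀) τ (fun x hx => ?_) (fun a _ => ?_)).trans ?_
    · rw [mem_cs] at hx ⊢
      exact ⟨hW.low _ _ x hx.1, hx.2.low⟩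
    · obtain ⟨c', hc'⟩ := carry (U := U) hD c (m * N₀) a
      refine ⟨cs W U D c' N₀, h c', fun x hx hxa => ?_⟩
      rw [mem_cs] at hx ⊢
      exact ⟨hW.high _ _ x hx.1, hc' _ x hxa hx.2⟩
    · exact mul_le_mul_of_nonneg_right ih hτ

theorem blocks (B x k : ℕ) :
    x % 3 ^ (k * B) = ∑ j ∈ range k, (x / 3 ^ (j * B) % 3 ^ B) * 3 ^ (j * B) := by
  induction k with
  | zero => simp [Nat.mod_one]
  | succ k ih => rw [sum_range_succ, ← ih, add_mul, one_mul, pow_add, Nat.mod_mul, mul_comm (3 ^ _)]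

theorem Fac.block {W : ℕ → Finset ℕ} (hW : Fac W) {B k j x : ℕ} (hj : j < k) (hx : x ∈ W (k * B)) :
    x / 3 ^ (j * B) % 3 ^ B ∈ W B := by
  obtain ⟨i, rfl⟩ : ∃ i, k = j + 1 + i := ⟨k - j - 1, by omega⟩
  rw [show (j + 1 + i) * B = j * B + (B + i * B) by ring] at hx
  exact hW.low _ _ _ (hW.high _ _ _ hx)

theorem superblock {W : ℕ → Finset ℕ} (hW : Fac W) {U D : ℤ} (hD : IsCoprime (3 : ℤ) D)
    {B n : ℕ} (G : Finset ℕ) (hG : ∀ γ ∈ G, Good U D B γ ∧ γ ≤ n) (hne : (W B).Nonempty)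
    (q : ℝ) (hq : 0 ≤ q)
    (hq' : (1 + 2 * (G.card : ℝ)) ^ (4 * B) / ((W B).card : ℝ) ^ G.card ≤ q ^ (2 ^ G.card))
    (P : ℤ) : ((cs W U D P ((n + 4) * B)).card : ℝ) ≤ (n + 5) * ((W B).card ^ (n + 4) * q) := by
  classical
  obtain ⟨a, b, hab⟩ := IsCoprime.pow_left (m := (n + 4) * B) hD
  set M := b * U with hM
  set Q : ℤ := 3 ^ (n * B) with hQ
  have hQ0 : 0 < Q := by positivity
  have : Nonempty (W B) := hne.to_subtype
  let Y : Fin (n + 4) → (W B) → ℤ := fun j u => (M * (u.1 : ℕ) * 3 ^ (j.1 * B)) / Q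
  let g : Fin (n + 4) → Bool := fun j => decide (j.1 ≤ n ∧ n - j.1 ∈ G)
  have hr : G.card = ∑ i, (if g i = true then 1 else 0) := by
    rw [← card_filter]
    symm
    apply card_nbij' (fun j => n - j.1) (fun γ => ⟨n - γ, by omega⟩)
    · intro j hj
      simp only [g, coe_filter, mem_univ, true_and, decide_eq_true_eq, Set.mem_ofPred_eq] at hj
      exact hj.2
    · intro γ hγ
      have := (hG γ hγ).2
      simp only [g, coe_filter, mem_univ, true_and, decide_eq_true_eq, Set.mem_ofPred_eq]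
      refine ⟨by omega, ?_⟩
      rw [show n - (n - γ) = γ by omega]
      exact hγ
    · intro j hj
      simp only [g, coe_filter, mem_univ, true_and, decide_eq_true_eq, Set.mem_ofPred_eq] at hj
      ext
      simp only
      omega
    · intro γ hγ
      have := (hG γ hγ).2
      simp only
      omega
  have hinj : ∀ i, g i = true → ∀ u u', (3 : ℤ) ^ (4 * B) ∣ Y i u - Y i u' → u = u' := by
    intro j hj u u' h
    simp only [g, decide_eq_true_eq] at hj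
    obtain ⟨γ, hγ⟩ : ∃ γ, n = γ + j.1 := ⟨n - j.1, by omega⟩
    have hγG : γ ∈ G := by rw [show γ = n - j.1 by omega]; exact hj.2
    have hQe : Q = 3 ^ (γ * B) * 3 ^ (j.1 * B) := by rw [hQ, ← pow_add, ← add_mul, ← hγ]
    have hY : ∀ v : W B, Y j v = M * (v.1 : ℕ) / 3 ^ (γ * B) := by
      intro v
      simp only [Y]
      rw [hQe, Int.mul_ediv_mul_of_pos_left _ _ (by positivity)]
    rw [hY, hY] at h
    by_contra hne
    have hs0 : ((u.1 : ℕ) : ℤ) - (u'.1 : ℕ) ≠ 0 := by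
      intro h0
      apply hne
      ext
      exact_mod_cast sub_eq_zero.1 h0
    have hP : (0 : ℤ) < 3 ^ (γ * B) := by positivity
    have b1 : ((u.1 : ℕ) : ℤ) < 3 ^ B := by exact_mod_cast hW.lt _ _ u.2
    have b2 : ((u'.1 : ℕ) : ℤ) < 3 ^ B := by exact_mod_cast hW.lt _ _ u'.2
    have b3 : (0 : ℤ) ≤ (u.1 : ℕ) := Nat.cast_nonneg _
    have b4 : (0 : ℤ) ≤ (u'.1 : ℕ) := Nat.cast_nonneg _
    have c1 := Int.emod_nonneg (M * (u.1 : ℕ)) hP.ne'
    have c2 := Int.emod_nonneg (M * (u'.1 : ℕ)) hP.ne'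
    have c3 := Int.emod_lt_of_pos (M * (u.1 : ℕ)) hP
    have c4 := Int.emod_lt_of_pos (M * (u'.1 : ℕ)) hP
    have d1 := Int.emod_add_mul_ediv (M * (u.1 : ℕ)) (3 ^ (γ * B))
    have d2 := Int.emod_add_mul_ediv (M * (u'.1 : ℕ)) (3 ^ (γ * B))
    refine (hG γ hγG).1 _ (M * (u.1 : ℕ) % 3 ^ (γ * B) - M * (u'.1 : ℕ) % 3 ^ (γ * B)) hs0
      (by rw [abs_lt]; constructor <;> linarith) (by rw [abs_lt]; constructor <;> linarith) ?_
    have e1 : (3 : ℤ) ^ ((γ + 4) * B) ∣ 3 ^ ((n + 4) * B) :=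
      pow_dvd_pow _ (Nat.mul_le_mul_right _ (by omega))
    have e2 : (3 : ℤ) ^ ((γ + 4) * B) ∣ 3 ^ (γ * B) *
        (M * (u.1 : ℕ) / 3 ^ (γ * B) - M * (u'.1 : ℕ) / 3 ^ (γ * B)) := by
      rw [add_mul, pow_add]
      exact mul_dvd_mul_left _ h
    have e3 := dvd_add (e2.mul_left D) (e1.mul_left ((((u.1 : ℕ) : ℤ) - (u'.1 : ℕ)) * U * a))
    refine dvd_of_eq e3 ?_
    linear_combination (-D) * d1 + D * d2 - (((u.1 : ℕ) : ℤ) - (u'.1 : ℕ)) * U * hab
  have hw : (0 : ℝ) < (W B).card := by exact_mod_cast hne.card_pos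
  have hpr : ∀ P' : ℤ, (∑ f : Fin (n + 4) → W B,
      if InS (4 * B) (range (4 * B)) (∑ i, Y i (f i) + P') then (1 : ℝ) else 0) ≤
      (W B).card ^ (n + 4) * q := by
    intro P'
    have h1 := cube (4 * B) (n + 4) Y g hinj G.card hr (range (4 * B)) Subset.rfl P'
    rw [card_range, Fintype.card_coe] at h1
    have h2 := (pow_le_pow_iff_left₀ (pr_nonneg _ _ _) hq (by positivity)).1 (h1.trans hq')
    unfold pr at h2
    rw [div_le_iff₀ (by rw [Fintype.card_coe]; positivity), Fintype.card_coe, mul_comm q] at h2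
    exact h2
  let φ : ℕ → Fin (n + 4) → W B := fun x j =>
    if h : x / 3 ^ (j.1 * B) % 3 ^ B ∈ W B then ⟨_, h⟩ else Classical.arbitrary _
  have hφ : ∀ x ∈ W ((n + 4) * B), ∀ j, ((φ x j).1 : ℕ) = x / 3 ^ (j.1 * B) % 3 ^ B := by
    intro x hx j
    simp only [φ]
    rw [dif_pos (hW.block j.2 hx)]
  have hsum : ∀ x ∈ W ((n + 4) * B), x = ∑ j : Fin (n + 4), ((φ x j).1 : ℕ) * 3 ^ (j.1 * B) := by
    intro x hx
    have h1 := blocks B x (n + 4)
    rw [Nat.mod_eq_of_lt (hW.lt _ _ hx), sum_range] at h1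
    rw [h1]
    refine sum_congr rfl fun j _ => ?_
    rw [← h1, hφ x hx]
  have hkey : ∀ x ∈ cs W U D P ((n + 4) * B), (1 : ℝ) ≤ ∑ e ∈ range (n + 5),
      if InS (4 * B) (range (4 * B)) (∑ i, Y i (φ x i) + (b * P / Q + e)) then (1 : ℝ) else 0 := by
    intro x hx
    obtain ⟨hx, z, hz, hdvd⟩ := mem_cs.1 hx
    rw [add_mul] at hz
    obtain ⟨T, hT, hzT⟩ := hz.high.sg
    have hxs : (x : ℤ) = ∑ j : Fin (n + 4), (((φ x j).1 : ℕ) : ℤ) * 3 ^ (j.1 * B) := by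
      exact_mod_cast hsum x hx
    set R : ℤ := ∑ j : Fin (n + 4), (M * ((φ x j).1 : ℕ) * 3 ^ (j.1 * B)) % Q with hR
    have hMx : M * x = Q * ∑ i, Y i (φ x i) + R := by
      rw [hR, mul_sum, ← sum_add_distrib]
      conv_lhs => rw [hxs, mul_sum]
      refine sum_congr rfl fun j _ => ?_
      simp only [Y]
      rw [Int.mul_ediv_add_emod]
      ring
    have hR0 : 0 ≤ R := sum_nonneg fun j _ => Int.emod_nonneg _ hQ0.ne'
    have hR1 : R ≤ (n + 4) * (Q - 1) := by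
      have := sum_le_card_nsmul (univ : Finset (Fin (n + 4)))
        (fun j => (M * ((φ x j).1 : ℕ) * 3 ^ (j.1 * B)) % Q) (Q - 1)
        (fun j _ => by have := Int.emod_lt_of_pos (M * ((φ x j).1 : ℕ) * 3 ^ (j.1 * B)) hQ0; omega)
      rw [card_univ, Fintype.card_fin, nsmul_eq_mul] at this
      push_cast at this
      exact this
    have c1 := Int.emod_nonneg (b * P) hQ0.ne'
    have c3 := Int.emod_lt_of_pos (b * P) hQ0
    have d1 := Int.emod_add_mul_ediv (b * P) Q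
    have hzs := cast_split z (n * B)
    rw [← hQ, hzT] at hzs
    have z0 : (0 : ℤ) ≤ (z % 3 ^ (n * B) : ℕ) := Nat.cast_nonneg _
    have z1 : ((z % 3 ^ (n * B) : ℕ) : ℤ) < Q := by
      rw [hQ]; exact_mod_cast Nat.mod_lt z (by positivity : 0 < 3 ^ (n * B))
    have h1 : (3 : ℤ) ^ ((n + 4) * B) ∣ Q * (∑ i, Y i (φ x i) + b * P / Q - sg T) +
        (R + b * P % Q - (z % 3 ^ (n * B) : ℕ)) := by
      have e3 := dvd_sub ((dvd_refl ((3 : ℤ) ^ ((n + 4) * B))).mul_left (-(a * z))) (hdvd.mul_left b)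
      refine dvd_of_eq e3 ?_
      linear_combination -hMx + d1 + hzs + z * hab
    have hsplit : (3 : ℤ) ^ ((n + 4) * B) = Q * 3 ^ (4 * B) := by rw [add_mul, pow_add]
    rw [hsplit] at h1
    obtain ⟨e, he⟩ : Q ∣ R + b * P % Q - (z % 3 ^ (n * B) : ℕ) :=
      (dvd_add_right (Dvd.intro _ rfl)).1 ((Dvd.intro _ rfl).trans h1)
    rw [he, ← mul_add] at h1
    have h2 := (mul_dvd_mul_iff_left hQ0.ne').1 h1
    have e0 : -1 < e := by
      have : Q * (-1) < Q * e := by linarith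
      exact lt_of_mul_lt_mul_left this hQ0.le
    have e1 : e < n + 5 := by
      have : Q * e < Q * (n + 5) := by nlinarith
      exact lt_of_mul_lt_mul_left this hQ0.le
    obtain ⟨e', rfl⟩ := Int.eq_ofNat_of_zero_le (show 0 ≤ e by omega)
    refine le_trans ?_ (single_le_sum (f := fun e : ℕ => if InS (4 * B) (range (4 * B))
      (∑ i, Y i (φ x i) + (b * P / Q + e)) then (1 : ℝ) else 0)
      (fun e _ => by split_ifs <;> norm_num) (mem_range.2 (show e' < n + 5 by omega)))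
    rw [if_pos]
    refine ⟨T, hT, ?_⟩
    refine dvd_of_eq h2 ?_
    ring
  calc ((cs W U D P ((n + 4) * B)).card : ℝ) = ∑ x ∈ cs W U D P ((n + 4) * B), (1 : ℝ) := by simp
    _ ≤ _ := sum_le_sum hkey
    _ ≤ ∑ e ∈ range (n + 5), ((W B).card ^ (n + 4) * q) := by
        rw [sum_comm]
        refine sum_le_sum fun e _ => le_trans ?_ (hpr (b * P / Q + e))
        rw [← sum_image (s := cs W U D P ((n + 4) * B)) (g := φ)
          (f := fun f => if InS (4 * B) (range (4 * B)) (∑ i, Y i (f i) + (b * P / Q + e))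
            then (1 : ℝ) else 0)]
        · exact sum_le_univ_sum_of_nonneg fun f => by split_ifs <;> norm_num
        · intro x hx y hy hxy
          rw [hsum x (mem_cs.1 hx).1, hsum y (mem_cs.1 hy).1, hxy]
    _ = _ := by simp

end Pool.Agent.H813Z.Gam
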