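import Pool.Agent.H813Z.GamD

/-!
# The entropy drop for one multiplier and its iteration
-/

set_option autoImplicit false

namespace Pool.Agent.H813Z.Gam

open Finset

open Classical in
/-- the words compatible with one more multiplier -/
noncomputable def nxt (W : ℕ → Finset ℕ) (U D : ℤ) (N : ℕ) : Finset ℕ :=
  (W N).filter (fun x => ∃ c, -D < c ∧ c < U ∧ Rel U D c N x)

theorem mem_nxt {W : ℕ → Finset ℕ} {U D : ℤ} {N x : ℕ} :
    x ∈ nxt W U D N ↔ x ∈ W N ∧ ∃ c, -D < c ∧ c < U ∧ Rel U D c N x := by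
  unfold nxt
  classical
  rw [mem_filter]

theorem UD.pos {d : ℕ} {U D : ℤ} (h : UD d U D) : 0 < U ∧ 0 < D ∧ U + D - 1 = 2 ^ d := by
  rcases h with ⟨rfl, rfl⟩ | ⟨rfl, rfl⟩
  · exact ⟨by positivity, one_pos, by ring⟩
  · exact ⟨one_pos, by positivity, by ring⟩

theorem Fac.nxt {W : ℕ → Finset ℕ} (hW : Fac W) {U D : ℤ} (hU : 0 < U) (hD : 0 < D) :
    Fac (nxt W U D) where
  lt N x hx := hW.lt N x (mem_nxt.1 hx).1
  low N N' x hx := by
    obtain ⟨h1, c, h2, h3, h4⟩ := mem_nxt.1 hx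
    exact mem_nxt.2 ⟨hW.low _ _ _ h1, c, h2, h3, h4.low⟩
  high N N' x hx := by
    obtain ⟨h1, c, h2, h3, h4⟩ := mem_nxt.1 hx
    exact mem_nxt.2 ⟨hW.high _ _ _ h1, h4.high hU hD h2 h3⟩

theorem card_nxt {W : ℕ → Finset ℕ} {d : ℕ} {U D : ℤ} (hUD : UD d U D) (N : ℕ) (τ : ℝ)
    (h : ∀ c, ((cs W U D c N).card : ℝ) ≤ τ) : ((nxt W U D N).card : ℝ) ≤ 2 ^ d * τ := by
  obtain ⟨hU, hD, hs⟩ := hUD.pos
  have h1 : nxt W U D N ⊆ (Ioo (-D) U).biUnion (fun c => cs W U D c N) := by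
    intro x hx
    obtain ⟨h1, c, h2, h3, h4⟩ := mem_nxt.1 hx
    exact mem_biUnion.2 ⟨c, mem_Ioo.2 ⟨h2, h3⟩, mem_cs.2 ⟨h1, h4⟩⟩
  have h2 : ((Ioo (-D) U).card : ℝ) = 2 ^ d := by
    have : (Ioo (-D) U).card = 2 ^ d := by
      rw [Int.card_Ioo, show U - -D - 1 = ((2 ^ d : ℕ) : ℤ) by push_cast; linarith,
        Int.toNat_natCast]
    rw [this]; push_cast; rfl
  calc ((nxt W U D N).card : ℝ) ≤ (∑ c ∈ Ioo (-D) U, (cs W U D c N).card : ℕ) := by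
        exact_mod_cast (card_le_card h1).trans card_biUnion_le
    _ ≤ _ := by
        rw [Nat.cast_sum, ← h2, ← nsmul_eq_mul]
        exact sum_le_card_nsmul _ _ _ fun c _ => h c

theorem exists_r {ρ₀ : ℝ} (h : 1 < ρ₀) : ∃ r : ℕ, 2 * (1 + 2 * (r : ℝ)) ^ 4 ≤ ρ₀ ^ r := by
  have h1 := tendsto_pow_const_div_const_pow_of_one_lt 4 h
  obtain ⟨N, hN⟩ := Filter.eventually_atTop.1
    (h1.eventually (gt_mem_nhds (show (0 : ℝ) < 1 / 162 by norm_num)))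
  refine ⟨N + 1, ?_⟩
  have h2 := hN (N + 1) (by omega)
  rw [div_lt_div_iff₀ (by positivity) (by norm_num)] at h2
  have h3 : (1 + 2 * ((N + 1 : ℕ) : ℝ)) ≤ 3 * ((N + 1 : ℕ) : ℝ) := by
    push_cast
    have : (0 : ℝ) ≤ N := Nat.cast_nonneg _
    linarith
  have h4 := pow_le_pow_left₀ (by positivity) h3 4
  rw [mul_pow] at h4
  linarith

theorem drop {ρ₀ : ℝ} (h₀ : 1 < ρ₀) : ∃ θ : ℝ, 0 < θ ∧ θ < 1 ∧ ∃ E K d₀ : ℕ, 1 ≤ E ∧ 1 ≤ K ∧
    ∀ W, Fac W → ∀ d, d₀ ≤ d → ∀ U D, UD d U D → ∀ B₀, 1 ≤ B₀ → E * B₀ ≤ d → ∀ ρ : ℝ, 0 ≤ ρ →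
    ((W B₀).card : ℝ) ≤ ρ ^ B₀ → ∃ N, 1 ≤ N ∧ N ≤ K * d ∧
      ((nxt W U D N).card : ℝ) ≤ (max ρ₀ (θ * ρ)) ^ N := by
  obtain ⟨r, hr⟩ := exists_r h₀
  obtain ⟨e, d₁, he, hgood⟩ := goods r 1 le_rfl
  set Γ := 2 * e + 4 with hΓ
  set p := 3 * Γ * 2 ^ r with hp
  have hp0 : p ≠ 0 := by positivity
  set θ : ℝ := (1 / 2 : ℝ) ^ ((p : ℝ)⁻¹) with hθ
  have hθp : θ ^ p = 1 / 2 := Real.rpow_inv_natCast_pow (by norm_num) hp0
  have hθ0 : 0 < θ := Real.rpow_pos_of_pos (by norm_num) _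
  have hθ1 : θ < 1 := by
    by_contra hc
    have := one_le_pow₀ (n := p) (not_lt.1 hc)
    rw [hθp] at this
    norm_num at this
  set m := 3 * 2 ^ r * (2 * e) with hm
  have hm0 : 1 ≤ m := Nat.pos_of_ne_zero (by positivity)
  refine ⟨θ, hθ0, hθ1, e, m * Γ, max d₁ (2 * e * (3 * 2 ^ r * (Γ + 1))), he,
    Nat.pos_of_ne_zero (by positivity), ?_⟩
  intro W hW d hd U D hUD B₀ hB₀ heB ρ hρ hWB
  have hpos : 0 < e * B₀ := by positivity
  set t := d / (e * B₀) with ht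
  have ht1 : 1 ≤ t := (Nat.le_div_iff_mul_le hpos).2 (by omega)
  set B := t * B₀ with hB
  have hB1 : 1 ≤ B := Nat.pos_of_ne_zero (by positivity)
  have h1 : e * B ≤ d := by
    have := Nat.div_mul_le_self d (e * B₀)
    rw [hB]; nlinarith
  have h2 : d < 2 * e * B := by
    have := Nat.lt_mul_div_succ d hpos
    rw [hB]; nlinarith
  have hBd : B ≤ d := by nlinarith
  have hw : ((W B).card : ℝ) ≤ ρ ^ B := by
    refine (hW.card_mul B₀ t).trans ?_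
    rw [hB, mul_comm t, pow_mul]
    exact pow_le_pow_left₀ (Nat.cast_nonneg _) hWB _
  by_cases hsmall : ((W B).card : ℝ) ≤ ρ₀ ^ B
  · refine ⟨B, hB1, hBd.trans (Nat.le_mul_of_pos_left _ (by positivity)), ?_⟩
    have h3 : ((nxt W U D B).card : ℝ) ≤ (W B).card := by
      exact_mod_cast card_le_card fun x hx => (mem_nxt.1 hx).1
    exact h3.trans (hsmall.trans (pow_le_pow_left₀ (by positivity) (le_max_left _ _) _))
  push Not at hsmall
  have hρB : 0 < ρ₀ ^ B := by positivity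
  have hne : (W B).Nonempty := by
    rw [← card_pos]
    exact_mod_cast hρB.trans hsmall
  obtain ⟨G, hG, hG'⟩ := hgood d (le_of_max_le_left hd) U D hUD B hB1 h1
  have hq : (1 + 2 * (G.card : ℝ)) ^ (4 * B) / ((W B).card : ℝ) ^ G.card ≤
      (θ ^ (3 * Γ * B)) ^ (2 ^ G.card) := by
    rw [hG, ← pow_mul, show 3 * Γ * B * 2 ^ r = p * B by rw [hp]; ring, pow_mul θ, hθp,
      div_le_iff₀ (pow_pos (hρB.trans hsmall) _)]
    calc (1 + 2 * (r : ℝ)) ^ (4 * B) = (1 / 2) ^ B * (2 * (1 + 2 * (r : ℝ)) ^ 4) ^ B := by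
          rw [← mul_pow, pow_mul]; congr 1; ring
      _ ≤ (1 / 2) ^ B * (ρ₀ ^ r) ^ B :=
          mul_le_mul_of_nonneg_left (pow_le_pow_left₀ (by positivity) hr _) (by positivity)
      _ = (1 / 2) ^ B * (ρ₀ ^ B) ^ r := by rw [← pow_mul, ← pow_mul, mul_comm r]
      _ ≤ _ := mul_le_mul_of_nonneg_left (pow_le_pow_left₀ hρB.le hsmall.le _) (by positivity)
  have hsb := superblock hW hUD.cop.2 (n := 2 * e) G (fun γ hγ => ⟨(hG' γ hγ).1, by
    have h3 := (hG' γ hγ).2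
    have h4 : (γ + 1) * B < 2 * e * B := by omega
    have := lt_of_mul_lt_mul_right h4 (Nat.zero_le _)
    omega⟩) hne (θ ^ (3 * Γ * B)) (by positivity) hq
  have hτ : ∀ P, ((cs W U D P (Γ * B)).card : ℝ) ≤ (ρ * θ ^ 2) ^ (Γ * B) := by
    intro P
    refine (hsb P).trans ?_
    have hBbig : 3 * 2 ^ r * (Γ + 1) ≤ B := by
      have h3 : 2 * e * (3 * 2 ^ r * (Γ + 1)) < 2 * e * B := (le_of_max_le_right hd).trans_lt h2
      exact (lt_of_mul_lt_mul_left h3 (Nat.zero_le _)).le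
    have h3 : θ ^ (Γ * B) ≤ (1 / 2) ^ (Γ + 1) := by
      rw [← hθp, ← pow_mul]
      apply pow_le_pow_of_le_one hθ0.le hθ1.le
      calc p * (Γ + 1) = Γ * (3 * 2 ^ r * (Γ + 1)) := by rw [hp]; ring
        _ ≤ Γ * B := Nat.mul_le_mul_left _ hBbig
    have h4 : ((Γ + 1 : ℕ) : ℝ) * (1 / 2) ^ (Γ + 1) ≤ 1 := by
      rw [one_div, inv_pow, ← div_eq_mul_inv, div_le_one (by positivity)]
      exact_mod_cast (Nat.lt_two_pow_self (n := Γ + 1)).le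
    have h5 : ((W B).card : ℝ) ^ Γ ≤ ρ ^ (Γ * B) := by
      rw [mul_comm Γ, pow_mul]
      exact pow_le_pow_left₀ (Nat.cast_nonneg _) hw _
    have h6 : ((2 * e : ℕ) : ℝ) + 5 = ((Γ + 1 : ℕ) : ℝ) := by rw [hΓ]; push_cast; ring
    rw [h6, ← hΓ]
    calc ((Γ + 1 : ℕ) : ℝ) * (((W B).card : ℝ) ^ Γ * θ ^ (3 * Γ * B))
        = (((Γ + 1 : ℕ) : ℝ) * θ ^ (Γ * B)) * (((W B).card : ℝ) ^ Γ * (θ ^ 2) ^ (Γ * B)) := by
          rw [show 3 * Γ * B = Γ * B + 2 * (Γ * B) by ring, pow_add θ, pow_mul θ 2]; ring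
      _ ≤ 1 * (ρ ^ (Γ * B) * (θ ^ 2) ^ (Γ * B)) := by
          apply mul_le_mul ((mul_le_mul_of_nonneg_left h3 (by positivity)).trans h4)
            (mul_le_mul_of_nonneg_right h5 (by positivity)) (by positivity) (by norm_num)
      _ = _ := by rw [one_mul, mul_pow]
  refine ⟨m * (Γ * B), Nat.pos_of_ne_zero (by positivity), ?_, ?_⟩
  · rw [← mul_assoc]; exact Nat.mul_le_mul_left _ hBd
  refine (card_nxt hUD _ _ (fun c => cs_mul hW hUD.cop.2 _ _ (by positivity) hτ c m)).trans ?_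
  have h3 : (2 : ℝ) ^ d * θ ^ (m * (Γ * B)) ≤ 1 := by
    rw [show m * (Γ * B) = p * (2 * e * B) by rw [hm, hp]; ring, pow_mul, hθp, one_div, inv_pow,
      ← div_eq_mul_inv, div_le_one (by positivity)]
    exact pow_le_pow_right₀ (by norm_num) h2.le
  calc (2 : ℝ) ^ d * ((ρ * θ ^ 2) ^ (Γ * B)) ^ m
      = ((2 : ℝ) ^ d * θ ^ (m * (Γ * B))) * (θ * ρ) ^ (m * (Γ * B)) := by
        rw [← pow_mul, mul_comm (Γ * B) m, mul_assoc ((2 : ℝ) ^ d), ← mul_pow]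
        congr 2
        ring
    _ ≤ 1 * (θ * ρ) ^ (m * (Γ * B)) := mul_le_mul_of_nonneg_right h3 (by positivity)
    _ ≤ _ := by
        rw [one_mul]
        exact pow_le_pow_left₀ (by positivity) (le_max_right _ _) _

open Classical in
/-- all words without the digit two -/
noncomputable def W0 (N : ℕ) : Finset ℕ := (range (3 ^ N)).filter (OK N)

theorem mem_W0 {N x : ℕ} : x ∈ W0 N ↔ OK N x := by
  unfold W0
  classical
  rw [mem_filter, mem_range]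
  exact ⟨fun h => h.2, fun h => ⟨h.1, h⟩⟩

theorem fac_W0 : Fac W0 where
  lt _ _ hx := (mem_W0.1 hx).1
  low _ _ _ hx := mem_W0.2 (mem_W0.1 hx).low
  high _ _ _ hx := mem_W0.2 (mem_W0.1 hx).high

/-- the language `W` contains the residues of `2^a x` for all admissible `x` -/
def Cover (A : Finset ℕ) (a : ℕ) (W : ℕ → Finset ℕ) : Prop :=
  ∀ n x : ℕ, (∀ a' ∈ A, OK n (2 ^ a' * x % 3 ^ n)) → 2 ^ a * x % 3 ^ n ∈ W n

theorem cover_nxt {A A' : Finset ℕ} (hA : A' ⊆ A) {a a' : ℕ} (ha' : a' ∈ A) {W : ℕ → Finset ℕ}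
    (h : Cover A' a W) {U D : ℤ} (hU : 0 < U) (hD : 0 < D) (hrel : D * 2 ^ a' = U * 2 ^ a) :
    Cover A a (nxt W U D) := by
  intro n x hx
  refine mem_nxt.2 ⟨h n x fun b hb => hx b (hA hb), 0, by omega, hU, _, hx a' ha', ?_⟩
  have h1 := cast_split (2 ^ a' * x) n
  have h2 := cast_split (2 ^ a * x) n
  refine dvd_of_eq (Dvd.intro (U * ((2 ^ a * x / 3 ^ n : ℕ) : ℤ) - D * ((2 ^ a' * x / 3 ^ n : ℕ) : ℤ))
    rfl) ?_
  have h3 : ((2 ^ a' * x : ℕ) : ℤ) = 2 ^ a' * x := by push_cast; rfl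
  have h4 : ((2 ^ a * x : ℕ) : ℤ) = 2 ^ a * x := by push_cast; rfl
  linear_combination -D * h1 + U * h2 + D * h3 - U * h4 + (x : ℤ) * hrel

theorem iterate {ρ₀ : ℝ} (h₀ : 1 < ρ₀) : ∃ θ : ℝ, 0 < θ ∧ θ < 1 ∧ ∃ K : ℕ, ∀ J : ℕ, ∃ k : ℕ,
    ∀ (A : Finset ℕ) (lo Δ : ℕ), 1 ≤ Δ → (∀ a ∈ A, lo ≤ a ∧ a ≤ lo + Δ) → k ≤ A.card →
    ∃ a ∈ A, ∃ W, Fac W ∧ Cover A a W ∧ ∃ N, 1 ≤ N ∧ N ≤ K * Δ ∧
      ((W N).card : ℝ) ≤ (max ρ₀ (3 * θ ^ J)) ^ N := by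
  classical
  obtain ⟨θ, hθ0, hθ1, E, K, d₀, hE, hK, hdrop⟩ := drop h₀
  refine ⟨θ, hθ0, hθ1, K, fun J => ?_⟩
  induction J with
  | zero =>
    refine ⟨1, fun A lo Δ hΔ _ hk => ?_⟩
    obtain ⟨a, ha⟩ := card_pos.1 hk
    refine ⟨a, ha, W0, fac_W0, fun n x hx => mem_W0.2 (hx a ha), 1, le_rfl,
      Nat.pos_of_ne_zero (by positivity), ?_⟩
    have h1 : (W0 1).card ≤ 3 := by
      have : W0 1 ⊆ range 3 := fun x hx => mem_range.2 (mem_W0.1 hx).1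
      simpa using card_le_card this
    have h2 : ((W0 1).card : ℝ) ≤ 3 := by exact_mod_cast h1
    rw [pow_zero, mul_one, pow_one]
    exact h2.trans (le_max_right _ _)
  | succ J ih =>
    obtain ⟨k, hk⟩ := ih
    set C := 2 * (E * K) with hC
    have hC0 : 0 < C := by positivity
    refine ⟨(2 * C + 1) * k + C + 2 * d₀ + 1, fun A lo Δ hΔ hA hcard => ?_⟩
    have hne : A.Nonempty := card_pos.1 (by omega)
    set l := A.min' hne with hl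
    set u := A.max' hne with hu
    have hlA : l ∈ A := min'_mem _ _
    have huA : u ∈ A := max'_mem _ _
    have hlu : ∀ a ∈ A, l ≤ a ∧ a ≤ u := fun a ha => ⟨min'_le _ _ ha, le_max' _ _ ha⟩
    have hcu : A.card ≤ u + 1 - l := by
      rw [← Nat.card_Icc]
      exact card_le_card fun a ha => mem_Icc.2 (hlu a ha)
    obtain ⟨Δ', hΔ'⟩ : ∃ Δ', u = l + Δ' := ⟨u - l, by have := hlu l hlA; omega⟩
    have hΔ'1 : C + 2 * d₀ ≤ Δ' := by
      have := Nat.zero_le ((2 * C + 1) * k)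
      omega
    have hΔ'2 : Δ' ≤ Δ := by
      have := hA l hlA
      have := hA u huA
      omega
    set δ := Δ' / C with hδ
    have hδ1 : 1 ≤ δ := (Nat.le_div_iff_mul_le hC0).2 (by omega)
    have hδ2 : δ * C ≤ Δ' := Nat.div_mul_le_self _ _
    have hδ3 : Δ' < C * (δ + 1) := Nat.lt_mul_div_succ _ hC0
    obtain ⟨b, -, hb⟩ := exists_le_card_fiber_of_mul_le_card_of_maps_to (s := A)
      (t := range (2 * C + 1)) (f := fun a => (a - l) / δ) (n := k) (fun a ha => by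
        have h1 := hlu a ha
        rw [mem_range, Nat.div_lt_iff_lt_mul hδ1]
        nlinarith [Nat.sub_le_sub_right h1.2 l, show u - l = Δ' by omega])
      ⟨0, mem_range.2 (by omega)⟩ (by rw [card_range]; omega)
    obtain ⟨a, ha, W, hW, hcov, N, hN1, hN2, hN3⟩ := hk _ (l + b * δ) δ hδ1 (fun a ha => by
      obtain ⟨ha1, ha2⟩ := mem_filter.1 ha
      have h1 := hlu a ha1
      have h2 := Nat.div_mul_le_self (a - l) δ
      have h3 := Nat.lt_mul_div_succ (a - l) hδ1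
      rw [ha2] at h2 h3
      constructor
      · omega
      · have : δ * (b + 1) = b * δ + δ := by ring
        omega) hb
    have haA : a ∈ A := (mem_filter.1 ha).1
    have ha' := hlu a haA
    have hEN : 2 * (E * N) ≤ Δ' := by
      calc 2 * (E * N) ≤ 2 * (E * (K * δ)) := Nat.mul_le_mul_left _ (Nat.mul_le_mul_left _ hN2)
        _ = δ * C := by rw [hC]; ring
        _ ≤ Δ' := hδ2
    have hfin : ∀ d U D, UD d U D → Δ' ≤ 2 * d → d ≤ Δ' → Cover A a (nxt W U D) →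
        ∃ a ∈ A, ∃ W, Fac W ∧ Cover A a W ∧ ∃ N, 1 ≤ N ∧ N ≤ K * Δ ∧
          ((W N).card : ℝ) ≤ (max ρ₀ (3 * θ ^ (J + 1))) ^ N := by
      intro d U D hUD h1 h2 h3
      obtain ⟨N', h4, h5, h6⟩ := hdrop W hW d (by omega) U D hUD N hN1 (by omega) _
        (le_max_of_le_left (by linarith)) hN3
      refine ⟨a, haA, _, hW.nxt hUD.pos.1 hUD.pos.2.1, h3, N', h4,
        h5.trans (Nat.mul_le_mul_left _ (by omega)), h6.trans (pow_le_pow_left₀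
          (le_max_of_le_left (by linarith)) ?_ _)⟩
      apply max_le (le_max_left _ _)
      rw [mul_max_of_nonneg _ _ hθ0.le]
      apply max_le_max (by nlinarith) (le_of_eq (by ring))
    by_cases hc : Δ' ≤ 2 * (u - a)
    · refine hfin (u - a) (2 ^ (u - a)) 1 (Or.inl ⟨rfl, rfl⟩) hc (by omega)
        (cover_nxt (filter_subset _ _) huA hcov (by positivity) one_pos ?_)
      rw [one_mul, ← pow_add]; congr 1; omega
    · refine hfin (a - l) 1 (2 ^ (a - l)) (Or.inr ⟨rfl, rfl⟩) (by omega) (by omega)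
        (cover_nxt (filter_subset _ _) hlA hcov one_pos (by positivity) ?_)
      rw [one_mul, ← pow_add]; congr 1; omega

/-- few residues survive many multipliers -/
theorem few {ρ₀ : ℝ} (h₀ : 1 < ρ₀) : ∃ k : ℕ, ∀ A : Finset ℕ, k ≤ A.card → ∃ a N : ℕ, 1 ≤ N ∧
    ∀ m : ℕ, ∃ F : Finset ℕ, (F.card : ℝ) ≤ ρ₀ ^ (m * N) ∧ ∀ x : ℕ,
      (∀ a' ∈ A, OK (m * N) (2 ^ a' * x % 3 ^ (m * N))) → 2 ^ a * x % 3 ^ (m * N) ∈ F := by
  obtain ⟨θ, hθ0, hθ1, K, h⟩ := iterate h₀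
  obtain ⟨J, hJ⟩ := exists_pow_lt_of_lt_one (show (0 : ℝ) < 1 / 3 by norm_num) hθ1
  obtain ⟨k, hk⟩ := h J
  refine ⟨k, fun A hA => ?_⟩
  obtain ⟨a, -, W, hW, hcov, N, hN1, -, hN⟩ := hk A 0 (A.sup id + 1) (by omega)
    (fun a ha => ⟨Nat.zero_le _, by have : id a ≤ A.sup id := le_sup ha; simp at this ⊢; omega⟩) hA
  rw [max_eq_left (by linarith)] at hN
  refine ⟨a, N, hN1, fun m => ⟨W (m * N), (hW.card_mul N m).trans ?_, hcov _⟩⟩
  rw [mul_comm m, pow_mul]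
  exact pow_le_pow_left₀ (Nat.cast_nonneg _) hN _

end Pool.Agent.H813Z.Gam
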