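import Pool.Agent.H813Z.GamE

/-!
# Hausdorff dimension of the sets `E^(k)`
-/

set_option autoImplicit false

namespace Pool.Agent.H813Z.Gam

open Finset Filter Topology MeasureTheory
open scoped ENNReal NNReal

theorem appr_mul (a n : ℕ) (x : ℤ_[3]) :
    ((2 : ℤ_[3]) ^ a * x).appr n = 2 ^ a * x.appr n % 3 ^ n := by
  have h1 : ∀ y : ℤ_[3], PadicInt.toZModPow n y = (y.appr n : ZMod (3 ^ n)) := fun y => rfl
  have h2 : ((((2 : ℤ_[3]) ^ a * x).appr n : ℕ) : ZMod (3 ^ n)) =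
      ((2 ^ a * x.appr n : ℕ) : ZMod (3 ^ n)) := by
    rw [← h1, map_mul, map_pow, h1 x, map_ofNat]
    push_cast
    rfl
  rw [ZMod.natCast_eq_natCast_iff'] at h2
  rw [← h2, Nat.mod_eq_of_lt (PadicInt.appr_lt _ _)]

theorem appr_mod {k n : ℕ} (h : k ≤ n) (y : ℤ_[3]) : y.appr n % 3 ^ k = y.appr k := by
  obtain ⟨c, hc⟩ := PadicInt.dvd_appr_sub_appr y k n h
  have h1 := PadicInt.appr_mono y h
  have h2 : y.appr n = y.appr k + 3 ^ k * c := by omega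
  rw [h2, Nat.add_mul_mod_self_left, Nat.mod_eq_of_lt (PadicInt.appr_lt _ _)]

/-- the 3-adic expansion omits the digit two -/
def Om (y : ℤ_[3]) : Prop := ∀ j : ℕ, y.appr (j + 1) / 3 ^ j % 3 ≠ 2

theorem Om.ok {y : ℤ_[3]} (h : Om y) (n : ℕ) : OK n (y.appr n) := by
  refine ⟨PadicInt.appr_lt _ _, fun k hk => ?_⟩
  rw [← dig_mod (N := k + 1) _ (by omega), appr_mod (by omega)]
  exact h k

theorem edist_le {a n : ℕ} {x x' : ℤ_[3]}
    (h : ((2 : ℤ_[3]) ^ a * x).appr n = ((2 : ℤ_[3]) ^ a * x').appr n) :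
    edist x x' ≤ ((3 : ℝ≥0∞)⁻¹) ^ n := by
  have h1 : (2 : ℤ_[3]) ^ a * (x - x') ∈ (Ideal.span {((3 : ℕ) : ℤ_[3]) ^ n} : Ideal ℤ_[3]) := by
    have h2 := Ideal.sub_mem _ (PadicInt.appr_spec n ((2 : ℤ_[3]) ^ a * x))
      (PadicInt.appr_spec n ((2 : ℤ_[3]) ^ a * x'))
    rw [h] at h2
    convert h2 using 1
    ring
  rw [← PadicInt.norm_le_pow_iff_mem_span_pow, norm_mul, norm_pow] at h1
  have h2 : ‖(2 : ℤ_[3])‖ = 1 := by
    have h3 := PadicInt.norm_le_one (2 : ℤ_[3])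
    have h4 : ¬ ‖((2 : ℤ) : ℤ_[3])‖ < 1 := by
      rw [PadicInt.norm_int_lt_one_iff_dvd]; norm_num
    have h5 : ((2 : ℤ) : ℤ_[3]) = 2 := by norm_num
    rw [h5] at h4
    linarith [not_lt.1 h4]
  rw [h2, one_pow, one_mul] at h1
  rw [edist_dist, dist_eq_norm]
  refine (ENNReal.ofReal_le_ofReal h1).trans (le_of_eq ?_)
  rw [zpow_neg, zpow_natCast, ← inv_pow, ENNReal.ofReal_pow (by positivity),
    ENNReal.ofReal_inv_of_pos (by norm_num)]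
  norm_num

theorem dim_fin (s : ℝ≥0) (hs : 0 < s) : ∃ k : ℕ, ∀ A : Finset ℕ, k ≤ A.card →
    dimH {x : ℤ_[3] | ∀ a ∈ A, Om ((2 : ℤ_[3]) ^ a * x)} ≤ s := by
  have hs' : (0 : ℝ) < s := hs
  obtain ⟨k, hk⟩ := few (ρ₀ := (3 : ℝ) ^ (s : ℝ)) (Real.one_lt_rpow (by norm_num) hs')
  refine ⟨k, fun A hA => ?_⟩
  obtain ⟨a, N, hN, hF⟩ := hk A hA
  choose F hF1 hF2 using hF
  borelize ℤ_[3]
  apply dimH_le_of_hausdorffMeasure_ne_top
  have hr : Tendsto (fun m : ℕ => ((3 : ℝ≥0∞)⁻¹) ^ (m * N)) atTop (𝓝 0) := by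
    have h1 : Tendsto (fun m : ℕ => m * N) atTop atTop :=
      tendsto_atTop_mono (fun m => Nat.le_mul_of_pos_right m hN) tendsto_id
    exact (ENNReal.tendsto_pow_atTop_nhds_zero_of_lt_one (by norm_num)).comp h1
  have hd : ∀ m : ℕ, ∀ i : F m, Metric.ediam {x : ℤ_[3] | ((2 : ℤ_[3]) ^ a * x).appr (m * N) = i.1} ≤
      ((3 : ℝ≥0∞)⁻¹) ^ (m * N) := fun m i =>
    Metric.ediam_le fun x hx x' hx' => edist_le (a := a) (hx.trans hx'.symm)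
  have h := Measure.hausdorffMeasure_le_liminf_sum (ι := fun m : ℕ => F m) (s : ℝ)
    {x : ℤ_[3] | ∀ a ∈ A, Om ((2 : ℤ_[3]) ^ a * x)} _ hr
    (fun m i => {x : ℤ_[3] | ((2 : ℤ_[3]) ^ a * x).appr (m * N) = i.1})
    (Eventually.of_forall hd) (Eventually.of_forall fun m x hx => by
      have h1 := hF2 m (x.appr (m * N)) fun a' ha' => by
        rw [← appr_mul]; exact (hx a' ha').ok _
      rw [← appr_mul] at h1
      exact Set.mem_iUnion.2 ⟨⟨_, h1⟩, rfl⟩)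
  refine ne_top_of_le_ne_top ENNReal.one_ne_top (h.trans ?_)
  apply liminf_le_of_frequently_le'
  refine Frequently.of_forall fun m => ?_
  calc _ ≤ ∑ _i : F m, (((3 : ℝ≥0∞)⁻¹) ^ (m * N)) ^ (s : ℝ) :=
        sum_le_sum fun i _ => ENNReal.rpow_le_rpow (hd m i) hs'.le
    _ = ((F m).card : ℝ≥0∞) * (((3 : ℝ≥0∞)⁻¹) ^ (m * N)) ^ (s : ℝ) := by simp
    _ ≤ ((3 : ℝ≥0∞) ^ (s : ℝ)) ^ (m * N) * (((3 : ℝ≥0∞)⁻¹) ^ (m * N)) ^ (s : ℝ) := by
        gcongr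
        have h1 := ENNReal.ofReal_le_ofReal (hF1 m)
        rw [ENNReal.ofReal_natCast, ENNReal.ofReal_pow (by positivity),
          ← ENNReal.ofReal_rpow_of_pos (by norm_num)] at h1
        simpa using h1
    _ = 1 := by
        rw [← ENNReal.rpow_natCast, ← ENNReal.rpow_mul, mul_comm (s : ℝ), ENNReal.rpow_mul,
          ← ENNReal.mul_rpow_of_nonneg _ _ hs'.le, ENNReal.rpow_natCast, ← mul_pow,
          ENNReal.mul_inv_cancel (by norm_num) (by norm_num), one_pow, ENNReal.one_rpow]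

theorem dim_k (s : ℝ≥0) (hs : 0 < s) : ∃ k₀ : ℕ, ∀ k, k₀ ≤ k →
    dimH {x : ℤ_[3] | (k : ℕ∞) ≤ {n : ℕ | Om ((2 : ℤ_[3]) ^ n * x)}.encard} ≤ s := by
  obtain ⟨k₀, hk₀⟩ := dim_fin s hs
  refine ⟨k₀, fun k hk => ?_⟩
  have hsub : {x : ℤ_[3] | (k : ℕ∞) ≤ {n : ℕ | Om ((2 : ℤ_[3]) ^ n * x)}.encard} ⊆
      ⋃ A : {A : Finset ℕ // k₀ ≤ A.card}, {x : ℤ_[3] | ∀ a ∈ A.1, Om ((2 : ℤ_[3]) ^ a * x)} := by
    intro x hx
    obtain ⟨T, hT, hT'⟩ := Set.exists_subset_encard_eq (show (k : ℕ∞) ≤ _ from hx)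
    have hfin : T.Finite := Set.finite_of_encard_eq_coe hT'
    have hc : hfin.toFinset.card = k := by
      have := hfin.encard_eq_coe_toFinset_card
      rw [hT'] at this
      exact_mod_cast this.symm
    exact Set.mem_iUnion.2 ⟨⟨hfin.toFinset, by omega⟩, fun a ha => hT (hfin.mem_toFinset.1 ha)⟩
  refine (dimH_mono hsub).trans ?_
  rw [dimH_iUnion]
  exact iSup_le fun A => hk₀ A.1 A.2

theorem gamma_zero : Tendsto (fun k : ℕ =>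
    dimH {x : ℤ_[3] | (k : ℕ∞) ≤ {n : ℕ | Om ((2 : ℤ_[3]) ^ n * x)}.encard}) atTop (𝓝 0) := by
  rw [ENNReal.tendsto_nhds_zero]
  intro ε hε
  obtain ⟨s, hs0, hs⟩ := ENNReal.lt_iff_exists_nnreal_btwn.1 hε
  obtain ⟨k₀, h⟩ := dim_k s (by exact_mod_cast hs0)
  exact eventually_atTop.2 ⟨k₀, fun k hk => (h k hk).trans hs.le⟩

theorem dim_zero : dimH {x : ℤ_[3] | Set.Infinite {n : ℕ | Om ((2 : ℤ_[3]) ^ n * x)}} = 0 := by
  apply le_antisymm _ (zero_le)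
  refine ge_of_tendsto' gamma_zero fun k => dimH_mono fun x hx => ?_
  have : {n : ℕ | Om ((2 : ℤ_[3]) ^ n * x)}.encard = ⊤ := Set.Infinite.encard_eq hx
  show (k : ℕ∞) ≤ _
  rw [this]
  exact le_top

end Pool.Agent.H813Z.Gam
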