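import Mathlib

set_option autoImplicit false

/-!
# The twisted convolution algebra `C_c(ℤ, C(X))`
-/

namespace Pool.Agent.H813Z.LpCross

variable {X : Type} [TopologicalSpace X]

/-- `alpha h n f = f ∘ h^{-n}`, the `n`-th power of `α(f) = f ∘ h⁻¹`. -/
noncomputable def alpha (h : X ≃ₜ X) (n : ℤ) (f : C(X, ℂ)) : C(X, ℂ) :=
  f.comp ((h ^ (-n) : X ≃ₜ X) : C(X, X))

lemma alpha_apply (h : X ≃ₜ X) (n : ℤ) (f : C(X, ℂ)) (x : X) :
    alpha h n f x = f ((h ^ (-n)) x) := rfl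

lemma alpha_add (h : X ≃ₜ X) (m n : ℤ) (f : C(X, ℂ)) :
    alpha h (m + n) f = alpha h m (alpha h n f) := by
  ext x
  simp only [alpha_apply]
  rw [← Homeomorph.mul_apply, ← zpow_add]
  congr 3
  ring

lemma alpha_zero (h : X ≃ₜ X) (f : C(X, ℂ)) : alpha h 0 f = f := by
  ext x; simp [alpha_apply]

/-- The ring `C(X)`, tagged with the homeomorphism `h`. -/
def Coef (_h : X ≃ₜ X) : Type := C(X, ℂ)

noncomputable instance (h : X ≃ₜ X) : CommRing (Coef h) := inferInstanceAs (CommRing C(X, ℂ))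

/-- `ℤ` acts on `C(X)` through the powers of `α`. -/
noncomputable instance (h : X ≃ₜ X) : MulSemiringAction (Multiplicative ℤ) (Coef h) where
  smul n f := alpha h n.toAdd f
  one_smul f := alpha_zero h f
  mul_smul m n f := alpha_add h m.toAdd n.toAdd f
  smul_zero _ := rfl
  smul_add _ _ _ := rfl
  smul_one _ := rfl
  smul_mul _ _ _ := rfl

/-- The algebra `C_c(ℤ, C(X))` of finite sums `∑ a_n u^n`, with
`(a u^m) (b u^n) = a α^m(b) u^(m+n)`. -/
abbrev Alg (h : X ≃ₜ X) : Type := SkewMonoidAlgebra (Coef h) (Multiplicative ℤ)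

lemma norm_alpha_le [CompactSpace X] (h : X ≃ₜ X) (n : ℤ) (f : C(X, ℂ)) : ‖alpha h n f‖ ≤ ‖f‖ :=
  (ContinuousMap.norm_le _ (norm_nonneg f)).mpr fun _ => f.norm_coe_le_norm _

end Pool.Agent.H813Z.LpCross
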