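import Mathlib
import Pool.Agent.H813Z.LpDefs

set_option autoImplicit false

/-! Point representations of the algebraic crossed product on all sequences. -/

namespace Pool.Agent.H813Z.LpCross

open SkewMonoidAlgebra

variable {X : Type} [TopologicalSpace X] {h : X ≃ₜ X}

noncomputable def cf (a : Alg h) (n : ℤ) : C(X, ℂ) := a.coeff (Multiplicative.ofAdd n)

noncomputable def sg (h : X ≃ₜ X) (n : ℤ) (f : C(X, ℂ)) : Alg h :=
  SkewMonoidAlgebra.single (Multiplicative.ofAdd n) (show Coef h from f)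

lemma hpow_add (h : X ≃ₜ X) (m n : ℤ) (x : X) : (h ^ (m + n)) x = (h ^ m) ((h ^ n) x) := by
  rw [zpow_add]; rfl

lemma hpow_hpow (h : X ≃ₜ X) (m n : ℤ) (x : X) : (h ^ m) ((h ^ n) x) = (h ^ (m + n)) x :=
  (hpow_add h m n x).symm

lemma cf_sg (n m : ℤ) (f : C(X, ℂ)) : cf (sg h n f) m = if n = m then f else 0 := by
  unfold cf sg
  classical
  rw [coeff_single_apply]
  simp only [EmbeddingLike.apply_eq_iff_eq]
  rfl

lemma cf_add (a b : Alg h) (n : ℤ) : cf (a + b) n = cf a n + cf b n := by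
  unfold cf; rw [coeff_add]; rfl

lemma cf_sub (a b : Alg h) (n : ℤ) : cf (a - b) n = cf a n - cf b n := by
  unfold cf; rw [coeff_sub]; rfl

lemma cf_zero (n : ℤ) : cf (0 : Alg h) n = 0 := rfl

lemma cf_ext {a b : Alg h} (H : ∀ n, cf a n = cf b n) : a = b :=
  SkewMonoidAlgebra.ext fun n => H n.toAdd

lemma cf_sum {ι : Type} (s : Finset ι) (a : ι → Alg h) (n : ℤ) :
    cf (∑ i ∈ s, a i) n = ∑ i ∈ s, cf (a i) n := by
  classical
  induction s using Finset.induction_on with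
  | empty => simp [cf_zero]
  | insert i s hi ih => rw [Finset.sum_insert hi, Finset.sum_insert hi, cf_add, ih]

lemma sg_mul (m n : ℤ) (f g : C(X, ℂ)) :
    sg h m f * sg h n g = sg h (m + n) (f * alpha h m g) := single_mul_single

lemma sg_zero_one : sg h 0 1 = 1 := rfl

lemma sg_add (n : ℤ) (f g : C(X, ℂ)) : sg h n (f + g) = sg h n f + sg h n g := single_add _ _ _

lemma sg_zero (n : ℤ) : sg h n 0 = 0 := single_zero _

lemma exists_supp (a : Alg h) : ∃ N : ℕ, ∀ n : ℤ, (N : ℤ) < |n| → cf a n = 0 := by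
  refine ⟨a.support.sup fun m => m.toAdd.natAbs, fun n hn => ?_⟩
  by_contra hne
  have h1 : Multiplicative.ofAdd n ∈ a.support := mem_support_iff.mpr hne
  have h2 := Finset.le_sup (f := fun m : Multiplicative ℤ => m.toAdd.natAbs) h1
  simp only [toAdd_ofAdd] at h2
  have h3 : |n| = (n.natAbs : ℤ) := (Int.natCast_natAbs n).symm
  omega

lemma eq_sum_sg (a : Alg h) (s : Finset ℤ) (hs : ∀ n, n ∉ s → cf a n = 0) :
    a = ∑ n ∈ s, sg h n (cf a n) := by
  refine cf_ext fun m => ?_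
  rw [cf_sum]
  simp only [cf_sg]
  rw [Finset.sum_ite_eq' s m]
  split_ifs with hm
  · rfl
  · exact hs m hm

noncomputable def ptDiag (h : X ≃ₜ X) (x : X) : Coef h →+* Module.End ℂ (ℤ → ℂ) where
  toFun f :=
    { toFun := fun ψ i => (show C(X, ℂ) from f) ((h ^ i) x) * ψ i
      map_add' := fun _ _ => funext fun _ => mul_add _ _ _
      map_smul' := fun _ _ => funext fun _ => mul_left_comm _ _ _ }
  map_one' := LinearMap.ext fun _ => funext fun _ => one_mul _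
  map_mul' _ _ := LinearMap.ext fun _ => funext fun _ => mul_assoc _ _ _
  map_zero' := LinearMap.ext fun _ => funext fun _ => zero_mul _
  map_add' _ _ := LinearMap.ext fun _ => funext fun _ => add_mul _ _ _

noncomputable def ptShift : Multiplicative ℤ →* Module.End ℂ (ℤ → ℂ) where
  toFun m :=
    { toFun := fun ψ i => ψ (i - m.toAdd)
      map_add' := fun _ _ => rfl
      map_smul' := fun _ _ => rfl }
  map_one' := LinearMap.ext fun ψ => funext fun i => congrArg ψ (sub_zero i)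
  map_mul' _ _ := LinearMap.ext fun ψ => funext fun i => congrArg ψ (sub_sub i _ _).symm

noncomputable def rho (h : X ≃ₜ X) (x : X) : Alg h →+* Module.End ℂ (ℤ → ℂ) :=
  liftNCRingHom (ptDiag h x) ptShift fun {f m} => LinearMap.ext fun ψ => funext fun i => by
    show (show C(X, ℂ) from f) ((h ^ (-m.toAdd)) ((h ^ i) x)) * ψ (i - m.toAdd) =
      (show C(X, ℂ) from f) ((h ^ (i - m.toAdd)) x) * ψ (i - m.toAdd)
    rw [hpow_hpow, neg_add_eq_sub]

lemma rho_sg (x : X) (n : ℤ) (f : C(X, ℂ)) (ψ : ℤ → ℂ) (i : ℤ) :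
    rho h x (sg h n f) ψ i = f ((h ^ i) x) * ψ (i - n) := by
  have e : rho h x (sg h n f) = ptDiag h x f * ptShift (Multiplicative.ofAdd n) :=
    liftNC_single _ _ _ _
  rw [e]; rfl

lemma rho_eq_sum (a : Alg h) (s : Finset ℤ) (hs : ∀ n, n ∉ s → cf a n = 0) (x : X) (ψ : ℤ → ℂ)
    (i : ℤ) : rho h x a ψ i = ∑ n ∈ s, cf a n ((h ^ i) x) * ψ (i - n) := by
  conv_lhs => rw [eq_sum_sg a s hs, _root_.map_sum]
  rw [LinearMap.sum_apply, Finset.sum_apply]
  exact Finset.sum_congr rfl fun n _ => rho_sg x n _ ψ i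

lemma rho_mul (x : X) (a b : Alg h) (ψ : ℤ → ℂ) : rho h x (a * b) ψ = rho h x a (rho h x b ψ) := by
  rw [map_mul]; rfl

lemma rho_add (x : X) (a b : Alg h) (ψ : ℤ → ℂ) (i : ℤ) :
    rho h x (a + b) ψ i = rho h x a ψ i + rho h x b ψ i := by
  rw [map_add]; rfl

lemma rho_sub (x : X) (a b : Alg h) (ψ : ℤ → ℂ) (i : ℤ) :
    rho h x (a - b) ψ i = rho h x a ψ i - rho h x b ψ i := by
  rw [map_sub]; rfl

lemma rho_one (x : X) (ψ : ℤ → ℂ) : rho h x 1 ψ = ψ := by
  rw [map_one]; rfl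

lemma rho_sum {ι : Type} (x : X) (s : Finset ι) (a : ι → Alg h) (ψ : ℤ → ℂ) (i : ℤ) :
    rho h x (∑ k ∈ s, a k) ψ i = ∑ k ∈ s, rho h x (a k) ψ i := by
  rw [_root_.map_sum, LinearMap.sum_apply, Finset.sum_apply]

/-- the basis vector -/
noncomputable def dl (j : ℤ) : ℤ → ℂ := fun i => if i = j then 1 else 0

lemma supp_Icc {a : Alg h} {N : ℕ} (hN : ∀ n : ℤ, (N : ℤ) < |n| → cf a n = 0) :
    ∀ n, n ∉ Finset.Icc (-(N : ℤ)) N → cf a n = 0 := fun n hn => hN n (by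
  rw [Finset.mem_Icc, ← abs_le] at hn; exact not_le.mp hn)

lemma rho_dl (x : X) (a : Alg h) (i j : ℤ) : rho h x a (dl j) i = cf a (i - j) ((h ^ i) x) := by
  obtain ⟨N, hN⟩ := exists_supp a
  rw [rho_eq_sum a _ (supp_Icc hN)]
  unfold dl
  have : ∀ n : ℤ, (i - n = j) = (i - j = n) := fun n => propext ⟨fun _ => by omega, fun _ => by omega⟩
  simp only [this, mul_ite, mul_one, mul_zero]
  rw [Finset.sum_ite_eq]
  split_ifs with hm
  · rfl
  · rw [supp_Icc hN _ hm]; rfl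

lemma cf_eq_rho (a : Alg h) (n : ℤ) (x : X) : cf a n x = rho h x a (dl (-n)) 0 := by
  rw [rho_dl]; simp

lemma rho_ext {a b : Alg h} (H : ∀ x ψ i, rho h x a ψ i = rho h x b ψ i) : a = b :=
  cf_ext fun n => ContinuousMap.ext fun x => by rw [cf_eq_rho, cf_eq_rho, H]

lemma rho_shift (x : X) (a : Alg h) (ψ : ℤ → ℂ) (t i : ℤ) :
    rho h ((h ^ t) x) a (fun j => ψ (j + t)) i = rho h x a ψ (i + t) := by
  obtain ⟨N, hN⟩ := exists_supp a
  rw [rho_eq_sum a _ (supp_Icc hN), rho_eq_sum a _ (supp_Icc hN), hpow_hpow]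
  exact Finset.sum_congr rfl fun n _ => by rw [show i - n + t = i + t - n by ring]

/-- band width at most `N` -/
def Loc (a : Alg h) (N : ℕ) : Prop := ∀ n : ℤ, (N : ℤ) < |n| → cf a n = 0

lemma Loc.rho_zero {a : Alg h} {N : ℕ} (ha : Loc a N) (x : X) {ψ : ℤ → ℂ} {i : ℤ}
    (hψ : ∀ j : ℤ, |j - i| ≤ (N : ℤ) → ψ j = 0) : rho h x a ψ i = 0 := by
  rw [rho_eq_sum a _ (supp_Icc ha)]
  refine Finset.sum_eq_zero fun n hn => ?_
  rw [Finset.mem_Icc, ← abs_le] at hn
  rw [hψ _ (by rw [show i - n - i = -n by ring, abs_neg]; exact hn), mul_zero]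

lemma loc_of_rho {a : Alg h} {N : ℕ}
    (H : ∀ x (ψ : ℤ → ℂ) (i : ℤ), (∀ j : ℤ, |j - i| ≤ (N : ℤ) → ψ j = 0) → rho h x a ψ i = 0) : Loc a N := by
  intro n hn
  ext x
  rw [cf_eq_rho]
  refine H _ _ _ fun j hj => ?_
  unfold dl
  rw [if_neg]
  rintro rfl
  rw [sub_zero, abs_neg] at hj
  omega

lemma Loc.mul {a b : Alg h} {N M : ℕ} (ha : Loc a N) (hb : Loc b M) : Loc (a * b) (N + M) := by
  refine loc_of_rho fun x ψ i hψ => ?_
  rw [rho_mul]
  refine ha.rho_zero x fun j hj => hb.rho_zero x fun k hk => hψ k ?_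
  have := abs_add_le (k - j) (j - i)
  rw [show k - j + (j - i) = k - i by ring] at this
  push_cast; linarith

lemma Loc.one : Loc (1 : Alg h) 0 := by
  refine loc_of_rho fun x ψ i hψ => ?_
  rw [rho_one]; exact hψ i (by simp)

lemma Loc.pow {a : Alg h} {N : ℕ} (ha : Loc a N) (k : ℕ) : Loc (a ^ k) (k * N) := by
  induction k with
  | zero => simpa using Loc.one
  | succ k ih => rw [pow_succ, Nat.succ_mul]; exact ih.mul ha

/-- row sums at most `c` -/
def Bd (a : Alg h) (c : ℝ) : Prop :=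
  ∀ x (ψ : ℤ → ℂ) (C : ℝ), (∀ j, ‖ψ j‖ ≤ C) → ∀ i, ‖rho h x a ψ i‖ ≤ c * C

lemma Bd.mul {a b : Alg h} {c d : ℝ} (ha : Bd a c) (hb : Bd b d) : Bd (a * b) (c * d) := by
  intro x ψ C hψ i
  rw [rho_mul, mul_assoc]
  exact ha x _ _ (hb x ψ C hψ) i

lemma Bd.pow {a : Alg h} {c : ℝ} (ha : Bd a c) (k : ℕ) : Bd (a ^ k) (c ^ k) := by
  induction k with
  | zero => intro x ψ C hψ i; rw [pow_zero, pow_zero, rho_one, one_mul]; exact hψ i
  | succ k ih => rw [pow_succ, pow_succ]; exact ih.mul ha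

lemma Bd.cf_le {a : Alg h} {c : ℝ} (ha : Bd a c) (n : ℤ) (x : X) : ‖cf a n x‖ ≤ c := by
  rw [cf_eq_rho]
  have := ha x (dl (-n)) 1 (fun j => by unfold dl; split_ifs <;> simp) 0
  rwa [mul_one] at this

lemma tr_aux1 (h : X ≃ₜ X) (f g : C(X, ℂ)) : sg h 0 (f * g) = sg h 0 g * sg h 0 f := by
  rw [sg_mul, alpha_zero, mul_comm, add_zero]

lemma tr_aux2 (h : X ≃ₜ X) (m k : ℤ) : sg h (-(m + k)) 1 = sg h (-k) 1 * sg h (-m) 1 := by
  rw [sg_mul, neg_add_rev, one_mul]; rfl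

noncomputable def trHom (h : X ≃ₜ X) : Alg h →+* (Alg h)ᵐᵒᵖ :=
  liftNCRingHom
    ({ toFun := fun f => MulOpposite.op (sg h 0 f)
       map_one' := rfl
       map_mul' := fun f g => congrArg MulOpposite.op (tr_aux1 h f g)
       map_zero' := congrArg MulOpposite.op (sg_zero 0)
       map_add' := fun f g => by rw [← MulOpposite.op_add, ← sg_add]; rfl } : Coef h →+* (Alg h)ᵐᵒᵖ)
    ({ toFun := fun m => MulOpposite.op (sg h (-m.toAdd) 1)
       map_one' := rfl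
       map_mul' := fun m k => congrArg MulOpposite.op (tr_aux2 h m.toAdd k.toAdd) } :
      Multiplicative ℤ →* (Alg h)ᵐᵒᵖ)
    fun {f m} => by
      show MulOpposite.op (sg h 0 (alpha h m.toAdd f)) * MulOpposite.op (sg h (-m.toAdd) 1) =
        MulOpposite.op (sg h (-m.toAdd) 1) * MulOpposite.op (sg h 0 f)
      rw [← MulOpposite.op_mul, ← MulOpposite.op_mul, sg_mul, sg_mul, ← alpha_add, neg_add_cancel,
        alpha_zero, alpha_zero, one_mul, mul_one, add_zero, zero_add]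

/-- the transpose -/
noncomputable def tr (a : Alg h) : Alg h := (trHom h a).unop

lemma tr_sg (n : ℤ) (f : C(X, ℂ)) : tr (sg h n f) = sg h (-n) (alpha h (-n) f) := by
  have e : trHom h (sg h n f) = MulOpposite.op (sg h 0 f) * MulOpposite.op (sg h (-n) 1) :=
    liftNC_single _ _ _ _
  unfold tr
  rw [e, ← MulOpposite.op_mul, MulOpposite.unop_op, sg_mul, one_mul, add_zero]

lemma tr_sum {ι : Type} (s : Finset ι) (a : ι → Alg h) : tr (∑ i ∈ s, a i) = ∑ i ∈ s, tr (a i) := by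
  unfold tr; rw [_root_.map_sum, Finset.unop_sum]

lemma tr_add (a b : Alg h) : tr (a + b) = tr a + tr b := by
  unfold tr; rw [map_add, MulOpposite.unop_add]

lemma tr_sub (a b : Alg h) : tr (a - b) = tr a - tr b := by
  unfold tr; rw [map_sub, MulOpposite.unop_sub]

lemma cf_tr (a : Alg h) (n : ℤ) : cf (tr a) n = alpha h n (cf a (-n)) := by
  obtain ⟨N, hN⟩ := exists_supp a
  conv_lhs => rw [eq_sum_sg a _ (supp_Icc hN), tr_sum, cf_sum]
  simp only [tr_sg, cf_sg]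
  have : ∀ m : ℤ, (-m = n) = (-n = m) := fun m => propext ⟨fun _ => by omega, fun _ => by omega⟩
  simp only [this]
  rw [Finset.sum_ite_eq]
  split_ifs with hm
  · rw [neg_neg]
  · rw [supp_Icc hN _ hm]; rfl

lemma tr_tr (a : Alg h) : tr (tr a) = a :=
  cf_ext fun n => by rw [cf_tr, cf_tr, neg_neg, ← alpha_add, add_neg_cancel, alpha_zero]

lemma rho_tr_dl (x : X) (a : Alg h) (i j : ℤ) : rho h x (tr a) (dl j) i = rho h x a (dl i) j := by
  rw [rho_dl, rho_dl, cf_tr, alpha_apply, hpow_hpow, neg_sub, sub_add_cancel]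

lemma Loc.tr {a : Alg h} {N : ℕ} (ha : Loc a N) : Loc (tr a) N := fun n hn => by
  rw [cf_tr, ha (-n) (by rwa [abs_neg])]; rfl

variable [CompactSpace X] {B : Type} [NormedRing B]

/-- contractive representations of the algebraic crossed product -/
def Contr (Φ : Alg h →+* B) : Prop := ∀ n f, ‖Φ (sg h n f)‖ ≤ ‖f‖

lemma Contr.norm_le {Φ : Alg h →+* B} (hΦ : Contr Φ) {d : Alg h} {K : ℕ} (hd : Loc d K)
    {c : ℤ → ℝ} (hc0 : ∀ n, 0 ≤ c n) (hc : ∀ n x, ‖cf d n x‖ ≤ c n) :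
    ‖Φ d‖ ≤ ∑ n ∈ Finset.Icc (-(K : ℤ)) K, c n := by
  conv_lhs => rw [eq_sum_sg d _ (supp_Icc hd), _root_.map_sum]
  exact norm_sum_le_of_le _ fun n _ =>
    (hΦ n _).trans ((ContinuousMap.norm_le _ (hc0 n)).mpr (hc n))

noncomputable def opRep (Φ : Alg h →+* B) : Alg h →+* Bᵐᵒᵖ := (RingHom.op Φ).comp (trHom h)

omit [CompactSpace X] in
lemma opRep_apply (Φ : Alg h →+* B) (a : Alg h) : opRep Φ a = MulOpposite.op (Φ (tr a)) := rfl

lemma Contr.op {Φ : Alg h →+* B} (hΦ : Contr Φ) : Contr (opRep Φ) := fun n f => by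
  rw [opRep_apply, MulOpposite.norm_op, tr_sg]
  exact (hΦ _ _).trans (norm_alpha_le _ _ _)

end Pool.Agent.H813Z.LpCross
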