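import Mathlib
import Pool.Agent.H813Z.LpRho

set_option autoImplicit false

/-! No bounded kernel vectors for `a` and its transpose forces invertibility. -/

namespace Pool.Agent.H813Z.LpCross

open scoped ENNReal

variable {X : Type} [TopologicalSpace X] {h : X ≃ₜ X}

def NoKer (a : Alg h) : Prop :=
  ∀ x (ψ : ℤ → ℂ) (C : ℝ), (∀ j, ‖ψ j‖ ≤ C) → (∀ i, rho h x a ψ i = 0) → ∀ i, ψ i = 0

abbrev L1 : Type := lp (fun _ : ℤ => ℂ) 1

lemma exists_vec (d : Alg h) (x : X) : ∃ w : L1, (∀ j, w j = cf d (-j) x) ∧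
    ∀ f : L1 →L[ℂ] ℂ, f w = rho h x d (fun j => f (lp.single 1 j 1)) 0 := by
  obtain ⟨N, hN⟩ := exists_supp d
  refine ⟨∑ n ∈ Finset.Icc (-(N : ℤ)) N, cf d n x • lp.single 1 (-n) 1, fun j => ?_, fun f => ?_⟩
  · rw [lp.coeFn_sum, Finset.sum_apply]
    have : ∀ n : ℤ, (cf d n x • (lp.single 1 (-n) 1 : L1)) j = if -j = n then cf d n x else 0 := by
      intro n
      rw [lp.coeFn_smul, Pi.smul_apply, lp.single_apply, Pi.single_apply]
      by_cases hj : j = -n
      · rw [if_pos hj, if_pos (by omega)]; simp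
      · rw [if_neg hj, if_neg (by omega)]; simp
    simp only [this]
    rw [Finset.sum_ite_eq]
    split_ifs with hm
    · rfl
    · rw [supp_Icc hN _ hm]; rfl
  · rw [rho_eq_sum d _ (supp_Icc hN), map_sum]
    refine Finset.sum_congr rfl fun n _ => ?_
    rw [map_smul, zero_sub]
    simp

lemma row_approx {a : Alg h} (ha : NoKer a) (x : X) : ∃ (b : Alg h) (M : ℕ),
    Loc (1 - b * a) M ∧ ∑ n ∈ Finset.Icc (-(M : ℤ)) M, ‖cf (1 - b * a) n x‖ < 1 / 2 := by
  by_contra hcon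
  push Not at hcon
  let t : Set L1 := {w | ∃ b : Alg h, ∀ j, w j = cf (b * a) (-j) x}
  have hsm : ∀ (c : ℂ) (w : L1), w ∈ t → c • w ∈ t := by
    rintro c w ⟨b, hb⟩
    refine ⟨sg h 0 (ContinuousMap.const X c) * b, fun j => ?_⟩
    rw [lp.coeFn_smul, Pi.smul_apply, hb, mul_assoc, cf_eq_rho, cf_eq_rho, rho_mul _ (sg h 0 _),
      rho_sg]
    simp
  have hadd : ∀ w w' : L1, w ∈ t → w' ∈ t → w + w' ∈ t := by
    rintro w w' ⟨b, hb⟩ ⟨b', hb'⟩
    refine ⟨b + b', fun j => ?_⟩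
    rw [lp.coeFn_add, Pi.add_apply, hb, hb', add_mul, cf_add]; rfl
  have hconv : Convex ℝ t := by
    intro w hw w' hw' r s _ _ _
    have h1 := hadd _ _ (hsm (r : ℂ) w hw) (hsm (s : ℂ) w' hw')
    rwa [Complex.coe_smul, Complex.coe_smul] at h1
  have hdisj : Disjoint (Metric.ball (lp.single 1 0 1 : L1) (1 / 2)) t := by
    rw [Set.disjoint_left]
    rintro w hw ⟨b, hb⟩
    obtain ⟨M, hM⟩ := exists_supp (1 - b * a)
    have h1 := hcon b M hM
    rw [mem_ball_iff_norm'] at hw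
    have h2 := lp.sum_rpow_le_norm_rpow (p := 1) (by simp) ((lp.single 1 0 1 : L1) - w)
      (Finset.Icc (-(M : ℤ)) M)
    simp only [ENNReal.toReal_one, Real.rpow_one] at h2
    have h3 : ∑ n ∈ Finset.Icc (-(M : ℤ)) M, ‖cf (1 - b * a) n x‖ =
        ∑ j ∈ Finset.Icc (-(M : ℤ)) M, ‖((lp.single 1 0 1 : L1) - w) j‖ := by
      refine Finset.sum_bij' (fun n _ => -n) (fun n _ => -n) ?_ ?_ ?_ ?_ ?_
      · intro n hn; rw [Finset.mem_Icc] at hn ⊢; omega
      · intro n hn; rw [Finset.mem_Icc] at hn ⊢; omega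
      · intro n _; exact neg_neg n
      · intro n _; exact neg_neg n
      · intro n _
        rw [lp.coeFn_sub, Pi.sub_apply, hb, neg_neg, cf_sub, ← sg_zero_one, cf_sg, lp.single_apply,
          Pi.single_apply, ContinuousMap.sub_apply]
        by_cases hn : n = 0
        · rw [if_pos hn.symm, if_pos (by omega)]; rfl
        · rw [if_neg (Ne.symm hn), if_neg (by omega)]; rfl
    linarith
  obtain ⟨f, u, hf1, hf2⟩ := RCLike.geometric_hahn_banach_open (𝕜 := ℂ) (convex_ball _ _)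
    Metric.isOpen_ball hconv hdisj
  have hzero : ∀ w ∈ t, f w = 0 := by
    intro w hw
    by_contra hne
    have h1 := hf2 _ (hsm (((u - 1 : ℝ) : ℂ) / f w) w hw)
    rw [map_smul, smul_eq_mul, div_mul_cancel₀ _ hne] at h1
    simp at h1
    linarith
  have hu : u ≤ 0 := by
    have h1 := hf2 0 ⟨0, fun j => by rw [zero_mul, cf_zero]; rfl⟩
    simpa using h1
  have h0 := hf1 _ (Metric.mem_ball_self (by norm_num))
  have hker := ha x (fun j => f (lp.single 1 j 1)) ‖f‖ (fun j => by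
      have := f.le_opNorm (lp.single 1 j 1)
      rwa [lp.norm_single (by simp), norm_one, mul_one] at this) (fun i => by
      obtain ⟨w, hw1, hw2⟩ := exists_vec (sg h (-i) 1 * a) x
      have h1 := hzero w ⟨_, hw1⟩
      rw [hw2, rho_mul, rho_sg] at h1
      simpa using h1) 0
  rw [hker] at h0
  simp at h0
  linarith

lemma rho_row_le {r : Alg h} {M : ℕ} (hr : Loc r M) (y : X) {ψ : ℤ → ℂ} {C : ℝ}
    (hψ : ∀ j, ‖ψ j‖ ≤ C) :
    ‖rho h y r ψ 0‖ ≤ (∑ n ∈ Finset.Icc (-(M : ℤ)) M, ‖cf r n y‖) * C := by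
  rw [rho_eq_sum r _ (supp_Icc hr), Finset.sum_mul]
  refine norm_sum_le_of_le _ fun n _ => ?_
  rw [norm_mul, zpow_zero, Homeomorph.one_apply]
  exact mul_le_mul_of_nonneg_left (hψ _) (norm_nonneg _)

variable [CompactSpace X] [T2Space X]

lemma exists_left_approx {a : Alg h} (ha : NoKer a) : ∃ b : Alg h, Bd (1 - b * a) (1 / 2) := by
  choose b M hM hlt using row_approx ha
  let U : X → Set X := fun x => {y | ∑ n ∈ Finset.Icc (-(M x : ℤ)) (M x), ‖cf (1 - b x * a) n y‖ < 1 / 2}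
  have hU : ∀ x, IsOpen (U x) := fun x => isOpen_lt (by fun_prop) continuous_const
  obtain ⟨t, ht⟩ := isCompact_univ.elim_finite_subcover U hU
    fun x _ => Set.mem_iUnion.mpr ⟨x, hlt x⟩
  obtain ⟨φ, hφ⟩ := PartitionOfUnity.exists_isSubordinate isClosed_univ (fun k : t => U k)
    (fun k => hU k) fun x hx => by
      obtain ⟨k, hk, hx⟩ := Set.mem_iUnion₂.mp (ht hx)
      exact Set.mem_iUnion.mpr ⟨⟨k, hk⟩, hx⟩
  let φc : t → C(X, ℂ) := fun k => ⟨fun y => (φ k y : ℂ), by fun_prop⟩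
  have hsum : ∀ y, ∑ k : t, φ k y = 1 := fun y => by
    rw [← finsum_eq_sum_of_fintype]; exact φ.sum_eq_one (Set.mem_univ y)
  refine ⟨∑ k : t, sg h 0 (φc k) * b k, fun x ψ C hψ i => ?_⟩
  have hC : 0 ≤ C := (norm_nonneg _).trans (hψ 0)
  have e : rho h x (1 - (∑ k : t, sg h 0 (φc k) * b k) * a) ψ i =
      ∑ k : t, (φ k ((h ^ i) x) : ℂ) * rho h x (1 - b k * a) ψ i := by
    rw [rho_sub, Finset.sum_mul, rho_sum]
    simp only [rho_sub, mul_sub, Finset.sum_sub_distrib]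
    congr 1
    · rw [← Finset.sum_mul, ← Complex.ofReal_sum, hsum]; simp
    · refine Finset.sum_congr rfl fun k _ => ?_
      rw [mul_assoc, rho_mul _ (sg h 0 _), rho_sg, sub_zero]; rfl
  rw [e]
  refine (norm_sum_le_of_le (n := fun k : t => φ k ((h ^ i) x) * (1 / 2 * C)) _
    fun k _ => ?_).trans ?_
  · rw [norm_mul, Complex.norm_real, Real.norm_of_nonneg (φ.nonneg _ _)]
    by_cases h0 : φ k ((h ^ i) x) = 0
    · rw [h0]; simp
    · refine mul_le_mul_of_nonneg_left ?_ (φ.nonneg _ _)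
      have hy : (h ^ i) x ∈ U k := hφ k (subset_tsupport _ h0)
      have h1 := rho_shift x (1 - b k * a) ψ i 0
      rw [zero_add] at h1
      rw [← h1]
      refine (rho_row_le (hM k) _ fun j => hψ _).trans ?_
      exact mul_le_mul_of_nonneg_right (le_of_lt hy) hC
  · rw [← Finset.sum_mul, hsum, one_mul]

variable {B : Type} [NormedRing B] [CompleteSpace B]

lemma left_inv {Φ : Alg h →+* B} (hΦ : Contr Φ) {a : Alg h} (ha : NoKer a) :
    ∃ b : B, b * Φ a = 1 := by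
  obtain ⟨b, hb⟩ := exists_left_approx ha
  obtain ⟨M, hM⟩ := exists_supp (1 - b * a)
  have hM' : Loc (1 - b * a) M := hM
  have hk : ∀ k : ℕ, ‖Φ (1 - b * a) ^ k‖ ≤ (2 * M * (k : ℝ) + 1) * (1 / 2) ^ k := by
    intro k
    rw [← map_pow]
    refine (hΦ.norm_le (hM'.pow k) (c := fun _ => (1 / 2) ^ k) (fun _ => by positivity)
      fun n x => (hb.pow k).cf_le n x).trans (le_of_eq ?_)
    rw [Finset.sum_const, Int.card_Icc, nsmul_eq_mul]
    congr 1
    rw [show ((k * M : ℕ) : ℤ) + 1 - -((k * M : ℕ) : ℤ) = ((2 * M * k + 1 : ℕ) : ℤ) by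
      push_cast; ring, Int.toNat_natCast]
    push_cast; ring
  have hlim : Filter.Tendsto (fun k : ℕ => (2 * M * (k : ℝ) + 1) * (1 / 2) ^ k) Filter.atTop
      (nhds 0) := by
    have h1 := (tendsto_self_mul_const_pow_of_lt_one (r := 1 / 2) (by norm_num)
      (by norm_num)).const_mul (2 * (M : ℝ))
    have h2 := tendsto_pow_atTop_nhds_zero_of_lt_one (r := (1 / 2 : ℝ)) (by norm_num) (by norm_num)
    have h3 := h1.add h2
    simp only [mul_zero, add_zero] at h3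
    refine h3.congr fun k => ?_
    ring
  obtain ⟨k, hk1⟩ := (hlim.eventually (gt_mem_nhds zero_lt_one)).exists
  have hu := isUnit_one_sub_of_norm_lt_one ((hk k).trans_lt hk1)
  obtain ⟨v, hv⟩ := hu
  refine ⟨(↑v⁻¹ : B) * (∑ i ∈ Finset.range k, Φ (1 - b * a) ^ i) * Φ b, ?_⟩
  have e : Φ b * Φ a = 1 - Φ (1 - b * a) := by rw [map_sub, map_one, map_mul, sub_sub_cancel]
  rw [mul_assoc, e, mul_assoc, geom_sum_mul_neg, ← hv, Units.inv_mul]

lemma isUnit_of_noKer {Φ : Alg h →+* B} (hΦ : Contr Φ) {a : Alg h} (ha : NoKer a)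
    (ha' : NoKer (tr a)) : IsUnit (Φ a) := by
  obtain ⟨b, hb⟩ := left_inv hΦ ha
  obtain ⟨c, hc⟩ := left_inv hΦ.op ha'
  rw [opRep_apply, tr_tr] at hc
  have hc' : Φ a * c.unop = 1 := by
    have := congrArg MulOpposite.unop hc
    rwa [MulOpposite.unop_mul, MulOpposite.unop_op, MulOpposite.unop_one] at this
  have hbc : b = c.unop := left_inv_eq_right_inv hb hc'
  exact ⟨⟨Φ a, b, by rw [hbc]; exact hc', hb⟩, rfl⟩

end Pool.Agent.H813Z.LpCross
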