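import Mathlib
import Pool.Agent.H813Z.LpInv

set_option autoImplicit false

/-! Cut positions, finite sections, and block operators. -/

namespace Pool.Agent.H813Z.LpCross

variable {X : Type} [TopologicalSpace X] {h : X ≃ₜ X}

lemma rho_eq_sum_dl (c : Alg h) (x : X) (ψ : ℤ → ℂ) (i : ℤ) (s : Finset ℤ)
    (hs : ∀ j, j ∉ s → rho h x c (dl j) i = 0) :
    rho h x c ψ i = ∑ j ∈ s, rho h x c (dl j) i * ψ j := by
  obtain ⟨N, hN⟩ := exists_supp c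
  have h1 : rho h x c ψ i = ∑ j ∈ Finset.Icc (i - N) (i + N), rho h x c (dl j) i * ψ j := by
    rw [rho_eq_sum c _ (supp_Icc hN)]
    refine Finset.sum_bij' (fun n _ => i - n) (fun n _ => i - n) ?_ ?_ ?_ ?_ ?_
    · intro n hn; rw [Finset.mem_Icc] at hn ⊢; omega
    · intro n hn; rw [Finset.mem_Icc] at hn ⊢; omega
    · intro n _; exact sub_sub_cancel i n
    · intro n _; exact sub_sub_cancel i n
    · intro n _; rw [rho_dl, sub_sub_cancel]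
  rw [h1, ← finsum_eq_sum_of_support_subset (s := s), ← finsum_eq_sum_of_support_subset]
  · intro j hj
    by_contra hn
    apply hj
    show rho h x c (dl j) i * ψ j = 0
    rw [rho_dl, hN (i - j), ContinuousMap.zero_apply, zero_mul]
    rw [Finset.mem_coe, Finset.mem_Icc] at hn
    rw [lt_abs]; omega
  · intro j hj
    by_contra hn
    apply hj
    show rho h x c (dl j) i * ψ j = 0
    rw [hs j hn, zero_mul]

def CutGe (c : Alg h) (x : X) (A : ℤ) : Prop := ∀ i j, i < A → A ≤ j → rho h x c (dl j) i = 0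

def CutLt (c : Alg h) (x : X) (A : ℤ) : Prop := ∀ i j, A ≤ i → j < A → rho h x c (dl j) i = 0

def Cuts (c : Alg h) : Prop := ∀ x (s : ℤ), (∃ A ≤ s, CutGe c x A) ∧ (∃ A, s < A ∧ CutGe c x A) ∧
  (∃ A ≤ s, CutLt c x A) ∧ (∃ A, s < A ∧ CutLt c x A)

lemma Cuts.tr {c : Alg h} (hc : Cuts c) : Cuts (tr c) := by
  intro x s
  obtain ⟨⟨A1, h1, h1'⟩, ⟨A2, h2, h2'⟩, ⟨A3, h3, h3'⟩, ⟨A4, h4, h4'⟩⟩ := hc x s
  refine ⟨⟨A3, h3, ?_⟩, ⟨A4, h4, ?_⟩, ⟨A1, h1, ?_⟩, ⟨A2, h2, ?_⟩⟩ <;> intro i j hi hj <;>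
    rw [rho_tr_dl]
  exacts [h3' j i hj hi, h4' j i hj hi, h1' j i hj hi, h2' j i hj hi]

noncomputable def sec (c : Alg h) (H : ℕ) (x : X) : Matrix (Fin H) (Fin H) ℂ :=
  Matrix.of fun i j => rho h x c (dl ((j : ℕ) : ℤ)) ((i : ℕ) : ℤ)

def Bad (c : Alg h) : Set ℂ := {l | ∃ H x, (sec c H x + l • (1 : Matrix (Fin H) (Fin H) ℂ)).det = 0}

lemma bad_tr (c : Alg h) : Bad (tr c) ⊆ Bad c := by
  rintro l ⟨H, x, hl⟩
  refine ⟨H, x, ?_⟩
  rw [← Matrix.det_transpose, ← hl]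
  congr 1
  ext i j
  simp only [Matrix.transpose_apply, Matrix.add_apply, sec, Matrix.of_apply, rho_tr_dl,
    Matrix.smul_apply, Matrix.one_apply, eq_comm]

noncomputable def scal (h : X ≃ₜ X) (l : ℂ) : Alg h := sg h 0 (ContinuousMap.const X l)

lemma rho_scal (x : X) (l : ℂ) (ψ : ℤ → ℂ) (i : ℤ) : rho h x (scal h l) ψ i = l * ψ i := by
  unfold scal; rw [rho_sg]; simp

lemma tr_scal (l : ℂ) : tr (scal h l) = scal h l := by
  unfold scal; rw [tr_sg, neg_zero, alpha_zero]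

lemma noKer_of_cuts {c : Alg h} (hc : Cuts c) {l : ℂ} (hl : l ∉ Bad c) : NoKer (c + scal h l) := by
  intro x ψ _ _ hker s
  obtain ⟨-, ⟨A, hA, hA'⟩, ⟨B, hB, hB'⟩, -⟩ := hc x s
  obtain ⟨H, hH⟩ : ∃ H : ℕ, A = B + H := ⟨(A - B).toNat, by omega⟩
  have hdet : (sec c H ((h ^ B) x) + l • (1 : Matrix (Fin H) (Fin H) ℂ)).det ≠ 0 :=
    fun h0 => hl ⟨H, _, h0⟩
  have hv := Matrix.eq_zero_of_mulVec_eq_zero hdet (v := fun j : Fin H => ψ (B + (j : ℕ))) (by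
    funext i
    have hi := i.isLt
    have h1 := hker (B + (i : ℕ))
    rw [rho_add, rho_scal, rho_eq_sum_dl c x ψ _ (Finset.Ico B A) (fun j hj => by
      rw [Finset.mem_Ico] at hj
      rcases lt_or_ge j B with h' | h'
      · exact hB' _ _ (by omega) h'
      · exact hA' _ _ (by omega) (by omega))] at h1
    rw [Matrix.add_mulVec, Matrix.smul_mulVec, Matrix.one_mulVec, Pi.add_apply, Pi.smul_apply,
      smul_eq_mul, Pi.zero_apply, ← h1]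
    congr 1
    simp only [Matrix.mulVec, dotProduct, sec, Matrix.of_apply]
    refine Finset.sum_bij' (fun j _ => B + ((j : ℕ) : ℤ))
      (fun j hj => ⟨(j - B).toNat, by rw [Finset.mem_Ico] at hj; omega⟩) ?_ ?_ ?_ ?_ ?_
    · intro j _; have := j.isLt; rw [Finset.mem_Ico]; omega
    · intro j _; exact Finset.mem_univ _
    · intro j _; exact Fin.ext (by simp)
    · intro j hj; rw [Finset.mem_Ico] at hj; simp only; omega
    · intro j _
      rw [rho_dl, rho_dl, hpow_hpow, add_sub_add_left_eq_sub, add_comm _ B])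
  have := congrFun hv ⟨(s - B).toNat, by omega⟩
  simp only [Pi.zero_apply] at this
  rwa [show B + (((s - B).toNat : ℕ) : ℤ) = s by omega] at this

noncomputable def blk (h : X ≃ₜ X) (f : C(X, ℂ)) (W : Finset ℤ) (m : ℤ → ℤ → ℂ) : Alg h :=
  ∑ i ∈ W, ∑ j ∈ W, sg h (i - j) (m i j • alpha h i f)

lemma rho_blk (x : X) (f : C(X, ℂ)) (W : Finset ℤ) (m : ℤ → ℤ → ℂ) (ψ : ℤ → ℂ) (p : ℤ) :
    rho h x (blk h f W m) ψ p =
      ∑ i ∈ W, f ((h ^ (p - i)) x) * ∑ j ∈ W, m i j * ψ (p - i + j) := by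
  unfold blk
  rw [rho_sum]
  refine Finset.sum_congr rfl fun i _ => ?_
  rw [rho_sum, Finset.mul_sum]
  refine Finset.sum_congr rfl fun j _ => ?_
  rw [rho_sg, ContinuousMap.smul_apply, alpha_apply, hpow_hpow, smul_eq_mul,
    show p - (i - j) = p - i + j by ring, neg_add_eq_sub]
  ring

def Sep (h : X ≃ₜ X) (f : C(X, ℂ)) (D : ℕ) : Prop :=
  ∀ x (s t : ℤ), f ((h ^ s) x) ≠ 0 → f ((h ^ t) x) ≠ 0 → s ≠ t → (D : ℤ) < |s - t|

def Diam (W : Finset ℤ) (D : ℕ) : Prop := ∀ i ∈ W, ∀ j ∈ W, |i - j| ≤ (D : ℤ)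

variable {f : C(X, ℂ)} {W : Finset ℤ} {D : ℕ}

lemma blk_active (hf : Sep h f D) (hW : Diam W D) (m : ℤ → ℤ → ℂ) {x : X} (ψ : ℤ → ℂ) {p t : ℤ}
    (ht : f ((h ^ t) x) ≠ 0) (hp : p - t ∈ W) :
    rho h x (blk h f W m) ψ p = f ((h ^ t) x) * ∑ j ∈ W, m (p - t) j * ψ (t + j) := by
  rw [rho_blk, Finset.sum_eq_single_of_mem (p - t) hp, sub_sub_cancel]
  intro i hi hne
  have : f ((h ^ (p - i)) x) = 0 := by
    by_contra h0
    have h1 := hf x _ _ h0 ht (by omega)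
    have h2 := hW _ hp _ hi
    rw [show p - t - i = p - i - t by ring] at h2
    omega
  rw [this, zero_mul]

lemma blk_zero (hf : Sep h f D) (hW : Diam W D) (m : ℤ → ℤ → ℂ) {x : X} (ψ : ℤ → ℂ) {p : ℤ}
    (H : ∀ t, f ((h ^ t) x) ≠ 0 → p - t ∈ W → ∀ j ∈ W, m (p - t) j * ψ (t + j) = 0) :
    rho h x (blk h f W m) ψ p = 0 := by
  by_cases hex : ∃ t, f ((h ^ t) x) ≠ 0 ∧ p - t ∈ W
  · obtain ⟨t, ht, hp⟩ := hex
    rw [blk_active hf hW m ψ ht hp, Finset.sum_eq_zero (H t ht hp), mul_zero]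
  · rw [rho_blk]
    refine Finset.sum_eq_zero fun i hi => ?_
    have : f ((h ^ (p - i)) x) = 0 := by
      by_contra h0
      exact hex ⟨p - i, h0, by rwa [sub_sub_cancel]⟩
    rw [this, zero_mul]

lemma blk_local (hf : Sep h f D) (hW : Diam W D) (m : ℤ → ℤ → ℂ) {x : X} {ψ : ℤ → ℂ} {t : ℤ}
    (ht : f ((h ^ t) x) ≠ 0) (hψ : ∀ j, j - t ∉ W → ψ j = 0) {p : ℤ} (hp : p - t ∉ W) :
    rho h x (blk h f W m) ψ p = 0 := by
  refine blk_zero hf hW m ψ fun t' ht' hp' j hj => ?_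
  have hne : t' ≠ t := fun e => hp (e ▸ hp')
  have h1 := hf x _ _ ht' ht hne
  rw [hψ (t' + j), mul_zero]
  intro h2
  have h3 := hW _ h2 _ hj
  rw [show t' + j - t - j = t' - t by ring] at h3
  omega

lemma blk_mul_blk (hf : Sep h f D) (hW : Diam W D) {m m' : ℤ → ℤ → ℂ}
    (H : ∀ i, ∀ j ∈ W, ∀ k ∈ W, m i j * m' j k = 0) : blk h f W m * blk h f W m' = 0 := by
  refine rho_ext fun x ψ p => ?_
  rw [rho_mul, map_zero]
  refine blk_zero hf hW m _ fun t ht _ j hj => ?_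
  rw [blk_active hf hW m' ψ ht (by rwa [add_sub_cancel_left]), add_sub_cancel_left, mul_left_comm,
    Finset.mul_sum, Finset.sum_eq_zero, mul_zero]
  intro k hk
  rw [← mul_assoc, H _ j hj k hk, zero_mul]

lemma loc_blk (hW : Diam W D) (m : ℤ → ℤ → ℂ) : Loc (blk h f W m) D := by
  refine loc_of_rho fun x ψ p hψ => ?_
  rw [rho_blk]
  refine Finset.sum_eq_zero fun i hi => ?_
  rw [Finset.sum_eq_zero, mul_zero]
  intro j hj
  rw [hψ _ (by rw [show p - i + j - p = j - i by ring]; exact hW _ hj _ hi), mul_zero]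

lemma diam_Ico (R : ℕ) : Diam (Finset.Ico (0 : ℤ) R) R := by
  intro i hi j hj
  rw [Finset.mem_Ico] at hi hj
  rw [abs_le]; omega

lemma blk_ge {R : ℕ} (hf : Sep h f R) (m : ℤ → ℤ → ℂ) {x : X} {t : ℤ} (ht : f ((h ^ t) x) ≠ 0)
    {ψ : ℤ → ℂ} (hψ : ∀ j < t, ψ j = 0) {p : ℤ} (hp : p < t) :
    rho h x (blk h f (Finset.Ico (0 : ℤ) R) m) ψ p = 0 := by
  refine blk_zero hf (diam_Ico R) m ψ fun t' ht' hp' j hj => ?_
  rw [Finset.mem_Ico] at hp' hj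
  have h1 := hf x _ _ ht' ht (by omega)
  rw [lt_abs] at h1
  rw [hψ _ (by omega), mul_zero]

lemma blk_lt {R : ℕ} (hf : Sep h f R) (m : ℤ → ℤ → ℂ) {x : X} {t : ℤ} (ht : f ((h ^ t) x) ≠ 0)
    {ψ : ℤ → ℂ} (hψ : ∀ j, t ≤ j → ψ j = 0) {p : ℤ} (hp : t ≤ p) :
    rho h x (blk h f (Finset.Ico (0 : ℤ) R) m) ψ p = 0 := by
  refine blk_zero hf (diam_Ico R) m ψ fun t' ht' hp' j hj => ?_
  rw [Finset.mem_Ico] at hp' hj
  rcases le_or_gt t t' with h' | h'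
  · rw [hψ _ (by omega), mul_zero]
  · have h1 := hf x _ _ ht' ht (by omega)
    rw [lt_abs] at h1
    omega

end Pool.Agent.H813Z.LpCross
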