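import Mathlib
import Pool.Agent.H813Z.LpCut

set_option autoImplicit false

/-! A bounded kernel vector yields finitely supported approximate kernel vectors. -/

namespace Pool.Agent.H813Z.LpCross

variable {X : Type} [TopologicalSpace X] {h : X ≃ₜ X}

noncomputable def chi (L : ℕ) (j : ℤ) : ℝ := max 0 (min 1 (2 - |(j : ℝ)| / L))

lemma clamp_lip {u v d : ℝ} (h : |u - v| ≤ d) : |max 0 (min 1 (2 - u)) - max 0 (min 1 (2 - v))| ≤ d := by
  obtain ⟨h1, h2⟩ := abs_le.mp h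
  rw [abs_le]
  simp only [max_def, min_def]
  split_ifs <;> constructor <;> linarith

lemma chi_lip {L : ℕ} (hL : 0 < L) (i j : ℤ) : |chi L i - chi L j| ≤ |((i - j : ℤ) : ℝ)| / L := by
  have hL' : (0 : ℝ) < L := by exact_mod_cast hL
  apply clamp_lip
  rw [← sub_div, abs_div, abs_of_pos hL']
  refine div_le_div_of_nonneg_right ?_ hL'.le
  push_cast
  exact abs_abs_sub_abs_le_abs_sub (i : ℝ) (j : ℝ)

lemma chi_one {L : ℕ} (hL : 0 < L) {j : ℤ} (hj : |j| ≤ L) : chi L j = 1 := by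
  have hL' : (0 : ℝ) < L := by exact_mod_cast hL
  have h1 : |(j : ℝ)| ≤ L := by exact_mod_cast hj
  have h2 : |(j : ℝ)| / L ≤ 1 := (div_le_one hL').mpr h1
  unfold chi
  rw [min_eq_left (by linarith), max_eq_right zero_le_one]

lemma chi_zero {L : ℕ} (hL : 0 < L) {j : ℤ} (hj : 2 * (L : ℤ) ≤ |j|) : chi L j = 0 := by
  have hL' : (0 : ℝ) < L := by exact_mod_cast hL
  have h1 : 2 * (L : ℝ) ≤ |(j : ℝ)| := by exact_mod_cast hj
  have h2 : 2 ≤ |(j : ℝ)| / L := (le_div_iff₀ hL').mpr h1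
  unfold chi
  rw [max_eq_left]
  exact (min_le_right _ _).trans (by linarith)

lemma comm_est {a : Alg h} {N : ℕ} (ha : Loc a N) {A : ℝ} (hA : ∀ n x, ‖cf a n x‖ ≤ A) {y : X}
    {φ : ℤ → ℂ} (hker : ∀ i, rho h y a φ i = 0) {L : ℕ} (hL : 0 < L) (i : ℤ) :
    ‖rho h y a (fun j => (chi L j : ℂ) * φ j) i‖ ≤
      A * N / L * ∑ n ∈ Finset.Icc (-(N : ℤ)) N, ‖φ (i - n)‖ := by
  have hL' : (0 : ℝ) < L := by exact_mod_cast hL
  have hA0 : 0 ≤ A := (norm_nonneg _).trans (hA 0 y)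
  have h0 := hker i
  rw [rho_eq_sum a _ (supp_Icc ha)] at h0
  have e : rho h y a (fun j => (chi L j : ℂ) * φ j) i = ∑ n ∈ Finset.Icc (-(N : ℤ)) N,
      cf a n ((h ^ i) y) * (((chi L (i - n) - chi L i : ℝ) : ℂ) * φ (i - n)) := by
    rw [rho_eq_sum a _ (supp_Icc ha), ← sub_zero (∑ _ ∈ _, _), ← mul_zero (chi L i : ℂ), ← h0,
      Finset.mul_sum, ← Finset.sum_sub_distrib]
    refine Finset.sum_congr rfl fun n _ => ?_
    push_cast; ring
  rw [e, Finset.mul_sum]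
  refine norm_sum_le_of_le _ fun n hn => ?_
  rw [Finset.mem_Icc, ← abs_le] at hn
  have h1 := chi_lip hL (i - n) i
  rw [show i - n - i = -n by ring] at h1
  have h2 : |((-n : ℤ) : ℝ)| ≤ N := by
    rw [Int.cast_neg, abs_neg]; exact_mod_cast hn
  have h3 : |chi L (i - n) - chi L i| ≤ N / L := h1.trans (by gcongr)
  rw [norm_mul, norm_mul, Complex.norm_real, Real.norm_eq_abs]
  calc _ ≤ A * (N / L * ‖φ (i - n)‖) := by
        gcongr
        exact hA _ _
    _ = _ := by ring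

lemma card_Icc_real (K : ℕ) : ((Finset.Icc (-(K : ℤ)) K).card : ℝ) = 2 * K + 1 := by
  rw [Int.card_Icc, show (K : ℤ) + 1 - -(K : ℤ) = ((2 * K + 1 : ℕ) : ℤ) by push_cast; ring,
    Int.toNat_natCast]
  push_cast; ring

lemma approx_ker [CompactSpace X] {a : Alg h} {N : ℕ} (ha : Loc a N) {y : X} {φ : ℤ → ℂ} {C : ℝ}
    (hφ : ∀ j, ‖φ j‖ ≤ C) (hker : ∀ i, rho h y a φ i = 0) {j0 : ℤ} (hj0 : φ j0 ≠ 0) {ε : ℝ}
    (hε : 0 < ε) : ∃ (K : ℕ) (ξ ξ' : ℤ → ℂ) (c : ℤ → ℝ),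
      (∀ j, j ∉ Finset.Icc (-(K : ℤ)) K → ξ j = 0) ∧
      ∑ j ∈ Finset.Icc (-(K : ℤ)) K, ξ' j * ξ j = 1 ∧ (∀ n, 0 ≤ c n) ∧
      ∑ n ∈ Finset.Icc (-((N + 2 * K : ℕ) : ℤ)) (N + 2 * K : ℕ), c n ≤ ε ∧
      ∀ i j, ‖rho h y a ξ i‖ * ‖ξ' j‖ ≤ c (i - j) := by
  obtain ⟨A, hA⟩ : ∃ A : ℝ, ∀ n x, ‖cf a n x‖ ≤ A := by
    refine ⟨∑ n ∈ Finset.Icc (-(N : ℤ)) N, ‖cf a n‖, fun n x => ?_⟩
    by_cases hn : n ∈ Finset.Icc (-(N : ℤ)) N
    · exact ((cf a n).norm_coe_le_norm x).trans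
        (Finset.single_le_sum (f := fun n => ‖cf a n‖) (fun _ _ => norm_nonneg _) hn)
    · rw [supp_Icc ha n hn, ContinuousMap.zero_apply, norm_zero]
      exact Finset.sum_nonneg fun _ _ => norm_nonneg _
  have hA0 : 0 ≤ A := (norm_nonneg _).trans (hA 0 y)
  have hC0 : 0 ≤ C := (norm_nonneg _).trans (hφ 0)
  have hsupp : ∀ L : ℕ, 0 < L → ∀ j, j ∉ Finset.Icc (-((2 * L : ℕ) : ℤ)) (2 * L : ℕ) →
      (chi L j : ℂ) * φ j = 0 := by
    intro L hL j hj
    rw [Finset.mem_Icc, ← abs_le] at hj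
    rw [chi_zero hL (by push_cast at hj; omega)]; simp
  by_cases hS : ∃ S : ℝ, ∀ s : Finset ℤ, ∑ j ∈ s, ‖φ j‖ ≤ S
  · obtain ⟨S, hS⟩ := hS
    have hS0 : 0 ≤ S := by simpa using hS ∅
    have hn0 : 0 < ‖φ j0‖ := norm_pos_iff.mpr hj0
    obtain ⟨L, hL⟩ := exists_nat_gt (max (|(j0 : ℝ)|) (A * N * ((2 * N + 1) * S) / ‖φ j0‖ / ε))
    have hL1 : |(j0 : ℝ)| < L := (le_max_left _ _).trans_lt hL
    have hL2 : A * N * ((2 * N + 1) * S) / ‖φ j0‖ / ε < L := (le_max_right _ _).trans_lt hL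
    have hL' : (0 : ℝ) < L := (abs_nonneg _).trans_lt hL1
    have hL0 : 0 < L := by exact_mod_cast hL'
    have hj : |j0| ≤ L := by exact_mod_cast hL1.le
    refine ⟨2 * L, fun j => (chi L j : ℂ) * φ j, fun j => if j = j0 then (φ j0)⁻¹ else 0,
      fun n => ‖rho h y a (fun j => (chi L j : ℂ) * φ j) (n + j0)‖ / ‖φ j0‖, hsupp L hL0, ?_,
      fun n => by positivity, ?_, ?_⟩
    · simp only [ite_mul, zero_mul]
      rw [Finset.sum_ite_eq', if_pos (by rw [Finset.mem_Icc, ← abs_le]; push_cast; omega),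
        chi_one hL0 hj]
      simp [hj0]
    · rw [← Finset.sum_div, div_le_iff₀ hn0]
      refine (Finset.sum_le_sum fun n _ => comm_est ha hA hker hL0 (n + j0)).trans ?_
      rw [← Finset.mul_sum, Finset.sum_comm]
      have h1 : ∑ m ∈ Finset.Icc (-(N : ℤ)) N, ∑ n ∈ Finset.Icc (-((N + 2 * (2 * L) : ℕ) : ℤ))
          (N + 2 * (2 * L) : ℕ), ‖φ (n + j0 - m)‖ ≤ (2 * N + 1) * S := by
        rw [← card_Icc_real, ← nsmul_eq_mul]
        refine Finset.sum_le_card_nsmul _ _ _ fun m _ => ?_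
        have := hS ((Finset.Icc (-((N + 2 * (2 * L) : ℕ) : ℤ)) (N + 2 * (2 * L) : ℕ)).image
          fun n => n + j0 - m)
        rwa [Finset.sum_image fun n _ n' _ e => by simpa using e] at this
      rw [div_lt_iff₀ hε, div_lt_iff₀ hn0] at hL2
      calc _ ≤ A * N / L * ((2 * N + 1) * S) := by gcongr
        _ = A * N * ((2 * N + 1) * S) / L := by ring
        _ ≤ _ := by rw [div_le_iff₀ hL']; linarith
    · intro i j
      beta_reduce
      split_ifs with hjj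
      · rw [hjj, sub_add_cancel, norm_inv, div_eq_mul_inv]
      · rw [norm_zero, mul_zero]; positivity
  · push Not at hS
    obtain ⟨s, hs⟩ := hS (max 0 (11 * (A * N * ((2 * N + 1) * C)) / ε))
    obtain ⟨L, hL0, hLN, hLs⟩ : ∃ L : ℕ, 0 < L ∧ N ≤ L ∧ s ⊆ Finset.Icc (-(L : ℤ)) L := by
      refine ⟨s.sup Int.natAbs + N + 1, by omega, by omega, fun j hj => ?_⟩
      have := Finset.le_sup (f := Int.natAbs) hj
      rw [Finset.mem_Icc]; omega
    have hL' : (0 : ℝ) < L := by exact_mod_cast hL0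
    set σ := ∑ j ∈ Finset.Icc (-(L : ℤ)) L, ‖φ j‖ with hσ
    have hσ1 : max 0 (11 * (A * N * ((2 * N + 1) * C)) / ε) < σ :=
      hs.trans_le (Finset.sum_le_sum_of_subset_of_nonneg hLs fun _ _ _ => norm_nonneg _)
    have hσ0 : 0 < σ := (le_max_left _ _).trans_lt hσ1
    have hσ2 : 11 * (A * N * ((2 * N + 1) * C)) / ε < σ := (le_max_right _ _).trans_lt hσ1
    refine ⟨2 * L, fun j => (chi L j : ℂ) * φ j,
      fun j => if j ∈ Finset.Icc (-(L : ℤ)) L then (‖φ j‖ : ℂ) / φ j / σ else 0,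
      fun _ => A * N / L * ((2 * N + 1) * C) / σ, hsupp L hL0, ?_, fun n => by positivity, ?_, ?_⟩
    · simp only [ite_mul, zero_mul]
      rw [← Finset.sum_filter, Finset.filter_mem_eq_inter, Finset.inter_eq_right.mpr
        (Finset.Icc_subset_Icc (by push_cast; omega) (by push_cast; omega))]
      have h1 : ∀ j ∈ Finset.Icc (-(L : ℤ)) L,
          (‖φ j‖ : ℂ) / φ j / σ * ((chi L j : ℂ) * φ j) = (‖φ j‖ : ℂ) / σ := by
        intro j hj
        rw [Finset.mem_Icc, ← abs_le] at hj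
        rw [chi_one hL0 hj]
        by_cases h0 : φ j = 0
        · simp [h0]
        · field_simp; simp
      rw [Finset.sum_congr rfl h1, ← Finset.sum_div, ← Complex.ofReal_sum, ← hσ]
      exact div_self (by exact_mod_cast hσ0.ne')
    · rw [Finset.sum_const, nsmul_eq_mul, card_Icc_real]
      have h1 : (2 * ((N + 2 * (2 * L) : ℕ) : ℝ) + 1) ≤ 11 * L := by
        have : 2 * (N + 2 * (2 * L)) + 1 ≤ 11 * L := by omega
        exact_mod_cast this
      rw [div_lt_iff₀ hε] at hσ2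
      calc _ ≤ 11 * L * (A * N / L * ((2 * N + 1) * C) / σ) := by gcongr
        _ = 11 * (A * N * ((2 * N + 1) * C)) / σ := by field_simp
        _ ≤ ε := by rw [div_le_iff₀ hσ0]; linarith
    · intro i j
      have h1 : ‖rho h y a (fun j => (chi L j : ℂ) * φ j) i‖ ≤ A * N / L * ((2 * N + 1) * C) := by
        refine (comm_est ha hA hker hL0 i).trans ?_
        gcongr
        rw [← card_Icc_real, ← nsmul_eq_mul]
        exact Finset.sum_le_card_nsmul _ _ _ fun m _ => hφ _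
      have h2 : ‖(if j ∈ Finset.Icc (-(L : ℤ)) L then (‖φ j‖ : ℂ) / φ j / σ else 0)‖ ≤ σ⁻¹ := by
        split_ifs
        · rw [norm_div, norm_div, Complex.norm_real, Complex.norm_real, norm_norm,
            Real.norm_of_nonneg hσ0.le, ← one_div]
          gcongr
          exact div_self_le_one _
        · rw [norm_zero]; positivity
      beta_reduce
      rw [div_eq_mul_inv (A * N / L * ((2 * N + 1) * C)) σ]
      exact mul_le_mul h1 h2 (norm_nonneg _) (by positivity)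

end Pool.Agent.H813Z.LpCross
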