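import Mathlib
import Pool.Agent.H813Z.LpKer

set_option autoImplicit false

/-! Dynamical lemmas and the first perturbation step. -/

namespace Pool.Agent.H813Z.LpCross

variable {X : Type} [TopologicalSpace X] {h : X ≃ₜ X}

structure Sys (h : X ≃ₜ X) (A : Subalgebra ℂ C(X, ℂ)) : Prop where
  minimal : ∀ x, DenseRange fun n : ℤ => (h ^ n) x
  inv : ∀ n f, f ∈ A → alpha h n f ∈ A
  bump : ∀ O : Set X, IsOpen O → ∀ y ∈ O, ∃ f ∈ A, (∀ x, ‖f x‖ ≤ 1) ∧ (∀ x, f x ≠ 0 → x ∈ O) ∧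
    ∃ O' : Set X, IsOpen O' ∧ O'.Nonempty ∧ ∀ x ∈ O', f x = 1
  dense : Dense (A : Set C(X, ℂ))
  small : ∀ (H : ℕ) (F : Matrix (Fin H) (Fin H) C(X, ℂ)), (∀ i j, F i j ∈ A) →
    dimH {l : ℂ | ∃ x, (F.map (fun f => f x) + l • (1 : Matrix (Fin H) (Fin H) ℂ)).det = 0} ≤ 1

lemma returns [CompactSpace X] (hmin : ∀ x, DenseRange fun n : ℤ => (h ^ n) x) {O : Set X}
    (hO : IsOpen O) (hne : O.Nonempty) :
    ∃ K : ℕ, ∀ x (s : ℤ), ∃ t : ℤ, |t - s| ≤ K ∧ (h ^ t) x ∈ O := by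
  obtain ⟨T, hT⟩ := isCompact_univ.elim_finite_subcover (fun n : ℤ => (h ^ n) ⁻¹' O)
    (fun n => hO.preimage (h ^ n).continuous) fun x _ => by
      obtain ⟨n, hn⟩ := (hmin x).exists_mem_open hO hne
      exact Set.mem_iUnion.mpr ⟨n, hn⟩
  refine ⟨T.sup Int.natAbs, fun x s => ?_⟩
  obtain ⟨n, hn, hx⟩ := Set.mem_iUnion₂.mp (hT (Set.mem_univ ((h ^ s) x)))
  refine ⟨n + s, ?_, by rw [hpow_add]; exact hx⟩
  have := Finset.le_sup (f := Int.natAbs) hn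
  rw [add_sub_cancel_right, abs_le]; omega

lemma free [Infinite X] [T2Space X] (hmin : ∀ x, DenseRange fun n : ℤ => (h ^ n) x) (y : X) {s : ℤ}
    (hs : s ≠ 0) : (h ^ s) y ≠ y := by
  intro e
  have h1 : ∀ q : ℤ, (h ^ (s * q)) y = y := by
    intro q
    induction q using Int.induction_on with
    | zero => simp
    | succ q ih => rw [mul_add, mul_one, hpow_add, e, ih]
    | pred q ih =>
      apply (h ^ s).injective
      rw [hpow_hpow, e, show s + s * (-(q : ℤ) - 1) = s * (-q) by ring, ih]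
  have h2 : (Set.range fun n : ℤ => (h ^ n) y).Finite := by
    refine ((Set.finite_Ico (0 : ℤ) |s|).image fun n => (h ^ n) y).subset ?_
    rintro _ ⟨n, rfl⟩
    refine ⟨n % s, ⟨Int.emod_nonneg _ hs, Int.emod_lt_abs _ hs⟩, ?_⟩
    show (h ^ (n % s)) y = (h ^ n) y
    conv_rhs => rw [← Int.emod_add_mul_ediv n s, hpow_add, h1]
  have h3 := (hmin y).closure_range
  rw [h2.isClosed.closure_eq] at h3
  exact Set.infinite_univ (h3 ▸ h2)

lemma sep_nhds [Infinite X] [T2Space X] (hmin : ∀ x, DenseRange fun n : ℤ => (h ^ n) x) {O : Set X}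
    (hO : IsOpen O) {y : X} (hy : y ∈ O) (D : ℕ) : ∃ O1 : Set X, IsOpen O1 ∧ y ∈ O1 ∧ O1 ⊆ O ∧
      ∀ z ∈ O1, ∀ s : ℤ, s ≠ 0 → |s| ≤ D → (h ^ s) z ∉ O1 := by
  have h1 : ∀ s : ℤ, ∃ V : Set X, IsOpen V ∧ y ∈ V ∧ (s ≠ 0 → ∀ z ∈ V, (h ^ s) z ∉ V) := by
    intro s
    by_cases hs : s = 0
    · exact ⟨Set.univ, isOpen_univ, trivial, fun h0 => absurd hs h0⟩
    · obtain ⟨U, V, hU, hV, h1, h2, h3⟩ := t2_separation (free hmin y hs)
      exact ⟨V ∩ (h ^ s) ⁻¹' U, hV.inter (hU.preimage (h ^ s).continuous), ⟨h2, h1⟩,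
        fun _ z hz hz' => Set.disjoint_left.mp h3 hz.2 hz'.1⟩
  choose V hV hyV hV' using h1
  refine ⟨O ∩ ⋂ s ∈ Finset.Icc (-(D : ℤ)) D, V s, hO.inter (isOpen_biInter_finset fun s _ => hV s),
    ⟨hy, Set.mem_iInter₂.mpr fun s _ => hyV s⟩, Set.inter_subset_left, fun z hz s hs hD hz' => ?_⟩
  have hm : s ∈ Finset.Icc (-(D : ℤ)) D := by rw [Finset.mem_Icc, ← abs_le]; exact hD
  exact hV' s hs z (Set.mem_iInter₂.mp hz.2 s hm) (Set.mem_iInter₂.mp hz'.2 s hm)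

variable {A : Subalgebra ℂ C(X, ℂ)}

lemma sep_bump [Infinite X] [T2Space X] (hS : Sys h A) {O : Set X} (hO : IsOpen O) {y : X}
    (hy : y ∈ O) (D : ℕ) : ∃ f ∈ A, (∀ x, ‖f x‖ ≤ 1) ∧ (∀ x, f x ≠ 0 → x ∈ O) ∧ Sep h f D ∧
      ∃ O' : Set X, IsOpen O' ∧ O'.Nonempty ∧ ∀ x ∈ O', f x = 1 := by
  obtain ⟨O1, h1, h2, h3, h4⟩ := sep_nhds hS.minimal hO hy D
  obtain ⟨f, hf, hf1, hf2, hf3⟩ := hS.bump O1 h1 y h2
  refine ⟨f, hf, hf1, fun x hx => h3 (hf2 x hx), fun x s t hs ht hst => ?_, hf3⟩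
  by_contra hn
  refine h4 _ (hf2 _ ht) (s - t) (sub_ne_zero.mpr hst) (not_lt.mp hn) ?_
  rw [hpow_hpow, sub_add_cancel]
  exact hf2 _ hs

def InA (A : Subalgebra ℂ C(X, ℂ)) (a : Alg h) : Prop := ∀ n, cf a n ∈ A

lemma inA_sg {n : ℤ} {f : C(X, ℂ)} (hf : f ∈ A) : InA A (sg h n f) := fun m => by
  rw [cf_sg]; split_ifs
  · exact hf
  · exact A.zero_mem

lemma inA_one : InA A (1 : Alg h) := inA_sg A.one_mem

lemma InA.add {a b : Alg h} (ha : InA A a) (hb : InA A b) : InA A (a + b) := fun n => by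
  rw [cf_add]; exact A.add_mem (ha n) (hb n)

lemma InA.sub {a b : Alg h} (ha : InA A a) (hb : InA A b) : InA A (a - b) := fun n => by
  rw [cf_sub]; exact A.sub_mem (ha n) (hb n)

lemma inA_sum {ι : Type} (s : Finset ι) {a : ι → Alg h} (ha : ∀ i ∈ s, InA A (a i)) :
    InA A (∑ i ∈ s, a i) := fun n => by
  rw [cf_sum]; exact A.sum_mem fun i hi => ha i hi n

lemma InA.mul (hS : Sys h A) {a b : Alg h} (ha : InA A a) (hb : InA A b) : InA A (a * b) := by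
  obtain ⟨N, hN⟩ := exists_supp a
  obtain ⟨M, hM⟩ := exists_supp b
  rw [eq_sum_sg a _ (supp_Icc hN), eq_sum_sg b _ (supp_Icc hM), Finset.sum_mul_sum]
  refine inA_sum _ fun m _ => inA_sum _ fun n _ => ?_
  rw [sg_mul]
  exact inA_sg (A.mul_mem (ha m) (hS.inv _ _ (hb n)))

lemma InA.tr (hS : Sys h A) {a : Alg h} (ha : InA A a) : InA A (tr a) := fun n => by
  rw [cf_tr]; exact hS.inv _ _ (ha _)

lemma inA_blk (hS : Sys h A) {f : C(X, ℂ)} (hf : f ∈ A) (W : Finset ℤ) (m : ℤ → ℤ → ℂ) :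
    InA A (blk h f W m) :=
  inA_sum _ fun _ _ => inA_sum _ fun _ _ => inA_sg (A.smul_mem (hS.inv _ _ hf) _)

lemma dense_compl_bad (hS : Sys h A) {c : Alg h} (hc : InA A c) : Dense (Bad c)ᶜ := by
  apply dense_compl_of_dimH_lt_finrank
  have e : Bad c = ⋃ H : ℕ, {l : ℂ | ∃ x, ((Matrix.of fun i j : Fin H =>
      alpha h (-((i : ℕ) : ℤ)) (cf c (((i : ℕ) : ℤ) - ((j : ℕ) : ℤ)))).map (fun f => f x) +
      l • (1 : Matrix (Fin H) (Fin H) ℂ)).det = 0} := by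
    have e' : ∀ (H : ℕ) (x : X), (Matrix.of fun i j : Fin H =>
        alpha h (-((i : ℕ) : ℤ)) (cf c (((i : ℕ) : ℤ) - ((j : ℕ) : ℤ)))).map (fun f => f x) =
        sec c H x := by
      intro H x
      ext i j
      simp only [Matrix.map_apply, Matrix.of_apply, sec, rho_dl, alpha_apply, neg_neg]
    ext l
    simp only [e', Set.mem_iUnion, Set.mem_ofPred_eq, Bad]
  rw [e, dimH_iUnion, Complex.finrank_real_complex]
  refine lt_of_le_of_lt (iSup_le fun H => hS.small H _ fun i j => hS.inv _ _ (hc _)) ?_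
  norm_num

lemma continuous_rho (a : Alg h) (ψ : ℤ → ℂ) (i : ℤ) : Continuous fun x => rho h x a ψ i := by
  obtain ⟨N, hN⟩ := exists_supp a
  simp only [rho_eq_sum a _ (supp_Icc hN)]
  fun_prop

lemma diam_Icc (K : ℕ) : Diam (Finset.Icc (-(K : ℤ)) K) (2 * K) := by
  intro i hi j hj
  rw [Finset.mem_Icc] at hi hj
  rw [abs_le]; push_cast; omega

variable [CompactSpace X] [T2Space X] [Infinite X] {B : Type} [NormedRing B]

lemma step_one (hS : Sys h A) {Φ : Alg h →+* B} (hΦ : Contr Φ) {a : Alg h} (ha : InA A a)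
    (hk : ¬ NoKer a) {ε : ℝ} (hε : 0 < ε) :
    ∃ (a' : Alg h) (K : ℕ) (ξ : ℤ → ℂ) (f : C(X, ℂ)) (O' : Set X) (j0 : ℤ), InA A a' ∧
      ‖Φ a - Φ a'‖ ≤ ε ∧ (∀ j, j ∉ Finset.Icc (-(K : ℤ)) K → ξ j = 0) ∧ ξ j0 ≠ 0 ∧
      Sep h f (2 * K) ∧ IsOpen O' ∧ O'.Nonempty ∧ (∀ x ∈ O', f x = 1) ∧
      ∀ x (t : ℤ), (h ^ t) x ∈ O' → rho h x a' (fun i => ξ (i - t)) = 0 := by
  unfold NoKer at hk
  push Not at hk
  obtain ⟨y, φ, C, hφ, hker, j1, hj1⟩ := hk
  obtain ⟨N, hN⟩ := exists_supp a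
  have hN' : Loc a N := hN
  obtain ⟨K, ξ, ξ', c, hξ, hpair, hc0, hcs, hc⟩ := approx_ker hN' hφ hker hj1 (half_pos hε)
  set δ : ℝ := ε / 2 / (2 * ((N + 2 * K : ℕ) : ℝ) + 1) with hδ
  have hδ0 : 0 < δ := by positivity
  set W := Finset.Icc (-(K : ℤ)) K with hW
  let U : Set X := ⋂ i ∈ Finset.Icc (-((N + K : ℕ) : ℤ)) (N + K : ℕ), ⋂ j ∈ W,
    {z | ‖rho h z a ξ i‖ * ‖ξ' j‖ < c (i - j) + δ}
  have hU : IsOpen U := isOpen_biInter_finset fun i _ => isOpen_biInter_finset fun j _ =>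
    isOpen_lt ((continuous_rho a ξ i).norm.mul continuous_const) continuous_const
  have hyU : y ∈ U := Set.mem_iInter₂.mpr fun i _ => Set.mem_iInter₂.mpr fun j _ =>
    lt_of_le_of_lt (hc i j) (lt_add_of_pos_right _ hδ0)
  have hUb : ∀ z ∈ U, ∀ i, ∀ j ∈ W, ‖rho h z a ξ i‖ * ‖ξ' j‖ ≤ c (i - j) + δ := by
    intro z hz i j hj
    by_cases hi : i ∈ Finset.Icc (-((N + K : ℕ) : ℤ)) (N + K : ℕ)
    · exact le_of_lt (Set.mem_iInter₂.mp (Set.mem_iInter₂.mp hz i hi) j hj)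
    · rw [hN'.rho_zero z fun k hk => hξ k fun hk' => hi (by
        rw [Finset.mem_Icc] at hk' ⊢; rw [abs_le] at hk; push_cast; omega), norm_zero, zero_mul]
      exact add_nonneg (hc0 _) hδ0.le
  obtain ⟨f, hfA, hf1, hfU, hsep, O', hO', hne, hfO⟩ := sep_bump hS hU hyU (2 * K)
  have hdiam : Diam W (2 * K) := diam_Icc K
  set P := blk h f W fun i j => ξ i * ξ' j with hP
  have hPloc : ∀ x (t : ℤ) (ψ : ℤ → ℂ), f ((h ^ t) x) ≠ 0 → (∀ j, j - t ∉ W → ψ j = 0) →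
      rho h x P ψ = (f ((h ^ t) x) * ∑ j ∈ W, ξ' j * ψ (t + j)) • fun i => ξ (i - t) := by
    intro x t ψ ht hψ
    funext p
    rw [Pi.smul_apply, smul_eq_mul]
    by_cases hp : p - t ∈ W
    · rw [blk_active hsep hdiam _ ψ ht hp, mul_assoc, Finset.sum_mul]
      congr 1
      exact Finset.sum_congr rfl fun j _ => by ring
    · rw [blk_local hsep hdiam _ ht hψ hp, hξ _ hp, mul_zero]
  obtain ⟨j0, -, hj0⟩ := Finset.exists_ne_zero_of_sum_ne_zero (hpair.trans_ne one_ne_zero)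
  refine ⟨a - a * P, K, ξ, f, O', j0, ha.sub (ha.mul hS (inA_blk hS hfA _ _)), ?_, hξ,
    right_ne_zero_of_mul hj0, hsep, hO', hne, hfO, ?_⟩
  · rw [← map_sub, sub_sub_cancel]
    refine (hΦ.norm_le (hN'.mul (loc_blk hdiam _)) (c := fun n => c n + δ)
      (fun n => add_nonneg (hc0 n) hδ0.le) fun n x => ?_).trans ?_
    · rw [cf_eq_rho, rho_mul]
      by_cases hex : ∃ t, f ((h ^ t) x) ≠ 0 ∧ -n - t ∈ W
      · obtain ⟨t, ht, hn⟩ := hex
        rw [hPloc x t (dl (-n)) ht (fun j hj => if_neg fun e : j = -n => hj (by rw [e]; exact hn)), map_smul, Pi.smul_apply,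
          smul_eq_mul, Finset.sum_eq_single_of_mem (-n - t) hn (fun j _ hj => by
            rw [dl, if_neg (by omega), mul_zero]), dl, if_pos (by ring), mul_one]
        have h1 := rho_shift x a (fun i => ξ (i - t)) t (-t)
        simp only [add_sub_cancel_right, neg_add_cancel] at h1
        have h2 := hUb _ (hfU _ ht) (-t) _ hn
        rw [show -t - (-n - t) = n by ring] at h2
        rw [← h1, norm_mul, norm_mul]
        calc _ ≤ 1 * ‖ξ' (-n - t)‖ * ‖rho h ((h ^ t) x) a (fun j => ξ j) (-t)‖ := by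
              gcongr; exact hf1 _
          _ = ‖rho h ((h ^ t) x) a ξ (-t)‖ * ‖ξ' (-n - t)‖ := by ring
          _ ≤ _ := h2
      · have h0 : rho h x P (dl (-n)) = 0 := by
          funext p
          refine blk_zero hsep hdiam _ _ fun t ht _ j hj => ?_
          rw [dl, if_neg, mul_zero]
          intro e
          exact hex ⟨t, ht, by rwa [← e, add_sub_cancel_left]⟩
        rw [h0, map_zero, Pi.zero_apply, norm_zero]
        exact add_nonneg (hc0 n) hδ0.le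
    · rw [Finset.sum_add_distrib, Finset.sum_const, nsmul_eq_mul, card_Icc_real, hδ,
        mul_div_cancel₀ _ (by positivity)]
      linarith
  · intro x t ht
    have h1 := hPloc x t (fun i => ξ (i - t)) (by rw [hfO _ ht]; exact one_ne_zero) fun j hj => hξ _ hj
    simp only [add_sub_cancel_left, hpair, hfO _ ht, one_mul, one_smul] at h1
    funext i
    rw [rho_sub, rho_mul, h1, sub_self, Pi.zero_apply]

end Pool.Agent.H813Z.LpCross
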