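import Mathlib
import Pool.Agent.H813Z.LpDyn

set_option autoImplicit false

/-! The second step (creating cuts) and the abstract density theorem. -/

namespace Pool.Agent.H813Z.LpCross

variable {X : Type} [TopologicalSpace X] {h : X ≃ₜ X} {A : Subalgebra ℂ C(X, ℂ)}

lemma rho_shift_dl (x : X) (N j : ℤ) : rho h x (sg h N 1) (dl j) = dl (j + N) := by
  funext i
  rw [rho_sg, ContinuousMap.one_apply, one_mul]
  unfold dl
  exact if_congr ⟨fun _ => by omega, fun _ => by omega⟩ rfl rfl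

variable [CompactSpace X] [T2Space X] [Infinite X]

lemma step_two (hS : Sys h A) {a' : Alg h} (ha : InA A a') {K : ℕ} {ξ : ℤ → ℂ} {f : C(X, ℂ)}
    {O' : Set X} {j0 : ℤ} (hξ : ∀ j, j ∉ Finset.Icc (-(K : ℤ)) K → ξ j = 0) (hj0 : ξ j0 ≠ 0)
    (hsep : Sep h f (2 * K)) (hO' : IsOpen O') (hne : O'.Nonempty) (hfO : ∀ x ∈ O', f x = 1)
    (hker : ∀ x (t : ℤ), (h ^ t) x ∈ O' → rho h x a' (fun i => ξ (i - t)) = 0) :
    ∃ w w' : Alg h, w * w' = 1 ∧ w' * w = 1 ∧ InA A (a' * w) ∧ Cuts (a' * w) := by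
  obtain ⟨N, hN⟩ := exists_supp a'
  have hN' : Loc a' N := hN
  have hξ' : ∀ j : ℤ, (K : ℤ) < |j| → ξ j = 0 := fun j hj => hξ j (by
    rw [Finset.mem_Icc, ← abs_le]; exact not_le.mpr hj)
  have hj0' : |j0| ≤ K := not_lt.mp fun hh => hj0 (hξ' _ hh)
  obtain ⟨y0, -⟩ := id hne
  obtain ⟨K1, hK1⟩ := returns hS.minimal hO' hne
  have hinf : {t : ℤ | 2 * (N : ℤ) + K ≤ t ∧ (h ^ t) y0 ∈ O'}.Infinite := by
    refine Set.infinite_of_forall_exists_gt fun s => ?_
    obtain ⟨t, ht, ht'⟩ := hK1 y0 (max s (2 * (N : ℤ) + K) + K1 + 1)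
    rw [abs_le] at ht
    have := le_max_left s (2 * (N : ℤ) + K)
    have := le_max_right s (2 * (N : ℤ) + K)
    exact ⟨t, ⟨by omega, ht'⟩, by omega⟩
  let r : ℤ → ℤ := fun k => (hinf.natEmbedding _ k.toNat : ℤ)
  have hr1 : ∀ k, 2 * (N : ℤ) + K ≤ r k := fun k => (hinf.natEmbedding _ k.toNat).2.1
  have hr2 : ∀ k, (h ^ r k) y0 ∈ O' := fun k => (hinf.natEmbedding _ k.toNat).2.2
  have hr3 : ∀ k k', 0 ≤ k → 0 ≤ k' → k ≠ k' → 2 * (K : ℤ) < |r k - r k'| := by
    intro k k' hk hk' hkk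
    have := hsep y0 (r k) (r k') (by rw [hfO _ (hr2 k)]; exact one_ne_zero)
      (by rw [hfO _ (hr2 k')]; exact one_ne_zero) fun e => hkk (by
        have := (hinf.natEmbedding _).injective (Subtype.ext e)
        omega)
    exact_mod_cast this
  obtain ⟨R, hR1, hR2⟩ : ∃ R : ℕ, 2 * (N : ℤ) ≤ R ∧ ∀ k, 0 ≤ k → k < 2 * (N : ℤ) → r k + K < R := by
    refine ⟨(Finset.Ico (0 : ℤ) (2 * N)).sup (fun k => (r k).natAbs) + K + 2 * N + 1, by omega,
      fun k hk hk' => ?_⟩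
    have := Finset.le_sup (f := fun k => (r k).natAbs) (Finset.mem_Ico.mpr ⟨hk, hk'⟩)
    omega
  clear_value r
  let Y : Set X := ⋂ k ∈ Finset.Ico (0 : ℤ) (2 * N), (h ^ r k) ⁻¹' O'
  have hY : IsOpen Y := isOpen_biInter_finset fun k _ => hO'.preimage (h ^ r k).continuous
  have hyY : y0 ∈ Y := Set.mem_iInter₂.mpr fun k _ => hr2 k
  obtain ⟨g, hgA, -, hgY, hgsep, Y', hY', hY'ne, hgY'⟩ := sep_bump hS hY hyY R
  set W := Finset.Ico (0 : ℤ) R with hW
  have hdiam : Diam W R := diam_Ico R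
  let mn : ℤ → ℤ → ℂ := fun i j => if 0 ≤ j ∧ j < 2 * (N : ℤ) then ξ (i - r j) else 0
  let mm : ℤ → ℤ → ℂ := fun i j =>
    if 0 ≤ i ∧ i < 2 * (N : ℤ) ∧ j = r i + j0 then (ξ j0)⁻¹ else 0
  have hn2 : blk h g W mn * blk h g W mn = 0 := blk_mul_blk hgsep hdiam fun i j _ k _ => by
    simp only [mn]
    split_ifs with h1 h2
    · rw [hξ' (j - r k) (by have := hr1 k; rw [lt_abs]; omega), mul_zero]
    · rw [mul_zero]
    · rw [zero_mul]
    · rw [zero_mul]
  have hm2 : blk h g W mm * blk h g W mm = 0 := blk_mul_blk hgsep hdiam fun i j _ k _ => by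
    simp only [mm]
    split_ifs with h1 h2
    · have := hr1 i; rw [abs_le] at hj0'; omega
    · rw [mul_zero]
    · rw [zero_mul]
    · rw [zero_mul]
  set n := blk h g W mn with hn
  set m := blk h g W mm with hm
  have hw0 : ∀ x (t : ℤ), (h ^ t) x ∈ Y' → ∀ j, 0 ≤ j → j < 2 * (N : ℤ) →
      rho h x ((1 - m) * (1 + n)) (dl (t + j)) = fun i => ξ (i - (r j + t)) := by
    intro x t ht j hj hj'
    have hg1 : g ((h ^ t) x) = 1 := hgY' _ ht
    have hg0 : g ((h ^ t) x) ≠ 0 := by rw [hg1]; exact one_ne_zero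
    have hjW : j ∈ W := Finset.mem_Ico.mpr ⟨hj, by omega⟩
    have hdl : ∀ k, k - t ∉ W → dl (t + j) k = 0 := fun k hk =>
      if_neg fun e : k = t + j => hk (by rw [e, add_sub_cancel_left]; exact hjW)
    have hζ : ∀ k, k - t ∉ W → ξ (k - (r j + t)) = 0 := fun k hk => hξ' _ (by
      rw [Finset.mem_Ico] at hk
      have := hr1 j
      have := hR2 j hj hj'
      rw [lt_abs]; omega)
    have hsum : ∀ (μ : ℤ → ℂ), ∑ k ∈ W, μ k * dl (t + j) (t + k) = μ j := fun μ => by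
      rw [Finset.sum_eq_single_of_mem j hjW fun k _ hk => by
        rw [dl, if_neg (by omega), mul_zero], dl, if_pos rfl, mul_one]
    have h1 : rho h x (1 + n) (dl (t + j)) = dl (t + j) + fun i => ξ (i - (r j + t)) := by
      funext p
      rw [rho_add, rho_one, Pi.add_apply]
      congr 1
      by_cases hp : p - t ∈ W
      · rw [blk_active hgsep hdiam _ _ hg0 hp, hsum, hg1, one_mul]
        simp only [mn]
        rw [if_pos ⟨hj, hj'⟩, sub_sub, add_comm t]
      · rw [blk_local hgsep hdiam _ hg0 hdl hp, hζ p hp]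
    have h2 : rho h x m (dl (t + j)) = 0 := by
      funext p
      by_cases hp : p - t ∈ W
      · rw [blk_active hgsep hdiam _ _ hg0 hp, hsum, Pi.zero_apply]
        simp only [mm]
        rw [if_neg, mul_zero]
        rintro ⟨-, -, e⟩
        have := hr1 (p - t)
        rw [abs_le] at hj0'; omega
      · rw [blk_local hgsep hdiam _ hg0 hdl hp, Pi.zero_apply]
    have h3 : rho h x m (fun i => ξ (i - (r j + t))) = dl (t + j) := by
      funext p
      by_cases hp : p - t ∈ W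
      · rw [blk_active hgsep hdiam _ _ hg0 hp, hg1, one_mul]
        simp only [mm]
        by_cases hp' : 0 ≤ p - t ∧ p - t < 2 * (N : ℤ)
        · have hmem : r (p - t) + j0 ∈ W := by
            have := hr1 (p - t)
            have := hR2 _ hp'.1 hp'.2
            rw [abs_le] at hj0'
            rw [Finset.mem_Ico]; omega
          rw [Finset.sum_eq_single_of_mem _ hmem fun k _ hk => by
            rw [if_neg fun e => hk e.2.2, zero_mul], if_pos ⟨hp'.1, hp'.2, rfl⟩]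
          by_cases hpj : p - t = j
          · rw [hpj, dl, if_pos (by omega), show t + (r j + j0) - (r j + t) = j0 by ring,
              inv_mul_cancel₀ hj0]
          · have := hr3 _ _ hp'.1 hj hpj
            rw [dl, if_neg (by omega), hξ' (t + (r (p - t) + j0) - (r j + t)) (by
              rw [abs_le] at hj0'; rw [lt_abs] at this ⊢; omega), mul_zero]
        · rw [Finset.sum_eq_zero fun k _ => by
            rw [if_neg fun e => hp' ⟨e.1, e.2.1⟩, zero_mul], dl, if_neg (by omega)]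
      · rw [blk_local hgsep hdiam _ hg0 hζ hp, hdl p hp]
    rw [rho_mul, h1, map_sub, map_one, LinearMap.sub_apply, map_add (rho h x m), h2, h3]
    simp
  have hge : ∀ x (t : ℤ), (h ^ t) x ∈ Y' → CutGe (a' * ((1 - m) * (1 + n) * sg h N 1)) x (t - N) := by
    intro x t ht i j hi hj
    have hg0 : g ((h ^ t) x) ≠ 0 := by rw [hgY' _ ht]; exact one_ne_zero
    rw [rho_mul, rho_mul, rho_shift_dl, rho_mul]
    have h1 : ∀ k < t, dl (j + N) k = 0 := fun k hk => if_neg (by omega)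
    have h2 : ∀ k < t, rho h x (1 + n) (dl (j + N)) k = 0 := fun k hk => by
      rw [rho_add, rho_one, h1 k hk, blk_ge hgsep _ hg0 h1 hk, add_zero]
    refine hN'.rho_zero x fun k hk => ?_
    rw [abs_le] at hk
    rw [rho_sub, rho_one, h2 k (by omega), blk_ge hgsep _ hg0 h2 (by omega), sub_zero]
  have hlt : ∀ x (t : ℤ), (h ^ t) x ∈ Y' → CutLt (a' * ((1 - m) * (1 + n) * sg h N 1)) x (t + N) := by
    intro x t ht i j hi hj
    have hg0 : g ((h ^ t) x) ≠ 0 := by rw [hgY' _ ht]; exact one_ne_zero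
    rw [rho_mul, rho_mul, rho_shift_dl]
    rcases lt_or_ge (j + N) t with hjt | hjt
    · rw [rho_mul]
      have h1 : ∀ k, t ≤ k → dl (j + N) k = 0 := fun k hk => if_neg (by omega)
      have h2 : ∀ k, t ≤ k → rho h x (1 + n) (dl (j + N)) k = 0 := fun k hk => by
        rw [rho_add, rho_one, h1 k hk, blk_lt hgsep _ hg0 h1 hk, add_zero]
      refine hN'.rho_zero x fun k hk => ?_
      rw [abs_le] at hk
      rw [rho_sub, rho_one, h2 k (by omega), blk_lt hgsep _ hg0 h2 (by omega), sub_zero]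
    · have h1 := hw0 x t ht (j + N - t) (by omega) (by omega)
      rw [add_sub_cancel] at h1
      rw [h1, hker x _, Pi.zero_apply]
      rw [hpow_add]
      exact Set.mem_iInter₂.mp (hgY _ hg0) _ (Finset.mem_Ico.mpr ⟨by omega, by omega⟩)
  have hu1 : sg h N 1 * sg h (-N) 1 = 1 := by rw [sg_mul, add_neg_cancel, one_mul]; rfl
  have hu2 : sg h (-N) 1 * sg h N 1 = 1 := by rw [sg_mul, neg_add_cancel, one_mul]; rfl
  have hn1 : (1 + n) * (1 - n) = 1 := by rw [mul_sub, mul_one, add_mul, one_mul, hn2]; simp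
  have hn1' : (1 - n) * (1 + n) = 1 := by rw [mul_add, mul_one, sub_mul, one_mul, hn2]; simp
  have hm1 : (1 + m) * (1 - m) = 1 := by rw [mul_sub, mul_one, add_mul, one_mul, hm2]; simp
  have hm1' : (1 - m) * (1 + m) = 1 := by rw [mul_add, mul_one, sub_mul, one_mul, hm2]; simp
  refine ⟨(1 - m) * (1 + n) * sg h N 1, sg h (-N) 1 * ((1 - n) * (1 + m)), ?_, ?_, ?_, ?_⟩
  · calc _ = (1 - m) * ((1 + n) * (sg h N 1 * sg h (-N) 1) * (1 - n)) * (1 + m) := by
          simp only [mul_assoc]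
      _ = 1 := by rw [hu1, mul_one, hn1, mul_one, hm1']
  · calc _ = sg h (-N) 1 * ((1 - n) * ((1 + m) * (1 - m)) * (1 + n)) * sg h N 1 := by
          simp only [mul_assoc]
      _ = 1 := by rw [hm1, mul_one, hn1', mul_one, hu2]
  · exact ha.mul hS (((inA_one.sub (inA_blk hS hgA _ _)).mul hS
      (inA_one.add (inA_blk hS hgA _ _))).mul hS (inA_sg A.one_mem))
  · obtain ⟨K2, hK2⟩ := returns hS.minimal hY' hY'ne
    intro x s
    obtain ⟨t, ht, ht'⟩ := hK2 x (s - N - K2)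
    obtain ⟨u, hu, hu'⟩ := hK2 x (s + N + K2 + 1)
    rw [abs_le] at ht hu
    exact ⟨⟨_, by omega, hge x t ht'⟩, ⟨_, by omega, hge x u hu'⟩, ⟨_, by omega, hlt x t ht'⟩,
      ⟨_, by omega, hlt x u hu'⟩⟩

variable {B : Type} [NormedRing B] [CompleteSpace B]

lemma perturb (hS : Sys h A) {Φ : Alg h →+* B} (hΦ : Contr Φ) {a : Alg h} (ha : InA A a)
    (hk : ¬ NoKer a) {ε : ℝ} (hε : 0 < ε) : ∃ b : Alg h, IsUnit (Φ b) ∧ ‖Φ a - Φ b‖ ≤ ε := by
  obtain ⟨a', K, ξ, f, O', j0, ha', hd, hξ, hj0, hsep, hO', hne, hfO, hker⟩ :=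
    step_one hS hΦ ha hk (half_pos hε)
  obtain ⟨w, w', hw, hw', hc, hcut⟩ := step_two hS ha' hξ hj0 hsep hO' hne hfO hker
  obtain ⟨l, hl, hl'⟩ := (dense_compl_bad hS hc).exists_dist_lt 0
    (show 0 < ε / 2 / (‖Φ w'‖ + 1) by positivity)
  rw [dist_comm, dist_zero_right] at hl'
  have h1 : IsUnit (Φ (a' * w + scal h l)) := by
    refine isUnit_of_noKer hΦ (noKer_of_cuts hcut hl) ?_
    rw [tr_add, tr_scal]
    exact noKer_of_cuts hcut.tr fun hb => hl (bad_tr _ hb)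
  have h2 : IsUnit (Φ w') :=
    ⟨⟨Φ w', Φ w, by rw [← map_mul, hw', map_one], by rw [← map_mul, hw, map_one]⟩, rfl⟩
  refine ⟨(a' * w + scal h l) * w', by rw [map_mul]; exact h1.mul h2, ?_⟩
  rw [add_mul, mul_assoc, hw, mul_one, map_add, ← sub_sub, map_mul]
  refine (norm_sub_le _ _).trans ?_
  have h3 : ‖Φ (scal h l)‖ ≤ ‖l‖ :=
    (hΦ _ _).trans ((ContinuousMap.norm_le _ (norm_nonneg l)).mpr fun _ => le_rfl)
  have h4 : ‖Φ (scal h l) * Φ w'‖ ≤ ε / 2 := by
    refine (norm_mul_le _ _).trans ?_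
    rw [lt_div_iff₀ (by positivity)] at hl'
    have := norm_nonneg l
    have := norm_nonneg (Φ w')
    nlinarith
  linarith

lemma approx_unit (hS : Sys h A) {Φ : Alg h →+* B} (hΦ : Contr Φ) {a : Alg h} (ha : InA A a)
    {ε : ℝ} (hε : 0 < ε) : ∃ b : B, IsUnit b ∧ ‖Φ a - b‖ ≤ ε := by
  by_cases h1 : NoKer a
  · by_cases h2 : NoKer (tr a)
    · exact ⟨Φ a, isUnit_of_noKer hΦ h1 h2, by simpa using hε.le⟩
    · obtain ⟨b, hb, hb'⟩ := perturb hS hΦ.op (ha.tr hS) h2 hε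
      rw [opRep_apply] at hb
      rw [opRep_apply, opRep_apply, tr_tr, ← MulOpposite.op_sub, MulOpposite.norm_op] at hb'
      exact ⟨_, isUnit_op.mp hb, hb'⟩
  · obtain ⟨b, hb, hb'⟩ := perturb hS hΦ ha h1 hε
    exact ⟨_, hb, hb'⟩

theorem dense_units (hS : Sys h A) {Φ : Alg h →+* B} (hΦ : Contr Φ) (hd : DenseRange Φ) :
    Dense {b : B | IsUnit b} := by
  refine Metric.dense_iff.mpr fun x ε hε => ?_
  obtain ⟨a, ha⟩ := hd.exists_dist_lt x (show 0 < ε / 3 by positivity)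
  obtain ⟨N, hN⟩ := exists_supp a
  have hδ : 0 < ε / 3 / (2 * N + 1) := by positivity
  choose g hg hg' using fun n : ℤ => hS.dense.exists_dist_lt (cf a n) hδ
  set a1 : Alg h := ∑ n ∈ Finset.Icc (-(N : ℤ)) N, sg h n (g n) with ha1
  have h1 : InA A a1 := inA_sum _ fun n _ => inA_sg (hg n)
  have h2 : ‖Φ a - Φ a1‖ ≤ ε / 3 := by
    conv_lhs => rw [eq_sum_sg a _ (supp_Icc hN), ha1, map_sum, map_sum, ← Finset.sum_sub_distrib]
    refine (norm_sum_le_of_le (n := fun _ => ε / 3 / (2 * N + 1)) _ fun n _ => ?_).trans ?_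
    · have e : sg h n (cf a n) = sg h n (cf a n - g n) + sg h n (g n) := by
        rw [← sg_add, sub_add_cancel]
      rw [e, map_add, add_sub_cancel_right]
      refine (hΦ _ _).trans ?_
      rw [← dist_eq_norm]; exact (hg' n).le
    · rw [Finset.sum_const, nsmul_eq_mul, card_Icc_real, mul_div_cancel₀ _ (by positivity)]
  obtain ⟨b, hb, hb'⟩ := approx_unit hS hΦ h1 (show 0 < ε / 3 by positivity)
  refine ⟨b, ?_, hb⟩
  rw [Metric.mem_ball, dist_comm]
  rw [← dist_eq_norm] at h2 hb'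
  linarith [dist_triangle4 x (Φ a) (Φ a1) b]

end Pool.Agent.H813Z.LpCross
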