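import Mathlib
import Pool.Agent.H813Z.LpMain

set_option autoImplicit false

/-! The two families of systems: totally disconnected spaces and Lipschitz systems of dimension one. -/

namespace Pool.Agent.H813Z.LpCross

open Polynomial

section general

variable {X : Type} [TopologicalSpace X] [CompactSpace X] [T2Space X]

lemma dense_of_bump (A : StarSubalgebra ℂ C(X, ℂ))
    (hb : ∀ O : Set X, IsOpen O → ∀ y ∈ O, ∃ f ∈ A, (∀ x, f x ≠ 0 → x ∈ O) ∧ f y = 1) :
    Dense (A : Set C(X, ℂ)) := by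
  have h1 := ContinuousMap.starSubalgebra_topologicalClosure_eq_top_of_separatesPoints A (by
    intro x y hxy
    obtain ⟨f, hf, hf1, hf2⟩ := hb {y}ᶜ isOpen_compl_singleton x hxy
    refine ⟨f, ⟨f, hf, rfl⟩, ?_⟩
    have : f y = 0 := by
      by_contra h0
      exact hf1 y h0 rfl
    rw [this, hf2]; exact one_ne_zero)
  rw [dense_iff_closure_eq, ← StarSubalgebra.topologicalClosure_coe, h1]
  rfl

lemma det_eq_eval {H : ℕ} (M : Matrix (Fin H) (Fin H) ℂ) (l : ℂ) :
    (M + l • (1 : Matrix (Fin H) (Fin H) ℂ)).det = (-M).charpoly.eval l := by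
  rw [Matrix.eval_charpoly, sub_neg_eq_add, add_comm, Matrix.scalar_apply, Matrix.smul_one_eq_diagonal]

end general

section cantor

variable {X : Type} [TopologicalSpace X]

noncomputable def lcAlg (X : Type) [TopologicalSpace X] : StarSubalgebra ℂ C(X, ℂ) where
  carrier := {f | IsLocallyConstant f}
  mul_mem' ha hb := ha.mul hb
  add_mem' ha hb := ha.add hb
  algebraMap_mem' c := IsLocallyConstant.const c
  star_mem' ha := ha.comp star

variable [CompactSpace X] [T2Space X] [TotallyDisconnectedSpace X]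

lemma lc_bump (O : Set X) (hO : IsOpen O) (y : X) (hy : y ∈ O) :
    ∃ f ∈ lcAlg X, (∀ x, ‖f x‖ ≤ 1) ∧ (∀ x, f x ≠ 0 → x ∈ O) ∧
      ∃ O' : Set X, IsOpen O' ∧ y ∈ O' ∧ ∀ x ∈ O', f x = 1 := by
  obtain ⟨V, hV, hyV, hVO⟩ := compact_exists_isClopen_in_isOpen hO hy
  classical
  let g : LocallyConstant X ℂ := LocallyConstant.charFn ℂ hV
  have hg : ∀ x, g x = if x ∈ V then 1 else 0 := fun x => by
    simp only [g, LocallyConstant.coe_charFn, Set.indicator_apply, Pi.one_apply]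
  refine ⟨g, g.isLocallyConstant, fun x => ?_, fun x hx => ?_, V, hV.isOpen, hyV, fun x hx => ?_⟩
  · show ‖g x‖ ≤ 1
    rw [hg]; split_ifs <;> simp
  · by_contra hn
    exact hx (show g x = 0 by rw [hg, if_neg fun h' => hn (hVO h')])
  · show g x = 1
    rw [hg, if_pos hx]

lemma sys_lc {h : X ≃ₜ X} (hmin : ∀ x, DenseRange fun n : ℤ => (h ^ n) x) :
    Sys h (lcAlg X).toSubalgebra where
  minimal := hmin
  inv n f hf := IsLocallyConstant.comp_continuous (g := f) hf (h ^ (-n)).continuous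
  bump O hO y hy := by
    obtain ⟨f, hf, h1, h2, O', h3, h4, h5⟩ := lc_bump O hO y hy
    exact ⟨f, hf, h1, h2, O', h3, ⟨y, h4⟩, h5⟩
  dense := dense_of_bump (lcAlg X) fun O hO y hy => by
    obtain ⟨f, hf, -, h2, O', -, h4, h5⟩ := lc_bump O hO y hy
    exact ⟨f, hf, h2, h5 y h4⟩
  small H F hF := by
    have h1 : IsLocallyConstant fun x => F.map fun f => f x := by
      rw [IsLocallyConstant.iff_eventually_eq]
      intro x
      have : ∀ᶠ y in nhds x, ∀ i j, F i j y = F i j x :=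
        Filter.eventually_all.mpr fun i => Filter.eventually_all.mpr fun j =>
          IsLocallyConstant.eventually_eq (hF i j) x
      exact this.mono fun y hy => Matrix.ext hy
    have h2 : {l : ℂ | ∃ x, (F.map (fun f => f x) +
        l • (1 : Matrix (Fin H) (Fin H) ℂ)).det = 0}.Finite := by
      refine (h1.range_finite.biUnion (t := fun M => {l | (-M).charpoly.IsRoot l}) fun M _ =>
        finite_setOfPred_isRoot (Matrix.charpoly_monic _).ne_zero).subset ?_
      rintro l ⟨x, hx⟩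
      rw [det_eq_eval] at hx
      exact Set.mem_iUnion₂.mpr ⟨_, ⟨x, rfl⟩, hx⟩
    rw [dimH_finite h2]
    exact zero_le_one

end cantor

section lip

variable {X : Type} [MetricSpace X] [CompactSpace X]

noncomputable def lipAlg (X : Type) [MetricSpace X] [CompactSpace X] : StarSubalgebra ℂ C(X, ℂ) where
  carrier := {f | ∃ K : ℝ, 0 ≤ K ∧ ∀ x y, ‖f x - f y‖ ≤ K * dist x y}
  mul_mem' := by
    rintro f g ⟨K, hK0, hK⟩ ⟨L, hL0, hL⟩
    refine ⟨‖f‖ * L + K * ‖g‖, by positivity, fun x y => ?_⟩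
    have e : (f * g) x - (f * g) y = f x * (g x - g y) + (f x - f y) * g y := by
      simp only [ContinuousMap.mul_apply]; ring
    rw [e]
    refine (norm_add_le _ _).trans ?_
    rw [norm_mul, norm_mul]
    calc _ ≤ ‖f‖ * (L * dist x y) + K * dist x y * ‖g‖ := by
          gcongr
          exacts [f.norm_coe_le_norm x, hL x y, hK x y, g.norm_coe_le_norm y]
      _ = _ := by ring
  add_mem' := by
    rintro f g ⟨K, hK0, hK⟩ ⟨L, hL0, hL⟩
    refine ⟨K + L, by positivity, fun x y => ?_⟩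
    have e : (f + g) x - (f + g) y = (f x - f y) + (g x - g y) := by
      simp only [ContinuousMap.add_apply]; ring
    rw [e, add_mul]
    exact (norm_add_le _ _).trans (add_le_add (hK x y) (hL x y))
  algebraMap_mem' c := ⟨0, le_rfl, fun x y => by simp⟩
  star_mem' := by
    rintro f ⟨K, hK0, hK⟩
    refine ⟨K, hK0, fun x y => ?_⟩
    rw [ContinuousMap.star_apply, ContinuousMap.star_apply, ← star_sub, norm_star]
    exact hK x y

lemma lip_bump (O : Set X) (hO : IsOpen O) (y : X) (hy : y ∈ O) :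
    ∃ f ∈ lipAlg X, (∀ x, ‖f x‖ ≤ 1) ∧ (∀ x, f x ≠ 0 → x ∈ O) ∧
      ∃ O' : Set X, IsOpen O' ∧ y ∈ O' ∧ ∀ x ∈ O', f x = 1 := by
  obtain ⟨r, hr, hrO⟩ := Metric.isOpen_iff.mp hO y hy
  let g : X → ℝ := fun x => max 0 (min 1 (2 - 2 * dist x y / r))
  refine ⟨⟨fun x => (g x : ℂ), by fun_prop⟩, ⟨2 / r, by positivity, fun x z => ?_⟩, fun x => ?_,
    fun x hx => ?_, Metric.ball y (r / 2), Metric.isOpen_ball, Metric.mem_ball_self (by positivity),
    fun x hx => ?_⟩
  · show ‖(g x : ℂ) - g z‖ ≤ _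
    rw [← Complex.ofReal_sub, Complex.norm_real, Real.norm_eq_abs]
    apply clamp_lip
    rw [← sub_div, ← mul_sub, abs_div, abs_mul, abs_of_pos hr, abs_two, div_mul_eq_mul_div]
    gcongr
    exact abs_dist_sub_le x z y
  · show ‖(g x : ℂ)‖ ≤ 1
    rw [Complex.norm_real, Real.norm_of_nonneg (le_max_left _ _)]
    exact max_le zero_le_one (min_le_left _ _)
  · apply hrO
    by_contra hn
    rw [Metric.mem_ball, not_lt] at hn
    apply hx
    show (g x : ℂ) = 0
    have : 2 ≤ 2 * dist x y / r := by rw [le_div_iff₀ hr]; linarith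
    rw [show g x = 0 from max_eq_left ((min_le_right _ _).trans (by linarith))]; rfl
  · show (g x : ℂ) = 1
    rw [Metric.mem_ball] at hx
    have : 2 * dist x y / r ≤ 1 := by rw [div_le_iff₀ hr]; linarith
    rw [show g x = 1 from by
      show max 0 (min 1 _) = 1
      rw [min_eq_left (by linarith), max_eq_right zero_le_one]]; rfl

omit [CompactSpace X] in
lemma dimH_snd_le {S : Set (X × ℂ)} {K : ℝ} (hK : 0 ≤ K)
    (hS : ∀ z ∈ S, ∀ z' ∈ S, dist z.2 z'.2 ≤ K * dist z.1 z'.1) :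
    dimH (Prod.snd '' S) ≤ dimH (Set.univ : Set X) := by
  classical
  let g : X → ℂ := fun x => if hx : ∃ l, (x, l) ∈ S then hx.choose else 0
  have hg : ∀ z ∈ S, g z.1 = z.2 := by
    intro z hz
    have hx : ∃ l, (z.1, l) ∈ S := ⟨z.2, hz⟩
    have := hS _ hx.choose_spec z hz
    simp only [dist_self, mul_zero, dist_le_zero] at this
    simp only [g, dif_pos hx, this]
  have hL : LipschitzOnWith ⟨K, hK⟩ g (Prod.fst '' S) := by
    refine LipschitzOnWith.of_dist_le_mul ?_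
    rintro _ ⟨z, hz, rfl⟩ _ ⟨z', hz', rfl⟩
    rw [hg z hz, hg z' hz']
    exact hS z hz z' hz'
  refine le_trans (dimH_mono ?_) (hL.dimH_image_le.trans (dimH_mono (Set.subset_univ _)))
  rintro _ ⟨z, hz, rfl⟩
  exact ⟨z.1, ⟨z, hz, rfl⟩, hg z hz⟩

lemma simple_roots_dim (n : ℕ) (c : ℕ → C(X, ℂ)) (hc : ∀ k, c k ∈ lipAlg X) :
    dimH (Prod.snd '' {z : X × ℂ | ∑ k ∈ Finset.range n, c k z.1 * z.2 ^ k = 0 ∧
      ∑ k ∈ Finset.range n, c k z.1 * (k * z.2 ^ (k - 1)) ≠ 0}) ≤ dimH (Set.univ : Set X) := by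
  set S := {z : X × ℂ | ∑ k ∈ Finset.range n, c k z.1 * z.2 ^ k = 0 ∧
      ∑ k ∈ Finset.range n, c k z.1 * (k * z.2 ^ (k - 1)) ≠ 0} with hS
  choose Kc hK0 hKc using hc
  have key : ∀ z0 : X × ℂ, ∃ V : Set (X × ℂ), z0 ∈ S → V ∈ nhds z0 ∧
      dimH (Prod.snd '' (S ∩ V)) ≤ dimH (Set.univ : Set X) := by
    intro z0
    by_cases hz0 : z0 ∈ S
    swap
    · exact ⟨∅, fun h => absurd h hz0⟩
    let G : (X × ℂ) × (X × ℂ) → ℂ := fun w => ∑ k ∈ Finset.range n,
      c k w.1.1 * ∑ i ∈ Finset.range k, w.1.2 ^ i * w.2.2 ^ (k - 1 - i)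
    have hG : Continuous G := by fun_prop
    have hG0 : 0 < ‖G (z0, z0)‖ := by
      rw [norm_pos_iff]
      simp only [G, geom_sum₂_self]
      exact hz0.2
    have hev : {w | ‖G (z0, z0)‖ / 2 < ‖G w‖} ∈ nhds (z0, z0) :=
      (isOpen_lt continuous_const hG.norm).mem_nhds (half_lt_self hG0)
    obtain ⟨u, hu, v, hv, huv⟩ := mem_nhds_prod_iff.mp hev
    have hb : {z : X × ℂ | ‖z.2‖ < ‖z0.2‖ + 1} ∈ nhds z0 :=
      (isOpen_lt (by fun_prop) continuous_const).mem_nhds (lt_add_one ‖z0.2‖)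
    refine ⟨u ∩ v ∩ {z : X × ℂ | ‖z.2‖ < ‖z0.2‖ + 1}, fun _ =>
      ⟨Filter.inter_mem (Filter.inter_mem hu hv) hb, ?_⟩⟩
    have hKs : 0 ≤ ∑ k ∈ Finset.range n, Kc k * (‖z0.2‖ + 1) ^ k :=
      Finset.sum_nonneg fun k _ => by have := hK0 k; positivity
    refine dimH_snd_le (K := (∑ k ∈ Finset.range n, Kc k * (‖z0.2‖ + 1) ^ k) / (‖G (z0, z0)‖ / 2))
      (by positivity) ?_
    rintro z ⟨hz, ⟨hzu, -⟩, -⟩ z' ⟨hz', ⟨-, hzv⟩, hzb⟩
    have h1 : ‖G (z0, z0)‖ / 2 < ‖G (z, z')‖ := huv (Set.mk_mem_prod hzu hzv)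
    have h2 : G (z, z') * (z.2 - z'.2) = ∑ k ∈ Finset.range n, (c k z'.1 - c k z.1) * z'.2 ^ k := by
      have e : G (z, z') * (z.2 - z'.2) =
          ∑ k ∈ Finset.range n, c k z.1 * (z.2 ^ k - z'.2 ^ k) := by
        simp only [G]
        rw [Finset.sum_mul]
        exact Finset.sum_congr rfl fun k _ => by rw [mul_assoc, geom_sum₂_mul]
      rw [e]
      simp only [mul_sub, sub_mul, Finset.sum_sub_distrib]
      rw [hz.1, hz'.1]
    have h3 : ‖G (z, z')‖ * ‖z.2 - z'.2‖ ≤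
        (∑ k ∈ Finset.range n, Kc k * (‖z0.2‖ + 1) ^ k) * dist z.1 z'.1 := by
      rw [← norm_mul, h2, Finset.sum_mul]
      refine norm_sum_le_of_le _ fun k _ => ?_
      rw [norm_mul, norm_pow, dist_comm]
      have := hK0 k
      calc _ ≤ Kc k * dist z'.1 z.1 * (‖z0.2‖ + 1) ^ k := by
            gcongr
            exacts [hKc k _ _, le_of_lt hzb]
        _ = _ := by ring
    rw [dist_eq_norm, div_mul_eq_mul_div, le_div_iff₀ (half_pos hG0)]
    nlinarith [norm_nonneg (z.2 - z'.2)]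
  choose V hV using key
  obtain ⟨t, hts, htc, hcov⟩ := TopologicalSpace.countable_cover_nhdsWithin (f := V) (s := S)
    fun z hz => mem_nhdsWithin_of_mem_nhds (hV z hz).1
  have : Prod.snd '' S ⊆ ⋃ z ∈ t, Prod.snd '' (S ∩ V z) := by
    rintro _ ⟨z, hz, rfl⟩
    obtain ⟨w, hw, hzw⟩ := Set.mem_iUnion₂.mp (hcov hz)
    exact Set.mem_iUnion₂.mpr ⟨w, hw, z, ⟨hz, hzw⟩, rfl⟩
  refine (dimH_mono this).trans ?_
  rw [dimH_bUnion htc]
  exact iSup₂_le fun z hz => (hV z (hts hz)).2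

noncomputable def evLip (x : X) : lipAlg X →+* ℂ where
  toFun f := (f : C(X, ℂ)) x
  map_one' := rfl
  map_mul' _ _ := rfl
  map_zero' := rfl
  map_add' _ _ := rfl

lemma roots_dim (p : (lipAlg X)[X]) (hp : p.Monic) :
    dimH {l : ℂ | ∃ x, (p.map (evLip x)).IsRoot l} ≤ dimH (Set.univ : Set X) := by
  have hsub : {l : ℂ | ∃ x, (p.map (evLip x)).IsRoot l} ⊆ ⋃ m : ℕ, Prod.snd '' {z : X × ℂ |
      ∑ k ∈ Finset.range ((derivative^[m] p).natDegree + 1),
        ((derivative^[m] p).coeff k : C(X, ℂ)) z.1 * z.2 ^ k = 0 ∧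
      ∑ k ∈ Finset.range ((derivative^[m] p).natDegree + 1),
        ((derivative^[m] p).coeff k : C(X, ℂ)) z.1 * (k * z.2 ^ (k - 1)) ≠ 0} := by
    rintro l ⟨x, hx⟩
    have hne : p.map (evLip x) ≠ 0 := (hp.map _).ne_zero
    have hex : ∃ m, ¬ (derivative^[m] (p.map (evLip x))).IsRoot l := by
      by_contra hn
      push Not at hn
      exact lt_irrefl _ (lt_rootMultiplicity_of_isRoot_iterate_derivative hne fun m _ => hn m)
    classical
    have h1 := Nat.find_spec hex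
    obtain ⟨m, hm⟩ : ∃ m, Nat.find hex = m + 1 := by
      refine Nat.exists_eq_succ_of_ne_zero fun h0 => ?_
      rw [h0] at h1
      exact h1 hx
    have h2 := not_not.mp (Nat.find_min hex (show m < Nat.find hex by omega))
    rw [hm, Function.iterate_succ_apply', iterate_derivative_map] at h1
    rw [iterate_derivative_map] at h2
    have hdeg : ((derivative^[m] p).map (evLip x)).natDegree < (derivative^[m] p).natDegree + 1 :=
      Nat.lt_succ_of_le natDegree_map_le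
    refine Set.mem_iUnion.mpr ⟨m, (x, l), ⟨?_, ?_⟩, rfl⟩
    · rw [IsRoot.def, eval_eq_sum_range' hdeg] at h2
      simp only [coeff_map] at h2
      exact h2
    · rw [IsRoot.def, derivative_eval, sum_over_range' _ (by simp) _ hdeg] at h1
      simp only [coeff_map, mul_assoc] at h1
      exact h1
  refine (dimH_mono hsub).trans ?_
  rw [dimH_iUnion]
  exact iSup_le fun m => simple_roots_dim _ _ fun k => ((derivative^[m] p).coeff k).2

lemma sys_lip {h : X ≃ₜ X} (hmin : ∀ x, DenseRange fun n : ℤ => (h ^ n) x)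
    (hL : ∀ n : ℤ, ∃ K : ℝ, 0 ≤ K ∧ ∀ x y, dist ((h ^ n) x) ((h ^ n) y) ≤ K * dist x y)
    (hdim : dimH (Set.univ : Set X) ≤ 1) : Sys h (lipAlg X).toSubalgebra where
  minimal := hmin
  inv n f := by
    rintro ⟨K, hK0, hK⟩
    obtain ⟨L, hL0, hL⟩ := hL (-n)
    refine ⟨K * L, by positivity, fun x y => (hK _ _).trans ?_⟩
    rw [mul_assoc]
    exact mul_le_mul_of_nonneg_left (hL x y) hK0
  bump O hO y hy := by
    obtain ⟨f, hf, h1, h2, O', h3, h4, h5⟩ := lip_bump O hO y hy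
    exact ⟨f, hf, h1, h2, O', h3, ⟨y, h4⟩, h5⟩
  dense := dense_of_bump (lipAlg X) fun O hO y hy => by
    obtain ⟨f, hf, -, h2, O', -, h4, h5⟩ := lip_bump O hO y hy
    exact ⟨f, hf, h2, h5 y h4⟩
  small H F hF := by
    let F' : Matrix (Fin H) (Fin H) (lipAlg X) := Matrix.of fun i j => ⟨F i j, hF i j⟩
    refine le_trans (dimH_mono ?_) ((roots_dim (-F').charpoly (Matrix.charpoly_monic _)).trans hdim)
    rintro l ⟨x, hx⟩
    refine ⟨x, ?_⟩
    rw [det_eq_eval] at hx
    rw [← Matrix.charpoly_map]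
    exact hx

end lip

lemma dimH_circle : dimH (Set.univ : Set Circle) ≤ 1 := by
  have h1 : Isometry (fun z : Circle => (z : ℂ)) := isometry_subtype_coe
  rw [← h1.dimH_image, ← Real.dimH_univ]
  refine le_trans (dimH_mono ?_) (lipschitzWith_circleMap 0 1).dimH_range_le
  rintro _ ⟨z, -, rfl⟩
  rw [range_circleMap]
  simp

lemma rot_pow {a : Circle} {h : Circle ≃ₜ Circle} (hh : ∀ z, h z = a * z) (n : ℤ) (z : Circle) :
    (h ^ n) z = a ^ n * z := by
  induction n using Int.induction_on with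
  | zero => simp
  | succ n ih => rw [add_comm, hpow_add, zpow_one, hh, ih, zpow_add, zpow_one, mul_assoc]
  | pred n ih =>
    apply h.injective
    have := hpow_add h 1 (-(n : ℤ) - 1) z
    rw [zpow_one] at this
    rw [← this, hh, ← mul_assoc, ← zpow_one_add, show 1 + (-(n : ℤ) - 1) = -n by ring, ih]

lemma sys_rot {θ : ℝ} (hθ : Irrational θ) {h : Circle ≃ₜ Circle}
    (hh : ∀ z, h z = Circle.exp (2 * Real.pi * θ) * z) : Sys h (lipAlg Circle).toSubalgebra := by
  refine sys_lip (fun x => ?_) (fun n => ⟨1, zero_le_one, fun x y => ?_⟩) dimH_circle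
  · simp only [rot_pow hh]
    have h1 : Dense (AddSubgroup.closure {2 * Real.pi * θ, 2 * Real.pi} : Set ℝ) := by
      rw [dense_addSubgroupClosure_pair_iff, mul_div_cancel_left₀ _ (by positivity)]
      exact hθ
    have h2 : DenseRange fun t : ℝ => Circle.exp t * x :=
      ((mul_right_surjective x).comp Circle.exp_surjective).denseRange
    refine (h2.dense_image (by fun_prop) h1).mono ?_
    rintro _ ⟨t, ht, rfl⟩
    obtain ⟨m, n, rfl⟩ := AddSubgroup.mem_closure_pair.mp ht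
    refine ⟨m, ?_⟩
    simp only [Circle.exp_add, Circle.exp_zsmul, Circle.exp_two_pi, one_zpow, mul_one]
  · rw [rot_pow hh, rot_pow hh, one_mul]
    show dist ((_ * x : Circle) : ℂ) ((_ * y : Circle) : ℂ) ≤ dist (x : ℂ) (y : ℂ)
    rw [Circle.coe_mul, Circle.coe_mul, dist_eq_norm, dist_eq_norm, ← mul_sub, norm_mul,
      Circle.norm_coe, one_mul]

end Pool.Agent.H813Z.LpCross
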