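import Mathlib
import Pool.Agent.H813Z.LpDefs

set_option autoImplicit false

/-!
# Regular representations on `ℓ^p(ℤ, V)` as bounded operators (used in proofs only)
-/

namespace Pool.Agent.H813Z.LpCross

open scoped ENNReal

variable {X : Type} [TopologicalSpace X]

section shift

variable (V : Type) [NormedAddCommGroup V] [NormedSpace ℂ V] (p : ℝ≥0∞) [Fact (1 ≤ p)]

omit [NormedSpace ℂ V] [Fact (1 ≤ p)] in
lemma memℓp_shift (m : ℤ) (ξ : lp (fun _ : ℤ => V) p) : Memℓp (fun n : ℤ => ξ (n - m)) p := by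
  have h := lp.memℓp ξ
  unfold Memℓp at h ⊢
  split_ifs at h ⊢
  · exact h.preimage (f := fun n : ℤ => n - m) (sub_left_injective.injOn)
  · exact h.mono (by rintro _ ⟨n, rfl⟩; exact ⟨n - m, rfl⟩)
  · exact (Equiv.subRight m).summable_iff.mpr h

omit [NormedSpace ℂ V] in
lemma norm_shift (m : ℤ) (ξ : lp (fun _ : ℤ => V) p) :
    ‖(⟨fun n : ℤ => ξ (n - m), memℓp_shift V p m ξ⟩ : lp (fun _ : ℤ => V) p)‖ ≤ 1 * ‖ξ‖ := by
  rw [one_mul]
  have hp0 : p ≠ 0 := (zero_lt_one.trans_le Fact.out).ne'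
  rcases p.trichotomy with (rfl | rfl | hp)
  · exact absurd rfl hp0
  · exact lp.norm_le_of_forall_le (norm_nonneg _) fun n => lp.norm_apply_le_norm hp0 ξ (n - m)
  · rw [lp.norm_eq_tsum_rpow hp, lp.norm_eq_tsum_rpow hp]
    exact le_of_eq (congrArg (· ^ (1 / p.toReal))
      ((Equiv.subRight m).tsum_eq fun n => ‖ξ n‖ ^ p.toReal))

/-- The shift `(u_m ξ)(n) = ξ(n - m)` on `ℓ^p(ℤ, V)`. -/
noncomputable def shiftOp (m : ℤ) : lp (fun _ : ℤ => V) p →L[ℂ] lp (fun _ : ℤ => V) p :=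
  LinearMap.mkContinuous
    { toFun := fun ξ => ⟨fun n : ℤ => ξ (n - m), memℓp_shift V p m ξ⟩
      map_add' := fun _ _ => rfl
      map_smul' := fun _ _ => rfl } 1 (norm_shift V p m)

/-- `m ↦ u_m` as a homomorphism. -/
noncomputable def shiftHom :
    Multiplicative ℤ →* (lp (fun _ : ℤ => V) p →L[ℂ] lp (fun _ : ℤ => V) p) where
  toFun m := shiftOp V p m.toAdd
  map_one' := by ext ξ n; exact congrArg ξ (sub_zero n)
  map_mul' m k := by ext ξ n; exact congrArg ξ (sub_sub n _ _).symm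

end shift

variable [CompactSpace X] {V : Type} [NormedAddCommGroup V] [NormedSpace ℂ V]
  (p : ℝ≥0∞) [Fact (1 ≤ p)] (π : C(X, ℂ) →ₐ[ℂ] (V →L[ℂ] V)) (hπ : ∀ f, ‖π f‖ ≤ ‖f‖) (h : X ≃ₜ X)

/-- `(π(f) ξ)(n) = π₀(α^{-n}(f)) ξ(n)` on `ℓ^p(ℤ, V)`. -/
noncomputable def diagOp (f : C(X, ℂ)) :
    lp (fun _ : ℤ => V) p →L[ℂ] lp (fun _ : ℤ => V) p :=
  lp.mapCLM p (fun n : ℤ => π (alpha h (-n) f)) (norm_nonneg f)
    fun n => (hπ _).trans (norm_alpha_le h (-n) f)

/-- `f ↦ π(f)` as a ring homomorphism. -/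
noncomputable def diagHom : Coef h →+* (lp (fun _ : ℤ => V) p →L[ℂ] lp (fun _ : ℤ => V) p) where
  toFun f := diagOp p π hπ h f
  map_one' := ContinuousLinearMap.ext fun ξ => lp.ext (funext fun n =>
    DFunLike.congr_fun (map_one π) (ξ n))
  map_mul' f g := ContinuousLinearMap.ext fun ξ => lp.ext (funext fun n =>
    DFunLike.congr_fun (map_mul π (alpha h (-n) f) (alpha h (-n) g)) (ξ n))
  map_zero' := ContinuousLinearMap.ext fun ξ => lp.ext (funext fun n =>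
    DFunLike.congr_fun (map_zero π) (ξ n))
  map_add' f g := ContinuousLinearMap.ext fun ξ => lp.ext (funext fun n =>
    DFunLike.congr_fun (map_add π (alpha h (-n) f) (alpha h (-n) g)) (ξ n))

/-- The regular representation `∑ a_n u^n ↦ ∑ π(a_n) u_n`. -/
noncomputable def regRep : Alg h →+* (lp (fun _ : ℤ => V) p →L[ℂ] lp (fun _ : ℤ => V) p) :=
  SkewMonoidAlgebra.liftNCRingHom (diagHom p π hπ h) (shiftHom V p) fun {f m} =>
    ContinuousLinearMap.ext fun ξ => lp.ext (funext fun n => by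
      show π (alpha h (-n) (alpha h m.toAdd f)) (ξ (n - m.toAdd)) =
        π (alpha h (-(n - m.toAdd)) f) (ξ (n - m.toAdd))
      rw [← alpha_add, neg_sub, neg_add_eq_sub])

lemma regRep_single (m : Multiplicative ℤ) (f : C(X, ℂ)) :
    regRep p π hπ h (SkewMonoidAlgebra.single m f) = diagOp p π hπ h f * shiftOp V p m.toAdd :=
  SkewMonoidAlgebra.liftNC_single _ _ _ _

lemma norm_regRep_single (m : Multiplicative ℤ) (f : C(X, ℂ)) :
    ‖regRep p π hπ h (SkewMonoidAlgebra.single m f)‖ ≤ ‖f‖ := by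
  have h1 : ‖diagOp p π hπ h f‖ ≤ ‖f‖ := lp.norm_mapCLM_le _ _ _ _
  have h2 : ‖shiftOp V p m.toAdd‖ ≤ 1 := LinearMap.mkContinuous_norm_le _ zero_le_one _
  rw [regRep_single]
  exact (norm_mul_le _ _).trans ((mul_le_mul h1 h2 (norm_nonneg _) (norm_nonneg _)).trans
    (mul_one _).le)

lemma norm_regRep_le (a : Alg h) :
    ‖regRep p π hπ h a‖ ≤ ∑ m ∈ a.support, ‖(show C(X, ℂ) from a.coeff m)‖ := by
  conv_lhs => rw [← a.sum_single, SkewMonoidAlgebra.sum_def', map_sum]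
  exact norm_sum_le_of_le _ fun m _ => norm_regRep_single p π hπ h m _

lemma regRep_apply (a : Alg h) (ξ : lp (fun _ : ℤ => V) p) (n : ℤ) :
    regRep p π hπ h a ξ n =
      ∑ m ∈ a.support, π (alpha h (-n) (a.coeff m)) (ξ (n - m.toAdd)) := by
  conv_lhs => rw [← a.sum_single, SkewMonoidAlgebra.sum_def', map_sum]
  rw [_root_.sum_apply, lp.coeFn_sum, Finset.sum_apply]
  refine Finset.sum_congr rfl fun m _ => ?_
  exact congrArg (fun T : lp (fun _ : ℤ => V) p →L[ℂ] lp (fun _ : ℤ => V) p => T ξ n)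
    (regRep_single p π hπ h m (a.coeff m))

end Pool.Agent.H813Z.LpCross
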