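import Mathlib
import Pool.Agent.H813Z.LpDefs
import Pool.Agent.H813Z.LpReg

set_option autoImplicit false

/-!
# The reduced `L^p` crossed product `F^p_r(ℤ, X, h)`
-/

namespace Pool.Agent.H813Z.LpCross

open MeasureTheory
open scoped ENNReal

variable {X : Type} [TopologicalSpace X] [CompactSpace X]

section generic

variable (V : Type) [NormedAddCommGroup V] [NormedSpace ℂ V]

/-- Unital contractive homomorphisms `π₀ : C(X) → L(V)`. -/
def Rep (X : Type) [TopologicalSpace X] [CompactSpace X]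
    (V : Type) [NormedAddCommGroup V] [NormedSpace ℂ V] : Type :=
  {π : C(X, ℂ) →ₐ[ℂ] (V →L[ℂ] V) // ∀ f, ‖π f‖ ≤ ‖f‖}

variable {V}

/-- `(T ξ)(n) = ∑_m π₀(α^{-n}(a_m)) ξ(n - m)`: the action of `T = ∑_m π(a_m) v^m` on a sequence `ξ`,
where `(π(f) ξ)(n) = π₀(α^{-n}(f)) ξ(n)` and `(v ξ)(n) = ξ(n - 1)`. -/
noncomputable def regApply (π : Rep X V) (h : X ≃ₜ X) (a : Alg h) (ξ : ℤ → V) (n : ℤ) : V :=
  ∑ m ∈ a.support, π.1 (alpha h (-n) (a.coeff m)) (ξ (n - m.toAdd))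

/-- The operator norm of `∑_m π(a_m) v^m` on `ℓ^p(ℤ, V)`. -/
noncomputable def regNorm (p : ℝ≥0∞) (π : Rep X V) (h : X ≃ₜ X) (a : Alg h) : ℝ :=
  sSup {r : ℝ | ∃ ξ η : lp (fun _ : ℤ => V) p, ‖ξ‖ ≤ 1 ∧ (∀ n, η n = regApply π h a ξ n) ∧ r = ‖η‖}

lemma regNorm_eq (p : ℝ≥0∞) [Fact (1 ≤ p)] (π : Rep X V) (h : X ≃ₜ X) (a : Alg h) :
    regNorm p π h a = ‖regRep p π.1 π.2 h a‖ := by
  rw [← ContinuousLinearMap.sSup_unitClosedBall_eq_norm]
  unfold regNorm
  congr 1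
  ext r
  constructor
  · rintro ⟨ξ, η, h1, h2, rfl⟩
    refine ⟨ξ, mem_closedBall_zero_iff.mpr h1, ?_⟩
    have : η = regRep p π.1 π.2 h a ξ :=
      lp.ext (funext fun n => (h2 n).trans (regRep_apply p π.1 π.2 h a ξ n).symm)
    rw [this]
  · rintro ⟨ξ, h1, rfl⟩
    exact ⟨ξ, _, mem_closedBall_zero_iff.mp h1, regRep_apply p π.1 π.2 h a ξ, rfl⟩

end generic

variable (p : ℝ≥0∞) [Fact (1 ≤ p)] (h : X ≃ₜ X)

/-- The reduced norm: the supremum of the operator norms over all σ-finite measure spaces `(Y, μ)`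
and all unital contractive homomorphisms `π₀ : C(X) → L(L^p(Y, μ))`. -/
noncomputable def redNorm (a : Alg h) : ℝ :=
  sSup {r : ℝ | ∃ (Y : Type) (_ : MeasurableSpace Y) (μ : Measure Y), SigmaFinite μ ∧
    ∃ π : Rep X (Lp ℂ p μ), r = regNorm p π h a}

lemma redNorm_le (a : Alg h) {C : ℝ} (hC : 0 ≤ C)
    (H : ∀ (Y : Type) (_ : MeasurableSpace Y) (μ : Measure Y), SigmaFinite μ →
      ∀ π : Rep X (Lp ℂ p μ), ‖regRep p π.1 π.2 h a‖ ≤ C) : redNorm p h a ≤ C := by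
  refine Real.sSup_le ?_ hC
  rintro _ ⟨Y, _, μ, hμ, π, rfl⟩
  rw [regNorm_eq]
  exact H Y _ μ hμ π

lemma le_redNorm (a : Alg h) {Y : Type} [MeasurableSpace Y] (μ : Measure Y) (hμ : SigmaFinite μ)
    (π : Rep X (Lp ℂ p μ)) : ‖regRep p π.1 π.2 h a‖ ≤ redNorm p h a := by
  refine le_csSup ⟨∑ m ∈ a.support, ‖(show C(X, ℂ) from a.coeff m)‖, ?_⟩
    ⟨Y, _, μ, hμ, π, (regNorm_eq p π h a).symm⟩
  rintro _ ⟨Y, _, μ, hμ, π, rfl⟩
  rw [regNorm_eq]
  exact norm_regRep_le p π.1 π.2 h a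

lemma redNorm_nonneg (a : Alg h) : 0 ≤ redNorm p h a := by
  refine Real.sSup_nonneg ?_
  rintro _ ⟨Y, _, μ, hμ, π, rfl⟩
  rw [regNorm_eq]
  exact norm_nonneg _

lemma redNorm_zero : redNorm p h 0 = 0 :=
  le_antisymm (redNorm_le p h 0 le_rfl fun _ _ _ _ _ => by rw [map_zero, norm_zero])
    (redNorm_nonneg p h 0)

lemma redNorm_add (a b : Alg h) : redNorm p h (a + b) ≤ redNorm p h a + redNorm p h b :=
  redNorm_le p h _ (add_nonneg (redNorm_nonneg p h a) (redNorm_nonneg p h b))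
    fun _ _ μ hμ π => by
      rw [map_add]
      exact (norm_add_le _ _).trans (add_le_add (le_redNorm p h a μ hμ π) (le_redNorm p h b μ hμ π))

lemma redNorm_neg_le (a : Alg h) : redNorm p h (-a) ≤ redNorm p h a :=
  redNorm_le p h _ (redNorm_nonneg p h a) fun _ _ μ hμ π => by
    rw [map_neg, norm_neg]
    exact le_redNorm p h a μ hμ π

lemma redNorm_neg (a : Alg h) : redNorm p h (-a) = redNorm p h a :=
  le_antisymm (redNorm_neg_le p h a) (by simpa using redNorm_neg_le p h (-a))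

lemma redNorm_mul (a b : Alg h) : redNorm p h (a * b) ≤ redNorm p h a * redNorm p h b :=
  redNorm_le p h _ (mul_nonneg (redNorm_nonneg p h a) (redNorm_nonneg p h b))
    fun _ _ μ hμ π => by
      rw [map_mul]
      exact (norm_mul_le _ _).trans (mul_le_mul (le_redNorm p h a μ hμ π)
        (le_redNorm p h b μ hμ π) (norm_nonneg _) (redNorm_nonneg p h a))

/-- The reduced norm as a submultiplicative seminorm on the ring `C_c(ℤ, C(X))`. -/
noncomputable def redSeminorm : RingSeminorm (Alg h) where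
  toFun := redNorm p h
  map_zero' := redNorm_zero p h
  add_le' := redNorm_add p h
  neg' := redNorm_neg p h
  mul_le' := redNorm_mul p h

/-- `C_c(ℤ, C(X))` carrying the reduced norm. -/
def Cc (_p : ℝ≥0∞) (h : X ≃ₜ X) : Type := Alg h

noncomputable instance instCc : SeminormedRing (Cc p h) :=
  RingSeminorm.toSeminormedRing (R := Alg h) (redSeminorm p h)

/-- The reduced `L^p` crossed product `F^p_r(ℤ, X, h)`: the completion. -/
abbrev FpRed : Type := UniformSpace.Completion (Cc p h)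

end Pool.Agent.H813Z.LpCross
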