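import Mathlib
import Pool.Agent.H813Z.LpInst
import Pool.Agent.H813Z.LpRed

set_option autoImplicit false

/-! The main theorem applied to the reduced crossed product, and a sanity check: `C(X)` embeds
isometrically in the reduced crossed product. -/

namespace Pool.Agent.H813Z.LpCross

open MeasureTheory
open scoped ENNReal

variable {X : Type} [TopologicalSpace X] [CompactSpace X]

/-- the canonical map -/
noncomputable def toRed (p : ℝ≥0∞) [Fact (1 ≤ p)] (h : X ≃ₜ X) : Alg h →+* FpRed p h :=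
  UniformSpace.Completion.coeRingHom (α := Cc p h)

lemma norm_toRed (p : ℝ≥0∞) [Fact (1 ≤ p)] (h : X ≃ₜ X) (a : Alg h) :
    ‖toRed p h a‖ = redNorm p h a :=
  UniformSpace.Completion.norm_coe (E := Cc p h) a

theorem contr_red (p : ℝ≥0∞) [Fact (1 ≤ p)] (h : X ≃ₜ X) : Contr (toRed p h) := by
  intro n f
  rw [norm_toRed]
  exact redNorm_le p h _ (norm_nonneg f) fun _ _ _ _ π => norm_regRep_single p π.1 π.2 h _ f

theorem dense_units_red [T2Space X] [Infinite X] {h : X ≃ₜ X} {A : Subalgebra ℂ C(X, ℂ)}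
    (hS : Sys h A) (p : ℝ≥0∞) [Fact (1 ≤ p)] : Dense {b : FpRed p h | IsUnit b} :=
  dense_units hS (contr_red p h) (UniformSpace.Completion.denseRange_coe (α := Cc p h))

noncomputable def ptRep (p : ℝ≥0∞) [Fact (1 ≤ p)] (x : X) : Rep X (Lp ℂ p (Measure.dirac ())) :=
  ⟨(Algebra.ofId ℂ _).comp (ContinuousMap.evalAlgHom ℂ ℂ x), fun f => by
    show ‖algebraMap ℂ (Lp ℂ p (Measure.dirac ()) →L[ℂ] Lp ℂ p (Measure.dirac ())) (f x)‖ ≤ _
    rw [Algebra.algebraMap_eq_smul_one, norm_smul]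
    exact (mul_le_mul (f.norm_coe_le_norm x) ContinuousLinearMap.norm_id_le (norm_nonneg _)
      (norm_nonneg _)).trans (mul_one _).le⟩

theorem redNorm_sg_zero (p : ℝ≥0∞) [Fact (1 ≤ p)] (h : X ≃ₜ X) (f : C(X, ℂ)) :
    redNorm p h (sg h 0 f) = ‖f‖ := by
  refine le_antisymm ((norm_toRed p h _).symm.trans_le (contr_red p h 0 f)) ?_
  refine (ContinuousMap.norm_le _ (redNorm_nonneg _ _ _)).mpr fun x => ?_
  refine le_trans ?_ (le_redNorm p h _ _ inferInstance (ptRep p x))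
  have hp0 : p ≠ 0 := (zero_lt_one.trans_le Fact.out).ne'
  let v : Lp ℂ p (Measure.dirac ()) := Lp.const p _ (1 : ℂ)
  have hv : ‖v‖ = 1 := by simp [v, Lp.norm_const p _ _ hp0]
  let ξ : lp (fun _ : ℤ => Lp ℂ p (Measure.dirac ())) p := lp.single p 0 v
  have hξ : ‖ξ‖ = 1 := (lp.norm_single (pos_iff_ne_zero.mpr hp0) _ _).trans hv
  have e : regRep p (ptRep p x).1 (ptRep p x).2 h (sg h 0 f) =
      diagOp p (ptRep p x).1 (ptRep p x).2 h f * shiftOp _ p 0 := regRep_single _ _ _ _ _ _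
  have h1 := lp.norm_apply_le_norm hp0 (regRep p (ptRep p x).1 (ptRep p x).2 h (sg h 0 f) ξ) 0
  have h2 := (regRep p (ptRep p x).1 (ptRep p x).2 h (sg h 0 f)).le_opNorm ξ
  rw [hξ, mul_one] at h2
  refine le_trans (le_of_eq ?_) (h1.trans h2)
  have h3 : regRep p (ptRep p x).1 (ptRep p x).2 h (sg h 0 f) ξ 0 = f x • v := by
    rw [e]
    show (ptRep p x).1 (alpha h (-0) f) (ξ (0 - 0)) = _
    rw [neg_zero, alpha_zero, sub_zero, lp.single_apply_self]
    rfl
  have h4 : ‖f x • v‖ = ‖f x‖ := by rw [norm_smul, hv, mul_one]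
  rw [h3]
  exact h4.symm

end Pool.Agent.H813Z.LpCross
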