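import Mathlib

set_option autoImplicit false

/-! Counting integers whose low ternary digits avoid a digit. -/

namespace Pool.Agent.H813Z.Tern

open Finset

/-- indicator that the lowest `s` ternary digits of `y` differ from `b` -/
def L (b : ℕ) : ℕ → ℕ → ℕ
  | 0, _ => 1
  | s + 1, y => (if y % 3 = b then 0 else 1) * L b s (y / 3)

variable {b : ℕ}

lemma L_le_one : ∀ s y, L b s y ≤ 1
  | 0, _ => le_rfl
  | s + 1, y => by
    have := L_le_one s (y / 3)
    unfold L
    split_ifs <;> omega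

lemma L_add : ∀ s e y, L b (s + e) y = L b s y * L b e (y / 3 ^ s)
  | 0, e, y => by simp [L]
  | s + 1, e, y => by
    rw [show s + 1 + e = (s + e) + 1 by ring, L, L, L_add s e, Nat.div_div_eq_div_mul, pow_succ',
      mul_assoc]

lemma L_add_mul : ∀ s y z, L b s (y + 3 ^ s * z) = L b s y
  | 0, _, _ => rfl
  | s + 1, y, z => by
    have h1 : (y + 3 ^ (s + 1) * z) % 3 = y % 3 := by
      rw [pow_succ', mul_assoc, Nat.add_mul_mod_self_left]
    have h2 : (y + 3 ^ (s + 1) * z) / 3 = y / 3 + 3 ^ s * z := by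
      rw [pow_succ', mul_assoc, Nat.add_mul_div_left _ _ (by norm_num)]
    rw [L, L, h1, h2, L_add_mul s]

lemma L_mod (s y : ℕ) : L b s (y % 3 ^ s) = L b s y := by
  conv_rhs => rw [← Nat.mod_add_div y (3 ^ s), L_add_mul]

lemma L_congr {s y y' : ℕ} (h : y ≡ y' [MOD 3 ^ s]) : L b s y = L b s y' := by
  rw [← L_mod s y, ← L_mod s y', h]

lemma L_eq_one : ∀ s y, (∀ i < s, y / 3 ^ i % 3 ≠ b) → L b s y = 1
  | 0, _, _ => rfl
  | s + 1, y, h => by
    have h0 : y % 3 ≠ b := by simpa using h 0 (Nat.succ_pos s)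
    rw [L, if_neg h0, one_mul]
    refine L_eq_one s _ fun i hi => ?_
    rw [Nat.div_div_eq_div_mul, ← pow_succ']
    exact h (i + 1) (by omega)

lemma sum_range_mul {M : Type} [AddCommMonoid M] (m : ℕ) (f : ℕ → M) :
    ∀ n, ∑ y ∈ range (m * n), f y = ∑ z ∈ range n, ∑ x ∈ range m, f (x + m * z)
  | 0 => by simp
  | n + 1 => by
    rw [mul_add, mul_one, sum_range_add, sum_range_mul m f n, sum_range_succ]
    simp only [add_comm (m * n)]

lemma L_succ (s x z : ℕ) (hx : x < 3) :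
    L b (s + 1) (x + 3 * z) = (if x = b then 0 else 1) * L b s z := by
  rw [L, Nat.add_mul_mod_self_left, Nat.mod_eq_of_lt hx, Nat.add_mul_div_left _ _ (by norm_num),
    Nat.div_eq_of_lt hx, zero_add]

lemma sum_L (hb : b < 3) : ∀ s, ∑ y ∈ range (3 ^ s), L b s y = 2 ^ s
  | 0 => by simp [L]
  | s + 1 => by
    rw [pow_succ', sum_range_mul, pow_succ', ← sum_L hb s, mul_sum]
    refine sum_congr rfl fun z _ => ?_
    rw [sum_congr rfl fun x hx => L_succ s x z (mem_range.mp hx), ← sum_mul]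
    congr 1
    interval_cases b <;> simp [sum_range_succ]

lemma digit_count (hb : b < 3) {w : ℕ} (hw : ¬ 3 ∣ w) (c : ℕ) :
    ∑ x ∈ range 3, ∑ a ∈ range 3, (if x = b then 0 else 1) * (if a = b then 0 else 1) *
      (if (a + w * x + c) % 3 = b then 0 else 1) ≤ 3 := by
  have h1 : ∀ x a, (a + w * x + c) % 3 = (a + (w % 3) * x + c % 3) % 3 := fun x a => by
    simp [Nat.add_mod, Nat.mul_mod]
  simp only [h1]
  have h2 : w % 3 = 1 ∨ w % 3 = 2 := by omega
  have h3 : c % 3 < 3 := Nat.mod_lt _ (by norm_num)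
  generalize c % 3 = c' at *
  rcases h2 with h2 | h2 <;> rw [h2] <;> interval_cases b <;> interval_cases c' <;> decide

lemma sum_triple (hb : b < 3) {w : ℕ} (hw : ¬ 3 ∣ w) : ∀ s c,
    ∑ x ∈ range (3 ^ s), ∑ a ∈ range (3 ^ s), L b s x * L b s a * L b s (a + w * x + c) ≤ 3 ^ s
  | 0, c => by simp [L]
  | s + 1, c => by
    rw [pow_succ', sum_range_mul, sum_comm]
    have key : ∀ x0 ∈ range 3, ∑ x ∈ range (3 ^ s), ∑ a ∈ range (3 * 3 ^ s),
        L b (s + 1) (x0 + 3 * x) * L b (s + 1) a * L b (s + 1) (a + w * (x0 + 3 * x) + c) ≤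
        ∑ a0 ∈ range 3, (if x0 = b then 0 else 1) * (if a0 = b then 0 else 1) *
          (if (a0 + w * x0 + c) % 3 = b then 0 else 1) * 3 ^ s := by
      intro x0 hx0
      simp only [sum_range_mul 3 _ (3 ^ s)]
      rw [sum_congr rfl fun x _ => sum_comm, sum_comm]
      refine sum_le_sum fun a0 ha0 => ?_
      refine le_trans (le_of_eq ?_) (Nat.mul_le_mul_left _
        (sum_triple hb hw s ((a0 + w * x0 + c) / 3)))
      rw [mul_sum]
      refine sum_congr rfl fun x _ => ?_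
      rw [mul_sum]
      refine sum_congr rfl fun a _ => ?_
      have e : a0 + 3 * a + w * (x0 + 3 * x) + c =
          (a0 + w * x0 + c) % 3 + 3 * (a + w * x + (a0 + w * x0 + c) / 3) := by
        have := Nat.mod_add_div (a0 + w * x0 + c) 3
        nlinarith
      rw [e, L_succ _ _ _ (mem_range.mp hx0), L_succ _ _ _ (mem_range.mp ha0),
        L_succ _ _ _ (Nat.mod_lt _ (by norm_num))]
      ring
    refine (sum_le_sum key).trans ?_
    simp only [← sum_mul]
    exact Nat.mul_le_mul_right _ (digit_count hb hw c)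

lemma sum_pair (hb : b < 3) {w : ℕ} (hw : ¬ 3 ∣ w) (s e : ℕ) :
    ∑ y ∈ range (3 ^ (s + e + s)), L b (s + e + s) y * L b (s + e + s) (y * (1 + 3 ^ (s + e) * w))
      ≤ 3 ^ s * 2 ^ e := by
  have h3 : 0 < 3 ^ s := by positivity
  have h3' : 0 < 3 ^ (s + e) := by positivity
  rw [pow_add 3 (s + e) s, sum_range_mul]
  have step : ∀ a ∈ range (3 ^ s), ∑ u ∈ range (3 ^ (s + e)), L b (s + e + s) (u + 3 ^ (s + e) * a) *
      L b (s + e + s) ((u + 3 ^ (s + e) * a) * (1 + 3 ^ (s + e) * w)) ≤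
      ∑ m ∈ range (3 ^ e), ∑ x ∈ range (3 ^ s),
        L b e m * (L b s x * L b s a * L b s (a + w * x + 0)) := by
    intro a _
    conv_lhs => rw [pow_add 3 s e, sum_range_mul, ← pow_add]
    refine sum_le_sum fun m hm => sum_le_sum fun x hx => ?_
    have hx' := mem_range.mp hx
    have hm' := mem_range.mp hm
    have hu : x + 3 ^ s * m < 3 ^ (s + e) := by
      rw [pow_add]; nlinarith
    have e1 : (x + 3 ^ s * m + 3 ^ (s + e) * a) / 3 ^ (s + e) = a := by
      rw [Nat.add_mul_div_left _ _ h3', Nat.div_eq_of_lt hu, zero_add]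
    have e2 : (x + 3 ^ s * m) / 3 ^ s = m := by
      rw [Nat.add_mul_div_left _ _ h3, Nat.div_eq_of_lt hx', zero_add]
    have e3 : (x + 3 ^ s * m + 3 ^ (s + e) * a) * (1 + 3 ^ (s + e) * w) / 3 ^ (s + e) =
        (a + w * x + 0) + 3 ^ s * (w * (m + 3 ^ e * a)) := by
      have : (x + 3 ^ s * m + 3 ^ (s + e) * a) * (1 + 3 ^ (s + e) * w) = (x + 3 ^ s * m) +
          3 ^ (s + e) * ((a + w * x + 0) + 3 ^ s * (w * (m + 3 ^ e * a))) := by
        rw [pow_add]; ring
      rw [this, Nat.add_mul_div_left _ _ h3', Nat.div_eq_of_lt hu, zero_add]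
    rw [L_add (s + e) s, L_add (s + e) s, e1, e3, L_add_mul, L_add_mul, L_add s e, L_add_mul, e2]
    have := L_le_one (b := b) (s + e) ((x + 3 ^ s * m + 3 ^ (s + e) * a) * (1 + 3 ^ (s + e) * w))
    calc _ = (L b e m * (L b s x * L b s a * L b s (a + w * x + 0))) *
          L b (s + e) ((x + 3 ^ s * m + 3 ^ (s + e) * a) * (1 + 3 ^ (s + e) * w)) := by ring
      _ ≤ _ := by nlinarith [Nat.zero_le (L b e m * (L b s x * L b s a * L b s (a + w * x + 0)))]
  refine (sum_le_sum step).trans ?_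
  calc _ = ∑ m ∈ range (3 ^ e), L b e m * ∑ x ∈ range (3 ^ s), ∑ a ∈ range (3 ^ s),
          L b s x * L b s a * L b s (a + w * x + 0) := by
        rw [sum_comm]
        refine sum_congr rfl fun m _ => ?_
        rw [sum_comm, mul_sum]
        exact sum_congr rfl fun x _ => (mul_sum _ _ _).symm
    _ ≤ ∑ m ∈ range (3 ^ e), L b e m * 3 ^ s :=
        sum_le_sum fun m _ => Nat.mul_le_mul_left _ (sum_triple hb hw s 0)
    _ = _ := by rw [← sum_mul, sum_L hb, mul_comm]

end Pool.Agent.H813Z.Tern
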