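import Mathlib
import Pool.Agent.H813Z.TernA

set_option autoImplicit false

/-! Powers of four modulo powers of three. -/

namespace Pool.Agent.H813Z.Tern

open Finset

lemma pow4_base : ∀ d : ℕ, ∃ w, w % 3 = d % 3 ∧ 4 ^ d = 1 + 3 * w
  | 0 => ⟨0, rfl, rfl⟩
  | d + 1 => by
    obtain ⟨w, h1, h2⟩ := pow4_base d
    exact ⟨1 + 4 * w, by omega, by rw [pow_succ, h2]; ring⟩

lemma pow4 {d : ℕ} (hd : ¬ 3 ∣ d) : ∀ v : ℕ, ∃ w, ¬ 3 ∣ w ∧ 4 ^ (3 ^ v * d) = 1 + 3 ^ (v + 1) * w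
  | 0 => by
    obtain ⟨w, h1, h2⟩ := pow4_base d
    exact ⟨w, by omega, by simpa using h2⟩
  | v + 1 => by
    obtain ⟨w, h1, h2⟩ := pow4 hd v
    refine ⟨w + 3 * (3 ^ v * w ^ 2 + 3 ^ (2 * v) * w ^ 3), by omega, ?_⟩
    rw [show 3 ^ (v + 1) * d = (3 ^ v * d) * 3 by ring, pow_mul, h2]
    ring

lemma pow4_mod (T m : ℕ) : 4 ^ (3 ^ T * m) ≡ 1 [MOD 3 ^ (T + 1)] := by
  obtain ⟨w, -, h⟩ := pow4 (d := 1) (by norm_num) T
  rw [mul_one] at h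
  rw [pow_mul, h]
  have : 1 + 3 ^ (T + 1) * w ≡ 1 [MOD 3 ^ (T + 1)] := by
    simp [Nat.ModEq]
  simpa using this.pow m

lemma lam_mod (l ν T m : ℕ) : l * 4 ^ (ν + 3 ^ T * m) ≡ l * 4 ^ ν [MOD 3 ^ (T + 1)] := by
  rw [pow_add 4, ← mul_assoc]
  simpa using (pow4_mod T m).mul_left (l * 4 ^ ν)

lemma cop {l : ℕ} (hl : ¬ 3 ∣ l) (a T : ℕ) : Nat.Coprime (3 ^ T) (l * 4 ^ a) :=
  Nat.Coprime.pow_left _ (Nat.Coprime.mul_right
    ((Nat.Prime.coprime_iff_not_dvd Nat.prime_three).mpr hl) (Nat.Coprime.pow_right _ (by norm_num)))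

lemma inj_aux {l : ℕ} (hl : ¬ 3 ∣ l) {a c T : ℕ}
    (h : l * 4 ^ a ≡ l * 4 ^ (a + c) [MOD 3 ^ (T + 1)]) : 3 ^ T ∣ c := by
  rcases eq_or_ne c 0 with rfl | hc
  · exact dvd_zero _
  obtain ⟨v, d, hd, rfl⟩ := Nat.exists_eq_pow_mul_and_not_dvd hc 3 (by norm_num)
  obtain ⟨w, hw, e⟩ := pow4 hd v
  rw [pow_add 4, e, ← mul_assoc, mul_add, mul_one] at h
  have h1 : 3 ^ (T + 1) ∣ l * 4 ^ a * (3 ^ (v + 1) * w) := by
    have := (Nat.modEq_iff_dvd' (Nat.le_add_right _ _)).mp h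
    rwa [Nat.add_sub_cancel_left] at this
  have h2 := (cop hl a (T + 1)).dvd_of_dvd_mul_left h1
  have h3 : 3 ^ (T + 1) ∣ 3 ^ (v + 1) := (Nat.Coprime.pow_left _
    ((Nat.Prime.coprime_iff_not_dvd Nat.prime_three).mpr hw)).dvd_of_dvd_mul_right h2
  have h4 := (Nat.pow_dvd_pow_iff_le_right (by norm_num)).mp h3
  exact Dvd.dvd.mul_right (pow_dvd_pow 3 (by omega)) d

lemma inj4 {l : ℕ} (hl : ¬ 3 ∣ l) {a c T : ℕ} (h : l * 4 ^ a ≡ l * 4 ^ c [MOD 3 ^ (T + 1)]) :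
    a ≡ c [MOD 3 ^ T] := by
  rcases le_total a c with hac | hac
  · obtain ⟨d, rfl⟩ := Nat.exists_eq_add_of_le hac
    exact (Nat.modEq_iff_dvd' hac).mpr (by simpa using inj_aux hl h)
  · obtain ⟨d, rfl⟩ := Nat.exists_eq_add_of_le hac
    exact ((Nat.modEq_iff_dvd' hac).mpr (by simpa using inj_aux hl h.symm)).symm

lemma sum_inj {l : ℕ} (hl : ¬ 3 ∣ l) (T : ℕ) (f : ℕ → ℕ) (hf : ∀ y, f (y % 3 ^ (T + 1)) = f y) :
    ∑ ν ∈ range (3 ^ T), f (l * 4 ^ ν) ≤ ∑ y ∈ range (3 ^ (T + 1)), f y := by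
  have hi : Set.InjOn (fun ν => l * 4 ^ ν % 3 ^ (T + 1)) (range (3 ^ T) : Finset ℕ) :=
    fun a ha c hc h => (inj4 hl h).eq_of_lt_of_lt (by simpa using ha) (by simpa using hc)
  calc _ = ∑ ν ∈ range (3 ^ T), f (l * 4 ^ ν % 3 ^ (T + 1)) := by simp only [hf]
    _ = ∑ y ∈ (range (3 ^ T)).image (fun ν => l * 4 ^ ν % 3 ^ (T + 1)), f y := (sum_image hi).symm
    _ ≤ _ := sum_le_sum_of_subset fun y hy => by
        obtain ⟨ν, -, rfl⟩ := mem_image.mp hy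
        exact mem_range.mpr (Nat.mod_lt _ (by positivity))

variable {b : ℕ}

lemma sum_low (hb : b < 3) {l : ℕ} (hl : ¬ 3 ∣ l) (T : ℕ) :
    ∑ ν ∈ range (3 ^ T), L b (T + 1) (l * 4 ^ ν) ≤ 2 ^ (T + 1) :=
  (sum_inj hl T _ (L_mod _)).trans (sum_L hb _).le

lemma sum_ext (hb : b < 3) {l : ℕ} (hl : ¬ 3 ∣ l) (T s ν : ℕ) :
    ∑ m ∈ range (3 ^ s), L b (T + 1 + s) (l * 4 ^ (ν + 3 ^ T * m)) ≤ 2 ^ s := by
  have hi : Set.InjOn (fun m => l * 4 ^ (ν + 3 ^ T * m) / 3 ^ (T + 1) % 3 ^ s)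
      (range (3 ^ s) : Finset ℕ) := by
    intro a ha c hc h
    have h1 : l * 4 ^ (ν + 3 ^ T * a) ≡ l * 4 ^ (ν + 3 ^ T * c) [MOD 3 ^ (T + s + 1)] := by
      have e := (lam_mod l ν T a).trans (lam_mod l ν T c).symm
      unfold Nat.ModEq at e ⊢
      simp only at h
      rw [show T + s + 1 = (T + 1) + s by ring, pow_add 3 (T + 1) s, Nat.mod_mul, Nat.mod_mul, e, h]
    have h2 := (inj4 hl h1)
    rw [pow_add] at h2
    have h3 := Nat.ModEq.mul_left_cancel' (by positivity) (Nat.ModEq.add_left_cancel' ν h2)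
    exact h3.eq_of_lt_of_lt (by simpa using ha) (by simpa using hc)
  calc _ ≤ ∑ m ∈ range (3 ^ s), L b s (l * 4 ^ (ν + 3 ^ T * m) / 3 ^ (T + 1) % 3 ^ s) := by
        refine sum_le_sum fun m _ => ?_
        rw [L_add, L_mod]
        exact (Nat.mul_le_mul_right _ (L_le_one _ _)).trans (one_mul _).le
    _ = ∑ y ∈ (range (3 ^ s)).image (fun m => l * 4 ^ (ν + 3 ^ T * m) / 3 ^ (T + 1) % 3 ^ s),
          L b s y := (sum_image hi).symm
    _ ≤ ∑ y ∈ range (3 ^ s), L b s y := sum_le_sum_of_subset fun y hy => by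
        obtain ⟨ν, -, rfl⟩ := mem_image.mp hy
        exact mem_range.mpr (Nat.mod_lt _ (by positivity))
    _ = _ := sum_L hb s

/-- correlation of the low digits of `l 4^ν` and `l 4^(ν + 3^K d)` -/
lemma sum_corr (hb : b < 3) {l : ℕ} (hl : ¬ 3 ∣ l) {K t d : ℕ} (ht : t ≤ K + 1) (hd : d ≠ 0)
    (hv : padicValNat 3 d ≤ t) :
    ((∑ ν ∈ range (3 ^ (K + t)), L b (K + t + 1) (l * 4 ^ ν) *
      L b (K + t + 1) (l * 4 ^ (ν + 3 ^ K * d)) : ℕ) : ℝ) ≤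
      2 ^ (K + t + 1) * (3 / 4) ^ t * (4 / 3) ^ padicValNat 3 d := by
  have : Fact (Nat.Prime 3) := ⟨Nat.prime_three⟩
  obtain ⟨v, d', hd', rfl⟩ := Nat.exists_eq_pow_mul_and_not_dvd hd 3 (by norm_num)
  have hd0 : d' ≠ 0 := by rintro rfl; simp at hd'
  have hv' : padicValNat 3 (3 ^ v * d') = v := by
    rw [padicValNat.mul (by positivity) hd0, padicValNat.prime_pow,
      padicValNat.eq_zero_of_not_dvd hd', add_zero]
  rw [hv'] at hv ⊢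
  obtain ⟨s, rfl⟩ := Nat.exists_eq_add_of_le hv
  obtain ⟨e, he⟩ : ∃ e, K + v + 1 = s + e := ⟨K + v + 1 - s, by omega⟩
  obtain ⟨w, hw, hw'⟩ := pow4 hd' (K + v)
  have e1 : K + (v + s) + 1 = s + e + s := by omega
  have h1 := sum_inj hl (K + (v + s))
    (fun y => L b (s + e + s) y * L b (s + e + s) (y * (1 + 3 ^ (s + e) * w))) (fun y => by
      rw [e1, L_mod, L_congr ((Nat.mod_modEq y _).mul_right _)])
  rw [e1] at h1 ⊢
  have h2 := h1.trans (sum_pair hb hw s e)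
  have e2 : ∀ ν, l * 4 ^ (ν + 3 ^ K * (3 ^ v * d')) = l * 4 ^ ν * (1 + 3 ^ (s + e) * w) := fun ν => by
    rw [← he, ← hw', pow_add 4, ← mul_assoc, ← mul_assoc, ← pow_add 3]
  simp only [e2]
  refine (Nat.cast_le.mpr h2).trans (le_of_eq ?_)
  push_cast
  have h4 : (4 : ℝ) ^ s = 2 ^ s * 2 ^ s := by rw [← mul_pow]; norm_num
  simp only [pow_add, div_pow, h4]
  field_simp

lemma sum_val : ∀ m : ℕ, ∑ ρ ∈ range (3 ^ m), (4 / 3 : ℝ) ^ padicValNat 3 ρ ≤ 6 / 5 * 3 ^ m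
  | 0 => by simp; norm_num
  | m + 1 => by
    have : Fact (Nat.Prime 3) := ⟨Nat.prime_three⟩
    have ih := sum_val m
    rw [pow_succ', sum_range_mul]
    have : ∀ z ∈ range (3 ^ m), ∑ x ∈ range 3, (4 / 3 : ℝ) ^ padicValNat 3 (x + 3 * z) ≤
        2 + 4 / 3 * (4 / 3 : ℝ) ^ padicValNat 3 z := by
      intro z _
      have h1 : padicValNat 3 (1 + 3 * z) = 0 := padicValNat.eq_zero_of_not_dvd (by omega)
      have h2 : padicValNat 3 (2 + 3 * z) = 0 := padicValNat.eq_zero_of_not_dvd (by omega)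
      have h0 : (4 / 3 : ℝ) ^ padicValNat 3 (3 * z) ≤ 4 / 3 * (4 / 3 : ℝ) ^ padicValNat 3 z := by
        rcases eq_or_ne z 0 with rfl | hz
        · norm_num
        · rw [padicValNat.mul (by norm_num) hz, padicValNat_self, pow_add, pow_one]
      simp only [sum_range_succ, sum_range_zero, zero_add, h1, h2, pow_zero]
      linarith
    refine (sum_le_sum this).trans ?_
    rw [sum_add_distrib, ← mul_sum, sum_const, card_range, nsmul_eq_mul]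
    push_cast
    rw [pow_succ]
    linarith

end Pool.Agent.H813Z.Tern
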