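import Mathlib
import Pool.Agent.H813Z.TernB

set_option autoImplicit false

/-! The second moment bound. -/

namespace Pool.Agent.H813Z.Tern

open Finset

/-- `x` is within `η` of an integer -/
def Near (η x : ℝ) : Prop := ∃ m : ℤ, |x - m| ≤ η

lemma Near.sub {η η' x y : ℝ} (h : Near η x) (h' : Near η' y) : Near (η + η') (x - y) := by
  obtain ⟨m, hm⟩ := h
  obtain ⟨m', hm'⟩ := h'
  refine ⟨m - m', ?_⟩
  push_cast
  rw [show x - y - (m - m') = (x - m) - (y - m') by ring]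
  exact (abs_sub _ _).trans (add_le_add hm hm')

lemma Near.mono {η η' x : ℝ} (h : Near η x) (h' : η ≤ η') : Near η' x :=
  let ⟨m, hm⟩ := h; ⟨m, hm.trans h'⟩

lemma card_sq_le {σ : Type} [DecidableEq σ] (Z : Finset ℕ) (S : Finset σ) (c : ℕ → σ)
    (hc : ∀ a ∈ Z, c a ∈ S) :
    (Z.card : ℝ) ^ 2 ≤ S.card *
      (Z.card + 2 * (((Z ×ˢ Z).filter fun p => p.1 < p.2 ∧ c p.1 = c p.2).card : ℝ)) := by
  have h1 : (Z.card : ℝ) = ∑ s ∈ S, ((Z.filter fun a => c a = s).card : ℝ) := by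
    rw [card_eq_sum_card_fiberwise (f := c) (t := S) (fun a ha => hc a ha)]; push_cast; rfl
  have h2 : ((Z ×ˢ Z).filter fun p => c p.1 = c p.2).card =
      ∑ s ∈ S, (Z.filter fun a => c a = s).card ^ 2 := by
    rw [card_eq_sum_card_fiberwise (f := fun p : ℕ × ℕ => c p.1) (t := S)
      (fun p hp => hc _ (mem_product.mp (mem_filter.mp hp).1).1)]
    refine sum_congr rfl fun s _ => ?_
    rw [sq, ← card_product]
    congr 1
    ext p
    simp only [mem_filter, mem_product]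
    constructor
    · rintro ⟨⟨⟨h1, h2⟩, h3⟩, h4⟩; exact ⟨⟨h1, h4⟩, h2, h3 ▸ h4⟩
    · rintro ⟨⟨h1, h4⟩, h2, h3⟩; exact ⟨⟨⟨h1, h2⟩, h4.trans h3.symm⟩, h4⟩
  set Lt := (Z ×ˢ Z).filter fun p => p.1 < p.2 ∧ c p.1 = c p.2 with hLt
  have h3 : ((Z ×ˢ Z).filter fun p => c p.1 = c p.2) ⊆
      (Z.image fun a => (a, a)) ∪ (Lt ∪ Lt.image Prod.swap) := by
    rintro ⟨a, a'⟩ hp
    simp only [mem_filter, mem_product] at hp
    simp only [mem_union, mem_image, hLt, mem_filter, mem_product]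
    rcases lt_trichotomy a a' with h | rfl | h
    · exact Or.inr (Or.inl ⟨hp.1, h, hp.2⟩)
    · exact Or.inl ⟨a, hp.1.1, rfl⟩
    · exact Or.inr (Or.inr ⟨(a', a), ⟨⟨hp.1.2, hp.1.1⟩, h, hp.2.symm⟩, rfl⟩)
  have h4 : ((Z ×ˢ Z).filter fun p => c p.1 = c p.2).card ≤ Z.card + 2 * Lt.card := by
    have := (card_le_card h3).trans ((card_union_le _ _).trans
      (add_le_add card_image_le ((card_union_le _ _).trans (add_le_add le_rfl card_image_le))))
    omega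
  rw [h2] at h4
  conv_lhs => rw [h1]
  refine sq_sum_le_card_mul_sum_sq.trans (mul_le_mul_of_nonneg_left ?_ (Nat.cast_nonneg _))
  exact_mod_cast h4

open Classical in
lemma bohr (γ η : ℝ) (hη : 0 ≤ η) (J : ℕ)
    (sep : ∀ r : ℕ, 0 < r → r < 3 ^ J → ¬ Near (2 * η) (r * 3 ^ J * γ)) :
    (∀ d ∈ (range (3 ^ (J + J))).filter fun d : ℕ => d ≠ 0 ∧ Near η (d * γ),
      padicValNat 3 d ≤ J + J) ∧
    ∑ d ∈ (range (3 ^ (J + J))).filter fun d : ℕ => d ≠ 0 ∧ Near η (d * γ),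
      (4 / 3 : ℝ) ^ padicValNat 3 d ≤ 6 / 5 * 3 ^ J := by
  have : Fact (Nat.Prime 3) := ⟨Nat.prime_three⟩
  set Bo := (range (3 ^ (J + J))).filter fun d : ℕ => d ≠ 0 ∧ Near η (d * γ) with hBo
  have key : ∀ d e : ℕ, d < e → e < 3 ^ (J + J) → Near η (d * γ) → Near η (e * γ) →
      d % 3 ^ J ≠ e % 3 ^ J := by
    intro d e hde he hd he' h
    obtain ⟨r, hr⟩ := (Nat.modEq_iff_dvd' hde.le).mp h
    have hr0 : 0 < r := by
      rcases Nat.eq_zero_or_pos r with rfl | h0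
      · omega
      · exact h0
    have hr1 : r < 3 ^ J := by
      have : 3 ^ J * r < 3 ^ J * 3 ^ J := by rw [← pow_add]; omega
      exact lt_of_mul_lt_mul_left this (Nat.zero_le _)
    apply sep r hr0 hr1
    have e1 : (e : ℝ) = d + 3 ^ J * r := by
      have : e = d + 3 ^ J * r := by omega
      exact_mod_cast this
    have := he'.sub hd
    rw [e1] at this
    convert this using 1 <;> ring
  have h0 : ∀ d ∈ Bo, d % 3 ^ J ≠ 0 := by
    intro d hd h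
    obtain ⟨h1, h2, h3⟩ := mem_filter.mp hd
    exact key 0 d (Nat.pos_of_ne_zero h2) (mem_range.mp h1) ⟨0, by simpa using hη⟩ h3
      (by simpa using h.symm)
  have hv : ∀ d ∈ Bo, padicValNat 3 d ≤ J := by
    intro d hd
    by_contra hcon
    exact h0 d hd (Nat.mod_eq_zero_of_dvd
      ((pow_dvd_pow 3 (by omega)).trans (pow_padicValNat_dvd (p := 3) (n := d))))
  have hi : Set.InjOn (fun d => d % 3 ^ J) (Bo : Set ℕ) := by
    intro d hd e he h
    obtain ⟨h1, -, h3⟩ := mem_filter.mp hd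
    obtain ⟨h1', -, h3'⟩ := mem_filter.mp he
    rcases lt_trichotomy d e with h4 | h4 | h4
    · exact absurd h (key d e h4 (mem_range.mp h1') h3 h3')
    · exact h4
    · exact absurd h.symm (key e d h4 (mem_range.mp h1) h3' h3)
  refine ⟨fun d hd => (hv d hd).trans (Nat.le_add_right _ _), ?_⟩
  calc _ ≤ ∑ d ∈ Bo, (4 / 3 : ℝ) ^ padicValNat 3 (d % 3 ^ J) := by
        refine sum_le_sum fun d hd => pow_le_pow_right₀ (by norm_num) ?_
        refine (padicValNat_dvd_iff_le (h0 d hd)).mp ?_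
        exact (Nat.dvd_mod_iff (pow_dvd_pow 3 (hv d hd))).mpr pow_padicValNat_dvd
    _ = ∑ ρ ∈ Bo.image (fun d => d % 3 ^ J), (4 / 3 : ℝ) ^ padicValNat 3 ρ :=
        (sum_image (f := fun ρ => (4 / 3 : ℝ) ^ padicValNat 3 ρ) hi).symm
    _ ≤ ∑ ρ ∈ range (3 ^ J), (4 / 3 : ℝ) ^ padicValNat 3 ρ :=
        sum_le_sum_of_subset_of_nonneg (fun y hy => by
          obtain ⟨ν, -, rfl⟩ := mem_image.mp hy
          exact mem_range.mpr (Nat.mod_lt _ (by positivity))) fun _ _ _ => by positivity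
    _ ≤ _ := sum_val J

variable {b l : ℕ}

lemma card_le_of_L (hb : b < 3) (hl : ¬ 3 ∣ l) (T : ℕ) (Z : Finset ℕ)
    (hZ : ∀ ν ∈ Z, ν < 3 ^ T ∧ L b (T + 1) (l * 4 ^ ν) = 1) : Z.card ≤ 2 ^ (T + 1) := by
  refine le_trans ?_ (sum_low hb hl T)
  rw [card_eq_sum_ones, sum_congr rfl fun ν hν => (hZ ν hν).2.symm]
  exact sum_le_sum_of_subset fun ν hν => mem_range.mpr (hZ ν hν).1

lemma L_of_add {s e y : ℕ} (h : L b (s + e) y = 1) : L b s y = 1 := by
  rw [L_add] at h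
  exact Nat.eq_one_of_mul_eq_one_right h

lemma window (hb : b < 3) (hl : ¬ 3 ∣ l) (β η : ℝ) (hη : 0 ≤ η) (K J : ℕ) (hK : J + J ≤ K + 1)
    {κ : Type} [DecidableEq κ] (Z : Finset ℕ) (Cs : Finset κ) (col : ℕ → κ)
    (hZ : ∀ ν ∈ Z, ν < 3 ^ (K + (J + J)) ∧ L b (K + (J + J) + 1) (l * 4 ^ ν) = 1)
    (hC : ∀ ν ∈ Z, col ν ∈ Cs)
    (hcol : ∀ ν ∈ Z, ∀ ν' ∈ Z, col ν = col ν' → Near η (((ν' : ℝ) - ν) * β))
    (sep : ∀ r : ℕ, 0 < r → r < 3 ^ J → ¬ Near (2 * η) (r * 3 ^ J * (3 ^ K * β))) :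
    (Z.card : ℝ) ^ 2 ≤ 16 * 4 ^ (K + (J + J)) * Cs.card * (27 / 64) ^ J := by
  classical
  obtain ⟨hB1, hB2⟩ := bohr (3 ^ K * β) η hη J sep
  set Bo := (range (3 ^ (J + J))).filter fun d : ℕ => d ≠ 0 ∧ Near η (d * (3 ^ K * β)) with hBo
  set A := (range (3 ^ K)).filter fun ρ => L b (K + 1) (l * 4 ^ ρ) = 1 with hA
  have hAc : (A.card : ℝ) ≤ 2 ^ (K + 1) := by
    exact_mod_cast card_le_of_L hb hl K A fun ν hν =>
      ⟨mem_range.mp (mem_filter.mp hν).1, (mem_filter.mp hν).2⟩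
  have hZc : (Z.card : ℝ) ≤ 2 ^ (K + (J + J) + 1) := by exact_mod_cast card_le_of_L hb hl _ Z hZ
  have h1 := card_sq_le Z (A ×ˢ Cs) (fun ν => (ν % 3 ^ K, col ν)) (fun ν hν => by
    refine mem_product.mpr ⟨mem_filter.mpr ⟨mem_range.mpr (Nat.mod_lt _ (by positivity)), ?_⟩,
      hC ν hν⟩
    have h := (hZ ν hν).2
    rw [show K + (J + J) + 1 = K + 1 + (J + J) by ring] at h
    have h' := L_of_add h
    rw [← Nat.mod_add_div ν (3 ^ K)] at h'
    exact (L_congr (lam_mod l _ K _)).symm.trans h')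
  set Lt := (Z ×ˢ Z).filter fun p => p.1 < p.2 ∧ (p.1 % 3 ^ K, col p.1) = (p.2 % 3 ^ K, col p.2)
    with hLt
  have h2 : Lt.card ≤ ∑ d ∈ Bo, ∑ ν ∈ range (3 ^ (K + (J + J))),
      L b (K + (J + J) + 1) (l * 4 ^ ν) * L b (K + (J + J) + 1) (l * 4 ^ (ν + 3 ^ K * d)) := by
    have hsub : Lt ⊆ ((Bo ×ˢ range (3 ^ (K + (J + J)))).filter fun q =>
        L b (K + (J + J) + 1) (l * 4 ^ q.2) *
          L b (K + (J + J) + 1) (l * 4 ^ (q.2 + 3 ^ K * q.1)) = 1).image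
        fun q => (q.2, q.2 + 3 ^ K * q.1) := by
      rintro ⟨ν, ν'⟩ hp
      simp only [hLt, mem_filter, mem_product, Prod.mk.injEq] at hp
      obtain ⟨⟨hν, hν'⟩, hlt, hm, hc⟩ := hp
      obtain ⟨d, hd⟩ := (Nat.modEq_iff_dvd' hlt.le).mp hm
      have e : ν' = ν + 3 ^ K * d := by omega
      subst e
      refine mem_image.mpr ⟨(d, ν), mem_filter.mpr ⟨mem_product.mpr ⟨mem_filter.mpr
        ⟨mem_range.mpr ?_, ?_, ?_⟩, mem_range.mpr (hZ ν hν).1⟩, ?_⟩, rfl⟩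
      · have := (hZ _ hν').1
        rw [pow_add 3 K] at this
        exact lt_of_mul_lt_mul_left (lt_of_le_of_lt (Nat.le_add_left _ _) this) (Nat.zero_le _)
      · rintro rfl; simp at hlt
      · have := hcol ν hν _ hν' hc
        push_cast at this
        convert this using 1
        ring
      · simp only [(hZ _ hν).2, (hZ _ hν').2]
    refine (card_le_card hsub).trans (card_image_le.trans ?_)
    rw [← sum_product' (f := fun d ν => L b (K + (J + J) + 1) (l * 4 ^ ν) *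
      L b (K + (J + J) + 1) (l * 4 ^ (ν + 3 ^ K * d))), card_eq_sum_ones]
    refine le_trans (sum_le_sum fun q hq => (mem_filter.mp hq).2.symm.le) ?_
    exact sum_le_sum_of_subset (filter_subset _ _)
  have h3 : (Lt.card : ℝ) ≤ 2 ^ (K + (J + J) + 1) * (3 / 4) ^ (J + J) * (6 / 5 * 3 ^ J) := by
    refine (Nat.cast_le.mpr h2).trans ?_
    rw [Nat.cast_sum]
    refine (sum_le_sum fun d hd =>
      sum_corr hb hl hK (mem_filter.mp hd).2.1 (hB1 d hd)).trans ?_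
    rw [← mul_sum]
    exact mul_le_mul_of_nonneg_left hB2 (by positivity)
  have e1 : (3 / 4 : ℝ) ^ (J + J) * 3 ^ J = (27 / 16) ^ J := by
    rw [pow_add, ← mul_pow, ← mul_pow]; norm_num
  have h4 : (1 : ℝ) ≤ (27 / 16) ^ J := one_le_pow₀ (by norm_num)
  have h5 : (Z.card : ℝ) + 2 * Lt.card ≤ 2 ^ (K + (J + J) + 1) * (4 * (27 / 16) ^ J) := by
    have hp : (0 : ℝ) < 2 ^ (K + (J + J) + 1) := by positivity
    have : (Lt.card : ℝ) ≤ 2 ^ (K + (J + J) + 1) * (6 / 5 * (27 / 16) ^ J) := by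
      rw [← e1]; refine h3.trans (le_of_eq ?_); ring
    nlinarith
  refine h1.trans ?_
  rw [card_product, Nat.cast_mul]
  refine (mul_le_mul (mul_le_mul_of_nonneg_right hAc (Nat.cast_nonneg _)) h5 (by positivity)
    (by positivity)).trans (le_of_eq ?_)
  have e2 : (27 / 16 : ℝ) ^ J = 2 ^ J * 2 ^ J * (27 / 64) ^ J := by
    rw [← mul_pow, ← mul_pow]; norm_num
  have e3 : (4 : ℝ) ^ (K + (J + J)) = 2 ^ (K + (J + J)) * 2 ^ (K + (J + J)) := by
    rw [← mul_pow]; norm_num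
  rw [e2, e3]
  ring

end Pool.Agent.H813Z.Tern
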