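import Mathlib
import Pool.Agent.H813Z.TernC

set_option autoImplicit false

/-! Leading digits, and the bound from a rational approximation. -/

namespace Pool.Agent.H813Z.Tern

open Finset

/-- all ternary digits of `y` differ from `b` -/
def Om (b y : ℕ) : Prop := ∀ i, 3 ^ i ≤ y → y / 3 ^ i % 3 ≠ b

/-- the leading `j + 1` digits -/
def tp (j y : ℕ) : ℕ := y / 3 ^ (Nat.log 3 y - j)

noncomputable def beta : ℝ := Real.log 4 / Real.log 3

variable {b l : ℕ}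

lemma log3_ge : 1 ≤ Real.log 3 := by
  rw [Real.le_log_iff_exp_le (by norm_num)]
  linarith [Real.exp_one_lt_d9]

lemma tp_bounds {j y : ℕ} (hy : 3 ^ j ≤ y) : 3 ^ j ≤ tp j y ∧ tp j y < 3 ^ (j + 1) := by
  have hy0 : y ≠ 0 := by have : 0 < 3 ^ j := by positivity
                         omega
  have h1 : j ≤ Nat.log 3 y := (Nat.le_log_iff_pow_le (by norm_num) hy0).mpr hy
  have h2 := Nat.pow_log_le_self 3 hy0
  have h3 := Nat.lt_pow_succ_log_self (b := 3) (by norm_num) y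
  unfold tp
  obtain ⟨e, he⟩ := Nat.exists_eq_add_of_le h1
  rw [he] at h2 h3 ⊢
  rw [Nat.add_sub_cancel_left]
  constructor
  · rw [Nat.le_div_iff_mul_le (by positivity), ← pow_add]; exact h2
  · rw [Nat.div_lt_iff_lt_mul (by positivity), ← pow_add]
    rwa [show j + 1 + e = (j + e).succ by omega]

lemma tp_L {j y : ℕ} (hy : 3 ^ j ≤ y) (h : Om b y) : L b (j + 1) (tp j y) = 1 := by
  refine L_eq_one _ _ fun i hi => ?_
  have h1 := (tp_bounds hy).1
  unfold tp at h1 ⊢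
  rw [Nat.div_div_eq_div_mul, ← pow_add]
  apply h
  rw [Nat.le_div_iff_mul_le (by positivity), ← pow_add] at h1
  exact (Nat.pow_le_pow_right (by norm_num) (by omega)).trans h1

lemma tp_log {j y : ℕ} (hy : 3 ^ j ≤ y) :
    Real.log (tp j y) ≤ Real.log y - (Nat.log 3 y - j : ℕ) * Real.log 3 ∧
    Real.log y - (Nat.log 3 y - j : ℕ) * Real.log 3 ≤ Real.log (tp j y) + 1 / 3 ^ j := by
  have h1 := (tp_bounds hy).1
  set e := Nat.log 3 y - j
  have h3 : 0 < 3 ^ j := by positivity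
  have ha : (3 : ℝ) ^ j ≤ tp j y := by exact_mod_cast h1
  have ha0 : (0 : ℝ) < tp j y := lt_of_lt_of_le (by positivity) ha
  have hy0 : (0 : ℝ) < y := by exact_mod_cast lt_of_lt_of_le h3 hy
  have l1 : (tp j y : ℝ) * 3 ^ e ≤ y := by exact_mod_cast Nat.div_mul_le_self y (3 ^ e)
  have l2 : (y : ℝ) ≤ (tp j y + 1) * 3 ^ e := by
    have := Nat.lt_div_mul_add (a := y) (b := 3 ^ e) (by positivity)
    have h' : y ≤ (y / 3 ^ e + 1) * 3 ^ e := by rw [add_mul, one_mul]; exact this.le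
    exact_mod_cast h'
  have m1 := Real.log_le_log (by positivity) l1
  have m2 := Real.log_le_log hy0 l2
  rw [Real.log_mul ha0.ne' (by positivity), Real.log_pow] at m1
  rw [Real.log_mul (by positivity) (by positivity), Real.log_pow] at m2
  have m3 : Real.log (tp j y + 1) ≤ Real.log (tp j y) + 1 / 3 ^ j := by
    have : (tp j y + 1 : ℝ) = tp j y * (1 + 1 / tp j y) := by field_simp
    rw [this, Real.log_mul ha0.ne' (by positivity)]
    have h4 := Real.log_le_sub_one_of_pos (show 0 < 1 + 1 / (tp j y : ℝ) by positivity)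
    have h5 : 1 / (tp j y : ℝ) ≤ 1 / 3 ^ j := one_div_le_one_div_of_le (by positivity) ha
    linarith
  constructor <;> linarith

lemma tp_near {j ν ν' : ℕ} (hl : l ≠ 0) (h : 3 ^ j ≤ l * 4 ^ ν) (h' : 3 ^ j ≤ l * 4 ^ ν')
    (e : tp j (l * 4 ^ ν) = tp j (l * 4 ^ ν')) : Near (1 / 3 ^ j) (((ν' : ℝ) - ν) * beta) := by
  obtain ⟨a1, a2⟩ := tp_log h
  obtain ⟨b1, b2⟩ := tp_log h'
  rw [e] at a1 a2
  set u := Nat.log 3 (l * 4 ^ ν) - j
  set u' := Nat.log 3 (l * 4 ^ ν') - j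
  have hl' : (l : ℝ) ≠ 0 := by exact_mod_cast hl
  push_cast at a1 a2 b1 b2
  rw [Real.log_mul hl' (by positivity), Real.log_pow] at a1 a2 b1 b2
  refine ⟨(u' : ℤ) - u, ?_⟩
  have h3 := log3_ge
  have : ((ν' : ℝ) - ν) * beta - (((u' : ℤ) - u : ℤ) : ℝ) =
      (((ν' : ℝ) - ν) * Real.log 4 - (u' - u) * Real.log 3) / Real.log 3 := by
    unfold beta; push_cast; field_simp
  rw [this, abs_div, abs_of_pos (show 0 < Real.log 3 by linarith), div_le_iff₀ (by linarith)]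
  have h4 : (1 : ℝ) / 3 ^ j ≤ 1 / 3 ^ j * Real.log 3 := le_mul_of_one_le_right (by positivity) h3
  rw [abs_le]
  constructor <;> linarith

open Classical in
/-- the exponents to be counted -/
noncomputable def F (b l k : ℕ) : Finset ℕ :=
  (range (3 ^ k)).filter fun ν => k + 1 ≤ ν ∧ Om b (l * 4 ^ ν)

lemma mem_F {k ν : ℕ} : ν ∈ F b l k ↔ ν < 3 ^ k ∧ k + 1 ≤ ν ∧ Om b (l * 4 ^ ν) := by
  classical
  unfold F
  rw [mem_filter, mem_range]

lemma F_ge (hl : l ≠ 0) {k ν i : ℕ} (h : ν ∈ F b l k) (hi : i ≤ k + 1) : 3 ^ i ≤ l * 4 ^ ν := by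
  have h1 := (mem_F.mp h).2.1
  calc 3 ^ i ≤ 3 ^ ν := Nat.pow_le_pow_right (by norm_num) (hi.trans h1)
    _ ≤ 4 ^ ν := Nat.pow_le_pow_left (by norm_num) _
    _ ≤ _ := Nat.le_mul_of_pos_left _ (Nat.pos_of_ne_zero hl)

lemma F_L (hl : l ≠ 0) {k ν : ℕ} (h : ν ∈ F b l k) : L b (k + 1) (l * 4 ^ ν) = 1 :=
  L_eq_one _ _ fun i hi => (mem_F.mp h).2.2 i (F_ge hl h hi.le)

lemma lemU (hb : b < 3) (hl : ¬ 3 ∣ l) (K J s j S : ℕ) (ε : ℝ) (hε : 0 ≤ ε) (hK : J + J ≤ K + 1)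
    (hj : j ≤ K + (J + J) + s) (hS0 : 0 < S)
    (hS : ∀ i : ℤ, |i| < 3 ^ s → (S : ℤ) ∣ i → Near ε (i * 3 ^ (K + (J + J)) * beta))
    (sep : ∀ r : ℕ, 0 < r → r < 3 ^ J → ¬ Near (2 * (1 / 3 ^ j + ε)) (r * 3 ^ J * (3 ^ K * beta))) :
    ((F b l (K + (J + J) + s)).card : ℝ) ^ 2 ≤
      16 * 4 ^ (K + (J + J) + s) * (2 ^ (j + 1) * S) * (27 / 64) ^ J := by
  classical
  have hl0 : l ≠ 0 := by rintro rfl; simp at hl
  set T := K + (J + J) with hT
  set Z := (F b l (T + s)).image (· % 3 ^ T) with hZ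
  have hw : ∀ ν : ℕ, ∃ w : ℕ, ν ∈ Z → w ∈ F b l (T + s) ∧ w % 3 ^ T = ν := fun ν => by
    by_cases h : ν ∈ Z
    · obtain ⟨w, h1, h2⟩ := mem_image.mp h
      exact ⟨w, fun _ => ⟨h1, h2⟩⟩
    · exact ⟨0, fun h' => absurd h' h⟩
  choose w hw using hw
  have hlt : ∀ x ∈ F b l (T + s), x / 3 ^ T < 3 ^ s := fun x hx => by
    rw [Nat.div_lt_iff_lt_mul (by positivity), ← pow_add, add_comm]
    exact (mem_F.mp hx).1
  have h1 : (F b l (T + s)).card ≤ 2 ^ s * Z.card := by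
    refine card_le_mul_card_image _ _ fun ν _ => ?_
    refine le_trans ?_ (sum_ext hb hl T s ν)
    have hsub : ((F b l (T + s)).filter fun x => x % 3 ^ T = ν) ⊆ ((range (3 ^ s)).filter fun m =>
        L b (T + 1 + s) (l * 4 ^ (ν + 3 ^ T * m)) = 1).image fun m => ν + 3 ^ T * m := by
      intro x hx
      obtain ⟨hx1, rfl⟩ := mem_filter.mp hx
      refine mem_image.mpr ⟨x / 3 ^ T, mem_filter.mpr ⟨mem_range.mpr (hlt x hx1), ?_⟩,
        Nat.mod_add_div _ _⟩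
      rw [Nat.mod_add_div, show T + 1 + s = T + s + 1 by ring]
      exact F_L hl0 hx1
    refine (card_le_card hsub).trans (card_image_le.trans ?_)
    rw [card_eq_sum_ones]
    exact le_trans (sum_le_sum fun q hq => (mem_filter.mp hq).2.symm.le)
      (sum_le_sum_of_subset (filter_subset _ _))
  set A := (range (3 ^ (j + 1))).filter fun a => L b (j + 1) a = 1 with hA
  have hAc : A.card ≤ 2 ^ (j + 1) := by
    rw [← sum_L hb, card_eq_sum_ones]
    exact le_trans (sum_le_sum fun q hq => (mem_filter.mp hq).2.symm.le)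
      (sum_le_sum_of_subset (filter_subset _ _))
  have h2 := window hb hl beta (1 / 3 ^ j + ε) (by positivity) K J hK Z (A ×ˢ range S)
    (fun ν => (tp j (l * 4 ^ w ν), w ν / 3 ^ T % S))
    (fun ν hν => by
      obtain ⟨a1, a2⟩ := hw ν hν
      refine ⟨a2 ▸ Nat.mod_lt _ (by positivity), ?_⟩
      have h := F_L hl0 a1
      rw [show T + s + 1 = T + 1 + s by ring] at h
      have h' := L_of_add h
      rw [← Nat.mod_add_div (w ν) (3 ^ T), a2] at h'
      exact (L_congr (lam_mod l _ T _)).symm.trans h')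
    (fun ν hν => by
      obtain ⟨a1, -⟩ := hw ν hν
      have hy := F_ge hl0 a1 (hj.trans (Nat.le_succ _))
      exact mem_product.mpr ⟨mem_filter.mpr ⟨mem_range.mpr (tp_bounds hy).2,
        tp_L hy (mem_F.mp a1).2.2⟩, mem_range.mpr (Nat.mod_lt _ hS0)⟩)
    (fun ν hν ν' hν' hc => by
      obtain ⟨a1, a2⟩ := hw ν hν
      obtain ⟨b1, b2⟩ := hw ν' hν'
      simp only [Prod.mk.injEq] at hc
      have n1 := tp_near hl0 (F_ge hl0 a1 (hj.trans (Nat.le_succ _)))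
        (F_ge hl0 b1 (hj.trans (Nat.le_succ _))) hc.1
      have c1 : ((w ν / 3 ^ T : ℕ) : ℤ) < 3 ^ s := by exact_mod_cast hlt _ a1
      have c2 : ((w ν' / 3 ^ T : ℕ) : ℤ) < 3 ^ s := by exact_mod_cast hlt _ b1
      have n2 := hS (((w ν' / 3 ^ T : ℕ) : ℤ) - ((w ν / 3 ^ T : ℕ) : ℤ))
        (by rw [abs_lt]
            have := Int.natCast_nonneg (w ν / 3 ^ T)
            have := Int.natCast_nonneg (w ν' / 3 ^ T)
            constructor <;> linarith) (Nat.modEq_iff_dvd.mp hc.2)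
      have e1 : (w ν : ℝ) = ν + 3 ^ T * (w ν / 3 ^ T : ℕ) := by
        have := Nat.mod_add_div (w ν) (3 ^ T)
        rw [a2] at this
        exact_mod_cast this.symm
      have e2 : (w ν' : ℝ) = ν' + 3 ^ T * (w ν' / 3 ^ T : ℕ) := by
        have := Nat.mod_add_div (w ν') (3 ^ T)
        rw [b2] at this
        exact_mod_cast this.symm
      have n3 := n1.sub n2
      rw [e1, e2, Int.cast_sub, Int.cast_natCast, Int.cast_natCast] at n3
      convert n3 using 1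
      ring)
    sep
  have h3 : ((F b l (T + s)).card : ℝ) ≤ 2 ^ s * Z.card := by exact_mod_cast h1
  have h4 : (((A ×ˢ range S).card : ℕ) : ℝ) ≤ 2 ^ (j + 1) * S := by
    rw [card_product, card_range]
    exact_mod_cast Nat.mul_le_mul_right S hAc
  calc _ ≤ ((2 : ℝ) ^ s * Z.card) ^ 2 := pow_le_pow_left₀ (Nat.cast_nonneg _) h3 2
    _ = 4 ^ s * (Z.card : ℝ) ^ 2 := by
        rw [mul_pow, ← pow_mul, mul_comm s 2, pow_mul]; norm_num
    _ ≤ 4 ^ s * (16 * 4 ^ T * (2 ^ (j + 1) * S) * (27 / 64) ^ J) := by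
        refine mul_le_mul_of_nonneg_left (h2.trans ?_) (by positivity)
        gcongr
    _ = _ := by rw [pow_add 4 T s]; ring

lemma den_dvd (ρ : ℚ) {N : ℕ} {m : ℤ} (h : (N : ℚ) * ρ = m) : ρ.den ∣ N := by
  have h1 : (N : ℤ) * ρ.num = m * ρ.den := by
    have : (N : ℚ) * ρ.num = m * ρ.den := by
      rw [← h, mul_assoc, Rat.mul_den_eq_num]
    exact_mod_cast this
  have h2 : ρ.den ∣ N * ρ.num.natAbs := by
    have := congrArg Int.natAbs h1
    simp only [Int.natAbs_mul, Int.natAbs_natCast] at this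
    exact ⟨_, this.trans (mul_comm _ _)⟩
  exact ρ.reduced.symm.dvd_of_dvd_mul_right h2

lemma exists_int (ρ : ℚ) {N : ℕ} (h : ρ.den ∣ N) : ∃ n : ℤ, (N : ℝ) * ρ = n := by
  obtain ⟨c, rfl⟩ := h
  refine ⟨c * ρ.num, ?_⟩
  have : ((ρ.den * c : ℕ) : ℚ) * ρ = ((c * ρ.num : ℤ) : ℚ) := by
    push_cast
    rw [← Rat.mul_den_eq_num]; ring
  exact_mod_cast this

lemma H_dvd {κ d G r : ℕ} (hd : ¬ 3 ∣ d) (h : 3 ^ κ * d ∣ r * 3 ^ G) : d * 3 ^ (κ - G) ∣ r := by
  have hc : ∀ n, Nat.Coprime d (3 ^ n) := fun n => Nat.Coprime.pow_right _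
    ((Nat.Prime.coprime_iff_not_dvd Nat.prime_three).mpr hd).symm
  refine (hc _).mul_dvd_of_dvd_of_dvd ((hc G).dvd_of_dvd_mul_right ((dvd_mul_left _ _).trans h)) ?_
  rcases le_total κ G with h1 | h1
  · rw [Nat.sub_eq_zero_of_le h1, pow_zero]; exact one_dvd _
  · obtain ⟨e, rfl⟩ := Nat.exists_eq_add_of_le h1
    rw [Nat.add_sub_cancel_left]
    have h2 := (dvd_mul_right _ _).trans h
    rw [pow_add, mul_comm] at h2
    exact Nat.dvd_of_mul_dvd_mul_right (by positivity) h2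

lemma dvd_H (κ d G : ℕ) : 3 ^ κ * d ∣ d * 3 ^ (κ - G) * 3 ^ G := by
  rw [mul_assoc, ← pow_add, mul_comm]
  exact Nat.mul_dvd_mul_left _ (pow_dvd_pow 3 (by omega))

lemma lemV (hb : b < 3) (hl : ¬ 3 ∣ l) (ρ : ℚ) (θ : ℝ) (hθ : |beta - ρ| ≤ θ) {κ d : ℕ}
    (hden : ρ.den = 3 ^ κ * d) (hd : ¬ 3 ∣ d) (k K J s h S : ℕ) (hk : k = K + (J + J) + s)
    (hK : J + J ≤ K + 1) (hS0 : 0 < S) (hS : s = 0 ∨ ρ.den ∣ S * 3 ^ (K + (J + J)))
    (h1 : 3 ^ J ≤ d * 3 ^ (κ - (K + J))) (h2 : d * 3 ^ (κ - (K + J)) ≤ 3 ^ h)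
    (h3 : 6 * ((d * 3 ^ (κ - (K + J)) : ℕ) : ℝ) * (3 ^ k * θ) ≤ 1) (h4 : h + 2 ≤ k) :
    ((F b l k).card : ℝ) ^ 2 ≤ 16 * 4 ^ k * (2 ^ (h + 3) * S) * (27 / 64) ^ J := by
  have hθ0 : 0 ≤ θ := (abs_nonneg _).trans hθ
  set H := d * 3 ^ (κ - (K + J)) with hH
  have hH0 : 0 < H := lt_of_lt_of_le (by positivity) h1
  have hH0' : (0 : ℝ) < H := by exact_mod_cast hH0
  have := lemU hb hl K J s (h + 2) S (3 ^ k * θ) (by positivity) hK (hk ▸ h4) hS0 ?_ ?_
  · rw [← hk] at this; exact this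
  · intro i hi hdv
    rcases hS with rfl | hS
    · have : i = 0 := by rw [pow_zero, abs_lt] at hi; omega
      exact ⟨0, by rw [this]; simpa using by positivity⟩
    · obtain ⟨c, rfl⟩ := hdv
      obtain ⟨n, hn⟩ := exists_int ρ hS
      refine ⟨c * n, ?_⟩
      push_cast at hn ⊢
      have e : (S : ℝ) * c * 3 ^ (K + (J + J)) * beta - c * n =
          (S * c) * 3 ^ (K + (J + J)) * (beta - ρ) := by rw [← hn]; ring
      have hi' : |(S : ℝ) * c| ≤ 3 ^ s := by exact_mod_cast hi.le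
      rw [e, abs_mul, abs_mul, abs_of_pos (show (0 : ℝ) < 3 ^ (K + (J + J)) by positivity), hk,
        pow_add 3 _ s, mul_comm _ ((3 : ℝ) ^ s)]
      gcongr
  · rintro r hr0 hr1 ⟨m, hm⟩
    obtain ⟨n, hn⟩ := exists_int ρ (N := H * 3 ^ (K + J)) (hden ▸ dvd_H κ d (K + J))
    push_cast at hn
    have a1 : (r : ℝ) * 3 ^ (K + J) ≤ 3 ^ k := by
      have : r * 3 ^ (K + J) ≤ 3 ^ k := by
        calc _ ≤ 3 ^ J * 3 ^ (K + J) := Nat.mul_le_mul_right _ hr1.le
          _ ≤ _ := by rw [← pow_add]; exact Nat.pow_le_pow_right (by norm_num) (by omega)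
      exact_mod_cast this
    have a2 : |(r : ℝ) * 3 ^ (K + J) * ρ - m| ≤ 2 * (1 / 3 ^ (h + 2) + 3 ^ k * θ) + 3 ^ k * θ := by
      have e : (r : ℝ) * 3 ^ (K + J) * ρ - m =
          (r * 3 ^ J * (3 ^ K * beta) - m) - r * 3 ^ (K + J) * (beta - ρ) := by ring
      rw [e]
      refine (abs_sub _ _).trans (add_le_add hm ?_)
      rw [abs_mul, abs_of_nonneg (show (0 : ℝ) ≤ r * 3 ^ (K + J) by positivity)]
      gcongr
    have a3 : (H : ℝ) * (1 / 3 ^ (h + 2)) ≤ 1 / 9 := by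
      have : (H : ℝ) ≤ 3 ^ h := by exact_mod_cast h2
      rw [mul_one_div, div_le_iff₀ (by positivity), pow_add]
      linarith
    have a4 : |((r * n - m * H : ℤ) : ℝ)| < 1 := by
      have e : ((r * n - m * H : ℤ) : ℝ) = H * ((r : ℝ) * 3 ^ (K + J) * ρ - m) := by
        push_cast; rw [← hn]; ring
      rw [e, abs_mul, abs_of_pos hH0']
      nlinarith [mul_le_mul_of_nonneg_left a2 hH0'.le]
    have a5 : (r * n - m * H : ℤ) = 0 := by
      have : |(r * n - m * H : ℤ)| < 1 := by exact_mod_cast a4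
      rw [abs_lt] at this; omega
    have a6 : ((r * 3 ^ (K + J) : ℕ) : ℚ) * ρ = m := by
      have : (((r * 3 ^ (K + J) : ℕ) : ℝ)) * ρ = m := by
        have a7 : (r : ℝ) * n - m * H = 0 := by exact_mod_cast a5
        push_cast
        apply mul_left_cancel₀ hH0'.ne'
        rw [← hn] at a7
        linarith
      exact_mod_cast this
    have a8 := Nat.le_of_dvd hr0 (H_dvd hd (hden ▸ den_dvd ρ a6))
    omega

end Pool.Agent.H813Z.Tern
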