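import Mathlib
import Pool.Agent.H813Z.TernD
import Pool.Agent.H319R2.Measure

set_option autoImplicit false

/-! The case analysis and the final bound. -/

namespace Pool.Agent.H813Z.Tern

open Finset

variable {b l : ℕ}

lemma beta_abs : |beta| ≤ 2 := by
  have h3 := log3_ge
  unfold beta
  rw [abs_of_nonneg (div_nonneg (Real.log_nonneg (by norm_num)) (by linarith)),
    div_le_iff₀ (by linarith)]
  have : Real.log 4 ≤ Real.log (3 ^ 2) := Real.log_le_log (by norm_num) (by norm_num)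
  rw [Real.log_pow] at this
  exact_mod_cast this

lemma den_large : ∃ k0 : ℕ, ∀ (ρ : ℚ) (k : ℕ), |beta - ρ| ≤ 1 / 3 ^ k → 3 ^ k < 3 ^ k0 * ρ.den ^ 14 := by
  obtain ⟨c, hc, h⟩ := Pool.Agent.H319R2.measure
  obtain ⟨k0, hk0⟩ := pow_unbounded_of_one_lt (2 * 5 ^ 13 / c) (show (1 : ℝ) < 3 by norm_num)
  refine ⟨k0, fun ρ k hρ => ?_⟩
  have hD : (0 : ℝ) < ρ.den := by exact_mod_cast ρ.den_pos
  have h1 := h (2 * ρ.den) (-ρ.num) (Or.inl (by have := ρ.den_pos; positivity))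
  have h3 := log3_ge
  have h3' : Real.log 3 ≤ 2 := by
    have := Real.log_le_sub_one_of_pos (show (0 : ℝ) < 3 by norm_num); linarith
  have hnum : (ρ.num : ℝ) = ρ * ρ.den := by exact_mod_cast (Rat.mul_den_eq_num ρ).symm
  have e4 : Real.log 4 = 2 * Real.log 2 := by
    rw [show (4 : ℝ) = 2 ^ 2 by norm_num, Real.log_pow]; norm_num
  have hk1 : (1 : ℝ) / 3 ^ k ≤ 1 := by
    rw [div_le_one (by positivity)]; exact one_le_pow₀ (by norm_num)
  have hρ3 : |(ρ : ℝ)| ≤ 3 := by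
    have := abs_sub beta (beta - ρ)
    rw [sub_sub_cancel] at this
    linarith [beta_abs]
  have e : ((2 * ρ.den : ℤ) : ℝ) * Real.log 2 + ((-ρ.num : ℤ) : ℝ) * Real.log 3 =
      ρ.den * Real.log 3 * (beta - ρ) := by
    push_cast
    rw [hnum]; unfold beta; rw [e4]; field_simp; ring
  have a1 : ((|(2 * ρ.den : ℤ)| + |(-ρ.num : ℤ)| : ℤ) : ℝ) ≤ 5 * ρ.den := by
    push_cast
    rw [abs_neg, hnum, abs_mul, abs_mul, abs_of_pos hD]
    norm_num
    nlinarith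
  have a2 : |(ρ.den : ℝ) * Real.log 3 * (beta - ρ)| ≤ ρ.den * 2 * (1 / 3 ^ k) := by
    rw [abs_mul, abs_mul, abs_of_pos hD, abs_of_pos (show 0 < Real.log 3 by linarith)]
    gcongr
  rw [e] at h1
  have a3 : c ≤ (5 * ρ.den) ^ 13 * (ρ.den * 2 * (1 / 3 ^ k)) :=
    h1.trans (mul_le_mul (pow_le_pow_left₀ (by positivity) a1 13) a2 (abs_nonneg _) (by positivity))
  have a4 : c * 3 ^ k ≤ 2 * 5 ^ 13 * ρ.den ^ 14 := by
    have := mul_le_mul_of_nonneg_right a3 (show (0 : ℝ) ≤ 3 ^ k by positivity)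
    refine this.trans (le_of_eq ?_)
    field_simp
  rw [div_lt_iff₀ hc] at hk0
  have a5 : c * 3 ^ k < c * (3 ^ k0 * ρ.den ^ 14) := by
    have : (0 : ℝ) < ρ.den ^ 14 := by positivity
    nlinarith
  exact_mod_cast lt_of_mul_lt_mul_left a5 hc.le

lemma main_sq : ∃ k0 : ℕ, ∀ b l : ℕ, b < 3 → ¬ 3 ∣ l → ∀ k z : ℕ, 700 * z + 4 + k0 ≤ k →
    ((F b l k).card : ℝ) ^ 2 ≤ 512 * 4 ^ k * (27 / 32) ^ z := by
  obtain ⟨k0, hk0⟩ := den_large
  refine ⟨k0, fun b l hb hl k z hk => ?_⟩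
  obtain ⟨G, hG⟩ : ∃ G, k = G + 50 * z := ⟨k - 50 * z, by omega⟩
  obtain ⟨q, hq1, hq2⟩ := Real.exists_rat_abs_sub_le_and_den_le (3 ^ G * beta)
    (n := 3 ^ (62 * z + 2)) (by positivity)
  set ρ : ℚ := q / 3 ^ G with hρ
  have hr : (1 : ℝ) ≤ q.den := by exact_mod_cast q.den_pos
  set θ : ℝ := 1 / (9 * 3 ^ (12 * z) * q.den * 3 ^ k) with hθ
  have hβ : |beta - ρ| ≤ θ := by
    have e : beta - ρ = (3 ^ G * beta - q) / 3 ^ G := by
      rw [hρ]; push_cast; field_simp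
    rw [e, abs_div, abs_of_pos (show (0 : ℝ) < 3 ^ G by positivity), div_le_iff₀ (by positivity)]
    refine hq1.trans ?_
    have e2 : θ * 3 ^ G = 1 / (3 ^ (62 * z + 2) * q.den) := by
      rw [hθ, hG, show 62 * z + 2 = 12 * z + 50 * z + 2 by ring]
      simp only [pow_add]
      field_simp
      norm_num
    rw [e2]
    refine one_div_le_one_div_of_le (by positivity) ?_
    push_cast
    nlinarith
  have hθk : 3 ^ k * θ = 1 / (9 * 3 ^ (12 * z) * q.den) := by rw [hθ]; field_simp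
  obtain ⟨κ, d, hd, hden⟩ := Nat.exists_eq_pow_mul_and_not_dvd ρ.den_nz 3 (by norm_num)
  have hd0 : 0 < d := Nat.pos_of_ne_zero (by rintro rfl; simp at hd)
  have hH0 : d * 3 ^ (κ - G) ≤ q.den := by
    refine Nat.le_of_dvd q.den_pos (H_dvd hd (hden ▸ den_dvd ρ (m := q.num) ?_))
    rw [hρ]; push_cast
    rw [← Rat.mul_den_eq_num]; field_simp
  have hdq : d ≤ q.den := (Nat.le_mul_of_pos_right _ (by positivity)).trans hH0
  have h3 : ∀ H : ℕ, H ≤ 3 ^ (12 * z) * q.den → 6 * (H : ℝ) * (3 ^ k * θ) ≤ 1 := by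
    intro H hH
    have : (H : ℝ) ≤ 3 ^ (12 * z) * q.den := by exact_mod_cast hH
    have hp : (0 : ℝ) < 3 ^ (12 * z) * q.den := by positivity
    rw [hθk, mul_one_div, div_le_one (by positivity)]
    linarith
  have h12 : q.den ≤ 3 ^ (12 * z) * q.den := Nat.le_mul_of_pos_left _ (by positivity)
  have h4k : (0 : ℝ) < 4 ^ k := by positivity
  by_cases c1 : 3 ^ (50 * z) ≤ d * 3 ^ (κ - G)
  · have eG : G - 50 * z + 50 * z = G := by omega
    have := lemV hb hl ρ θ hβ hden hd k (G - 50 * z) (50 * z) 0 (62 * z + 2) 1 (by omega) (by omega)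
      one_pos (Or.inl rfl) (by rwa [eG]) (by rw [eG]; exact hH0.trans hq2)
      (by rw [eG]; exact h3 _ (hH0.trans h12)) (by omega)
    refine this.trans ?_
    have e : (2 : ℝ) ^ (62 * z + 2 + 3) * (27 / 64) ^ (50 * z) =
        32 * (2 ^ 62 * (27 / 64) ^ 50) ^ z := by
      rw [mul_pow, ← pow_mul, ← pow_mul]; ring
    have : ((2 : ℝ) ^ 62 * (27 / 64) ^ 50) ^ z ≤ (27 / 32) ^ z :=
      pow_le_pow_left₀ (by positivity) (by norm_num) z
    calc _ = 16 * 4 ^ k * ((2 : ℝ) ^ (62 * z + 2 + 3) * (27 / 64) ^ (50 * z)) := by push_cast; ring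
      _ ≤ _ := by rw [e]; nlinarith
  have hκ : ∀ J, 3 ^ J ≤ d → J < 50 * z ∧ κ + J ≤ k := by
    intro J hJ
    have : 3 ^ (J + (κ - G)) < 3 ^ (50 * z) := by
      rw [pow_add]; exact lt_of_le_of_lt (Nat.mul_le_mul_right _ hJ) (not_le.mp c1)
    have := (Nat.pow_lt_pow_iff_right (by norm_num)).mp this
    omega
  by_cases c2 : 3 ^ z ≤ d
  · set J := Nat.log 3 d with hJ
    have j1 : 3 ^ J ≤ d := Nat.pow_log_le_self 3 hd0.ne'
    have j2 : d < 3 ^ (J + 1) := Nat.lt_pow_succ_log_self (by norm_num) d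
    have j3 : z ≤ J := (Nat.le_log_iff_pow_le (by norm_num) hd0.ne').mpr c2
    obtain ⟨j4, j5⟩ := hκ J j1
    have eG : d * 3 ^ (κ - (k - 2 * J + J)) = d := by
      rw [show κ - (k - 2 * J + J) = 0 by omega, pow_zero, mul_one]
    have := lemV hb hl ρ θ hβ hden hd k (k - 2 * J) J 0 (J + 1) 1 (by omega) (by omega)
      one_pos (Or.inl rfl) (by rwa [eG]) (by rw [eG]; exact j2.le)
      (by rw [eG]; exact h3 _ (hdq.trans h12)) (by omega)
    refine this.trans ?_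
    have e : (2 : ℝ) ^ (J + 1 + 3) * (27 / 64) ^ J = 16 * (27 / 32) ^ J := by
      rw [show (27 / 32 : ℝ) = 2 * (27 / 64) by norm_num, mul_pow]; ring
    have : (27 / 32 : ℝ) ^ J ≤ (27 / 32) ^ z := pow_le_pow_of_le_one (by norm_num) (by norm_num) j3
    have h0 : (0 : ℝ) ≤ (27 / 32) ^ z := by positivity
    calc _ = 16 * 4 ^ k * ((2 : ℝ) ^ (J + 1 + 3) * (27 / 64) ^ J) := by push_cast; ring
      _ ≤ _ := by rw [e]; nlinarith
  · have c3 : d ≤ 3 ^ z := (not_le.mp c2).le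
    have j5 := (hκ 0 hd0).2
    have hκ48 : 48 * z ≤ κ := by
      by_contra hcon
      have hθ1 : θ ≤ 1 / 3 ^ k := by
        refine one_div_le_one_div_of_le (by positivity) (le_mul_of_one_le_left (by positivity) ?_)
        have : (1 : ℝ) ≤ 3 ^ (12 * z) := one_le_pow₀ (by norm_num)
        nlinarith
      have a1 := hk0 ρ k (hβ.trans hθ1)
      have a2 : ρ.den ≤ 3 ^ (49 * z) := by
        rw [hden, show 49 * z = 48 * z + z by ring, pow_add]
        exact Nat.mul_le_mul (Nat.pow_le_pow_right (by norm_num) (by omega)) c3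
      have a3 : 3 ^ k < 3 ^ (k0 + 49 * z * 14) := by
        rw [pow_add, pow_mul]
        exact a1.trans_le (Nat.mul_le_mul_left _ (Nat.pow_le_pow_left a2 14))
      have := (Nat.pow_lt_pow_iff_right (by norm_num)).mp a3
      omega
    have eG : κ - (κ - 24 * z + 12 * z) = 12 * z := by omega
    have := lemV hb hl ρ θ hβ hden hd k (κ - 24 * z) (12 * z) (k - κ) (z + 12 * z) d (by omega)
      (by omega) hd0 (Or.inr (by
        rw [hden, show κ - 24 * z + (12 * z + 12 * z) = κ by omega, mul_comm]))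
      (by rw [eG]; exact Nat.le_mul_of_pos_left _ hd0)
      (by rw [eG, pow_add]; exact Nat.mul_le_mul_right _ c3)
      (by rw [eG]; exact h3 _ (by rw [mul_comm]; exact Nat.mul_le_mul_left _ hdq)) (by omega)
    refine this.trans ?_
    have c4 : (d : ℝ) ≤ 3 ^ z := by exact_mod_cast c3
    have e : (2 : ℝ) ^ (z + 12 * z + 3) * 3 ^ z * (27 / 64) ^ (12 * z) =
        8 * (2 ^ 13 * 3 * (27 / 64) ^ 12) ^ z := by
      rw [mul_pow, mul_pow, ← pow_mul, ← pow_mul]; ring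
    have : ((2 : ℝ) ^ 13 * 3 * (27 / 64) ^ 12) ^ z ≤ (27 / 32) ^ z :=
      pow_le_pow_left₀ (by positivity) (by norm_num) z
    have h0 : (0 : ℝ) ≤ (27 / 32) ^ z := by positivity
    calc _ ≤ 16 * 4 ^ k * ((2 : ℝ) ^ (z + 12 * z + 3) * 3 ^ z) * (27 / 64) ^ (12 * z) := by gcongr
      _ = 16 * 4 ^ k * ((2 : ℝ) ^ (z + 12 * z + 3) * 3 ^ z * (27 / 64) ^ (12 * z)) := by ring
      _ ≤ _ := by rw [e]; nlinarith

end Pool.Agent.H813Z.Tern
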