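import Mathlib
import Pool.Agent.H813Z.TernE

set_option autoImplicit false

/-! The power saving. -/

namespace Pool.Agent.H813Z.Tern

open Finset

noncomputable def tau : ℝ := (3 : ℝ) ^ (-(1 / 10000 : ℝ))

lemma tau_pos : 0 < tau := Real.rpow_pos_of_pos (by norm_num) _

lemma tau_le : tau ≤ 1 := Real.rpow_le_one_of_one_le_of_nonpos (by norm_num) (by norm_num)

lemma tau_pow : 23 / 25 ≤ tau ^ 700 := by
  have h : (tau ^ 700) ^ 100 = 1 / 3 ^ 7 := by
    rw [← pow_mul, tau, ← Real.rpow_natCast, ← Real.rpow_mul (by norm_num),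
      show (-(1 / 10000 : ℝ)) * ((700 * 100 : ℕ) : ℝ) = -((7 : ℕ) : ℝ) by norm_num,
      Real.rpow_neg (by norm_num), Real.rpow_natCast, one_div]
  refine (pow_le_pow_iff_left₀ (by norm_num) (pow_pos tau_pos _).le (by norm_num : 100 ≠ 0)).mp ?_
  rw [h]; norm_num

lemma tau_ge : 3 / 4 ≤ tau := by
  have := pow_le_pow_of_le_one tau_pos.le tau_le (show 1 ≤ 700 by norm_num)
  rw [pow_one] at this
  linarith [tau_pow]

lemma F_bound : ∃ C : ℝ, 0 ≤ C ∧ ∀ b l : ℕ, b < 3 → ¬ 3 ∣ l → ∀ k : ℕ,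
    ((F b l k).card : ℝ) + (k + 1) ≤ C * (2 * tau) ^ k := by
  obtain ⟨k0, hk0⟩ := main_sq
  have ht := tau_pos
  obtain ⟨m, hm⟩ : ∃ m, m = k0 + 4 + 699 := ⟨_, rfl⟩
  refine ⟨23 / tau ^ m + 2, by positivity, fun b l hb hl k => ?_⟩
  have hl0 : l ≠ 0 := by rintro rfl; simp at hl
  have h1 : (k + 1 : ℝ) ≤ 2 * (2 * tau) ^ k := by
    have a1 := one_add_mul_le_pow (show (-2 : ℝ) ≤ 1 / 2 by norm_num) k
    have a2 : (1 + 1 / 2 : ℝ) ^ k ≤ (2 * tau) ^ k :=
      pow_le_pow_left₀ (by norm_num) (by linarith [tau_ge]) k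
    linarith
  have h2 : ((F b l k).card : ℝ) * tau ^ m ≤ 23 * (2 * tau) ^ k := by
    rw [mul_pow]
    have h2k : (0 : ℝ) < 2 ^ k := by positivity
    by_cases hk : k0 + 4 ≤ k
    · set z := (k - (k0 + 4)) / 700 with hz
      have a1 := hk0 b l hb hl k z (by omega)
      have a2 : ((F b l k).card : ℝ) ≤ 23 * 2 ^ k * (23 / 25) ^ z := by
        refine (pow_le_pow_iff_left₀ (Nat.cast_nonneg _) (by positivity) two_ne_zero).mp
          (a1.trans ?_)
        have e1 : ((2 : ℝ) ^ k) ^ 2 = 4 ^ k := by rw [← pow_mul, mul_comm, pow_mul]; norm_num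
        have e2 : (27 / 32 : ℝ) ^ z ≤ ((23 / 25) ^ z) ^ 2 := by
          rw [← pow_mul, mul_comm, pow_mul]
          exact pow_le_pow_left₀ (by norm_num) (by norm_num) z
        rw [mul_pow, mul_pow, e1]
        exact mul_le_mul (mul_le_mul_of_nonneg_right (by norm_num) (by positivity)) e2
          (by positivity) (by positivity)
      have a3 : (23 / 25 : ℝ) ^ z * tau ^ m ≤ tau ^ k := by
        calc _ ≤ (tau ^ 700) ^ z * tau ^ m :=
              mul_le_mul_of_nonneg_right (pow_le_pow_left₀ (by norm_num) tau_pow z) (by positivity)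
          _ = tau ^ (700 * z + m) := by rw [← pow_mul, ← pow_add]
          _ ≤ _ := pow_le_pow_of_le_one ht.le tau_le (by omega)
      calc _ ≤ 23 * 2 ^ k * (23 / 25) ^ z * tau ^ m := by gcongr
        _ = 23 * (2 ^ k * ((23 / 25) ^ z * tau ^ m)) := by ring
        _ ≤ _ := by gcongr
    · have a1 : ((F b l k).card : ℝ) ≤ 2 ^ (k + 1) := by
        exact_mod_cast card_le_of_L hb hl k _ fun ν hν => ⟨(mem_F.mp hν).1, F_L hl0 hν⟩
      have a3 : tau ^ m ≤ tau ^ k := pow_le_pow_of_le_one ht.le tau_le (by omega)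
      have a4 : 0 < tau ^ k := by positivity
      calc _ ≤ 2 ^ (k + 1) * tau ^ k := by gcongr
        _ = 2 * (2 ^ k * tau ^ k) := by ring
        _ ≤ _ := mul_le_mul_of_nonneg_right (by norm_num) (mul_pos h2k a4).le
  have h3 : ((F b l k).card : ℝ) ≤ 23 / tau ^ m * (2 * tau) ^ k := by
    rw [div_mul_eq_mul_div, le_div_iff₀ (by positivity)]; exact h2
  linarith

lemma om_of_digits {b y : ℕ} (h : b ∉ Nat.digits 3 y) : Om b y := by
  intro i hi e
  apply h
  have hy0 : y ≠ 0 := by have : 0 < 3 ^ i := by positivity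
                         omega
  have hlen : i < (Nat.digits 3 y).length := by
    rw [Nat.length_digits 3 y (by norm_num) hy0]
    exact Nat.lt_succ_of_le ((Nat.le_log_iff_pow_le (by norm_num) hy0).mpr hi)
  have := Nat.getD_digits y i (b := 3) (by norm_num)
  rw [e, List.getD_eq_getElem _ _ hlen] at this
  exact this ▸ List.getElem_mem hlen

lemma om_strip {b y : ℕ} (a : ℕ) (h : Om b (3 ^ a * y)) : Om b y := by
  intro i hi
  have := h (a + i) (by rw [pow_add]; exact Nat.mul_le_mul_left _ hi)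
  rwa [pow_add, Nat.mul_div_mul_left _ _ (by positivity)] at this

theorem power_saving : ∃ C : ℝ, ∀ b l N : ℕ, b < 3 → 0 < l → 0 < N →
    (((Icc 1 N).filter fun n => b ∉ Nat.digits 3 (l * 2 ^ n)).card : ℝ) ≤
      C * (N : ℝ) ^ (Real.logb 3 2 - 1 / 10000) := by
  obtain ⟨C, hC0, hC⟩ := F_bound
  refine ⟨6 * C, fun b l N hb hl hN => ?_⟩
  obtain ⟨a, l', hl', rfl⟩ := Nat.exists_eq_pow_mul_and_not_dvd hl.ne' 3 (by norm_num)
  set k := Nat.log 3 N + 1 with hk
  have k1 : N < 3 ^ k := Nat.lt_pow_succ_log_self (by norm_num) N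
  have k2 : 3 ^ k ≤ 3 * N := by
    rw [hk, pow_succ']; exact Nat.mul_le_mul_left _ (Nat.pow_log_le_self 3 hN.ne')
  have hsub : ((Icc 1 N).filter fun n => b ∉ Nat.digits 3 (3 ^ a * l' * 2 ^ n)) ⊆
      (F b l' k ∪ range (k + 1)).image (fun ν => 2 * ν) ∪
        (F b (2 * l') k ∪ range (k + 1)).image (fun ν => 2 * ν + 1) := by
    intro n hn
    obtain ⟨h1, h2⟩ := mem_filter.mp hn
    have h3 := (mem_Icc.mp h1).2
    rw [mul_assoc] at h2
    have h4 := om_strip a (om_of_digits h2)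
    rcases Nat.even_or_odd' n with ⟨ν, rfl | rfl⟩
    · refine mem_union_left _ (mem_image.mpr ⟨ν, ?_, rfl⟩)
      by_cases c : k + 1 ≤ ν
      · exact mem_union_left _ (mem_F.mpr ⟨by omega, c, by rwa [pow_mul] at h4⟩)
      · exact mem_union_right _ (mem_range.mpr (by omega))
    · refine mem_union_right _ (mem_image.mpr ⟨ν, ?_, rfl⟩)
      by_cases c : k + 1 ≤ ν
      · refine mem_union_left _ (mem_F.mpr ⟨by omega, c, ?_⟩)
        rwa [pow_succ, pow_mul, show l' * ((2 ^ 2) ^ ν * 2) = 2 * l' * 4 ^ ν by ring] at h4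
      · exact mem_union_right _ (mem_range.mpr (by omega))
  have h1 := (card_le_card hsub).trans ((card_union_le _ _).trans (add_le_add
    (card_image_le.trans (card_union_le _ _)) (card_image_le.trans (card_union_le _ _))))
  rw [card_range] at h1
  have h2 := hC b l' hb hl' k
  have h3 := hC b (2 * l') hb (by omega) k
  have e : 2 * tau = (3 : ℝ) ^ (Real.logb 3 2 - 1 / 10000) := by
    rw [sub_eq_add_neg, Real.rpow_add (by norm_num),
      Real.rpow_logb (by norm_num) (by norm_num) (by norm_num), tau]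
  have s0 : 0 ≤ Real.logb 3 2 - 1 / 10000 := by
    by_contra hcon
    have := Real.rpow_lt_one_of_one_lt_of_neg (show (1 : ℝ) < 3 by norm_num) (not_le.mp hcon)
    linarith [tau_ge]
  have h4 : (2 * tau) ^ k ≤ 3 * (N : ℝ) ^ (Real.logb 3 2 - 1 / 10000) := by
    have k3 : (3 : ℝ) ^ k ≤ 3 * N := by exact_mod_cast k2
    rw [e, ← Real.rpow_natCast, ← Real.rpow_mul (by norm_num), mul_comm,
      Real.rpow_mul (by norm_num), Real.rpow_natCast]
    refine (Real.rpow_le_rpow (by positivity) k3 s0).trans ?_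
    rw [Real.mul_rpow (by norm_num) (Nat.cast_nonneg _), ← e]
    exact mul_le_mul_of_nonneg_right (by linarith [tau_le]) (by positivity)
  have h5 : (((Icc 1 N).filter fun n => b ∉ Nat.digits 3 (3 ^ a * l' * 2 ^ n)).card : ℝ) ≤
      ((F b l' k).card + (k + 1)) + ((F b (2 * l') k).card + (k + 1)) := by exact_mod_cast h1
  nlinarith [mul_le_mul_of_nonneg_left h4 hC0]

end Pool.Agent.H813Z.Tern
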